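import Pool.Agent.Lib.MP_d16eef_co.Defs

namespace RunMult

open Finset

/-! kernel-friendly enumeration -/

def NotSix_cnt (M2 v p : ℕ) (n : ℕ) : ℕ :=
  Nat.rec 0 (fun i r => r + bif Nat.beq ((M2 >>> i) % p) v then 1 else 0) n

def NotSix_sel (m b M : ℕ) : ℕ := bif Nat.beq ((m >>> b) % 2) 1 then M else 0

def NotSix_expand (m : ℕ) : ℕ :=
  NotSix_sel m 0 0x1 + NotSix_sel m 1 0x100010116 + NotSix_sel m 2 0x1000201001048 +
  NotSix_sel m 3 0x10400120420 + NotSix_sel m 4 0x102000810004080 +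
  NotSix_sel m 5 0x1000040200 + NotSix_sel m 6 0x4102002400800 +
  NotSix_sel m 7 0x10024004082000 + NotSix_sel m 8 0x1208008040008000 +
  NotSix_sel m 9 0x40000200000 + NotSix_sel m 10 0x420480020800000 +
  NotSix_sel m 11 0x40200008000000 + NotSix_sel m 12 0x6880800080000000

def NotSix_all (f : ℕ → Bool) (n : ℕ) : Bool := Nat.rec true (fun i r => f i && r) n

def NotSix_span (M2 : ℕ) : Bool :=
  NotSix_all (fun i => (!(Nat.beq ((M2 >>> i) % 64) 0)) &&
    NotSix_all (fun j => !(Nat.beq ((M2 >>> i) % 64) ((M2 >>> j) % 64))) i) 63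

def NotSix_chk (m : ℕ) : Bool :=
  let M2 := NotSix_expand m * 0x8000000000000001
  (!(Nat.beq (NotSix_cnt M2 126 256 63) 1)) || (!(Nat.beq (NotSix_cnt M2 65 128 63) 1)) ||
  (!(Nat.beq (NotSix_cnt M2 62 128 63) 0)) || (!(Nat.beq (NotSix_cnt M2 30 64 63) 1)) ||
  (!(Nat.beq (NotSix_cnt M2 33 64 63) 1)) || (!(Nat.beq (NotSix_cnt M2 14 32 63) 2)) ||
  (!(Nat.beq (NotSix_cnt M2 17 32 63) 2)) || (!(Nat.beq (NotSix_cnt M2 6 16 63) 4)) ||
  (!(Nat.beq (NotSix_cnt M2 9 16 63) 4)) || (!(Nat.beq (NotSix_cnt M2 2 8 63) 8)) ||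
  (!(Nat.beq (NotSix_cnt M2 5 8 63) 8)) || NotSix_span M2

set_option maxRecDepth 100000 in
theorem NotSix_kernel :
    NotSix_all (fun b => NotSix_all (fun a => NotSix_chk (a + 128 * b)) 128) 64 = true := by
  decide +kernel

theorem NotSix_all_spec (f : ℕ → Bool) (n : ℕ) (h : NotSix_all f n = true) :
    ∀ i < n, f i = true := by
  induction n with
  | zero => intro i hi; omega
  | succ n ih =>
    have h' : (f n && NotSix_all f n) = true := h
    rw [Bool.and_eq_true] at h'
    intro i hi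
    rcases Nat.lt_succ_iff_lt_or_eq.1 hi with h1 | h1
    · exact ih h'.2 i h1
    · rw [h1]; exact h'.1

theorem NotSix_chk_all (m : ℕ) (hm : m < 8192) : NotSix_chk m = true := by
  have h1 := NotSix_all_spec _ _ NotSix_kernel (m / 128) (by omega)
  have h2 := NotSix_all_spec _ _ h1 (m % 128) (by omega)
  have h3 : m % 128 + 128 * (m / 128) = m := Nat.mod_add_div m 128
  simp only [h3] at h2
  exact h2

theorem NotSix_cnt_eq (M2 v p n : ℕ) :
    NotSix_cnt M2 v p n = ∑ i ∈ range n, if (M2 / 2 ^ i) % p = v then 1 else 0 := by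
  induction n with
  | zero => rfl
  | succ n ih =>
    rw [Finset.sum_range_succ, ← ih]
    have : NotSix_cnt M2 v p (n + 1) =
      NotSix_cnt M2 v p n + bif Nat.beq ((M2 >>> n) % p) v then 1 else 0 := rfl
    rw [this, Nat.shiftRight_eq_div_pow]
    congr 1
    by_cases h : M2 / 2 ^ n % p = v
    · rw [if_pos h, h, Nat.beq_refl]; rfl
    · rw [if_neg h]
      have : Nat.beq (M2 / 2 ^ n % p) v = false := by
        rw [← Bool.not_eq_true, Nat.beq_eq]; exact h
      rw [this]; rfl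

/-- windows of a number given by its binary digits -/
theorem NotSix_window (x : ℕ → ℕ) (hx : ∀ i, x i ≤ 1) (i w r : ℕ) :
    (∑ j ∈ range (i + w + r), x j * 2 ^ j) / 2 ^ i % 2 ^ w =
      ∑ j ∈ range w, x (i + j) * 2 ^ j := by
  have hlt : ∀ (y : ℕ → ℕ), (∀ i, y i ≤ 1) → ∀ n, ∑ j ∈ range n, y j * 2 ^ j < 2 ^ n := by
    intro y hy n
    induction n with
    | zero => simp
    | succ n ih =>
      rw [Finset.sum_range_succ, pow_succ]
      have := hy n
      nlinarith [Nat.mul_le_mul_right (2 ^ n) this]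
  have h1 : ∑ j ∈ range (i + w + r), x j * 2 ^ j =
      ∑ j ∈ range i, x j * 2 ^ j + 2 ^ i * (∑ j ∈ range w, x (i + j) * 2 ^ j +
        2 ^ w * ∑ j ∈ range r, x (i + w + j) * 2 ^ j) := by
    rw [Finset.sum_range_add, Finset.sum_range_add, mul_add, Finset.mul_sum, Finset.mul_sum,
      Finset.mul_sum, add_assoc]
    congr 1
    congr 1
    · refine Finset.sum_congr rfl fun j _ => ?_
      rw [pow_add]; ring
    · refine Finset.sum_congr rfl fun j _ => ?_
      rw [pow_add, pow_add]; ring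
  rw [h1, Nat.add_mul_div_left _ _ (by positivity), Nat.div_eq_of_lt (hlt x hx i), zero_add,
    Nat.add_mul_mod_self_left, Nat.mod_eq_of_lt (hlt _ (fun j => hx (i + j)) w)]

theorem NotSix_bits (x y : ℕ → ℕ) (hx : ∀ i, x i ≤ 1) (hy : ∀ i, y i ≤ 1) (n : ℕ) :
    ∑ j ∈ range n, x j * 2 ^ j = ∑ j ∈ range n, y j * 2 ^ j ↔ ∀ j < n, x j = y j := by
  constructor
  · intro h j hj
    have h1 := NotSix_window x hx j 1 (n - (j + 1))
    have h2 := NotSix_window y hy j 1 (n - (j + 1))
    rw [show j + 1 + (n - (j + 1)) = n by omega] at h1 h2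
    rw [h, h2] at h1
    simpa using h1.symm
  · intro h
    exact Finset.sum_congr rfl fun j hj => by rw [h j (Finset.mem_range.1 hj)]

def NotSix_x (s : ZMod 63 → ZMod 2) (i : ℕ) : ℕ := (s (i : ZMod 63)).val

theorem NotSix_x_le (s : ZMod 63 → ZMod 2) (i : ℕ) : NotSix_x s i ≤ 1 :=
  Nat.lt_succ_iff.1 (ZMod.val_lt (s (i : ZMod 63)))

def NotSix_M (s : ZMod 63 → ZMod 2) : ℕ := ∑ j ∈ range 63, NotSix_x s j * 2 ^ j

theorem NotSix_M2 (s : ZMod 63 → ZMod 2) :
    NotSix_M s * 0x8000000000000001 = ∑ j ∈ range 126, NotSix_x s j * 2 ^ j := by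
  rw [show 126 = 63 + 63 by norm_num, Finset.sum_range_add]
  have h1 : ∀ j, NotSix_x s (63 + j) = NotSix_x s j := by
    intro j
    unfold NotSix_x
    rw [Nat.cast_add]
    have : ((63 : ℕ) : ZMod 63) = 0 := by decide
    rw [this, zero_add]
  have h2 : ∑ j ∈ range 63, NotSix_x s (63 + j) * 2 ^ (63 + j) = NotSix_M s * 2 ^ 63 := by
    unfold NotSix_M
    rw [Finset.sum_mul]
    refine Finset.sum_congr rfl fun j _ => ?_
    rw [h1, pow_add]; ring
  rw [h2]
  unfold NotSix_M
  ring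

theorem NotSix_win (s : ZMod 63 → ZMod 2) (i w : ℕ) (hi : i < 63) (hw : w ≤ 63) :
    (NotSix_M s * 0x8000000000000001) / 2 ^ i % 2 ^ w =
      ∑ j ∈ range w, NotSix_x s (i + j) * 2 ^ j := by
  rw [NotSix_M2]
  have := NotSix_window (NotSix_x s) (NotSix_x_le s) i w (126 - (i + w))
  rwa [show i + w + (126 - (i + w)) = 126 by omega] at this

def NotSix_pat (c k j : ℕ) : ℕ := if j = 0 ∨ j = k + 1 then 1 - c else c

theorem NotSix_run (s : ZMod 63 → ZMod 2) (c : ZMod 2) (k : ℕ) (hk : k ≤ 6) :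
    runCount s c k = NotSix_cnt (NotSix_M s * 0x8000000000000001)
      (∑ j ∈ range (k + 2), NotSix_pat c.val k j * 2 ^ j) (2 ^ (k + 2)) 63 := by
  classical
  rw [NotSix_cnt_eq]
  have hc : c.val ≤ 1 := Nat.lt_succ_iff.1 (ZMod.val_lt c)
  have hpat : ∀ j, NotSix_pat c.val k j ≤ 1 := by
    intro j; unfold NotSix_pat; split_ifs <;> omega
  have hval : ∀ z : ZMod 2, z = c ↔ z.val = c.val := fun z =>
    ⟨fun h => by rw [h], fun h => ZMod.val_injective 2 h⟩
  have hval2' : ∀ c z : ZMod 2, z ≠ c ↔ z.val = 1 - c.val := by decide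
  have hval2 := hval2' c
  have hkey : ∀ i < 63, ((NotSix_M s * 0x8000000000000001) / 2 ^ i % 2 ^ (k + 2) =
      ∑ j ∈ range (k + 2), NotSix_pat c.val k j * 2 ^ j) ↔
      (s (((i : ℕ) : ZMod 63) + 1 - 1) ≠ c ∧
        (∀ j < k, s (((i : ℕ) : ZMod 63) + 1 + (j : ZMod 63)) = c) ∧
        s (((i : ℕ) : ZMod 63) + 1 + (k : ZMod 63)) ≠ c) := by
    intro i hi
    rw [NotSix_win s i (k + 2) hi (by omega),
      NotSix_bits (fun j => NotSix_x s (i + j)) (NotSix_pat c.val k)
        (fun j => NotSix_x_le s (i + j)) hpat]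
    unfold NotSix_x NotSix_pat
    constructor
    · intro h
      refine ⟨?_, ?_, ?_⟩
      · have := h 0 (by omega)
        rw [hval2]
        simpa using this
      · intro j hj
        have := h (j + 1) (by omega)
        rw [if_neg (by omega)] at this
        rw [hval, ← this]
        push_cast
        ring_nf
      · have := h (k + 1) (by omega)
        rw [if_pos (by omega)] at this
        rw [hval2, ← this]
        push_cast
        ring_nf
    · rintro ⟨h0, h1, h2⟩ j hj
      rcases Nat.eq_zero_or_pos j with h3 | h3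
      · rw [if_pos (Or.inl h3), h3, ← (hval2 _).1 h0]
        simp
      · rcases Nat.lt_or_ge j (k + 1) with h4 | h4
        · rw [if_neg (by omega), ← (hval _).1 (h1 (j - 1) (by omega))]
          obtain ⟨l, rfl⟩ : ∃ l, j = l + 1 := ⟨j - 1, by omega⟩
          simp only [Nat.add_sub_cancel]
          push_cast
          ring_nf
        · have h5 : j = k + 1 := by omega
          rw [if_pos (Or.inr h5), ← (hval2 _).1 h2, h5]
          push_cast
          ring_nf
  unfold runCount
  have e1 : Nat.card {i : ZMod 63 // s (i - 1) ≠ c ∧ (∀ j < k, s (i + (j : ZMod 63)) = c) ∧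
      s (i + (k : ZMod 63)) ≠ c} = Nat.card {i : ZMod 63 // s (i + 1 - 1) ≠ c ∧
        (∀ j < k, s (i + 1 + (j : ZMod 63)) = c) ∧ s (i + 1 + (k : ZMod 63)) ≠ c} := by
    apply Nat.card_congr
    refine Equiv.subtypeEquiv (Equiv.subRight 1) fun a => ?_
    simp
  rw [e1, Nat.card_eq_fintype_card, Fintype.card_subtype, Finset.card_filter]
  rw [← Fin.sum_univ_eq_sum_range (fun i => if (NotSix_M s * 0x8000000000000001) / 2 ^ i %
    2 ^ (k + 2) = ∑ j ∈ range (k + 2), NotSix_pat c.val k j * 2 ^ j then 1 else 0) 63]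
  refine Finset.sum_congr rfl fun i _ => ?_
  have hi : ZMod.val (n := 63) i < 63 := ZMod.val_lt i
  have h1 := hkey (ZMod.val (n := 63) i) hi
  rw [ZMod.natCast_zmod_val] at h1
  exact if_congr h1.symm rfl rfl

theorem NotSix_exists_m (s : ZMod 63 → ZMod 2) (hs : ∀ i, s (2 * i) = s i) :
    ∃ m < 8192, NotSix_M s = NotSix_expand m := by
  have hx : ∀ j : ℕ, NotSix_x s (2 * j % 63) = NotSix_x s j := by
    intro j
    unfold NotSix_x
    rw [ZMod.natCast_mod, Nat.cast_mul, Nat.cast_ofNat, hs]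
  have e2 : NotSix_x s 2 = NotSix_x s 1 := hx 1
  have e4 : NotSix_x s 4 = NotSix_x s 1 := (hx 2).trans e2
  have e8 : NotSix_x s 8 = NotSix_x s 1 := (hx 4).trans e4
  have e16 : NotSix_x s 16 = NotSix_x s 1 := (hx 8).trans e8
  have e32 : NotSix_x s 32 = NotSix_x s 1 := (hx 16).trans e16
  have e6 : NotSix_x s 6 = NotSix_x s 3 := hx 3
  have e12 : NotSix_x s 12 = NotSix_x s 3 := (hx 6).trans e6
  have e24 : NotSix_x s 24 = NotSix_x s 3 := (hx 12).trans e12
  have e48 : NotSix_x s 48 = NotSix_x s 3 := (hx 24).trans e24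
  have e33 : NotSix_x s 33 = NotSix_x s 3 := (hx 48).trans e48
  have e10 : NotSix_x s 10 = NotSix_x s 5 := hx 5
  have e20 : NotSix_x s 20 = NotSix_x s 5 := (hx 10).trans e10
  have e40 : NotSix_x s 40 = NotSix_x s 5 := (hx 20).trans e20
  have e17 : NotSix_x s 17 = NotSix_x s 5 := (hx 40).trans e40
  have e34 : NotSix_x s 34 = NotSix_x s 5 := (hx 17).trans e17
  have e14 : NotSix_x s 14 = NotSix_x s 7 := hx 7
  have e28 : NotSix_x s 28 = NotSix_x s 7 := (hx 14).trans e14
  have e56 : NotSix_x s 56 = NotSix_x s 7 := (hx 28).trans e28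
  have e49 : NotSix_x s 49 = NotSix_x s 7 := (hx 56).trans e56
  have e35 : NotSix_x s 35 = NotSix_x s 7 := (hx 49).trans e49
  have e18 : NotSix_x s 18 = NotSix_x s 9 := hx 9
  have e36 : NotSix_x s 36 = NotSix_x s 9 := (hx 18).trans e18
  have e22 : NotSix_x s 22 = NotSix_x s 11 := hx 11
  have e44 : NotSix_x s 44 = NotSix_x s 11 := (hx 22).trans e22
  have e25 : NotSix_x s 25 = NotSix_x s 11 := (hx 44).trans e44
  have e50 : NotSix_x s 50 = NotSix_x s 11 := (hx 25).trans e25
  have e37 : NotSix_x s 37 = NotSix_x s 11 := (hx 50).trans e50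
  have e26 : NotSix_x s 26 = NotSix_x s 13 := hx 13
  have e52 : NotSix_x s 52 = NotSix_x s 13 := (hx 26).trans e26
  have e41 : NotSix_x s 41 = NotSix_x s 13 := (hx 52).trans e52
  have e19 : NotSix_x s 19 = NotSix_x s 13 := (hx 41).trans e41
  have e38 : NotSix_x s 38 = NotSix_x s 13 := (hx 19).trans e19
  have e30 : NotSix_x s 30 = NotSix_x s 15 := hx 15
  have e60 : NotSix_x s 60 = NotSix_x s 15 := (hx 30).trans e30
  have e57 : NotSix_x s 57 = NotSix_x s 15 := (hx 60).trans e60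
  have e51 : NotSix_x s 51 = NotSix_x s 15 := (hx 57).trans e57
  have e39 : NotSix_x s 39 = NotSix_x s 15 := (hx 51).trans e51
  have e42 : NotSix_x s 42 = NotSix_x s 21 := hx 21
  have e46 : NotSix_x s 46 = NotSix_x s 23 := hx 23
  have e29 : NotSix_x s 29 = NotSix_x s 23 := (hx 46).trans e46
  have e58 : NotSix_x s 58 = NotSix_x s 23 := (hx 29).trans e29
  have e53 : NotSix_x s 53 = NotSix_x s 23 := (hx 58).trans e58
  have e43 : NotSix_x s 43 = NotSix_x s 23 := (hx 53).trans e53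
  have e54 : NotSix_x s 54 = NotSix_x s 27 := hx 27
  have e45 : NotSix_x s 45 = NotSix_x s 27 := (hx 54).trans e54
  have e62 : NotSix_x s 62 = NotSix_x s 31 := hx 31
  have e61 : NotSix_x s 61 = NotSix_x s 31 := (hx 62).trans e62
  have e59 : NotSix_x s 59 = NotSix_x s 31 := (hx 61).trans e61
  have e55 : NotSix_x s 55 = NotSix_x s 31 := (hx 59).trans e59
  have e47 : NotSix_x s 47 = NotSix_x s 31 := (hx 55).trans e55
  have hle := NotSix_x_le s
  obtain ⟨m, hm⟩ : ∃ m, m = ∑ b ∈ range 13,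
      NotSix_x s (([0, 1, 3, 5, 7, 9, 11, 13, 15, 21, 23, 27, 31] : List ℕ).getD b 0) * 2 ^ b :=
    ⟨_, rfl⟩
  have hsel : ∀ b < 13, ∀ K, NotSix_sel m b K =
      NotSix_x s (([0, 1, 3, 5, 7, 9, 11, 13, 15, 21, 23, 27, 31] : List ℕ).getD b 0) * K := by
    intro b hb K
    have h1 := NotSix_window (fun b =>
      NotSix_x s (([0, 1, 3, 5, 7, 9, 11, 13, 15, 21, 23, 27, 31] : List ℕ).getD b 0))
      (fun b => hle _) b 1 (13 - (b + 1))
    rw [show b + 1 + (13 - (b + 1)) = 13 by omega, ← hm] at h1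
    simp only [pow_one, Finset.sum_range_one, add_zero, pow_zero, mul_one] at h1
    unfold NotSix_sel
    rw [Nat.shiftRight_eq_div_pow, h1]
    rcases Nat.le_one_iff_eq_zero_or_eq_one.1
      (hle (([0, 1, 3, 5, 7, 9, 11, 13, 15, 21, 23, 27, 31] : List ℕ).getD b 0)) with h | h <;>
    rw [h] <;> simp [Nat.beq]
  refine ⟨m, ?_, ?_⟩
  · rw [hm]
    simp only [Finset.sum_range_succ, Finset.sum_range_zero]
    have := fun b => hle (([0, 1, 3, 5, 7, 9, 11, 13, 15, 21, 23, 27, 31] : List ℕ).getD b 0)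
    have h0 := this 0; have h1 := this 1; have h2 := this 2; have h3 := this 3
    have h4 := this 4; have h5 := this 5; have h6 := this 6; have h7 := this 7
    have h8 := this 8; have h9 := this 9; have h10 := this 10; have h11 := this 11
    have h12 := this 12
    omega
  · unfold NotSix_expand
    rw [hsel 0 (by norm_num), hsel 1 (by norm_num), hsel 2 (by norm_num), hsel 3 (by norm_num),
      hsel 4 (by norm_num), hsel 5 (by norm_num), hsel 6 (by norm_num), hsel 7 (by norm_num),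
      hsel 8 (by norm_num), hsel 9 (by norm_num), hsel 10 (by norm_num), hsel 11 (by norm_num),
      hsel 12 (by norm_num)]
    unfold NotSix_M
    simp only [Finset.sum_range_succ, Finset.sum_range_zero]
    rw [e2, e4, e8, e16, e32, e6, e12, e24, e48, e33, e10, e20, e40, e17, e34, e14, e28, e56, e49, e35, e18, e36, e22, e44, e25, e50, e37, e26, e52, e41, e19, e38, e30, e60, e57, e51, e39, e42, e46, e29, e58, e53, e43, e54, e45, e62, e61, e59, e55, e47]
    simp only [List.getD_cons_zero, List.getD_cons_succ]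
    ring

theorem NotSix_span_spec (s : ZMod 63 → ZMod 2)
    (h : NotSix_span (NotSix_M s * 0x8000000000000001) = true) : SpanProp 6 s := by
  classical
  have h0 := NotSix_all_spec _ _ h
  obtain ⟨W, hW⟩ : ∃ W : ℕ → ℕ, W = fun i => (NotSix_M s * 0x8000000000000001) / 2 ^ i % 2 ^ 6 :=
    ⟨_, rfl⟩
  have hWx : ∀ i < 63, W i = ∑ j ∈ range 6, NotSix_x s (i + j) * 2 ^ j := by
    intro i hi
    rw [hW]
    exact NotSix_win s i 6 hi (by norm_num)
  have hnz : ∀ i < 63, W i ≠ 0 := by
    intro i hi hz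
    have h1 := h0 i hi
    rw [Bool.and_eq_true] at h1
    have h2 := h1.1
    rw [Nat.shiftRight_eq_div_pow] at h2
    have h3 : (NotSix_M s * 0x8000000000000001) / 2 ^ i % 64 = 0 := by
      have := hz; rw [hW] at this; exact this
    rw [h3] at h2
    exact absurd h2 (by decide)
  have hinj' : ∀ i < 63, ∀ j < i, W i ≠ W j := by
    intro i hi j hj heq
    have h1 := h0 i hi
    rw [Bool.and_eq_true] at h1
    have h2 := NotSix_all_spec _ _ h1.2 j hj
    rw [Nat.shiftRight_eq_div_pow, Nat.shiftRight_eq_div_pow] at h2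
    have h3 : (NotSix_M s * 0x8000000000000001) / 2 ^ i % 64 =
      (NotSix_M s * 0x8000000000000001) / 2 ^ j % 64 := by
      have := heq; rw [hW] at this; exact this
    rw [h3, Nat.beq_refl] at h2
    exact absurd h2 (by decide)
  have hWf : ∀ i : ZMod 63, W i.val = ∑ j : Fin 6, (s (i + (j.val : ZMod 63))).val * 2 ^ j.val := by
    intro i
    rw [hWx i.val (ZMod.val_lt i), Finset.sum_range]
    refine Finset.sum_congr rfl fun j _ => ?_
    unfold NotSix_x
    rw [Nat.cast_add, ZMod.natCast_zmod_val]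
  have hf0 : ∀ i : ZMod 63, (fun j : Fin 6 => s (i + (j.val : ZMod 63))) ≠ 0 := by
    intro i hi
    apply hnz i.val (ZMod.val_lt i)
    rw [hWf]
    apply Finset.sum_eq_zero
    intro j _
    have := congrFun hi j
    simp only [Pi.zero_apply] at this
    rw [this]
    simp
  have hfinj : Function.Injective (fun (i : ZMod 63) (j : Fin 6) => s (i + (j.val : ZMod 63))) := by
    intro i i' hii
    have hval : W i.val = W i'.val := by
      rw [hWf, hWf]
      refine Finset.sum_congr rfl fun j _ => ?_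
      have := congrFun hii j
      simp only at this
      rw [this]
    have : i.val = i'.val := by
      rcases lt_trichotomy i.val i'.val with h1 | h1 | h1
      · exact absurd hval.symm (hinj' _ (ZMod.val_lt i') _ h1)
      · exact h1
      · exact absurd hval (hinj' _ (ZMod.val_lt i) _ h1)
    exact ZMod.val_injective 63 this
  refine ⟨hf0, ?_⟩
  have hbij : Function.Bijective (fun (i : ZMod 63) =>
      (⟨fun (j : Fin 6) => s (i + (j.val : ZMod 63)), hf0 i⟩ : {v : Fin 6 → ZMod 2 // v ≠ 0})) := by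
    rw [Fintype.bijective_iff_injective_and_card]
    refine ⟨fun i i' hii => hfinj (Subtype.ext_iff.1 hii), ?_⟩
    rw [ZMod.card, Fintype.card_subtype_compl]
    simp
  intro v hv
  obtain ⟨i, hi⟩ := hbij.2 ⟨v, hv⟩
  refine ⟨i, Subtype.ext_iff.1 hi, fun i' hi' => ?_⟩
  apply hfinj
  have h1 : (fun (j : Fin 6) => s (i + (j.val : ZMod 63))) = v := Subtype.ext_iff.1 hi
  exact (hi'.trans h1.symm)

theorem NotSix_main (s : ZMod 63 → ZMod 2) (hs : ∀ i, s (2 * i) = s i) (hrun : RunProp 6 s) :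
    SpanProp 6 s := by
  obtain ⟨m, hm, hM⟩ := NotSix_exists_m s hs
  have hchk := NotSix_chk_all m hm
  unfold NotSix_chk at hchk
  simp only [← hM] at hchk
  obtain ⟨hr, h05, h16, h0k, h15, h1k⟩ := hrun
  have r16 : NotSix_cnt (NotSix_M s * 0x8000000000000001) 126 256 63 = 1 :=
    (NotSix_run s 1 6 (by norm_num)).symm.trans h16
  have r05 : NotSix_cnt (NotSix_M s * 0x8000000000000001) 65 128 63 = 1 :=
    (NotSix_run s 0 5 (by norm_num)).symm.trans h05
  have r15 : NotSix_cnt (NotSix_M s * 0x8000000000000001) 62 128 63 = 0 :=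
    (NotSix_run s 1 5 (by norm_num)).symm.trans h15
  have r14 : NotSix_cnt (NotSix_M s * 0x8000000000000001) 30 64 63 = 1 :=
    (NotSix_run s 1 4 (by norm_num)).symm.trans (hr 4 1 (by norm_num) (by norm_num))
  have r04 : NotSix_cnt (NotSix_M s * 0x8000000000000001) 33 64 63 = 1 :=
    (NotSix_run s 0 4 (by norm_num)).symm.trans (hr 4 0 (by norm_num) (by norm_num))
  have r13 : NotSix_cnt (NotSix_M s * 0x8000000000000001) 14 32 63 = 2 :=
    (NotSix_run s 1 3 (by norm_num)).symm.trans (hr 3 1 (by norm_num) (by norm_num))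
  have r03 : NotSix_cnt (NotSix_M s * 0x8000000000000001) 17 32 63 = 2 :=
    (NotSix_run s 0 3 (by norm_num)).symm.trans (hr 3 0 (by norm_num) (by norm_num))
  have r12 : NotSix_cnt (NotSix_M s * 0x8000000000000001) 6 16 63 = 4 :=
    (NotSix_run s 1 2 (by norm_num)).symm.trans (hr 2 1 (by norm_num) (by norm_num))
  have r02 : NotSix_cnt (NotSix_M s * 0x8000000000000001) 9 16 63 = 4 :=
    (NotSix_run s 0 2 (by norm_num)).symm.trans (hr 2 0 (by norm_num) (by norm_num))
  have r11 : NotSix_cnt (NotSix_M s * 0x8000000000000001) 2 8 63 = 8 :=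
    (NotSix_run s 1 1 (by norm_num)).symm.trans (hr 1 1 (by norm_num) (by norm_num))
  have r01 : NotSix_cnt (NotSix_M s * 0x8000000000000001) 5 8 63 = 8 :=
    (NotSix_run s 0 1 (by norm_num)).symm.trans (hr 1 0 (by norm_num) (by norm_num))
  rw [r16, r05, r15, r14, r04, r13, r03, r12, r02, r11, r01] at hchk
  apply NotSix_span_spec
  simpa using hchk

theorem NotSix_shift_run {p : ℕ} (s : ZMod p → ZMod 2) (a : ZMod p) (c : ZMod 2) (k : ℕ) :
    runCount (fun i => s (i + a)) c k = runCount s c k := by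
  unfold runCount
  apply Nat.card_congr
  refine Equiv.subtypeEquiv (Equiv.addRight a) fun i => ?_
  have e1 : i - 1 + a = i + a - 1 := by ring
  have e2 : ∀ j : ZMod p, i + j + a = i + a + j := fun j => by ring
  simp only [Equiv.coe_addRight, e1, e2]

theorem not_adm_six : ¬ Adm 6 := by
  rintro ⟨s, hrun, ⟨t, ht⟩, hspan, _⟩
  apply hspan
  have hrun' : RunProp 6 (fun i => s (i + 2 * t)) := by
    obtain ⟨h1, h2, h3, h4, h5, h6⟩ := hrun
    refine ⟨fun k c hk hk' => ?_, ?_, ?_, fun k hk => ?_, ?_, fun k hk => ?_⟩ <;>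
      rw [NotSix_shift_run]
    · exact h1 k c hk hk'
    · exact h2
    · exact h3
    · exact h4 k hk
    · exact h5
    · exact h6 k hk
  have hs' : ∀ i : ZMod 63, (fun i : ZMod (2 ^ 6 - 1) => s (i + 2 * t)) (2 * i) =
      (fun i : ZMod (2 ^ 6 - 1) => s (i + 2 * t)) i := by
    intro i
    change s (2 * i + 2 * t) = s (i + 2 * t)
    rw [← mul_add, ht]
    congr 1
    ring
  obtain ⟨g1, g2⟩ := NotSix_main (fun i => s (i + 2 * t)) hs' hrun'
  have hsh : ∀ i : ZMod (2 ^ 6 - 1), (fun j : Fin 6 => s (i + (j.val : ZMod (2 ^ 6 - 1)))) =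
      (fun j : Fin 6 => (fun i => s (i + 2 * t)) (i - 2 * t + (j.val : ZMod (2 ^ 6 - 1)))) := by
    intro i
    funext j
    simp only
    congr 1
    ring
  constructor
  · intro i
    rw [hsh]
    exact g1 (i - 2 * t)
  · intro v hv
    obtain ⟨i, hi, hu⟩ := g2 v hv
    refine ⟨i + 2 * t, ?_, ?_⟩
    · simp only
      rw [hsh, add_sub_cancel_right]
      exact hi
    · intro i' hi'
      rw [hsh] at hi'
      have := hu _ hi'
      rw [← this]
      ring

end RunMult
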