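import Pool.Agent.Lib.MP_d16eef_co.SmallChk

/-! Explicit sequences for `n = 7, 8, 9, 10`. -/

set_option maxRecDepth 100000

namespace RunMult

theorem adm_seven : Adm 7 :=
  adm_of_seq 7 127
    144390581859501107613381988186736636255
    14 30 7 (by norm_num) (by decide +kernel)

theorem adm_eight : Adm 8 :=
  adm_of_seq 8 255
    10058770392600313115747170767100561003452320398922698364772570618914036551200
    29 40 3 (by norm_num) (by decide +kernel)

theorem adm_nine : Adm 9 :=
  adm_of_seq 9 511
    13992193413405257882967690989578332270716048928856052749869884204180592956165937180355170581321434171083428595660575114959830402786311377525605960304289
    78 97 3 (by norm_num) (by decide +kernel)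

theorem adm_ten : Adm 10 :=
  adm_of_seq 10 1023
    12851823706762938175900805263519589632026428886880982997056064919099117102947712199341815784922641959186066415555873898497248776587955868767630472332354259028859750056303348378738740380459684950568532996839812236858217431917088565505533798337159370848693445949645625329954292480335760701033215451810920284288
    4 18 3 (by norm_num) (by decide +kernel)

end RunMult
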