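import Pool.Agent.Lib.MP_d16eef_co.Final
import Pool.Agent.Lib.MP_d16eef_co.NotSix
import Pool.Agent.Lib.MP_d16eef_co.Small
import Pool.Agent.Lib.MP_d16eef_co.CertA
import Pool.Agent.Lib.MP_d16eef_co.CertB
import Pool.Agent.Lib.MP_d16eef_co.CertC
import Pool.Agent.Lib.MP_d16eef_co.CertD
import Pool.Agent.Lib.MP_d16eef_co.CertE
import Pool.Agent.Lib.MP_d16eef_co.CertF
import Pool.Agent.Lib.MP_d16eef_co.CertG
import Pool.Agent.Lib.MP_d16eef_co.CertH
import Pool.Agent.Lib.MP_d16eef_co.CertI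
import Pool.Agent.Lib.MP_d16eef_co.CertJ

/-! All `n > 5` that are not divisible by 4, and the classification on the covered set. -/

namespace RunMult

theorem adm_small (n : ℕ) (h1 : 6 < n) (h2 : n < 130) (h : n % 4 = 2 ∨ (n % 2 = 1 ∧ n < 81)) :
    Adm n := by
  interval_cases n <;> try (exfalso; omega)
  exacts [adm_seven, adm_nine, adm_ten, adm_11, adm_13, adm_14, adm_15, adm_17, adm_18, adm_19, adm_21,
adm_22, adm_23, adm_25, adm_26, adm_27, adm_29, adm_30, adm_31, adm_33, adm_34, adm_35, adm_37,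
adm_38, adm_39, adm_41, adm_42, adm_43, adm_45, adm_46, adm_47, adm_49, adm_50, adm_51, adm_53,
adm_54, adm_55, adm_57, adm_58, adm_59, adm_61, adm_62, adm_63, adm_65, adm_66, adm_67, adm_69,
adm_70, adm_71, adm_73, adm_74, adm_75, adm_77, adm_78, adm_79, adm_82, adm_86, adm_90, adm_94,
adm_98, adm_102, adm_106, adm_110, adm_114, adm_118, adm_122, adm_126]

theorem pow_ineq (m : ℕ) (hm : 65 ≤ m) : (64 * m) ^ 5 ≤ 2 ^ m := by
  induction m, hm using Nat.le_induction with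
  | base => norm_num
  | succ m hm ih =>
    have h1 : (64 * (m + 1)) ^ 5 ≤ 2 * (64 * m) ^ 5 := by
      have h2 : 65 * (64 * (m + 1)) ≤ 66 * (64 * m) := by omega
      have h3 : (65 * (64 * (m + 1))) ^ 5 ≤ (66 * (64 * m)) ^ 5 := Nat.pow_le_pow_left h2 5
      rw [mul_pow, mul_pow 66] at h3
      have h4 : (66 : ℕ) ^ 5 ≤ 65 ^ 5 * 2 := by norm_num
      have h5 : 65 ^ 5 * (64 * (m + 1)) ^ 5 ≤ 65 ^ 5 * (2 * (64 * m) ^ 5) := by
        calc 65 ^ 5 * (64 * (m + 1)) ^ 5 ≤ 66 ^ 5 * (64 * m) ^ 5 := h3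
          _ ≤ 65 ^ 5 * 2 * (64 * m) ^ 5 := Nat.mul_le_mul_right _ h4
          _ = 65 ^ 5 * (2 * (64 * m) ^ 5) := by ring
      exact Nat.le_of_mul_le_mul_left h5 (by norm_num)
    calc (64 * (m + 1)) ^ 5 ≤ 2 * (64 * m) ^ 5 := h1
      _ ≤ 2 * 2 ^ m := Nat.mul_le_mul_left 2 ih
      _ = 2 ^ (m + 1) := by ring

/-- every `n > 6` that is not divisible by 4 is admissible -/
theorem adm_not_four (n : ℕ) (h1 : 6 < n) (h4 : ¬ 4 ∣ n) : Adm n := by
  rcases Nat.even_or_odd n with he | ho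
  · have h2 : n % 4 = 2 := by
      have := Nat.even_iff.mp he
      omega
    rcases lt_or_ge n 130 with h3 | h3
    · exact adm_small n h1 h3 (Or.inl h2)
    · refine adm_even n 2 (n / 2) h3 he (by omega) (Nat.odd_iff.mpr (by omega)) ?_
      have := pow_ineq (n / 2) (by omega)
      have h5 : 64 * (n / 2) = 32 * n := by omega
      rwa [h5] at this
  · have h2 := Nat.odd_iff.mp ho
    rcases lt_or_ge n 81 with h3 | h3
    · exact adm_small n h1 (by omega) (Or.inr ⟨h2, h3⟩)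
    · exact adm_odd n h3 ho

theorem adm_iff (n : ℕ) (h5 : 5 < n)
    (h : ¬ 4 ∣ n ∨ n = 8 ∨ (130 ≤ n ∧ ∃ b m : ℕ, n = b * m ∧ Odd m ∧ (32 * n) ^ 5 ≤ 2 ^ m)) :
    Adm n ↔ n ≠ 6 := by
  constructor
  · rintro hA rfl
    exact not_adm_six hA
  · intro h6
    rcases h with h | rfl | ⟨h1, b, m, h2, h3, h4⟩
    · exact adm_not_four n (by omega) h
    · exact adm_eight
    · rcases Nat.even_or_odd n with he | ho
      · exact adm_even n b m h1 he h2 h3 h4
      · exact adm_odd n (by omega) ho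

end RunMult
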