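import Pool.Agent.Lib.MP_d16eef_co.Basic

/-! The autocorrelation of a modified trace function. -/

namespace RunMult

open Finset

variable {F : Type} [Field F] [Fintype F] [DecidableEq F] [Algebra (ZMod 2) F]

/-- indicator of inequality as an integer -/
theorem auto_ind (p q : ZMod 2) :
    ((if p + 1 ≠ q then (1 : ℤ) else 0) = (if p ≠ q then 1 else 0) + sg p * sg q) ∧
    ((if q ≠ p + 1 then (1 : ℤ) else 0) = (if q ≠ p then 1 else 0) + sg p * sg q) := by
  revert p q; unfold sg; decide

theorem auto_formula (n : ℕ) (hn : 1 ≤ n) (hF : Fintype.card F = 2 ^ n) (U : Finset F)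
    (hU0 : ∀ u ∈ U, u ≠ 0) (w : F) (hw0 : w ≠ 0) (hw1 : w ≠ 1)
    (hiso : ∀ u ∈ U, u * w ∉ U) :
    ((univ.filter fun x : F => x ≠ 0 ∧ (tr x + if x ∈ U then (1 : ZMod 2) else 0) ≠
      (tr (x * w) + if x * w ∈ U then (1 : ZMod 2) else 0)).card : ℤ) =
    2 ^ (n - 1) + ∑ u ∈ U, sg (tr u) * (sg (tr (u * w)) + sg (tr (u * w⁻¹))) := by
  -- the unmodified count
  have hbase : ((univ.filter fun x : F => x ≠ 0 ∧ tr x ≠ tr (x * w)).card : ℤ) = 2 ^ (n - 1) := by
    have h1 : (univ.filter fun x : F => x ≠ 0 ∧ tr x ≠ tr (x * w)) =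
        univ.filter fun x : F => tr (x * (1 + w)) = 1 := by
      ext x
      simp only [mem_filter, mem_univ, true_and]
      rw [mul_add, mul_one, tr_add]
      constructor
      · rintro ⟨-, h⟩
        generalize tr x = p at *
        generalize tr (x * w) = q at *
        revert p q; decide
      · intro h
        refine ⟨?_, ?_⟩
        · rintro rfl
          rw [zero_mul, tr_zero] at h
          revert h; decide
        · generalize tr x = p at *
          generalize tr (x * w) = q at *
          revert p q; decide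
    have h2 : (1 : F) + w ≠ 0 := by
      intro h
      have h3 : w = 1 := by
        have h4 : (1 : F) + 1 = 0 := by
          have := two_eq_zero' F
          rw [← one_add_one_eq_two] at this; exact this
        have h5 : w + 1 = 1 + 1 := by rw [h4, add_comm]; exact h
        exact add_right_cancel h5
      exact hw1 h3
    rw [h1, card_tr_eq n hn hF (1 + w) h2 1]
    push_cast; rfl
  rw [card_filter, ← hbase, card_filter]
  push_cast
  -- rewrite the sum over `U`
  have hs1 : ∑ u ∈ U, sg (tr u) * sg (tr (u * w)) =
      ∑ x : F, if x ∈ U then sg (tr x) * sg (tr (x * w)) else 0 := by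
    rw [← sum_filter]; congr 1; ext x; simp
  have hs2 : ∑ u ∈ U, sg (tr u) * sg (tr (u * w⁻¹)) =
      ∑ x : F, if x * w ∈ U then sg (tr (x * w)) * sg (tr x) else 0 := by
    rw [← sum_filter]
    refine sum_bij (fun u _ => u * w⁻¹) ?_ ?_ ?_ ?_
    · intro u hu
      simp only [mem_filter, mem_univ, true_and]
      rwa [mul_assoc, inv_mul_cancel₀ hw0, mul_one]
    · intro u _ u' _ h
      exact mul_right_cancel₀ (inv_ne_zero hw0) h
    · intro x hx
      simp only [mem_filter, mem_univ, true_and] at hx
      exact ⟨x * w, hx, by rw [mul_assoc, mul_inv_cancel₀ hw0, mul_one]⟩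
    · intro u _
      rw [mul_assoc, inv_mul_cancel₀ hw0, mul_one]
  simp only [mul_add, sum_add_distrib]
  rw [hs1, hs2, ← sum_add_distrib, ← sum_add_distrib]
  refine sum_congr rfl fun x _ => ?_
  by_cases hx0 : x = 0
  · have h1 : x ∉ U := fun h => hU0 x h hx0
    have h2 : x * w ∉ U := by
      intro h
      exact hU0 _ h (by rw [hx0, zero_mul])
    simp [hx0]
    rw [hx0] at h1
    simp [h1]
  · have hU1 := fun h : x ∈ U => hiso x h
    by_cases h1 : x ∈ U
    · have h2 := hU1 h1
      simp only [h1, h2, if_true, if_false, add_zero, hx0, ne_eq, not_false_eq_true, true_and]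
      exact (auto_ind _ _).1
    · by_cases h2 : x * w ∈ U
      · simp only [h1, h2, if_true, if_false, add_zero, zero_add, hx0, ne_eq, not_false_eq_true,
          true_and]
        exact (auto_ind _ _).2
      · simp only [h1, h2, if_false, add_zero]

end RunMult
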