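import Pool.Agent.Lib.MP_d16eef_co.Basic

/-! Parity obstruction to two-level autocorrelation. -/

namespace RunMult

open Finset

variable {F : Type} [Field F] [Fintype F] [DecidableEq F] [Algebra (ZMod 2) F]

theorem parity_term (p q r : ZMod 2) : ∃ t : ℤ, sg p * (sg q + sg r) = 2 * t ∧
    ((t : ℤ) : ZMod 2) = 1 + q + r := by
  revert p q r
  intro p q r
  refine ⟨sg p * (if q = r then sg q else 0), ?_, ?_⟩
  · revert p q r; unfold sg; decide
  · revert p q r
    unfold sg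
    intro p q r
    fin_cases p <;> fin_cases q <;> fin_cases r <;> simp <;> decide

omit [Fintype F] [DecidableEq F] in
theorem parity_ne (U : Finset F) (hUcard : Even U.card) (hsum : ∑ u ∈ U, u = 1) (w : F)
    (hw : tr w ≠ tr w⁻¹) :
    ∑ u ∈ U, sg (tr u) * (sg (tr (u * w)) + sg (tr (u * w⁻¹))) ≠ 0 := by
  intro h0
  have hex : ∀ u : F, ∃ t : ℤ, sg (tr u) * (sg (tr (u * w)) + sg (tr (u * w⁻¹))) = 2 * t ∧
    ((t : ℤ) : ZMod 2) = 1 + tr (u * w) + tr (u * w⁻¹) := fun u => parity_term _ _ _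
  choose t ht1 ht2 using hex
  have h1 : 2 * ∑ u ∈ U, t u = 0 := by
    rw [mul_sum, ← sum_congr rfl fun u _ => ht1 u, h0]
  have h2 : ∑ u ∈ U, t u = 0 := by omega
  have h3 : (((∑ u ∈ U, t u : ℤ)) : ZMod 2) = 0 := by rw [h2]; simp
  rw [Int.cast_sum, sum_congr rfl fun u _ => ht2 u, sum_add_distrib, sum_add_distrib,
    ← tr_sum, ← tr_sum, ← sum_mul, ← sum_mul, hsum, one_mul, one_mul, sum_const] at h3
  obtain ⟨k, hk⟩ := hUcard
  rw [hk] at h3
  have h4 : ((k + k) • (1 : ZMod 2)) = 0 := by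
    rw [← two_mul, nsmul_eq_mul]
    push_cast
    have : (2 : ZMod 2) = 0 := by decide
    rw [this]; ring
  rw [h4, zero_add] at h3
  apply hw
  generalize tr w = p at h3
  generalize tr w⁻¹ = q at h3
  revert p q; decide

end RunMult
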