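import Pool.Agent.Lib.MP_d16eef_co.Basic

/-! Run counts from counts of constant windows. -/

namespace RunMult

open Finset

variable {F : Type} [Field F] [Fintype F] [DecidableEq F]

theorem RC_eq_NC (g : F → ZMod 2) (a : F) (ha : a ≠ 0) (c : ZMod 2) (k : ℕ) :
    (RC g a c k : ℤ) = NC g a c k - 2 * NC g a c (k + 1) + NC g a c (k + 2) := by
  classical
  -- all counts as filters
  set M : F → Prop := fun x => x ≠ 0 ∧ ∀ j < k, g (x * a ^ j) = c with hM
  have hNk : (NC g a c k : ℤ) = ∑ x : F, if M x then (1 : ℤ) else 0 := by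
    unfold NC
    rw [card_filter]; push_cast
    exact sum_congr rfl fun x _ => if_congr Iff.rfl rfl rfl
  have hNk1 : (NC g a c (k + 1) : ℤ) = ∑ x : F, if M x ∧ g (x * a ^ k) = c then (1 : ℤ) else 0 := by
    unfold NC
    rw [card_filter]; push_cast
    refine sum_congr rfl fun x _ => if_congr ?_ rfl rfl
    simp only [hM, and_assoc, and_congr_right_iff]
    intro _
    constructor
    · intro h
      exact ⟨fun j hj => h j (by omega), h k (by omega)⟩
    · rintro ⟨h1, h2⟩ j hj
      rcases Nat.lt_or_ge j k with h | h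
      · exact h1 j h
      · rw [show j = k by omega]; exact h2
  -- shift by `a⁻¹`
  have hshift : ∀ f : F → ℤ, ∑ x : F, f x = ∑ x : F, f (x * a⁻¹) := by
    intro f
    exact (Fintype.sum_bijective (fun x : F => x * a⁻¹) (mulRight_bijective₀ _ (inv_ne_zero ha))
      _ _ fun x => rfl).symm
  have hkey : ∀ x : F, ∀ m : ℕ, (∀ j < m + 1, g (x * a⁻¹ * a ^ j) = c) ↔
      (g (x * a⁻¹) = c ∧ ∀ j < m, g (x * a ^ j) = c) := by
    intro x m
    constructor
    · intro h
      refine ⟨by simpa using h 0 (by omega), fun j hj => ?_⟩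
      have := h (j + 1) (by omega)
      rw [pow_succ', ← mul_assoc, mul_assoc x, inv_mul_cancel₀ ha, mul_one] at this
      exact this
    · rintro ⟨h1, h2⟩ j hj
      rcases Nat.eq_zero_or_pos j with h | h
      · subst h; simpa using h1
      · obtain ⟨i, rfl⟩ : ∃ i, j = i + 1 := ⟨j - 1, by omega⟩
        rw [pow_succ', ← mul_assoc, mul_assoc x, inv_mul_cancel₀ ha, mul_one]
        exact h2 i (by omega)
  have hne : ∀ x : F, x * a⁻¹ ≠ 0 ↔ x ≠ 0 := by
    intro x
    simp [ha]
  have hNk1' : (NC g a c (k + 1) : ℤ) = ∑ x : F, if M x ∧ g (x * a⁻¹) = c then (1 : ℤ) else 0 := by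
    unfold NC
    rw [card_filter]; push_cast
    rw [hshift]
    refine sum_congr rfl fun x _ => if_congr ?_ rfl rfl
    rw [hne, hkey]
    simp only [hM]
    tauto
  have hNk2 : (NC g a c (k + 2) : ℤ) = ∑ x : F,
      if M x ∧ g (x * a⁻¹) = c ∧ g (x * a ^ k) = c then (1 : ℤ) else 0 := by
    unfold NC
    rw [card_filter]; push_cast
    rw [hshift]
    refine sum_congr rfl fun x _ => if_congr ?_ rfl rfl
    rw [hne, show k + 2 = (k + 1) + 1 by ring, hkey]
    simp only [hM]
    constructor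
    · rintro ⟨h1, h2, h3⟩
      exact ⟨⟨h1, fun j hj => h3 j (by omega)⟩, h2, h3 k (by omega)⟩
    · rintro ⟨⟨h1, h2⟩, h3, h4⟩
      refine ⟨h1, h3, fun j hj => ?_⟩
      rcases Nat.lt_or_ge j k with h | h
      · exact h2 j h
      · rw [show j = k by omega]; exact h4
  have hR : (RC g a c k : ℤ) = ∑ x : F,
      if M x ∧ g (x * a⁻¹) ≠ c ∧ g (x * a ^ k) ≠ c then (1 : ℤ) else 0 := by
    unfold RC
    rw [card_filter]; push_cast
    refine sum_congr rfl fun x _ => if_congr ?_ rfl rfl
    simp only [hM]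
    tauto
  have h2 : 2 * (NC g a c (k + 1) : ℤ) = NC g a c (k + 1) + NC g a c (k + 1) := two_mul _
  rw [h2]
  nth_rewrite 2 [hNk1]
  rw [hR, hNk, hNk1', hNk2, ← sum_add_distrib, ← sum_sub_distrib, ← sum_add_distrib]
  refine sum_congr rfl fun x _ => ?_
  by_cases h1 : M x <;> by_cases h3 : g (x * a⁻¹) = c <;> by_cases h4 : g (x * a ^ k) = c <;>
    simp [h1, h3, h4]

end RunMult
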