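import Pool.Agent.Lib.MP_d16eef_co.Basic

/-! Failure of the span property. -/

namespace RunMult

open Finset

variable {F : Type} [Field F] [Fintype F] [DecidableEq F] [Algebra (ZMod 2) F]

omit [Fintype F] in
theorem p3_fail (n : ℕ) (hn : 1 ≤ n) (a : F) (U : Finset F) (x η : F) (hx : x ∈ U)
    (hx0 : x ≠ 0) (hiso : ∀ l, 1 ≤ l → l < n → x * a ^ l ∉ U)
    (hη : ∀ l < n, tr (η * a ^ l) = if l = 0 then 1 else 0)
    (hy : ∀ l < n, (x + η) * a ^ l ∉ U) :
    ∃ z : F, z ≠ 0 ∧ ((∀ l < n, (tr (z * a ^ l) + if z * a ^ l ∈ U then (1 : ZMod 2) else 0) = 0) ∨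
      ∃ y, y ≠ 0 ∧ y ≠ z ∧ ∀ l < n,
        (tr (z * a ^ l) + if z * a ^ l ∈ U then (1 : ZMod 2) else 0) =
        (tr (y * a ^ l) + if y * a ^ l ∈ U then (1 : ZMod 2) else 0)) := by
  have hη0 : η ≠ 0 := by
    rintro rfl
    have := hη 0 (by omega)
    simp [tr_zero] at this
  have h11 : (1 : ZMod 2) + 1 = 0 := by decide
  have hg : ∀ l < n, (tr (x * a ^ l) + if x * a ^ l ∈ U then (1 : ZMod 2) else 0) =
      tr ((x + η) * a ^ l) := by
    intro l hl
    rw [add_mul, tr_add, hη l hl]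
    rcases Nat.eq_zero_or_pos l with h | h
    · subst h
      simp [hx]
    · rw [if_neg (hiso l h hl), if_neg (by omega)]
  refine ⟨x, hx0, ?_⟩
  by_cases h0 : x + η = 0
  · left
    intro l hl
    rw [hg l hl, h0, zero_mul, tr_zero]
  · right
    refine ⟨x + η, h0, ?_, ?_⟩
    · intro h
      exact hη0 (by simpa using h)
    · intro l hl
      rw [hg l hl, if_neg (hy l hl), add_zero]

end RunMult
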