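import Pool.Agent.Lib.MP_d16eef_co.Defs

/-! SWP: the swap lemma. -/

namespace RunMult

open Finset

section

variable {F : Type} [Field F] [Fintype F] [DecidableEq F] [Algebra (ZMod 2) F]

theorem swap_shift (a : F) (ha : a ≠ 0) (x : F) (i j : ℕ) :
    (x * a ^ j) * a ^ ((i : ℤ) - j) = x * a ^ i := by
  rw [zpow_sub₀ ha, zpow_natCast, zpow_natCast]
  have : a ^ j ≠ 0 := pow_ne_zero _ ha
  field_simp

theorem swap_shift' (a : F) (ha : a ≠ 0) (v : F) (i j : ℕ) :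
    v * (a ^ j)⁻¹ * a ^ i = v * a ^ ((i : ℤ) - j) := by
  rw [zpow_sub₀ ha, zpow_natCast, zpow_natCast]
  have : a ^ j ≠ 0 := pow_ne_zero _ ha
  field_simp

theorem swap_zmod2 (z : ZMod 2) : z ≠ 0 → z ≠ 1 → False := by
  revert z; decide

theorem swap_zmod2' (z : ZMod 2) : z + 1 + 1 = z := by
  revert z; decide

theorem NC_swap (a : F) (ha : a ≠ 0) (m : F → ZMod 2) (U : Finset F) (pr : F → F) (K n : ℕ)
    (hKn : 2 * K ≤ n + 2) (hU0 : ∀ u ∈ U, u ≠ 0) (hprU : ∀ u ∈ U, pr u ∈ U)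
    (hpr : ∀ u ∈ U, pr (pr u) = u) (hcen : ∀ u ∈ U, m (pr u) = m u + 1)
    (hwin : ∀ u ∈ U, ∀ i : ℤ, i ≠ 0 → |i| ≤ K → m (pr u * a ^ i) = m (u * a ^ i))
    (hiso : ∀ u ∈ U, ∀ i : ℤ, i ≠ 0 → |i| ≤ n → u * a ^ i ∉ U)
    (hR : ∀ u ∈ U, ∀ c, ∃ i : ℤ, 1 ≤ i ∧ i ≤ K ∧ m (u * a ^ i) ≠ c)
    (hL : ∀ u ∈ U, ∀ c, ∃ i : ℤ, 1 ≤ i ∧ i ≤ K ∧ m (u * a ^ (-i)) ≠ c) (c : ZMod 2) (L : ℕ) :
    NC (fun x => m x + if x ∈ U then 1 else 0) a c L = NC m a c L := by
  classical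
  -- the two conditions
  set g : F → ZMod 2 := fun x => m x + if x ∈ U then 1 else 0 with hg
  have gU : ∀ x, x ∈ U → g x = m x + 1 := fun x hx => by simp [hg, hx]
  have gN : ∀ x, x ∉ U → g x = m x := fun x hx => by simp [hg, hx]
  -- `K ≤ n` as soon as `U` is nonempty
  have hK : ∀ u ∈ U, 2 ≤ K ∧ K ≤ n := by
    intro u hu
    have h2 : 2 ≤ K := by
      by_contra hcon
      push Not at hcon
      obtain ⟨i, hi1, hi2, hi3⟩ := hR u hu 0
      obtain ⟨i', hi1', hi2', hi3'⟩ := hR u hu 1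
      have e : i = i' := by omega
      subst e
      exact swap_zmod2 _ hi3 hi3'
    omega
  -- the window bounds
  have key : ∀ f : F → ZMod 2, (∀ x, x ∉ U → f x = m x) → ∀ x, (∀ j < L, f (x * a ^ j) = c) →
      ∀ j, j < L → x * a ^ j ∈ U → j + 1 ≤ K ∧ L ≤ j + K := by
    intro f hf x hx j hj hu
    obtain ⟨hK2, hKn'⟩ := hK _ hu
    constructor
    · by_contra hcon
      push Not at hcon
      obtain ⟨i, hi1, hi2, hi3⟩ := hL _ hu c
      obtain ⟨i', rfl⟩ : ∃ i' : ℕ, i = i' := ⟨i.toNat, by omega⟩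
      have e : x * a ^ j * a ^ (-(i' : ℤ)) = x * a ^ (j - i') := by
        rw [← swap_shift a ha x (j - i') j]
        congr 2
        have : i' ≤ j := by omega
        push_cast [this]
        ring
      have hnU : x * a ^ (j - i') ∉ U := by
        rw [← e]
        refine hiso _ hu _ (by omega) ?_
        rw [abs_neg, Nat.abs_cast]
        omega
      rw [e, ← hf _ hnU] at hi3
      exact hi3 (hx _ (by omega))
    · by_contra hcon
      push Not at hcon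
      obtain ⟨i, hi1, hi2, hi3⟩ := hR _ hu c
      obtain ⟨i', rfl⟩ : ∃ i' : ℕ, i = i' := ⟨i.toNat, by omega⟩
      have e : x * a ^ j * a ^ (i' : ℤ) = x * a ^ (j + i') := by
        rw [zpow_natCast, pow_add]; ring
      have hnU : x * a ^ (j + i') ∉ U := by
        rw [← e]
        refine hiso _ hu _ (by omega) ?_
        rw [Nat.abs_cast]
        omega
      rw [e, ← hf _ hnU] at hi3
      exact hi3 (hx _ (by omega))
  -- uniqueness of the position
  have uniq : ∀ f : F → ZMod 2, (∀ x, x ∉ U → f x = m x) → ∀ x, (∀ j < L, f (x * a ^ j) = c) →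
      ∀ j, j < L → x * a ^ j ∈ U → ∀ j', j' < L → x * a ^ j' ∈ U → j' = j := by
    intro f hf x hx j hj hu j' hj' hu'
    by_contra hne
    obtain ⟨b1, b2⟩ := key f hf x hx j hj hu
    obtain ⟨hK2, hKn'⟩ := hK _ hu
    refine hiso _ hu ((j' : ℤ) - j) (by omega) ?_ (by rw [swap_shift a ha x j' j]; exact hu')
    rw [abs_le]
    constructor <;> omega
  -- the swap map
  let φ : F → F := fun x =>
    if h : ∃ j, j < L ∧ x * a ^ j ∈ U then pr (x * a ^ h.choose) * (a ^ h.choose)⁻¹ else x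
  have φ_eq : ∀ f : F → ZMod 2, (∀ x, x ∉ U → f x = m x) → ∀ x, (∀ j < L, f (x * a ^ j) = c) →
      ∀ j, j < L → x * a ^ j ∈ U → φ x = pr (x * a ^ j) * (a ^ j)⁻¹ := by
    intro f hf x hx j hj hu
    have h : ∃ j, j < L ∧ x * a ^ j ∈ U := ⟨j, hj, hu⟩
    have e : h.choose = j := uniq f hf x hx j hj hu _ h.choose_spec.1 h.choose_spec.2
    show (if h : ∃ j, j < L ∧ x * a ^ j ∈ U then pr (x * a ^ h.choose) * (a ^ h.choose)⁻¹
      else x) = _
    rw [dif_pos h, e]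
  have φ_ne : ∀ x, (¬ ∃ j, j < L ∧ x * a ^ j ∈ U) → φ x = x := by
    intro x h
    show (if h : ∃ j, j < L ∧ x * a ^ j ∈ U then pr (x * a ^ h.choose) * (a ^ h.choose)⁻¹
      else x) = _
    rw [dif_neg h]
  -- the values of the swapped element
  have vals : ∀ f : F → ZMod 2, (∀ x, x ∉ U → f x = m x) → ∀ x, (∀ j < L, f (x * a ^ j) = c) →
      ∀ j, j < L → x * a ^ j ∈ U → ∀ i, i < L → i ≠ j →
      m (pr (x * a ^ j) * (a ^ j)⁻¹ * a ^ i) = c ∧
        pr (x * a ^ j) * (a ^ j)⁻¹ * a ^ i ∉ U := by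
    intro f hf x hx j hj hu i hi hij
    obtain ⟨b1, b2⟩ := key f hf x hx j hj hu
    obtain ⟨hK2, hKn'⟩ := hK _ hu
    rw [swap_shift' a ha]
    have hne : (i : ℤ) - j ≠ 0 := by omega
    have hle : |(i : ℤ) - j| ≤ K := by rw [abs_le]; constructor <;> omega
    have hle' : |(i : ℤ) - j| ≤ n := by rw [abs_le]; constructor <;> omega
    refine ⟨?_, hiso _ (hprU _ hu) _ hne hle'⟩
    rw [hwin _ hu _ hne hle, swap_shift a ha x i j]
    have hnU : x * a ^ i ∉ U := by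
      rw [← swap_shift a ha x i j]
      exact hiso _ hu _ hne hle'
    rw [← hf _ hnU]
    exact hx i hi
  have ctr : ∀ x j, pr (x * a ^ j) * (a ^ j)⁻¹ * a ^ j = pr (x * a ^ j) := by
    intro x j
    have : a ^ j ≠ 0 := pow_ne_zero _ ha
    field_simp
  -- membership
  have mg : ∀ x, x ≠ 0 → (∀ j < L, m (x * a ^ j) = c) → φ x ≠ 0 ∧ ∀ j < L, g (φ x * a ^ j) = c := by
    intro x hx0 hx
    by_cases h : ∃ j, j < L ∧ x * a ^ j ∈ U
    · obtain ⟨j, hj, hu⟩ := h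
      rw [φ_eq m (fun _ _ => rfl) x hx j hj hu]
      refine ⟨mul_ne_zero (hU0 _ (hprU _ hu)) (inv_ne_zero (pow_ne_zero _ ha)), ?_⟩
      intro i hi
      by_cases hij : i = j
      · subst hij
        rw [ctr, gU _ (hprU _ hu), hcen _ hu, swap_zmod2']
        exact hx i hi
      · obtain ⟨h1, h2⟩ := vals m (fun _ _ => rfl) x hx j hj hu i hi hij
        rw [gN _ h2, h1]
    · rw [φ_ne x h]
      refine ⟨hx0, fun i hi => ?_⟩
      rw [gN _ (fun hU => h ⟨i, hi, hU⟩)]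
      exact hx i hi
  have gm : ∀ x, x ≠ 0 → (∀ j < L, g (x * a ^ j) = c) → φ x ≠ 0 ∧ ∀ j < L, m (φ x * a ^ j) = c := by
    intro x hx0 hx
    by_cases h : ∃ j, j < L ∧ x * a ^ j ∈ U
    · obtain ⟨j, hj, hu⟩ := h
      rw [φ_eq g gN x hx j hj hu]
      refine ⟨mul_ne_zero (hU0 _ (hprU _ hu)) (inv_ne_zero (pow_ne_zero _ ha)), ?_⟩
      intro i hi
      by_cases hij : i = j
      · subst hij
        rw [ctr, hcen _ hu, ← gU _ hu]
        exact hx i hi
      · exact (vals g gN x hx j hj hu i hi hij).1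
    · rw [φ_ne x h]
      refine ⟨hx0, fun i hi => ?_⟩
      rw [← gN _ (fun hU => h ⟨i, hi, hU⟩)]
      exact hx i hi
  -- involution
  have inv_aux : ∀ f f' : F → ZMod 2, (∀ x, x ∉ U → f x = m x) → (∀ x, x ∉ U → f' x = m x) →
      (∀ x, x ≠ 0 → (∀ j < L, f (x * a ^ j) = c) → φ x ≠ 0 ∧ ∀ j < L, f' (φ x * a ^ j) = c) →
      ∀ x, x ≠ 0 → (∀ j < L, f (x * a ^ j) = c) → φ (φ x) = x := by
    intro f f' hf hf' hff x hx0 hx
    by_cases h : ∃ j, j < L ∧ x * a ^ j ∈ U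
    · obtain ⟨j, hj, hu⟩ := h
      have e1 := φ_eq f hf x hx j hj hu
      have h2 := hff x hx0 hx
      have hmem : φ x * a ^ j ∈ U := by
        rw [e1, ctr]; exact hprU _ hu
      rw [φ_eq f' hf' (φ x) h2.2 j hj hmem, e1, ctr, hpr _ hu]
      have : a ^ j ≠ 0 := pow_ne_zero _ ha
      field_simp
    · rw [φ_ne x h, φ_ne x h]
  unfold NC
  refine Finset.card_nbij' φ φ ?_ ?_ ?_ ?_
  · intro x hx
    simp only [Finset.coe_filter, Finset.mem_univ, true_and, Set.mem_ofPred_eq] at hx ⊢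
    exact gm x hx.1 hx.2
  · intro x hx
    simp only [Finset.coe_filter, Finset.mem_univ, true_and, Set.mem_ofPred_eq] at hx ⊢
    exact mg x hx.1 hx.2
  · intro x hx
    simp only [Finset.coe_filter, Finset.mem_univ, true_and, Set.mem_ofPred_eq] at hx
    exact inv_aux g m gN (fun _ _ => rfl) gm x hx.1 hx.2
  · intro x hx
    simp only [Finset.coe_filter, Finset.mem_univ, true_and, Set.mem_ofPred_eq] at hx
    exact inv_aux m g (fun _ _ => rfl) gN mg x hx.1 hx.2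

end

end RunMult
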