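import Pool.Agent.Lib.MP_d16eef_co.Basic

/-! The traces of `a ^ t` and `a ^ (-t)` are not all equal. -/

namespace RunMult

open Finset

variable {F : Type} [Field F] [Fintype F] [DecidableEq F] [Algebra (ZMod 2) F]

omit [DecidableEq F] in
theorem exists_tau (n : ℕ) (hn : 3 ≤ n) (hF : Fintype.card F = 2 ^ n) (a : F)
    (ha : orderOf a = 2 ^ n - 1) : ∃ t : ℕ, 1 ≤ t ∧ t ≤ n ∧ tr (a ^ t) ≠ tr (a ^ t)⁻¹ := by
  classical
  by_contra hcon
  push Not at hcon
  obtain ⟨-, ha0⟩ := gen_ne_zero n hF a ha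
  have hT : ∀ i : ℤ, |i| ≤ n → tr (a ^ i) = tr (a ^ (-i)) := by
    intro i hi
    rcases lt_trichotomy i 0 with h | h | h
    · obtain ⟨m, hm⟩ : ∃ m : ℕ, i = -(m : ℤ) := ⟨(-i).toNat, by omega⟩
      subst hm
      rw [abs_neg, Nat.abs_cast] at hi
      have := hcon m (by omega) (by exact_mod_cast hi)
      rw [neg_neg, zpow_neg, zpow_natCast]
      exact this.symm
    · subst h; simp
    · obtain ⟨m, hm⟩ : ∃ m : ℕ, i = (m : ℤ) := ⟨i.toNat, by omega⟩
      subst hm
      rw [Nat.abs_cast] at hi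
      have := hcon m (by omega) (by exact_mod_cast hi)
      rw [zpow_neg, zpow_natCast]
      exact this
  set p := minpoly (ZMod 2) a with hp
  have hdeg : p.natDegree < n + 1 := by
    have := minpoly.natDegree_le (A := ZMod 2) (B := F) a
    rw [finrank_eq' n hF, ← hp] at this
    omega
  have hsum : ∀ z : F, Polynomial.aeval z p = ∑ k ∈ range (n + 1), p.coeff k • z ^ k := by
    intro z
    exact Polynomial.aeval_eq_sum_range' hdeg z
  have hP : Polynomial.aeval a⁻¹ p = 0 := by
    have hc := card_window n hF a ha (range n) (fun i hi => mem_range.mp hi) (fun _ => 0) 1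
      one_ne_zero
    rw [card_range, Nat.sub_self, pow_zero, card_eq_one] at hc
    obtain ⟨z, hz⟩ := hc
    have h0 : (0 : F) ∈ ({z} : Finset F) := by
      rw [← hz]; simp [tr_zero]
    have h1 : Polynomial.aeval a⁻¹ p ∈ ({z} : Finset F) := by
      rw [← hz]
      simp only [mem_filter, mem_univ, true_and, one_mul]
      intro i hi
      have hi' := mem_range.mp hi
      rw [hsum, sum_mul, tr_sum]
      have h2 : ∀ k ∈ range (n + 1), tr (p.coeff k • (a⁻¹) ^ k * a ^ i) =
          tr (p.coeff k • a ^ k * (a⁻¹) ^ i) := by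
        intro k hk
        have hk' := mem_range.mp hk
        rw [smul_mul_assoc, smul_mul_assoc, tr_smul, tr_smul]
        congr 1
        have h3 : (a⁻¹) ^ k * a ^ i = a ^ ((i : ℤ) - k) := by
          rw [zpow_sub₀ ha0, zpow_natCast, zpow_natCast, inv_pow, mul_comm, div_eq_mul_inv]
        have h4 : a ^ k * (a⁻¹) ^ i = a ^ (-((i : ℤ) - k)) := by
          rw [neg_sub, zpow_sub₀ ha0, zpow_natCast, zpow_natCast, inv_pow, div_eq_mul_inv]
        rw [h3, h4]
        exact hT _ (by rw [abs_le]; constructor <;> omega)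
      rw [sum_congr rfl h2, ← tr_sum, ← sum_mul, ← hsum, hp, minpoly.aeval, zero_mul, tr_zero]
    rw [mem_singleton] at h0 h1
    rw [h1, ← h0]
  have h11 : (1 : F) + 1 = 0 := by
    have := two_eq_zero' F
    rw [← one_add_one_eq_two] at this; exact this
  have hpow2 : 3 < 2 ^ n - 1 := by
    have : 2 ^ 3 ≤ 2 ^ n := Nat.pow_le_pow_right (by norm_num) hn
    omega
  have ha1 : a ≠ 1 := by
    rintro rfl
    rw [orderOf_one] at ha
    omega
  have h1a : 1 + a ≠ 0 := by
    intro h
    apply ha1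
    have : a + 1 = 1 + 1 := by rw [h11, add_comm]; exact h
    exact add_right_cancel this
  obtain ⟨t, -, ht⟩ := exists_pow_eq n hF a ha (1 + a) h1a
  have hdvd : p ∣ (Polynomial.X ^ t + Polynomial.X + 1 : Polynomial (ZMod 2)) := by
    apply minpoly.dvd
    simp only [map_add, map_pow, Polynomial.aeval_X, map_one]
    rw [ht]
    linear_combination (1 + a) * h11
  obtain ⟨r, hr⟩ := hdvd
  have h5 := congrArg (Polynomial.aeval a⁻¹) hr
  rw [map_mul, hP, zero_mul] at h5
  simp only [map_add, map_pow, Polynomial.aeval_X, map_one] at h5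
  rw [inv_pow, ht] at h5
  have h6 : a + (1 + a) + a * (1 + a) = 0 := by
    have h7 : ((1 + a)⁻¹ + a⁻¹ + 1) * (a * (1 + a)) = 0 := by rw [h5, zero_mul]
    have h8 : ((1 + a)⁻¹ + a⁻¹ + 1) * (a * (1 + a)) = a + (1 + a) + a * (1 + a) := by
      field_simp
    rw [← h8]; exact h7
  have h9 : a ^ 3 = 1 := by
    have h10 : a ^ 2 + a + 1 = 0 := by linear_combination h6 - a * h11
    linear_combination (a - 1) * h10
  have := orderOf_dvd_of_pow_eq_one h9
  rw [ha] at this
  have := Nat.le_of_dvd (by norm_num) this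
  omega

end RunMult
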