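import Pool.Agent.Lib.MP_d16eef_co.Transfer
import Pool.Agent.Lib.MP_d16eef_co.Swap
import Pool.Agent.Lib.MP_d16eef_co.RunNC
import Pool.Agent.Lib.MP_d16eef_co.SpanFail
import Pool.Agent.Lib.MP_d16eef_co.AutoFail
import Pool.Agent.Lib.MP_d16eef_co.Parity
import Pool.Agent.Lib.MP_d16eef_co.Tau

/-! The core construction. -/

namespace RunMult

open Finset

variable {F : Type} [Field F] [Fintype F] [DecidableEq F] [Algebra (ZMod 2) F]

/-- the flipped set -/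
def USet (x d : F) (n : ℕ) : Finset F :=
  (range n ×ˢ (univ : Finset Bool)).image fun q => uu x d q.1 q.2

omit [Fintype F] [Algebra (ZMod 2) F] in
theorem mem_USet (x d : F) (n : ℕ) (u : F) :
    u ∈ USet x d n ↔ ∃ s < n, ∃ e : Bool, uu x d s e = u := by
  unfold USet
  simp only [mem_image, mem_product, mem_range, mem_univ, and_true, Prod.exists]
  constructor
  · rintro ⟨s, e, hs, h⟩; exact ⟨s, hs, e, h⟩
  · rintro ⟨s, hs, e, h⟩; exact ⟨s, e, hs, h⟩

omit [DecidableEq F] [Fintype F] in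
theorem uu_sq (x d : F) (s : ℕ) (e : Bool) : uu x d s e ^ 2 = uu x d (s + 1) e := by
  unfold uu
  have h := add_pow2 (x ^ (2 ^ s)) (if e then d ^ (2 ^ s) else 0) 1
  rw [pow_one] at h
  rw [h]
  congr 1
  · rw [← pow_mul, ← pow_succ]
  · cases e
    · simp
    · simp only [if_true]
      rw [← pow_mul, ← pow_succ]

omit [DecidableEq F] [Algebra (ZMod 2) F] in
theorem uu_n (n : ℕ) (hF : Fintype.card F = 2 ^ n) (x d : F) (e : Bool) :
    uu x d n e = uu x d 0 e := by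
  unfold uu
  have h : ∀ y : F, y ^ (2 ^ n) = y := by
    intro y
    rw [← hF]; exact FiniteField.pow_card y
  rw [h, h]
  simp

omit [DecidableEq F] [Fintype F] in
theorem uu_not (x d : F) (s : ℕ) (e : Bool) : uu x d s (!e) = uu x d s e + d ^ (2 ^ s) := by
  have h2 : d ^ (2 ^ s) + d ^ (2 ^ s) = 0 := by
    rw [← two_mul, two_eq_zero' F, zero_mul]
  unfold uu
  cases e
  · simp
  · simp [add_assoc, h2]

/-- the core construction, refined form -/
theorem adm_core2 (n K τ : ℕ) (hn : 3 ≤ n) (hK : 2 ≤ K) (hF : Fintype.card F = 2 ^ n)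
    (a : F) (ha : orderOf a = 2 ^ n - 1) (d x η : F) (hd1 : tr d = 1)
    (hd : ∀ s : ℕ, ∀ i : ℤ, i ≠ 0 → |i| ≤ K → tr (d ^ (2 ^ s) * a ^ i) = 0)
    (hR : ∀ s < n, ∀ c, ∃ i : ℤ, 1 ≤ i ∧ i ≤ K ∧ tr (x ^ (2 ^ s) * a ^ i) ≠ c)
    (hL : ∀ s < n, ∀ c, ∃ i : ℤ, 1 ≤ i ∧ i ≤ K ∧ tr (x ^ (2 ^ s) * a ^ (-i)) ≠ c)
    (hdist : ∀ s < n, ∀ s' < n, ∀ e e' : Bool, uu x d s e = uu x d s' e' → s = s' ∧ e = e')
    (hiso : ∀ s < n, ∀ s' < n, ∀ e e' : Bool, ∀ j : ℤ, j ≠ 0 → |j| ≤ ((2 * K - 2 : ℕ) : ℤ) →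
      uu x d s e * a ^ j ≠ uu x d s' e')
    (hη : ∀ l < n, tr (η * a ^ l) = if l = 0 then 1 else 0)
    (hx : ∀ l, 1 ≤ l → l < n → ∀ s < n, ∀ e : Bool, x * a ^ l ≠ uu x d s e)
    (hP3 : ∀ l < n, ∀ s < n, ∀ e : Bool, (x + η) * a ^ l ≠ uu x d s e)
    (hτ1 : 1 ≤ τ) (hτ2 : τ < 2 ^ n - 1) (hτ3 : tr (a ^ τ) ≠ tr (a ^ τ)⁻¹)
    (hτ4 : ∀ s < n, ∀ s' < n, ∀ e e' : Bool, uu x d s e * a ^ τ ≠ uu x d s' e') :
    Adm n := by
  obtain ⟨-, ha0⟩ : 1 ≤ n ∧ a ≠ 0 := gen_ne_zero n hF a ha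
  set U := USet x d n with hU
  have hmem : ∀ u, u ∈ U ↔ ∃ s < n, ∃ e : Bool, uu x d s e = u := fun u => mem_USet x d n u
  have hmem' : ∀ s < n, ∀ e, uu x d s e ∈ U := fun s hs e => (hmem _).mpr ⟨s, hs, e, rfl⟩
  have hU0 : ∀ u ∈ U, u ≠ 0 := by
    intro u hu h0
    obtain ⟨s, hs, e, h⟩ := (hmem u).mp hu
    refine hiso s hs s hs e e 1 one_ne_zero (by simp; omega) ?_
    rw [h, h0, zero_mul]
  -- index of an element
  have hidx : ∀ u ∈ U, ∃ q : ℕ × Bool, q.1 < n ∧ uu x d q.1 q.2 = u := by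
    intro u hu
    obtain ⟨s, hs, e, h⟩ := (hmem u).mp hu
    exact ⟨(s, e), hs, h⟩
  choose! q hq1 hq2 using hidx
  set pr : F → F := fun u => uu x d (q u).1 (!(q u).2) with hpr
  have hqq : ∀ s < n, ∀ e, q (uu x d s e) = (s, e) := by
    intro s hs e
    have h1 := hq1 _ (hmem' s hs e)
    have h2 := hq2 _ (hmem' s hs e)
    obtain ⟨h3, h4⟩ := hdist _ h1 _ hs _ _ h2
    exact Prod.ext h3 h4
  have hprU : ∀ u ∈ U, pr u ∈ U := fun u hu => hmem' _ (hq1 u hu) _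
  have hprpr : ∀ u ∈ U, pr (pr u) = u := by
    intro u hu
    simp only [hpr]
    rw [hqq _ (hq1 u hu)]
    simp only [Bool.not_not]
    exact hq2 u hu
  have hprd : ∀ u ∈ U, pr u = u + d ^ (2 ^ (q u).1) := by
    intro u hu
    simp only [hpr]
    rw [uu_not, hq2 u hu]
  have hcen : ∀ u ∈ U, tr (pr u) = tr u + 1 := by
    intro u hu
    rw [hprd u hu, tr_add, tr_pow2, hd1]
  have hwin : ∀ u ∈ U, ∀ i : ℤ, i ≠ 0 → |i| ≤ K → tr (pr u * a ^ i) = tr (u * a ^ i) := by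
    intro u hu i hi hiK
    rw [hprd u hu, add_mul, tr_add, hd _ i hi hiK, add_zero]
  have hbit : ∀ u ∈ U, ∀ i : ℤ, i ≠ 0 → |i| ≤ K →
      tr (u * a ^ i) = tr (x ^ (2 ^ (q u).1) * a ^ i) := by
    intro u hu i hi hiK
    conv_lhs => rw [← hq2 u hu]
    unfold uu
    rw [add_mul, tr_add]
    cases (q u).2
    · simp [tr_zero]
    · simp only [if_true]
      rw [hd _ i hi hiK, add_zero]
  have hR' : ∀ u ∈ U, ∀ c, ∃ i : ℤ, 1 ≤ i ∧ i ≤ K ∧ tr (u * a ^ i) ≠ c := by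
    intro u hu c
    obtain ⟨i, h1, h2, h3⟩ := hR _ (hq1 u hu) c
    refine ⟨i, h1, h2, ?_⟩
    rwa [hbit u hu i (by omega) (by rw [abs_of_nonneg (by omega)]; exact h2)]
  have hL' : ∀ u ∈ U, ∀ c, ∃ i : ℤ, 1 ≤ i ∧ i ≤ K ∧ tr (u * a ^ (-i)) ≠ c := by
    intro u hu c
    obtain ⟨i, h1, h2, h3⟩ := hL _ (hq1 u hu) c
    refine ⟨i, h1, h2, ?_⟩
    rwa [hbit u hu (-i) (by omega) (by rw [abs_neg, abs_of_nonneg (by omega)]; exact h2)]
  have hiso' : ∀ u ∈ U, ∀ i : ℤ, i ≠ 0 → |i| ≤ ((2 * K - 2 : ℕ) : ℤ) → u * a ^ i ∉ U := by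
    intro u hu i hi hiK hmu
    obtain ⟨s, hs, e, h⟩ := (hmem _).mp hmu
    refine hiso _ (hq1 u hu) s hs (q u).2 e i hi hiK ?_
    rw [hq2 u hu, h]
  have hsw := NC_swap a ha0 (fun y : F => tr y) U pr K (2 * K - 2) (by omega) hU0 hprU hprpr hcen
    hwin hiso' hR' hL'
  set g : F → ZMod 2 := fun y => tr y + if y ∈ U then 1 else 0 with hg
  have hRC : ∀ c k, 1 ≤ k → RC g a c k = RC (fun y : F => tr y) a c k := by
    intro c k _
    have h1 := RC_eq_NC g a ha0 c k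
    have h2 := RC_eq_NC (fun y : F => tr y) a ha0 c k
    rw [hsw c k, hsw c (k + 1), hsw c (k + 2), ← h2] at h1
    exact_mod_cast h1
  -- invariance under squaring
  have hpow : ∀ y : F, y ^ (2 ^ n) = y := by
    intro y
    rw [← hF]; exact FiniteField.pow_card y
  have hsqU : ∀ y, y ∈ U → y ^ 2 ∈ U := by
    intro y hy
    obtain ⟨s, hs, e, h⟩ := (hmem y).mp hy
    rw [← h, uu_sq]
    rcases Nat.lt_or_ge (s + 1) n with h1 | h1
    · exact hmem' _ h1 e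
    · have : s + 1 = n := by omega
      rw [this, uu_n n hF]
      exact hmem' 0 (by omega) e
  have hsqU' : ∀ y, y ^ 2 ∈ U → y ∈ U := by
    intro y hy
    have h1 : ∀ m, y ^ (2 ^ (m + 1)) ∈ U := by
      intro m
      induction m with
      | zero => simpa using hy
      | succ m ih =>
        have := hsqU _ ih
        rwa [← pow_mul, ← pow_succ] at this
    have h2 := h1 (n - 1)
    rw [show n - 1 + 1 = n by omega, hpow] at h2
    exact h2
  have hgsq : ∀ y, g (y ^ 2) = g y := by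
    intro y
    simp only [hg]
    rw [tr_sq]
    congr 1
    by_cases hy : y ∈ U
    · rw [if_pos hy, if_pos (hsqU y hy)]
    · rw [if_neg hy, if_neg fun h => hy (hsqU' y h)]
  -- span
  have hxU : x ∈ U := (hmem x).mpr ⟨0, by omega, false, by simp [uu]⟩
  have hP3' := p3_fail n (by omega) a U x η hxU (hU0 x hxU)
    (by
      intro l h1 h2 hl
      obtain ⟨s, hs, e, h⟩ := (hmem _).mp hl
      exact hx l h1 h2 s hs e h.symm) hη
    (by
      intro l hl hl2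
      obtain ⟨s, hs, e, h⟩ := (hmem _).mp hl2
      exact hP3 l hl s hs e h.symm)
  -- autocorrelation
  have hw0 : a ^ τ ≠ 0 := pow_ne_zero _ ha0
  have hw1 : a ^ τ ≠ 1 := by
    intro h
    have := orderOf_dvd_of_pow_eq_one h
    rw [ha] at this
    have := Nat.le_of_dvd (by omega) this
    omega
  have hformula := auto_formula n (by omega) hF U hU0 (a ^ τ) hw0 hw1
    (by
      intro u hu hmu
      obtain ⟨s, hs, e, h⟩ := (hmem _).mp hmu
      refine hτ4 _ (hq1 u hu) s hs (q u).2 e ?_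
      rw [hq2 u hu, h])
  have hinjOn : Set.InjOn (fun q : ℕ × Bool => uu x d q.1 q.2)
      ((range n ×ˢ (univ : Finset Bool) : Finset (ℕ × Bool)) : Set (ℕ × Bool)) := by
    intro p hp p' hp' h
    have h1 : p.1 < n := by
      have := mem_coe.mp hp
      exact mem_range.mp (mem_product.mp this).1
    have h2 : p'.1 < n := by
      have := mem_coe.mp hp'
      exact mem_range.mp (mem_product.mp this).1
    obtain ⟨h3, h4⟩ := hdist _ h1 _ h2 _ _ h
    exact Prod.ext h3 h4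
  have hUcard : Even U.card := by
    have : U.card = n * 2 := by
      rw [hU]; unfold USet
      rw [card_image_of_injOn hinjOn, card_product, card_range, card_univ, Fintype.card_bool]
    rw [this]; exact ⟨n, by omega⟩
  have hUsum : ∑ u ∈ U, u = 1 := by
    rw [hU]; unfold USet
    rw [sum_image hinjOn, sum_product]
    have h1 : ∀ s ∈ range n, ∑ e : Bool, uu x d s e = d ^ (2 ^ s) := by
      intro s _
      have h2 : x ^ (2 ^ s) + x ^ (2 ^ s) = 0 := by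
        rw [← two_mul, two_eq_zero' F, zero_mul]
      rw [Fintype.sum_bool]
      unfold uu
      simp only [if_true, Bool.false_eq_true, if_false, add_zero]
      rw [add_right_comm, h2, zero_add]
    rw [sum_congr rfl h1, ← tr_eq_sum n hF, hd1, map_one]
  have hpar := parity_ne U hUcard hUsum (a ^ τ) hτ3
  refine adm_of_field n (by omega) hF a ha g hgsq hRC hP3' ⟨τ, by omega, hτ2, ?_⟩
  intro hcontra
  apply hpar
  have h1 : ((univ.filter fun y : F => y ≠ 0 ∧ g y ≠ g (y * a ^ τ)).card : ℤ) = 2 ^ (n - 1) := by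
    rw [hcontra]; push_cast; rfl
  simp only [hg] at h1
  rw [hformula] at h1
  linarith

/-- the core construction -/
theorem adm_core (n K : ℕ) (hn : 3 ≤ n) (hKn : 2 * K ≤ n + 2) (hF : Fintype.card F = 2 ^ n)
    (a : F) (ha : orderOf a = 2 ^ n - 1) (d x η : F) (hd1 : tr d = 1)
    (hd : ∀ s : ℕ, ∀ i : ℤ, i ≠ 0 → |i| ≤ K → tr (d ^ (2 ^ s) * a ^ i) = 0)
    (hR : ∀ s < n, ∀ c, ∃ i : ℤ, 1 ≤ i ∧ i ≤ K ∧ tr (x ^ (2 ^ s) * a ^ i) ≠ c)
    (hL : ∀ s < n, ∀ c, ∃ i : ℤ, 1 ≤ i ∧ i ≤ K ∧ tr (x ^ (2 ^ s) * a ^ (-i)) ≠ c)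
    (hinj : ∀ s < n, ∀ s' < n, ∀ e e' : Bool, ∀ j : ℤ, |j| ≤ n →
      uu x d s e * a ^ j = uu x d s' e' → j = 0 ∧ s = s' ∧ e = e')
    (hη : ∀ l < n, tr (η * a ^ l) = if l = 0 then 1 else 0)
    (hP3 : ∀ l < n, ∀ s < n, ∀ e : Bool, (x + η) * a ^ l ≠ uu x d s e) :
    Adm n := by
  have hK : 2 ≤ K := by
    obtain ⟨i, h1, h2, h3⟩ := hR 0 (by omega) (tr (x ^ (2 ^ 0) * a ^ (1 : ℤ)))
    rcases Nat.lt_or_ge K 2 with h | h
    · have : i = 1 := by omega
      rw [this] at h3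
      exact absurd rfl h3
    · exact h
  obtain ⟨τ, hτ1, hτ2, hτ3⟩ := exists_tau n hn hF a ha
  have hpn : n < 2 ^ n - 1 := by
    have h1 : ∀ m : ℕ, 3 ≤ m → m + 1 < 2 ^ m := by
      intro m hm
      induction m, hm using Nat.le_induction with
      | base => norm_num
      | succ m hm ih => rw [pow_succ]; omega
    have := h1 n hn
    omega
  refine adm_core2 n K τ hn hK hF a ha d x η hd1 hd hR hL ?_ ?_ hη ?_ hP3 hτ1 (by omega) hτ3 ?_
  · intro s hs s' hs' e e' h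
    exact (hinj s hs s' hs' e e' 0 (by simp) (by simpa using h)).2
  · intro s hs s' hs' e e' j hj hjK h
    exact hj (hinj s hs s' hs' e e' j (by
      refine hjK.trans ?_
      have : 2 * K - 2 ≤ n := by omega
      exact_mod_cast this) h).1
  · intro l h1 h2 s hs e h
    have := (hinj 0 (by omega) s hs false e l (by
      rw [abs_of_nonneg (by positivity)]; exact_mod_cast h2.le) (by
      rw [zpow_natCast]; simpa [uu] using h)).1
    omega
  · intro s hs s' hs' e e' h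
    have := (hinj s hs s' hs' e e' τ (by
      rw [abs_of_nonneg (by positivity)]; exact_mod_cast hτ2) (by
      rw [zpow_natCast]; exact h)).1
    omega

end RunMult
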