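import Pool.Agent.Lib.MP_d16eef_co.Roots

/-! Existence of the base point `x` by a union bound. -/

namespace RunMult

open Finset

variable {F : Type} [Field F] [Fintype F] [DecidableEq F] [Algebra (ZMod 2) F]

theorem exx_num (n : ℕ) (hn : 44 ≤ n) :
    (4 * n ^ 2 * (2 * n + 1) + 2 * n ^ 2) * 2 ^ (n / 2) < 2 ^ (n - 1) := by
  have h1 : ∀ m : ℕ, 22 ≤ m →
      4 * (2 * m + 1) ^ 2 * (2 * (2 * m + 1) + 1) + 2 * (2 * m + 1) ^ 2 < 2 ^ (m - 1) := by
    intro m hm
    induction m, hm using Nat.le_induction with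
    | base => norm_num
    | succ m hm ih =>
      have h2 : 2 ^ (m + 1 - 1) = 2 * 2 ^ (m - 1) := by
        rw [← pow_succ']; congr 1; omega
      rw [h2]
      have h3 : 4 * (2 * (m + 1) + 1) ^ 2 * (2 * (2 * (m + 1) + 1) + 1) +
          2 * (2 * (m + 1) + 1) ^ 2 ≤
          2 * (4 * (2 * m + 1) ^ 2 * (2 * (2 * m + 1) + 1) + 2 * (2 * m + 1) ^ 2) := by
        obtain ⟨k, rfl⟩ := Nat.exists_eq_add_of_le hm
        nlinarith [Nat.zero_le (k ^ 3), Nat.zero_le (k ^ 2), Nat.zero_le k]
      omega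
  obtain ⟨m, hm⟩ : ∃ m, m = n / 2 := ⟨_, rfl⟩
  have hm22 : 22 ≤ m := by omega
  have h2 := h1 m hm22
  have h3 : n ≤ 2 * m + 1 := by omega
  have h4 : 4 * n ^ 2 * (2 * n + 1) + 2 * n ^ 2 < 2 ^ (m - 1) := by
    refine lt_of_le_of_lt ?_ h2
    gcongr
  rw [← hm]
  calc (4 * n ^ 2 * (2 * n + 1) + 2 * n ^ 2) * 2 ^ m < 2 ^ (m - 1) * 2 ^ m :=
        Nat.mul_lt_mul_of_pos_right h4 (by positivity)
    _ = 2 ^ (m - 1 + m) := (pow_add _ _ _).symm
    _ ≤ 2 ^ (n - 1) := Nat.pow_le_pow_right (by norm_num) (by omega)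

/-- constant windows of conjugates -/
theorem exx_window (n K : ℕ) (hKn : K + 1 ≤ n) (hF : Fintype.card F = 2 ^ n) (a : F)
    (ha : orderOf a = 2 ^ n - 1) (y : F) (hy : y ≠ 0) (s : ℕ) (hs : s < n) (c : ZMod 2) :
    (univ.filter fun x : F => ∀ i ∈ range K, tr (x ^ (2 ^ s) * (y * a ^ i)) = c).card ≤
      2 ^ (n - K) := by
  have h := card_window n hF a ha (range K) (fun i hi => by
    have := mem_range.mp hi; omega) (fun _ => c) y hy
  rw [card_range] at h
  rw [← h]
  refine card_le_card_of_injOn (fun x => x ^ (2 ^ s)) ?_ ?_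
  · intro x hx
    have hx' := (mem_filter.mp (mem_coe.mp hx)).2
    exact mem_coe.mpr (mem_filter.mpr ⟨mem_univ _, hx'⟩)
  · intro x _ z _ hxz
    have hxz' : x ^ (2 ^ s) = z ^ (2 ^ s) := hxz
    have h4 : x ^ (2 ^ n) = z ^ (2 ^ n) := by
      rw [show n = s + (n - s) by omega, pow_add, pow_mul, pow_mul, hxz']
    rwa [roots_pow_card n hF, roots_pow_card n hF] at h4

theorem exists_x (n K : ℕ) (hn : 44 ≤ n) (hK : 8 * n ≤ 2 ^ K) (hKn : K + 1 ≤ n)
    (hF : Fintype.card F = 2 ^ n) (a : F) (ha : orderOf a = 2 ^ n - 1) (d η : F) (hd : d ≠ 0)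
    (hη0 : η ≠ 0) (hηd : η ≠ d) :
    ∃ x : F,
    (∀ s < n, ∀ c, ∃ i : ℤ, 1 ≤ i ∧ i ≤ K ∧ tr (x ^ (2 ^ s) * a ^ i) ≠ c) ∧
    (∀ s < n, ∀ c, ∃ i : ℤ, 1 ≤ i ∧ i ≤ K ∧ tr (x ^ (2 ^ s) * a ^ (-i)) ≠ c) ∧
    (∀ s < n, ∀ s' < n, ∀ e e' : Bool, ∀ j : ℤ, |j| ≤ n →
      uu x d s e * a ^ j = uu x d s' e' → j = 0 ∧ s = s' ∧ e = e') ∧
    (∀ l < n, ∀ s < n, ∀ e : Bool, (x + η) * a ^ l ≠ uu x d s e) := by
  classical
  obtain ⟨-, ha0⟩ := gen_ne_zero n hF a ha
  have hn1 : 1 ≤ n := by omega
  have hbig : n < 2 ^ n - 1 := by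
    have h1 : ∀ m : ℕ, 3 ≤ m → m + 1 < 2 ^ m := by
      intro m hm
      induction m, hm using Nat.le_induction with
      | base => norm_num
      | succ m hm ih => rw [pow_succ]; omega
    have := h1 n (by omega)
    omega
  -- `a ^ j = 1` only for `j = 0`
  have haj : ∀ j : ℤ, |j| ≤ n → a ^ j = 1 → j = 0 := by
    intro j hj h
    have h1 : ((2 ^ n - 1 : ℕ) : ℤ) ∣ j := by
      rw [← ha]
      have hu : (Units.mk0 a ha0) ^ j = 1 := by
        apply Units.ext
        rw [Units.val_zpow_eq_zpow_val, Units.val_mk0, Units.val_one, h]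
      have := orderOf_dvd_iff_zpow_eq_one.mpr hu
      rwa [← orderOf_units, Units.val_mk0] at this
    by_contra hj0
    have h2 := Int.le_of_dvd (abs_pos.mpr hj0) ((dvd_abs _ _).mpr h1)
    have h3 : ((2 ^ n - 1 : ℕ) : ℤ) ≤ n := h2.trans hj
    have h4 : 2 ^ n - 1 ≤ n := by exact_mod_cast h3
    omega
  -- the four bad sets
  set B1 : Finset F := ((range n) ×ˢ (univ : Finset (ZMod 2))).biUnion fun q =>
    univ.filter fun x : F => ∀ i ∈ range K, tr (x ^ (2 ^ q.1) * (a * a ^ i)) = q.2 with hB1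
  set B2 : Finset F := ((range n) ×ˢ (univ : Finset (ZMod 2))).biUnion fun q =>
    univ.filter fun x : F => ∀ i ∈ range K,
      tr (x ^ (2 ^ q.1) * (a ^ (-(K : ℤ)) * a ^ i)) = q.2 with hB2
  set T3 : Finset ((ℕ × ℕ) × (Bool × Bool) × ℤ) :=
    ((range n ×ˢ range n) ×ˢ ((univ : Finset Bool) ×ˢ (univ : Finset Bool)) ×ˢ
      (Icc (-(n : ℤ)) n)).filter
      fun q => ¬ (q.2.2 = 0 ∧ q.1.1 = q.1.2 ∧ q.2.1.1 = q.2.1.2) with hT3
  set B3 : Finset F := T3.biUnion fun q =>
    univ.filter fun x : F => uu x d q.1.1 q.2.1.1 * a ^ q.2.2 = uu x d q.1.2 q.2.1.2 with hB3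
  set B4 : Finset F := (range n ×ˢ range n ×ˢ (univ : Finset Bool)).biUnion fun q =>
    univ.filter fun x : F => (x + η) * a ^ q.1 = uu x d q.2.1 q.2.2 with hB4
  have hc1 : B1.card ≤ (n * 2) * 2 ^ (n - K) := by
    have := card_biUnion_le_card_mul ((range n) ×ˢ (univ : Finset (ZMod 2)))
      (fun q => univ.filter fun x : F => ∀ i ∈ range K, tr (x ^ (2 ^ q.1) * (a * a ^ i)) = q.2)
      (2 ^ (n - K)) (by
        intro q hq
        exact exx_window n K hKn hF a ha a ha0 q.1 (mem_range.mp (mem_product.mp hq).1) q.2)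
    rwa [card_product, card_range, card_univ, ZMod.card] at this
  have hc2 : B2.card ≤ (n * 2) * 2 ^ (n - K) := by
    have := card_biUnion_le_card_mul ((range n) ×ˢ (univ : Finset (ZMod 2)))
      (fun q => univ.filter fun x : F => ∀ i ∈ range K,
        tr (x ^ (2 ^ q.1) * (a ^ (-(K : ℤ)) * a ^ i)) = q.2)
      (2 ^ (n - K)) (by
        intro q hq
        exact exx_window n K hKn hF a ha _ (zpow_ne_zero _ ha0) q.1
          (mem_range.mp (mem_product.mp hq).1) q.2)
    rwa [card_product, card_range, card_univ, ZMod.card] at this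
  have hc3 : B3.card ≤ (4 * n ^ 2 * (2 * n + 1)) * 2 ^ (n / 2) := by
    have h1 := card_biUnion_le_card_mul T3
      (fun q => univ.filter fun x : F =>
        uu x d q.1.1 q.2.1.1 * a ^ q.2.2 = uu x d q.1.2 q.2.1.2)
      (2 ^ (n / 2)) (by
        rintro ⟨⟨s, s'⟩, ⟨e, e'⟩, j⟩ hq
        rw [hT3] at hq
        simp only [mem_filter, mem_product, mem_range, mem_univ, true_and, mem_Icc] at hq
        obtain ⟨⟨⟨hs, hs'⟩, hj⟩, hne⟩ := hq
        have hjn : |j| ≤ n := abs_le.mpr hj
        simp only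
        by_cases hcase : s = s' ∧ j = 0
        · -- no solution
          obtain ⟨rfl, rfl⟩ := hcase
          have hee : e ≠ e' := fun h => hne ⟨rfl, rfl, h⟩
          rw [filter_false_of_mem]
          · simp
          · intro x _ h
            rw [zpow_zero, mul_one] at h
            unfold uu at h
            have h2 := add_left_cancel h
            have h3 : d ^ (2 ^ s) ≠ 0 := pow_ne_zero _ hd
            cases e <;> cases e' <;> simp_all
        · refine le_trans (card_le_card ?_) (card_roots_le n hn1 hF s' s hs' hs (a ^ j)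
            ((if e then d ^ (2 ^ s) else 0) * a ^ j + (if e' then d ^ (2 ^ s') else 0))
            (zpow_ne_zero _ ha0) ?_)
          · intro x hx
            simp only [mem_filter, mem_univ, true_and] at hx ⊢
            unfold uu at hx
            have h2 := two_eq_zero' F
            linear_combination (-1 : F) * hx + (x ^ 2 ^ s * a ^ j) * h2 -
              (if e' then d ^ (2 ^ s') else 0) * h2
          · by_cases hss : s = s'
            · right
              intro h
              exact hcase ⟨hss, haj j hjn h⟩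
            · left
              exact fun h => hss h.symm)
    refine h1.trans (Nat.mul_le_mul_right _ ?_)
    refine (card_filter_le _ _).trans ?_
    rw [card_product, card_product, card_product, card_product, card_range, card_univ,
      Fintype.card_bool, Int.card_Icc]
    have h5 : ((n : ℤ) + 1 - -(n : ℤ)).toNat = 2 * n + 1 := by omega
    rw [h5]
    apply le_of_eq
    ring
  have hc4 : B4.card ≤ (2 * n ^ 2) * 2 ^ (n / 2) := by
    have h1 := card_biUnion_le_card_mul (range n ×ˢ range n ×ˢ (univ : Finset Bool))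
      (fun q => univ.filter fun x : F => (x + η) * a ^ q.1 = uu x d q.2.1 q.2.2)
      (2 ^ (n / 2)) (by
        rintro ⟨l, s, e⟩ hq
        simp only [mem_product, mem_range, mem_univ, and_true] at hq
        obtain ⟨hl, hs⟩ := hq
        simp only
        by_cases hcase : s = 0 ∧ l = 0
        · obtain ⟨rfl, rfl⟩ := hcase
          rw [filter_false_of_mem]
          · simp
          · intro x _ h
            rw [pow_zero, mul_one] at h
            unfold uu at h
            rw [pow_zero, pow_one, pow_one] at h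
            have h2 := add_left_cancel h
            cases e
            · exact hη0 (by simpa using h2)
            · exact hηd (by simpa using h2)
        · refine le_trans (card_le_card ?_) (card_roots_le n hn1 hF s 0 hs (by omega) (a ^ l)
            (η * a ^ l + (if e then d ^ (2 ^ s) else 0)) (pow_ne_zero _ ha0) ?_)
          · intro x hx
            simp only [mem_filter, mem_univ, true_and] at hx ⊢
            unfold uu at hx
            have h2 := two_eq_zero' F
            rw [pow_zero, pow_one]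
            linear_combination (-1 : F) * hx + (x * a ^ l) * h2 -
              (if e then d ^ (2 ^ s) else 0) * h2
          · by_cases hss : s = 0
            · right
              intro h
              refine hcase ⟨hss, ?_⟩
              have := haj l (by rw [Nat.abs_cast]; exact_mod_cast hl.le) (by
                rw [zpow_natCast]; exact h)
              exact_mod_cast this
            · left; exact hss)
    refine h1.trans (Nat.mul_le_mul_right _ ?_)
    rw [card_product, card_product, card_range, card_univ, Fintype.card_bool]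
    apply le_of_eq
    ring
  -- an element outside
  have hlt : (B1 ∪ B2 ∪ B3 ∪ B4).card < (univ : Finset F).card := by
    rw [card_univ, hF]
    have h1 : (n * 2) * 2 ^ (n - K) + (n * 2) * 2 ^ (n - K) ≤ 2 ^ (n - 1) := by
      have h2 : 8 * n * 2 ^ (n - K) ≤ 2 ^ n := by
        calc 8 * n * 2 ^ (n - K) ≤ 2 ^ K * 2 ^ (n - K) := Nat.mul_le_mul_right _ hK
          _ = 2 ^ n := by rw [← pow_add]; congr 1; omega
      have h3 : 2 ^ n = 2 * 2 ^ (n - 1) := by
        rw [← pow_succ']; congr 1; omega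
      rw [h3] at h2
      nlinarith
    have h2 := exx_num n hn
    have h3 : 2 ^ n = 2 ^ (n - 1) + 2 ^ (n - 1) := by
      rw [← two_mul, ← pow_succ']; congr 1; omega
    calc (B1 ∪ B2 ∪ B3 ∪ B4).card ≤ B1.card + B2.card + B3.card + B4.card := by
          refine (card_union_le _ _).trans (Nat.add_le_add_right ?_ _)
          refine (card_union_le _ _).trans (Nat.add_le_add_right ?_ _)
          exact card_union_le _ _
      _ ≤ (n * 2) * 2 ^ (n - K) + (n * 2) * 2 ^ (n - K) +
            (4 * n ^ 2 * (2 * n + 1)) * 2 ^ (n / 2) + (2 * n ^ 2) * 2 ^ (n / 2) := by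
          omega
      _ < 2 ^ n := by
          rw [h3]
          have h4 : (4 * n ^ 2 * (2 * n + 1) + 2 * n ^ 2) * 2 ^ (n / 2) =
            (4 * n ^ 2 * (2 * n + 1)) * 2 ^ (n / 2) + (2 * n ^ 2) * 2 ^ (n / 2) := by ring
          omega
  obtain ⟨x, hx⟩ : ∃ x, x ∉ B1 ∪ B2 ∪ B3 ∪ B4 := by
    by_contra hall
    push Not at hall
    have : (univ : Finset F) ⊆ B1 ∪ B2 ∪ B3 ∪ B4 := fun x _ => hall x
    exact absurd (card_le_card this) (by omega)
  simp only [mem_union, not_or] at hx
  obtain ⟨⟨⟨hx1, hx2⟩, hx3⟩, hx4⟩ := hx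
  refine ⟨x, ?_, ?_, ?_, ?_⟩
  · intro s hs c
    by_contra hcon
    push Not at hcon
    apply hx1
    rw [hB1, mem_biUnion]
    refine ⟨(s, c), mem_product.mpr ⟨mem_range.mpr hs, mem_univ _⟩, ?_⟩
    simp only [mem_filter, mem_univ, true_and]
    intro i hi
    have hi' := mem_range.mp hi
    have := hcon (i + 1 : ℤ) (by omega) (by omega)
    rw [← pow_succ']
    rw [show ((i : ℤ) + 1) = ((i + 1 : ℕ) : ℤ) by push_cast; rfl, zpow_natCast] at this
    exact this
  · intro s hs c
    by_contra hcon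
    push Not at hcon
    apply hx2
    rw [hB2, mem_biUnion]
    refine ⟨(s, c), mem_product.mpr ⟨mem_range.mpr hs, mem_univ _⟩, ?_⟩
    simp only [mem_filter, mem_univ, true_and]
    intro i hi
    have hi' := mem_range.mp hi
    have := hcon ((K : ℤ) - i) (by omega) (by omega)
    rw [← zpow_natCast a i, ← zpow_add₀ ha0, show -(K : ℤ) + i = -((K : ℤ) - i) by ring]
    exact this
  · intro s hs s' hs' e e' j hj h
    by_contra hcon
    apply hx3
    rw [hB3, mem_biUnion]
    refine ⟨((s, s'), (e, e'), j), ?_, ?_⟩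
    · rw [hT3]
      simp only [mem_filter, mem_product, mem_range, mem_univ, true_and, mem_Icc]
      exact ⟨⟨⟨hs, hs'⟩, abs_le.mp hj⟩, hcon⟩
    · simp only [mem_filter, mem_univ, true_and]
      exact h
  · intro l hl s hs e h
    apply hx4
    rw [hB4, mem_biUnion]
    refine ⟨(l, s, e), ?_, ?_⟩
    · simp only [mem_product, mem_range, mem_univ, and_true]
      exact ⟨hl, hs⟩
    · simp only [mem_filter, mem_univ, true_and]
      exact h

end RunMult
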