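import Pool.Agent.Lib.MP_d16eef_co.Basic

/-! EXT: the trace conditions on `a` give vanishing bits in the whole window. -/

namespace RunMult

open Finset

section

variable {F : Type} [Field F] [Fintype F] [DecidableEq F] [Algebra (ZMod 2) F]

omit [DecidableEq F] in
private lemma ext_aux (b κ : ℕ) (hb : 1 ≤ b) (E : Finset F)
    (hE : ∀ c, c ∈ E ↔ c ^ (2 ^ b) = c) (a : F) (ha : a ≠ 0) (h : cnd κ E a) :
    ∀ N : ℕ, ∀ i : ℤ, i.natAbs ≤ N → i ≠ 0 → |i| ≤ ((2 * κ : ℕ) : ℤ) →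
      ∀ c ∈ E, tr (c * a ^ i) = 0 := by
  intro N
  induction N with
  | zero =>
    intro i hi hi0
    exact absurd (Int.natAbs_eq_zero.1 (Nat.le_zero.1 hi)) hi0
  | succ N ih =>
    intro i hi hi0 hik c hc
    rcases Int.even_or_odd' i with ⟨k, hk | hk⟩
    · -- even
      have hk0 : k ≠ 0 := by
        rintro rfl
        exact hi0 (by rw [hk, mul_zero])
      have hc' : c ^ (2 ^ (b - 1)) ∈ E := by
        rw [hE]
        have h1 : c ^ (2 ^ b) = c := (hE c).1 hc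
        calc (c ^ (2 ^ (b - 1))) ^ (2 ^ b) = (c ^ (2 ^ b)) ^ (2 ^ (b - 1)) := by
              rw [← pow_mul, ← pow_mul, mul_comm]
          _ = c ^ (2 ^ (b - 1)) := by rw [h1]
      have hsq : (c ^ (2 ^ (b - 1))) ^ 2 = c := by
        rw [← pow_mul, ← pow_succ, Nat.sub_add_cancel hb]
        exact (hE c).1 hc
      have h2 := ih k (by omega) hk0 (by
        rw [abs_le] at hik ⊢
        constructor <;> omega) _ hc'
      have h3 : c * a ^ i = (c ^ (2 ^ (b - 1)) * a ^ k) ^ 2 := by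
        rw [mul_pow, hsq, hk, mul_comm 2 k, zpow_mul]
        exact congrArg (fun z => c * z) (zpow_ofNat (a ^ k) 2)
      rw [h3, tr_sq, h2]
    · -- odd
      have hk1 : -(2 * κ : ℤ) ≤ i ∧ i ≤ 2 * κ := by
        rw [abs_le] at hik
        push_cast at hik
        exact hik
      obtain ⟨l, hl⟩ : ∃ l : ℕ, (l : ℤ) = k + κ := ⟨(k + κ).toNat, by
        rw [Int.toNat_of_nonneg]; omega⟩
      have hl2 : l < 2 * κ := by omega
      have h4 := h l hl2 c hc
      have h5 : a ^ i = a ^ (2 * l) / a ^ (2 * κ - 1) := by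
        rw [div_eq_mul_inv, ← zpow_natCast, ← zpow_natCast, ← zpow_neg, ← zpow_add₀ ha]
        congr 1
        have : 1 ≤ 2 * κ := by omega
        push_cast [this]
        omega
      rw [h5]
      exact h4

/-- EXT -/
theorem cnd_ext (n b κ : ℕ) (hb : 1 ≤ b) (hκ : 1 ≤ κ) (hF : Fintype.card F = 2 ^ n) (E : Finset F)
    (hE : ∀ c, c ∈ E ↔ c ^ (2 ^ b) = c) (a : F) (ha : a ≠ 0) (h : cnd κ E a) (d : F) (hd : d ∈ E) :
    ∀ s : ℕ, ∀ i : ℤ, i ≠ 0 → |i| ≤ ((2 * κ : ℕ) : ℤ) → tr (d ^ (2 ^ s) * a ^ i) = 0 := by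
  intro s i hi0 hik
  have hds : d ^ (2 ^ s) ∈ E := by
    rw [hE]
    have h1 : d ^ (2 ^ b) = d := (hE d).1 hd
    calc (d ^ (2 ^ s)) ^ (2 ^ b) = (d ^ (2 ^ b)) ^ (2 ^ s) := by
          rw [← pow_mul, ← pow_mul, mul_comm]
      _ = d ^ (2 ^ s) := by rw [h1]
  exact ext_aux b κ hb E hE a ha h i.natAbs i le_rfl hi0 hik _ hds

end

end RunMult
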