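import Pool.Agent.Lib.MP_d16eef_co.Basic

/-! SUB: the subfield with `2 ^ b` elements and an element of trace one in it. -/

namespace RunMult

open Finset

section

variable {F : Type} [Field F] [Fintype F] [DecidableEq F] [Algebra (ZMod 2) F]

omit [Algebra (ZMod 2) F] in
private lemma sub_card (n b m : ℕ) (hb : 1 ≤ b) (hn : 1 ≤ n) (hbm : n = b * m)
    (hF : Fintype.card F = 2 ^ n) :
    (univ.filter fun c : F => c ^ (2 ^ b) = c).card = 2 ^ b := by
  classical
  obtain ⟨g, hg⟩ := IsCyclic.exists_generator (α := Fˣ)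
  have hgo : orderOf g = 2 ^ n - 1 := by
    rw [orderOf_eq_card_of_forall_mem_zpowers hg, Nat.card_eq_fintype_card, Fintype.card_units, hF]
  have hb1 : 2 ≤ 2 ^ b := by
    calc 2 = 2 ^ 1 := rfl
      _ ≤ 2 ^ b := Nat.pow_le_pow_right (by norm_num) hb
  have hk : 0 < 2 ^ b - 1 := by omega
  have hdvd : 2 ^ b - 1 ∣ 2 ^ n - 1 := by
    rw [hbm]
    exact Nat.pow_sub_one_dvd_pow_sub_one 2 (Dvd.intro m rfl)
  obtain ⟨t, ht⟩ := hdvd
  have hN : 0 < 2 ^ n - 1 := by
    have : 2 ≤ 2 ^ n := by
      calc 2 = 2 ^ 1 := rfl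
        _ ≤ 2 ^ n := Nat.pow_le_pow_right (by norm_num) hn
    omega
  have ht0 : t ≠ 0 := by
    rintro rfl
    omega
  have hprim : IsPrimitiveRoot (g ^ t) (2 ^ b - 1) := by
    rw [IsPrimitiveRoot.iff_orderOf, orderOf_pow_of_dvd ht0 (by rw [hgo, ht]; exact Dvd.intro_left _ rfl),
      hgo, ht]
    exact Nat.mul_div_cancel _ (Nat.pos_of_ne_zero ht0)
  have hprim' : IsPrimitiveRoot ((g ^ t : Fˣ) : F) (2 ^ b - 1) :=
    hprim.map_of_injective (f := Units.coeHom F) Units.val_injective
  have hset : (univ.filter fun c : F => c ^ (2 ^ b) = c) =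
      insert 0 (Polynomial.nthRootsFinset (2 ^ b - 1) (1 : F)) := by
    ext c
    rw [mem_filter, mem_insert, Polynomial.mem_nthRootsFinset hk]
    constructor
    · rintro ⟨_, hc⟩
      by_cases h0 : c = 0
      · exact Or.inl h0
      · right
        have h1 : c ^ (2 ^ b - 1) * c = 1 * c := by
          rw [← pow_succ, Nat.sub_add_cancel (by omega), hc, one_mul]
        exact mul_right_cancel₀ h0 h1
    · rintro (h0 | h1)
      · refine ⟨mem_univ _, ?_⟩
        rw [h0, zero_pow (by omega)]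
      · refine ⟨mem_univ _, ?_⟩
        have : c ^ (2 ^ b) = c ^ (2 ^ b - 1) * c := by
          rw [← pow_succ, Nat.sub_add_cancel (by omega)]
        rw [this, h1, one_mul]
  rw [hset, card_insert_of_notMem, hprim'.card_nthRootsFinset]
  · omega
  · rw [Polynomial.mem_nthRootsFinset hk, zero_pow (by omega)]
    exact zero_ne_one

omit [DecidableEq F] in
private lemma sub_pow (b : ℕ) (c : F) (hc : c ^ (2 ^ b) = c) (q r : ℕ) :
    c ^ (2 ^ (b * q + r)) = c ^ (2 ^ r) := by
  induction q with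
  | zero => simp
  | succ q ih =>
    have h1 : b * (q + 1) + r = b + (b * q + r) := by ring
    rw [h1, pow_add, pow_mul, hc, ih]

omit [DecidableEq F] in
private lemma sub_sum (b m : ℕ) (c : F) (hc : c ^ (2 ^ b) = c) :
    ∑ i ∈ range (b * m), c ^ (2 ^ i) = (m : F) * ∑ i ∈ range b, c ^ (2 ^ i) := by
  induction m with
  | zero => simp
  | succ m ih =>
    rw [mul_add, mul_one, Finset.sum_range_add, ih]
    rw [Finset.sum_congr rfl (fun i _ => sub_pow b c hc m i)]
    push_cast
    ring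

theorem exists_E (n b m : ℕ) (hb : 1 ≤ b) (hbm : n = b * m) (hm : Odd m)
    (hF : Fintype.card F = 2 ^ n) :
    ∃ E : Finset F, (∀ c, c ∈ E ↔ c ^ (2 ^ b) = c) ∧ E.card = 2 ^ b ∧ ∃ d ∈ E, tr d = 1 := by
  have hn : 1 ≤ n := by
    rw [hbm]
    exact Nat.mul_pos hb hm.pos
  refine ⟨univ.filter fun c : F => c ^ (2 ^ b) = c, fun c => by simp, sub_card n b m hb hn hbm hF,
    ?_⟩
  by_contra hcon
  push Not at hcon
  have hcon' : ∀ c ∈ (univ.filter fun c : F => c ^ (2 ^ b) = c), tr c = 0 := by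
    intro c hc
    have := hcon c hc
    revert this
    generalize tr c = t
    revert t
    decide
  have hmF : (m : F) = 1 := by
    obtain ⟨k, hk⟩ := hm
    rw [hk]
    push_cast
    rw [two_eq_zero' F, zero_mul, zero_add]
  set Q : Polynomial F := ∑ i ∈ range b, Polynomial.X ^ (2 ^ i) with hQ
  have hroot : ∀ c ∈ (univ.filter fun c : F => c ^ (2 ^ b) = c), Q.eval c = 0 := by
    intro c hc
    have h1 := tr_eq_sum n hF c
    rw [hcon' c hc, map_zero, hbm, sub_sum b m c (mem_filter.1 hc).2, hmF, one_mul] at h1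
    rw [hQ, Polynomial.eval_finset_sum]
    simp only [Polynomial.eval_pow, Polynomial.eval_X]
    exact h1.symm
  have hdeg : Q.natDegree < (univ.filter fun c : F => c ^ (2 ^ b) = c).card := by
    rw [sub_card n b m hb hn hbm hF]
    have h1 : Q.natDegree ≤ 2 ^ (b - 1) := by
      rw [hQ]
      refine Polynomial.natDegree_sum_le_of_forall_le _ _ (fun i hi => ?_)
      rw [Polynomial.natDegree_X_pow]
      rw [mem_range] at hi
      exact Nat.pow_le_pow_right (by norm_num) (by omega)
    have h2 : 2 ^ (b - 1) < 2 ^ b := Nat.pow_lt_pow_right (by norm_num) (by omega)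
    omega
  have hQ0 : Q = 0 :=
    Polynomial.eq_zero_of_natDegree_lt_card_of_eval_eq_zero' Q _ hroot hdeg
  have hc1 : Q.coeff 1 = 1 := by
    rw [hQ, Polynomial.finset_sum_coeff, Finset.sum_eq_single 0]
    · simp
    · intro i _ hi
      rw [Polynomial.coeff_X_pow, if_neg]
      have : 2 ^ 1 ≤ 2 ^ i := Nat.pow_le_pow_right (by norm_num) (by omega)
      omega
    · intro h
      exact absurd (mem_range.2 (by omega)) h
  rw [hQ0, Polynomial.coeff_zero] at hc1
  exact zero_ne_one hc1

end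

end RunMult
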