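import Pool.Agent.Lib.MP_d16eef_co.Sieve
import Pool.Agent.Lib.MP_d16eef_co.Core
import Pool.Agent.Lib.MP_d16eef_co.ExistsX
import Pool.Agent.Lib.MP_d16eef_co.Ext
import Pool.Agent.Lib.MP_d16eef_co.Subfield

/-! Assembly. -/

namespace RunMult

open Finset

variable {F : Type} [Field F] [Fintype F] [DecidableEq F] [Algebra (ZMod 2) F]

omit [Fintype F] [DecidableEq F] [Algebra (ZMod 2) F] in
theorem asm_orderOf_inv (a : F) (ha : a ≠ 0) : orderOf a⁻¹ = orderOf a := by
  have h := orderOf_inv (Units.mk0 a ha)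
  rw [← orderOf_units, ← orderOf_units, Units.val_mk0, Units.val_inv_eq_inv_val,
    Units.val_mk0] at h
  exact h

/-- for one of the two generators `a`, `a⁻¹` the dual element is different from `d` -/
theorem asm_gen (n K : ℕ) (hn : 44 ≤ n) (hF : Fintype.card F = 2 ^ n) (a : F)
    (ha : orderOf a = 2 ^ n - 1) (d : F) (hd0 : d ≠ 0)
    (hd : ∀ s : ℕ, ∀ i : ℤ, i ≠ 0 → |i| ≤ K → tr (d ^ (2 ^ s) * a ^ i) = 0) :
    ∃ g η : F, orderOf g = 2 ^ n - 1 ∧
      (∀ s : ℕ, ∀ i : ℤ, i ≠ 0 → |i| ≤ K → tr (d ^ (2 ^ s) * g ^ i) = 0) ∧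
      (∀ l < n, tr (η * g ^ l) = if l = 0 then 1 else 0) ∧ η ≠ 0 ∧ η ≠ d := by
  obtain ⟨-, ha0⟩ := gen_ne_zero n hF a ha
  have hai : orderOf a⁻¹ = 2 ^ n - 1 := by rw [asm_orderOf_inv a ha0, ha]
  obtain ⟨η1, h1⟩ := bits_exists n hF a ha 1 one_ne_zero (fun l => if l = 0 then 1 else 0)
  obtain ⟨η2, h2⟩ := bits_exists n hF a⁻¹ hai 1 one_ne_zero (fun l => if l = 0 then 1 else 0)
  simp only [one_mul] at h1 h2
  have hnz : ∀ (η g : F), (∀ l < n, tr (η * g ^ l) = if l = 0 then 1 else 0) → η ≠ 0 := by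
    rintro η g h rfl
    have := h 0 (by omega)
    rw [zero_mul, tr_zero] at this
    simp at this
  by_cases c1 : η1 = d
  · by_cases c2 : η2 = d
    · exfalso
      rw [c1] at h1
      rw [c2] at h2
      -- `d` and `d * a ^ n` have the same bits at `-1, …, -(n-1)`
      have key : d * a ^ n = d := by
        have hy : (a⁻¹ : F) ≠ 0 := inv_ne_zero ha0
        have hc := card_window n hF a⁻¹ hai (range (n - 1)) (fun i hi => by
          have := mem_range.mp hi; omega) (fun _ => 0) a⁻¹ hy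
        rw [card_range, show n - (n - 1) = 1 by omega, pow_one, card_eq_two] at hc
        obtain ⟨u, v, huv, hS⟩ := hc
        have hmem : ∀ x : F, (∀ i < n - 1, tr (x * (a⁻¹ * a⁻¹ ^ i)) = 0) →
            x ∈ ({u, v} : Finset F) := by
          intro x hx
          rw [← hS]
          simp only [mem_filter, mem_univ, true_and]
          exact fun i hi => hx i (mem_range.mp hi)
        have m0 := hmem 0 (fun i _ => by rw [zero_mul, tr_zero])
        have md := hmem d (fun i hi => by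
          rw [← pow_succ', h2 (i + 1) (by omega), if_neg (by omega)])
        have mn := hmem (d * a ^ n) (fun i hi => by
          have : d * a ^ n * (a⁻¹ * a⁻¹ ^ i) = d * a ^ (n - 1 - i) := by
            rw [← pow_succ', inv_pow, mul_assoc]
            congr 1
            rw [show n = (n - 1 - i) + (i + 1) by omega, pow_add, mul_assoc,
              mul_inv_cancel₀ (pow_ne_zero _ ha0), mul_one]
            congr 1
            omega
          rw [this, h1 _ (by omega), if_neg (by omega)])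
        rw [mem_insert, mem_singleton] at m0 md mn
        have hdn : d * a ^ n ≠ 0 := mul_ne_zero hd0 (pow_ne_zero _ ha0)
        rcases m0 with m0 | m0 <;> rcases md with md | md <;> rcases mn with mn | mn
        · exact absurd (md.trans m0.symm) hd0
        · exact absurd (md.trans m0.symm) hd0
        · exact absurd (mn.trans m0.symm) hdn
        · exact mn.trans md.symm
        · exact mn.trans md.symm
        · exact absurd (mn.trans m0.symm) hdn
        · exact absurd (md.trans m0.symm) hd0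
        · exact absurd (md.trans m0.symm) hd0
      have h3 : a ^ n = 1 := mul_left_cancel₀ hd0 (by rw [key, mul_one])
      have h4 := orderOf_dvd_of_pow_eq_one h3
      rw [ha] at h4
      have h5 := Nat.le_of_dvd (by omega) h4
      have h6 : ∀ m : ℕ, 3 ≤ m → m + 1 < 2 ^ m := by
        intro m hm
        induction m, hm using Nat.le_induction with
        | base => norm_num
        | succ m hm ih => rw [pow_succ]; omega
      have := h6 n (by omega)
      omega
    · refine ⟨a⁻¹, η2, hai, ?_, h2, hnz _ _ h2, c2⟩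
      intro s i hi hiK
      rw [inv_zpow', hd s (-i) (by omega) (by rwa [abs_neg])]
  · exact ⟨a, η1, ha, hd, h1, hnz _ _ h1, c1⟩

theorem adm_of_ineq_field (n b m κ : ℕ) (hF : Fintype.card F = 2 ^ n)
    (hn : 44 ≤ n) (hb : 1 ≤ b) (hbm : n = b * m) (hm : Odd m)
    (hκ1 : 8 * n ≤ 4 ^ κ) (hκ2 : 4 ^ κ < 32 * n)
    (hineq : 2 ^ (2 * κ * b) * (2 ^ (2 ^ n - 1).primeFactors.card *
      ((6 * κ + 1) * 2 ^ ((n + 1) / 2))) < (2 ^ n - 1).totient) : Adm n := by
  obtain ⟨E, hE, hEc, d, hdE, hd1⟩ := exists_E n b m hb hbm hm hF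
  have hκ : 1 ≤ κ := by
    rcases Nat.eq_zero_or_pos κ with h | h
    · rw [h, pow_zero] at hκ1; omega
    · exact h
  have hE0 : (0 : F) ∈ E := by
    rw [hE, zero_pow (by positivity)]
  have hEadd : ∀ x ∈ E, ∀ y ∈ E, x + y ∈ E := by
    intro x hx y hy
    rw [hE] at hx hy ⊢
    rw [add_pow2, hx, hy]
  obtain ⟨a, ha, hcnd⟩ := exists_prim n κ b (by omega) hκ hF E hE0 hEadd hEc hineq
  obtain ⟨-, ha0⟩ := gen_ne_zero n hF a ha
  have hd0 : d ≠ 0 := by
    rintro rfl
    rw [tr_zero] at hd1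
    revert hd1; decide
  have hwin := cnd_ext n b κ hb hκ hF E hE a ha0 hcnd d hdE
  obtain ⟨g, η, hg, hgwin, hη, hη0, hηd⟩ := asm_gen n (2 * κ) hn hF a ha d hd0 hwin
  have hκn : 4 * κ ≤ n + 2 := by
    by_contra hcon
    push Not at hcon
    -- `n < 4 κ`, `8 n ≤ 4 ^ κ < 32 n < 128 κ`
    have h1 : 4 ^ κ < 128 * κ := by omega
    have h2 : ∀ k : ℕ, 12 ≤ k → 128 * k ≤ 4 ^ k := by
      intro k hk
      induction k, hk using Nat.le_induction with
      | base => norm_num
      | succ k hk ih => rw [pow_succ]; omega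
    rcases Nat.lt_or_ge κ 12 with h | h
    · omega
    · exact absurd (h2 κ h) (by omega)
  have hpow : 4 ^ κ = 2 ^ (2 * κ) := by
    rw [pow_mul]; norm_num
  obtain ⟨x, hx1, hx2, hx3, hx4⟩ := exists_x n (2 * κ) hn (by rw [← hpow]; exact hκ1)
    (by omega) hF g hg d η hd0 hη0 hηd
  exact adm_core n (2 * κ) (by omega) (by omega) hF g hg d x η hd1 hgwin hx1 hx2 hx3 hη hx4

theorem adm_of_ineq (n b m κ : ℕ) (hn : 44 ≤ n) (hb : 1 ≤ b) (hbm : n = b * m) (hm : Odd m)
    (hκ1 : 8 * n ≤ 4 ^ κ) (hκ2 : 4 ^ κ < 32 * n)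
    (hineq : 2 ^ (2 * κ * b) * (2 ^ (2 ^ n - 1).primeFactors.card *
      ((6 * κ + 1) * 2 ^ ((n + 1) / 2))) < (2 ^ n - 1).totient) : Adm n := by
  classical
  have : Fact (Nat.Prime 2) := ⟨Nat.prime_two⟩
  let _ : Fintype (GaloisField 2 n) := Fintype.ofFinite _
  have hF : Fintype.card (GaloisField 2 n) = 2 ^ n := by
    rw [← Nat.card_eq_fintype_card]
    exact GaloisField.card 2 n (by omega)
  exact adm_of_ineq_field (F := GaloisField 2 n) n b m κ hF hn hb hbm hm hκ1 hκ2 hineq

end RunMult
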