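import Pool.Agent.Lib.MP_d16eef_co.Defs

/-! Basic facts on the absolute trace. -/

namespace RunMult

open Finset

theorem charP_two (F : Type) [Field F] [Algebra (ZMod 2) F] : CharP F 2 :=
  charP_of_injective_algebraMap (algebraMap (ZMod 2) F).injective 2

theorem two_eq_zero' (F : Type) [Field F] [Algebra (ZMod 2) F] : (2 : F) = 0 := by
  have := charP_two F
  exact_mod_cast CharP.cast_eq_zero F 2

section trlin

variable {F : Type} [Field F] [Algebra (ZMod 2) F]

theorem tr_zero : tr (0 : F) = 0 := map_zero _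

theorem tr_add (x y : F) : tr (x + y) = tr x + tr y := map_add _ x y

theorem tr_sub (x y : F) : tr (x - y) = tr x - tr y := map_sub _ x y

theorem tr_smul (c : ZMod 2) (x : F) : tr (c • x) = c • tr x := map_smul _ c x

theorem tr_sum {ι : Type} (t : Finset ι) (f : ι → F) : tr (∑ i ∈ t, f i) = ∑ i ∈ t, tr (f i) :=
  map_sum _ f t

end trlin

variable {F : Type} [Field F] [Fintype F] [DecidableEq F] [Algebra (ZMod 2) F]

omit [Fintype F] [DecidableEq F] in
theorem add_pow2 (x y : F) (s : ℕ) : (x + y) ^ (2 ^ s) = x ^ (2 ^ s) + y ^ (2 ^ s) := by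
  have := charP_two F
  exact add_pow_char_pow x y 2 s

omit [Fintype F] [DecidableEq F] in
theorem sum_pow2 {ι : Type} (t : Finset ι) (f : ι → F) (s : ℕ) :
    (∑ i ∈ t, f i) ^ (2 ^ s) = ∑ i ∈ t, f i ^ (2 ^ s) := by
  have := charP_two F
  exact sum_pow_char_pow 2 s t f

omit [DecidableEq F] in
theorem finrank_eq' (n : ℕ) (hF : Fintype.card F = 2 ^ n) : Module.finrank (ZMod 2) F = n := by
  have h := Module.card_eq_pow_finrank (K := ZMod 2) (V := F)
  rw [hF, ZMod.card] at h
  exact (Nat.pow_right_injective le_rfl h).symm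

omit [DecidableEq F] in
theorem tr_eq_sum (n : ℕ) (hF : Fintype.card F = 2 ^ n) (x : F) :
    algebraMap (ZMod 2) F (tr x) = ∑ i ∈ range n, x ^ (2 ^ i) := by
  rw [tr, FiniteField.algebraMap_trace_eq_sum_pow, finrank_eq' n hF, Nat.card_zmod]

theorem zmod2_sq (c : ZMod 2) : c ^ 2 = c := by
  revert c; decide

omit [DecidableEq F] in
theorem tr_sq (x : F) : tr (x ^ 2) = tr x := by
  have hF : Fintype.card F = 2 ^ Module.finrank (ZMod 2) F := by
    have h := Module.card_eq_pow_finrank (K := ZMod 2) (V := F)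
    rwa [ZMod.card] at h
  apply (algebraMap (ZMod 2) F).injective
  have h2 : (algebraMap (ZMod 2) F (tr x)) ^ 2 = algebraMap (ZMod 2) F (tr x) := by
    rw [← map_pow, zmod2_sq]
  rw [← h2, tr_eq_sum _ hF, tr_eq_sum _ hF]
  have h3 := sum_pow2 (range (Module.finrank (ZMod 2) F)) (fun i => x ^ (2 ^ i)) 1
  rw [pow_one] at h3
  rw [h3]
  refine Finset.sum_congr rfl fun i _ => ?_
  rw [← pow_mul, ← pow_mul, mul_comm]

omit [DecidableEq F] in
theorem tr_pow2 (x : F) (s : ℕ) : tr (x ^ (2 ^ s)) = tr x := by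
  induction s with
  | zero => simp
  | succ s ih => rw [pow_succ, pow_mul, tr_sq, ih]

omit [DecidableEq F] in
theorem tr_nondeg (x : F) (h : ∀ z, tr (x * z) = 0) : x = 0 := by
  have htr := (traceForm_nondegenerate (ZMod 2) F).1 x
  simp_rw [Algebra.traceForm_apply] at htr
  exact htr h

omit [DecidableEq F] in
theorem gen_ne_zero (n : ℕ) (hF : Fintype.card F = 2 ^ n) (a : F) (ha : orderOf a = 2 ^ n - 1) :
    1 ≤ n ∧ a ≠ 0 := by
  have hn : 1 ≤ n := by
    rcases Nat.eq_zero_or_pos n with h | h
    · rw [h] at hF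
      have := Fintype.one_lt_card (α := F)
      omega
    · exact h
  refine ⟨hn, ?_⟩
  rintro rfl
  have h2 : 1 < 2 ^ n := Nat.one_lt_two_pow (by omega)
  have h3 : orderOf (0 : F) = 0 := by
    rw [orderOf_eq_zero_iff']
    intro m hm
    rw [zero_pow (by omega)]
    exact zero_ne_one
  omega

omit [DecidableEq F] in
/-- every nonzero element is a power of the generator -/
theorem exists_pow_eq (n : ℕ) (hF : Fintype.card F = 2 ^ n) (a : F) (ha : orderOf a = 2 ^ n - 1)
    (z : F) (hz : z ≠ 0) : ∃ k < 2 ^ n - 1, a ^ k = z := by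
  classical
  obtain ⟨hn, ha0⟩ := gen_ne_zero n hF a ha
  have himg : (range (2 ^ n - 1)).image (fun k => a ^ k) = univ.erase 0 := by
    apply Finset.eq_of_subset_of_card_le
    · intro w hw
      obtain ⟨k, _, rfl⟩ := mem_image.mp hw
      exact mem_erase.mpr ⟨pow_ne_zero _ ha0, mem_univ _⟩
    · rw [card_erase_of_mem (mem_univ _), card_univ, hF, card_image_of_injOn, card_range]
      intro i hi j hj hij
      have hi' : i ∈ Set.Iio (orderOf a) := by
        rw [ha]; exact mem_range.mp (mem_coe.mp hi)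
      have hj' : j ∈ Set.Iio (orderOf a) := by
        rw [ha]; exact mem_range.mp (mem_coe.mp hj)
      exact pow_injOn_Iio_orderOf hi' hj' hij
  have : z ∈ (range (2 ^ n - 1)).image (fun k => a ^ k) := by
    rw [himg]; exact mem_erase.mpr ⟨hz, mem_univ _⟩
  obtain ⟨k, hk, h⟩ := mem_image.mp this
  exact ⟨k, mem_range.mp hk, h⟩

omit [DecidableEq F] in
/-- the powers `a ^ i`, `i < n`, of a generator span `F` -/
theorem span_powers (n : ℕ) (hF : Fintype.card F = 2 ^ n) (a : F) (ha : orderOf a = 2 ^ n - 1) :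
    Submodule.span (ZMod 2) ((fun i => a ^ i) '' (Set.Iio n)) = ⊤ := by
  have hfr := finrank_eq' n hF
  have hint : IsIntegral (ZMod 2) a := IsIntegral.of_finite _ _
  have hmon := minpoly.monic hint
  have hdeg : (minpoly (ZMod 2) a).natDegree ≤ n := by
    rw [← hfr]; exact minpoly.natDegree_le a
  have hpow : ∀ k : ℕ, a ^ k ∈ Submodule.span (ZMod 2) ((fun i => a ^ i) '' (Set.Iio n)) := by
    intro k
    set q := (Polynomial.X ^ k : Polynomial (ZMod 2)) %ₘ minpoly (ZMod 2) a with hq
    have h1 : Polynomial.aeval a q = a ^ k := by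
      have h2 := Polynomial.modByMonic_add_div (Polynomial.X ^ k : Polynomial (ZMod 2))
        (minpoly (ZMod 2) a)
      have h3 := congrArg (Polynomial.aeval a) h2
      rw [map_add, map_mul, minpoly.aeval, zero_mul, add_zero, map_pow, Polynomial.aeval_X] at h3
      exact h3
    have h4 : q.natDegree < n := by
      refine lt_of_lt_of_le (Polynomial.natDegree_modByMonic_lt _ hmon ?_) hdeg
      exact minpoly.ne_one _ _
    rw [← h1, Polynomial.aeval_eq_sum_range' h4]
    refine Submodule.sum_mem _ fun i hi => Submodule.smul_mem _ _ (Submodule.subset_span ?_)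
    exact ⟨i, mem_range.mp hi, rfl⟩
  rw [eq_top_iff]
  intro z _
  by_cases hz : z = 0
  · rw [hz]; exact Submodule.zero_mem _
  · obtain ⟨k, _, hk⟩ := exists_pow_eq n hF a ha z hz
    rw [← hk]
    exact hpow k

/-- linear independence of consecutive powers, in counting form -/
theorem card_window (n : ℕ) (hF : Fintype.card F = 2 ^ n) (a : F) (ha : orderOf a = 2 ^ n - 1)
    (I : Finset ℕ) (hI : ∀ i ∈ I, i < n) (b : ℕ → ZMod 2) (y : F) (hy : y ≠ 0) :
    (univ.filter fun x : F => ∀ i ∈ I, tr (x * (y * a ^ i)) = b i).card = 2 ^ (n - I.card) := by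
  classical
  set φ : F → (Fin n → ZMod 2) := fun x i => tr (x * (y * a ^ (i : ℕ))) with hφ
  have hinj : Function.Injective φ := by
    intro x x' hxx
    have h0 : ∀ i : Fin n, tr ((x - x') * (y * a ^ (i : ℕ))) = 0 := by
      intro i
      have := congrFun hxx i
      simp only [hφ] at this
      rw [sub_mul, tr_sub, this, sub_self]
    have h1 : ∀ z : F, tr ((x - x') * y * z) = 0 := by
      intro z
      have hz : z ∈ Submodule.span (ZMod 2) ((fun i => a ^ i) '' (Set.Iio n)) := by
        rw [span_powers n hF a ha]; trivial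
      induction hz using Submodule.span_induction with
      | mem z hz =>
        obtain ⟨i, hi, rfl⟩ := hz
        have := h0 ⟨i, hi⟩
        simpa [mul_assoc] using this
      | zero => simp
      | add u v _ _ hu hv => rw [mul_add, tr_add, hu, hv, add_zero]
      | smul c u _ hu => rw [mul_smul_comm, tr_smul, hu, smul_zero]
    have h2 := tr_nondeg _ h1
    rcases mul_eq_zero.mp h2 with h | h
    · exact sub_eq_zero.mp h
    · exact absurd h hy
  have hbij : Function.Bijective φ := by
    rw [Fintype.bijective_iff_injective_and_card]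
    refine ⟨hinj, ?_⟩
    rw [hF, Fintype.card_fun, ZMod.card, Fintype.card_fin]
  have hcard : (univ.filter fun x : F => ∀ i ∈ I, tr (x * (y * a ^ i)) = b i).card =
      (univ.filter fun v : Fin n → ZMod 2 => ∀ i : Fin n, (i : ℕ) ∈ I → v i = b i).card := by
    refine Finset.card_bij (fun x _ => φ x) ?_ (fun x _ x' _ h => hinj h) ?_
    · intro x hx
      simp only [mem_filter, mem_univ, true_and] at hx ⊢
      intro i hi
      exact hx i hi
    · intro v hv
      obtain ⟨x, rfl⟩ := hbij.2 v
      refine ⟨x, ?_, rfl⟩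
      simp only [mem_filter, mem_univ, true_and] at hv ⊢
      intro i hi
      exact hv ⟨i, hI i hi⟩ hi
  rw [hcard]
  have hpi : (univ.filter fun v : Fin n → ZMod 2 => ∀ i : Fin n, (i : ℕ) ∈ I → v i = b i) =
      Fintype.piFinset (fun i : Fin n => if (i : ℕ) ∈ I then {b i} else univ) := by
    ext v
    simp only [mem_filter, mem_univ, true_and, Fintype.mem_piFinset]
    refine forall_congr' fun i => ?_
    by_cases hi : (i : ℕ) ∈ I <;> simp [hi]
  rw [hpi, Fintype.card_piFinset]
  have : ∀ i : Fin n, (if (i : ℕ) ∈ I then ({b i} : Finset (ZMod 2)) else univ).card =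
      if (i : ℕ) ∈ I then 1 else 2 := by
    intro i
    by_cases hi : (i : ℕ) ∈ I <;> simp [hi, ZMod.card]
  rw [Finset.prod_congr rfl fun i _ => this i]
  rw [Fin.prod_univ_eq_prod_range (fun i => if i ∈ I then 1 else 2) n]
  rw [Finset.prod_ite]
  simp only [prod_const_one, one_mul, prod_const]
  congr 1
  have h5 : (range n).filter (fun i => i ∉ I) = range n \ I := by
    ext i; simp
  rw [h5, Finset.card_sdiff_of_subset, card_range]
  intro i hi
  exact mem_range.mpr (hI i hi)

/-- balance -/
theorem card_tr_eq (n : ℕ) (hn : 1 ≤ n) (hF : Fintype.card F = 2 ^ n) (y : F) (hy : y ≠ 0)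
    (b : ZMod 2) : (univ.filter fun x : F => tr (x * y) = b).card = 2 ^ (n - 1) := by
  obtain ⟨g, hg⟩ := IsCyclic.exists_generator (α := Fˣ)
  have ho : orderOf (g : F) = 2 ^ n - 1 := by
    rw [orderOf_units, orderOf_eq_card_of_forall_mem_zpowers hg, Nat.card_eq_fintype_card,
      Fintype.card_units, hF]
  have := card_window n hF (g : F) ho {0} (by simp; omega) (fun _ => b) y hy
  simpa using this

end RunMult
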