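import Pool.Agent.Lib.MP_d16eef_co.StepCount

namespace RunMult

open Finset Polynomial

section

variable {F : Type} [Field F] [Fintype F] [DecidableEq F] [Algebra (ZMod 2) F]

theorem StepBound_aux (n D : ℕ) (hn : 2 ≤ n) (hD : Odd D) (hF : Fintype.card F = 2 ^ n) (γ : ℕ → F)
    (hγ : ∃ i, i ≤ D ∧ D < 2 * i ∧ γ i ≠ 0) :
    |∑ a ∈ univ.filter (fun a : F => a ≠ 0), sg (tr (stf D γ a))| ≤
      (3 * D + 4) * 2 ^ ((n + 1) / 2) := by
  have hcard : (univ.filter (fun a : F => a ≠ 0)).card = 2 ^ n - 1 := by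
    rw [Finset.filter_ne', Finset.card_erase_of_mem (Finset.mem_univ _), Finset.card_univ, hF]
  have hpos : 1 ≤ 2 ^ n := Nat.one_le_two_pow
  have h4 : 2 ^ n = 2 ^ ((n + 1) / 2) * 2 ^ (n / 2) := by
    rw [← pow_add]; congr 1; omega
  have hP : 1 ≤ 2 ^ ((n + 1) / 2) := Nat.one_le_two_pow
  by_cases hDh : D + 3 ≤ 2 ^ (n / 2)
  · -- Stepanov
    have hsplit : ∑ a ∈ univ.filter (fun a : F => a ≠ 0), sg (tr (stf D γ a)) =
        ((univ.filter fun a : F => a ≠ 0 ∧ tr (stf D γ a) = 0).card : ℤ) -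
        ((univ.filter fun a : F => a ≠ 0 ∧ tr (stf D γ a) = 1).card : ℤ) := by
      have h1 : ∀ z : ZMod 2, sg z = (if z = 0 then (1 : ℤ) else 0) - (if z = 1 then (1 : ℤ) else 0) := by
        decide
      simp only [h1]
      rw [Finset.sum_sub_distrib, Finset.sum_boole, Finset.sum_boole, Finset.filter_filter,
        Finset.filter_filter]
    have htot : ((univ.filter fun a : F => a ≠ 0 ∧ tr (stf D γ a) = 0).card : ℤ) +
        ((univ.filter fun a : F => a ≠ 0 ∧ tr (stf D γ a) = 1).card : ℤ) = 2 ^ n - 1 := by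
      have h1 : ∀ z : ZMod 2, (1 : ℤ) = (if z = 0 then (1 : ℤ) else 0) + (if z = 1 then (1 : ℤ) else 0) := by
        decide
      have h2 : ∑ a ∈ univ.filter (fun a : F => a ≠ 0), (1 : ℤ) = 2 ^ n - 1 := by
        rw [Finset.sum_const, hcard]
        simp [Nat.cast_sub hpos]
      rw [← h2, Finset.sum_congr rfl (fun a _ => h1 (tr (stf D γ a))), Finset.sum_add_distrib,
        Finset.sum_boole, Finset.sum_boole, Finset.filter_filter, Finset.filter_filter]
    have b0 := st_count n D (n / 2) hn rfl hD hDh hF γ hγ 0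
    have b1 := st_count n D (n / 2) hn rfl hD hDh hF γ hγ 1
    rw [hsplit, abs_le]
    have b0' : 2 * ((univ.filter fun a : F => a ≠ 0 ∧ tr (stf D γ a) = 0).card : ℤ) <
      2 ^ n + (3 * D + 2) * 2 ^ ((n + 1) / 2) := by exact_mod_cast b0
    have b1' : 2 * ((univ.filter fun a : F => a ≠ 0 ∧ tr (stf D γ a) = 1).card : ℤ) <
      2 ^ n + (3 * D + 2) * 2 ^ ((n + 1) / 2) := by exact_mod_cast b1
    have hP' : (1 : ℤ) ≤ 2 ^ ((n + 1) / 2) := by exact_mod_cast hP
    constructor <;> nlinarith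
  · have hb : |∑ a ∈ univ.filter (fun a : F => a ≠ 0), sg (tr (stf D γ a))| ≤ 2 ^ n - 1 := by
      refine (Finset.abs_sum_le_sum_abs _ _).trans ?_
      have h1 : ∀ z : ZMod 2, |sg z| = 1 := by decide
      simp only [h1]
      rw [Finset.sum_const, hcard]
      simp [Nat.cast_sub hpos]
    refine hb.trans ?_
    have h5 : 2 ^ n ≤ (3 * D + 4) * 2 ^ ((n + 1) / 2) := by
      rw [mul_comm, h4]
      exact Nat.mul_le_mul_left _ (by omega)
    have h6 : (2 : ℤ) ^ n ≤ (3 * D + 4) * 2 ^ ((n + 1) / 2) := by exact_mod_cast h5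
    linarith

/-- ST9 : the bound -/
theorem stepanov (n D : ℕ) (hn : 2 ≤ n) (hD : Odd D) (hF : Fintype.card F = 2 ^ n) (γ : ℕ → F)
    (hγ : ∃ i ≤ D, γ i ≠ 0) :
    |∑ a ∈ univ.filter (fun a : F => a ≠ 0), sg (tr (stf D γ a))| ≤
      (3 * D + 4) * 2 ^ ((n + 1) / 2) := by
  by_cases hc : ∃ i, i ≤ D ∧ D < 2 * i ∧ γ i ≠ 0
  · exact StepBound_aux n D hn hD hF γ hc
  · push Not at hc
    obtain ⟨i, hi, hγi⟩ := hγ
    obtain ⟨e, he⟩ := hD
    have h2i : 2 * i < D := by
      by_contra h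
      exact hγi (hc i hi (by omega))
    have hrev := StepBound_aux n D hn ⟨e, he⟩ hF (fun j => γ (D - j))
      ⟨D - i, by omega, by omega, by
        have : D - (D - i) = i := by omega
        simp only [this]; exact hγi⟩
    have hsum : ∑ a ∈ univ.filter (fun a : F => a ≠ 0), sg (tr (stf D γ a)) =
        ∑ a ∈ univ.filter (fun a : F => a ≠ 0), sg (tr (stf D (fun j => γ (D - j)) a)) := by
      refine Finset.sum_bij' (fun a _ => a⁻¹) (fun a _ => a⁻¹) ?_ ?_ ?_ ?_ ?_
      · intro a ha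
        simpa using ha
      · intro a ha
        simpa using ha
      · intro a _; simp
      · intro a _; simp
      · intro a ha
        simp only [Finset.mem_filter, Finset.mem_univ, true_and] at ha
        congr 2
        unfold stf
        rw [div_eq_div_iff (pow_ne_zero _ ha) (pow_ne_zero _ (inv_ne_zero ha)),
          Finset.sum_mul, Finset.sum_mul, ← Finset.sum_range_reflect]
        refine Finset.sum_congr rfl fun j hj => ?_
        rw [Finset.mem_range] at hj
        have e1 : D + 1 - 1 - j = D - j := by omega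
        rw [e1]
        simp only [inv_pow]
        have e2 : a ^ (2 * j) ≠ 0 := pow_ne_zero _ ha
        have e3 : a ^ D ≠ 0 := pow_ne_zero _ ha
        field_simp
        rw [mul_assoc, ← pow_add, ← pow_mul]
        congr 2
        omega
    rw [hsum]
    exact hrev

end

end RunMult
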