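import Pool.Agent.Lib.MP_d16eef_co.Basic
import Pool.Agent.Lib.MP_d16eef_co.StepBound

/-! CHS: counting points with prescribed traces by characters and Stepanov's bound. -/

namespace RunMult

open Finset

theorem chs_sg_add (x y : ZMod 2) : sg (x + y) = sg x * sg y := by
  revert x y; decide

theorem chs_sg_zero : sg 0 = 1 := rfl

theorem chs_sg_sum {ι : Type*} (s : Finset ι) (f : ι → ZMod 2) :
    sg (∑ i ∈ s, f i) = ∏ i ∈ s, sg (f i) := by
  classical
  induction s using Finset.induction_on with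
  | empty => simp [chs_sg_zero]
  | insert i s hi ih => rw [Finset.sum_insert hi, Finset.prod_insert hi, chs_sg_add, ih]

theorem chs_one_of_ne (z : ZMod 2) (h : z ≠ 0) : z = 1 := by
  revert z; decide

section

variable {F : Type} [Field F] [Fintype F] [DecidableEq F] [Algebra (ZMod 2) F]

theorem chs_inner (E : Finset F) (hEadd : ∀ x ∈ E, ∀ y ∈ E, x + y ∈ E) (z : F) :
    ∑ e ∈ E, sg (tr (e * z)) = if ∀ e ∈ E, tr (e * z) = 0 then (E.card : ℤ) else 0 := by
  classical
  split_ifs with h
  · rw [Finset.sum_congr rfl fun e he => by rw [h e he, chs_sg_zero]]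
    simp
  · push Not at h
    obtain ⟨e0, he0, hne⟩ := h
    have h1 : tr (e0 * z) = 1 := chs_one_of_ne _ hne
    have h2 : (2 : F) = 0 := two_eq_zero' F
    refine Finset.sum_involution (fun e _ => e + e0) ?_ ?_ ?_ ?_
    · intro e _
      have : tr ((e + e0) * z) = tr (e * z) + 1 := by
        rw [add_mul, ← h1]
        exact map_add _ _ _
      rw [this, chs_sg_add]
      have : sg 1 = -1 := by decide
      rw [this]; ring
    · intro e _ _ hcon
      have : e0 = 0 := by
        have := congrArg (fun t => t - e) hcon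
        simpa using this
      rw [this, zero_mul] at hne
      exact hne (map_zero _)
    · intro e he
      exact hEadd e he e0 he0
    · intro e _
      have : e + e0 + e0 = e + 2 * e0 := by ring
      rw [this, h2, zero_mul, add_zero]

theorem chs_stf (κ d : ℕ) (hκ : 1 ≤ κ) (hd : 0 < d) (c : ℕ → F) (y : F) :
    stf (d * (2 * κ - 1)) (fun j => if d ∣ j then c (j / d) else 0) y =
      ∑ i ∈ range (2 * κ), c i * ((y ^ d) ^ (2 * i) / (y ^ d) ^ (2 * κ - 1)) := by
  unfold stf
  rw [Finset.sum_div]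
  have e1 : ∀ j ∈ range (d * (2 * κ - 1) + 1),
      (if d ∣ j then c (j / d) else 0) * y ^ (2 * j) / y ^ (d * (2 * κ - 1))
      = if d ∣ j then c (j / d) * ((y ^ d) ^ (2 * (j / d)) / (y ^ d) ^ (2 * κ - 1)) else 0 := by
    intro j _
    split_ifs with hj
    · obtain ⟨i, rfl⟩ := hj
      rw [Nat.mul_div_cancel_left i hd, ← pow_mul, ← pow_mul]
      rw [mul_div_assoc]
      congr 3
      ring
    · rw [zero_mul, zero_div]
  rw [Finset.sum_congr rfl e1, ← Finset.sum_filter]
  have e2 : (range (d * (2 * κ - 1) + 1)).filter (d ∣ ·) = (range (2 * κ)).image (d * ·) := by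
    ext j
    simp only [Finset.mem_filter, Finset.mem_range, Finset.mem_image]
    constructor
    · rintro ⟨h1, i, rfl⟩
      refine ⟨i, ?_, rfl⟩
      have : d * i ≤ d * (2 * κ - 1) := by omega
      have := Nat.le_of_mul_le_mul_left this hd
      omega
    · rintro ⟨i, hi, rfl⟩
      refine ⟨?_, dvd_mul_right _ _⟩
      have : d * i ≤ d * (2 * κ - 1) := Nat.mul_le_mul_left d (by omega)
      omega
  rw [e2, Finset.sum_image]
  · refine Finset.sum_congr rfl fun i _ => ?_
    rw [Nat.mul_div_cancel_left i hd]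
  · intro x _ y _ hxy
    exact Nat.eq_of_mul_eq_mul_left hd hxy

/-- CHS -/
theorem card_cnd (n κ b d : ℕ) (hn : 2 ≤ n) (hκ : 1 ≤ κ) (hF : Fintype.card F = 2 ^ n)
    (E : Finset F) (hE0 : (0 : F) ∈ E) (hEadd : ∀ x ∈ E, ∀ y ∈ E, x + y ∈ E)
    (hEc : E.card = 2 ^ b) (hd : Odd d) (B : ℕ)
    (hB : B = Nat.card {y : F // y ≠ 0 ∧ cnd κ E (y ^ d)}) :
    |(2 : ℤ) ^ (2 * κ * b) * B - (2 ^ n - 1)| ≤
      2 ^ (2 * κ * b) * ((3 * (d * (2 * κ - 1)) + 4) * 2 ^ ((n + 1) / 2)) := by
  classical
  have hd0 : 0 < d := hd.pos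
  set X : ℤ := 2 ^ (2 * κ * b) with hX
  -- the functions `c`
  set PP : Finset (Fin (2 * κ) → F) := Fintype.piFinset fun _ => E with hPP
  have hPPcard : (PP.card : ℤ) = X := by
    rw [hPP, Fintype.card_piFinset]
    simp only [Finset.prod_const, Finset.card_univ, Fintype.card_fin, hEc]
    rw [hX]
    push_cast
    rw [← pow_mul]
    congr 1
    ring
  set z : F → ℕ → F := fun y i => (y ^ d) ^ (2 * i) / (y ^ d) ^ (2 * κ - 1) with hz
  set S : (Fin (2 * κ) → F) → ℤ := fun c =>
    ∑ y ∈ univ.filter (fun y : F => y ≠ 0), sg (tr (∑ i, c i * z y i)) with hS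
  -- orthogonality
  have horth : X * B = ∑ c ∈ PP, S c := by
    simp only [hS]
    rw [Finset.sum_comm]
    have e1 : ∀ y ∈ univ.filter (fun y : F => y ≠ 0),
        ∑ c ∈ PP, sg (tr (∑ i, c i * z y i)) = if cnd κ E (y ^ d) then X else 0 := by
      intro y _
      have e2 : ∀ c ∈ PP, sg (tr (∑ i, c i * z y i)) = ∏ i, sg (tr (c i * z y i)) := by
        intro c _
        have : tr (∑ i, c i * z y i) = ∑ i, tr (c i * z y i) := map_sum _ _ _
        rw [this, chs_sg_sum]
      rw [Finset.sum_congr rfl e2, hPP]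
      rw [← Finset.prod_univ_sum (fun _ : Fin (2 * κ) => E)
        (fun (i : Fin (2 * κ)) (e : F) => sg (tr (e * z y i)))]
      rw [Finset.prod_congr rfl fun (i : Fin (2 * κ)) _ => chs_inner E hEadd (z y i)]
      by_cases hc : cnd κ E (y ^ d)
      · rw [if_pos hc]
        rw [Finset.prod_congr rfl fun i _ => if_pos (fun e he => hc i.val i.isLt e he)]
        rw [Finset.prod_const, Finset.card_univ, Fintype.card_fin, hEc, hX]
        push_cast
        rw [← pow_mul]
        congr 1
        ring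
      · rw [if_neg hc]
        unfold cnd at hc
        push Not at hc
        obtain ⟨i, hi, e, he, hne⟩ := hc
        apply Finset.prod_eq_zero (Finset.mem_univ (⟨i, hi⟩ : Fin (2 * κ)))
        rw [if_neg]
        intro hall
        exact hne (hall e he)
    rw [Finset.sum_congr rfl e1, ← Finset.sum_filter, Finset.filter_filter, Finset.sum_const,
      nsmul_eq_mul, hB, Nat.card_eq_fintype_card, Fintype.card_subtype]
    ring
  -- the zero term
  have hzero : (0 : Fin (2 * κ) → F) ∈ PP := by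
    rw [hPP, Fintype.mem_piFinset]
    intro i; exact hE0
  have hS0 : S 0 = 2 ^ n - 1 := by
    simp only [hS]
    have : ∀ y ∈ univ.filter (fun y : F => y ≠ 0),
        sg (tr (∑ i : Fin (2 * κ), (0 : Fin (2 * κ) → F) i * z y i)) = 1 := by
      intro y _
      simp only [Pi.zero_apply, zero_mul, Finset.sum_const_zero, map_zero]
      exact chs_sg_zero
    rw [Finset.sum_congr rfl this, Finset.sum_const, nsmul_eq_mul, mul_one, Finset.filter_ne',
      Finset.card_erase_of_mem (mem_univ _), Finset.card_univ, hF]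
    push_cast [Nat.one_le_two_pow]
    rfl
  -- the other terms
  have hDodd : Odd (d * (2 * κ - 1)) := by
    refine hd.mul ?_
    exact ⟨κ - 1, by omega⟩
  have hbound : ∀ c ∈ PP.erase 0,
      |S c| ≤ (3 * (d * (2 * κ - 1)) + 4) * 2 ^ ((n + 1) / 2) := by
    intro c hc
    have hc0 : c ≠ 0 := (Finset.mem_erase.mp hc).1
    obtain ⟨i0, hi0⟩ : ∃ i, c i ≠ 0 := by
      by_contra hcon
      push Not at hcon
      exact hc0 (funext hcon)
    set c' : ℕ → F := fun i => if h : i < 2 * κ then c ⟨i, h⟩ else 0 with hc'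
    have e1 : ∀ y : F, ∑ i, c i * z y i =
        stf (d * (2 * κ - 1)) (fun j => if d ∣ j then c' (j / d) else 0) y := by
      intro y
      rw [chs_stf κ d hκ hd0 c' y, Finset.sum_range]
      refine Finset.sum_congr rfl fun i _ => ?_
      simp only [hc', i.isLt, dif_pos, hz]
    simp only [hS]
    rw [Finset.sum_congr rfl fun y _ => by rw [e1 y]]
    have h := stepanov n (d * (2 * κ - 1)) hn hDodd hF
      (fun j => if d ∣ j then c' (j / d) else 0) ⟨d * i0.val, ?_, ?_⟩
    · have e2 : (((d * (2 * κ - 1) : ℕ)) : ℤ) = d * (2 * κ - 1) := by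
        have : 1 ≤ 2 * κ := by omega
        push_cast [this]
        ring
      rw [e2] at h
      exact h
    · have := i0.isLt
      exact Nat.mul_le_mul_left d (by omega)
    · simp only [dvd_mul_right, if_true, Nat.mul_div_cancel_left _ hd0, hc', i0.isLt, dif_pos]
      exact hi0
  have hsplit : ∑ c ∈ PP, S c = S 0 + ∑ c ∈ PP.erase 0, S c :=
    (Finset.add_sum_erase _ _ hzero).symm
  rw [horth, hsplit, hS0]
  have e3 : (2 : ℤ) ^ n - 1 + ∑ c ∈ PP.erase 0, S c - (2 ^ n - 1) = ∑ c ∈ PP.erase 0, S c := by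
    ring
  rw [e3]
  have hbd0 : (0 : ℤ) ≤ (3 * (d * (2 * κ - 1)) + 4) * 2 ^ ((n + 1) / 2) := by
    have : (0 : ℤ) ≤ 2 * κ - 1 := by omega
    positivity
  calc |∑ c ∈ PP.erase 0, S c| ≤ ∑ c ∈ PP.erase 0, |S c| := Finset.abs_sum_le_sum_abs _ _
    _ ≤ ∑ _c ∈ PP.erase 0, ((3 * (d * (2 * κ - 1)) + 4) * 2 ^ ((n + 1) / 2) : ℤ) :=
        Finset.sum_le_sum hbound
    _ = ((PP.erase 0).card : ℤ) * ((3 * (d * (2 * κ - 1)) + 4) * 2 ^ ((n + 1) / 2)) := by
        rw [Finset.sum_const, nsmul_eq_mul]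
    _ ≤ X * ((3 * (d * (2 * κ - 1)) + 4) * 2 ^ ((n + 1) / 2)) := by
        apply mul_le_mul_of_nonneg_right _ hbd0
        rw [← hPPcard]
        exact_mod_cast Finset.card_le_card (Finset.erase_subset _ _)

end

end RunMult
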