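import Mathlib

/-! Run property, span `n` property, multiplier property and two-level autocorrelation of binary
sequences of period `2 ^ n - 1`. -/

namespace RunMult

/-- The number of runs of the symbol `c` of length `k` (for `k ≥ 1`) in the periodic sequence `s`,
counted by their starting positions. -/
noncomputable def runCount {p : ℕ} (s : ZMod p → ZMod 2) (c : ZMod 2) (k : ℕ) : ℕ :=
  Nat.card {i : ZMod p // s (i - 1) ≠ c ∧ (∀ j < k, s (i + (j : ZMod p)) = c) ∧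
    s (i + (k : ZMod p)) ≠ c}

/-- P-2, the run property. -/
def RunProp (n : ℕ) (s : ZMod (2 ^ n - 1) → ZMod 2) : Prop :=
  (∀ k c, 1 ≤ k → k ≤ n - 2 → runCount s c k = 2 ^ (n - 2 - k)) ∧
  runCount s 0 (n - 1) = 1 ∧ runCount s 1 n = 1 ∧
  (∀ k, n ≤ k → runCount s 0 k = 0) ∧ runCount s 1 (n - 1) = 0 ∧
  (∀ k, n < k → runCount s 1 k = 0)

/-- P-3, the span `n` property: the windows of length `n` are exactly the nonzero vectors, each
occurring once. -/
def SpanProp (n : ℕ) (s : ZMod (2 ^ n - 1) → ZMod 2) : Prop :=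
  (∀ i, (fun j : Fin n => s (i + (j.val : ZMod (2 ^ n - 1)))) ≠ 0) ∧
  ∀ v : Fin n → ZMod 2, v ≠ 0 → ∃! i, (fun j : Fin n => s (i + (j.val : ZMod (2 ^ n - 1)))) = v

/-- P-4, the multiplier property. -/
def MultProp (n : ℕ) (s : ZMod (2 ^ n - 1) → ZMod 2) : Prop :=
  ∃ t, ∀ i, s (2 * i) = s (i + t)

/-- P-5, two-level autocorrelation. -/
def AutoProp (n : ℕ) (s : ZMod (2 ^ n - 1) → ZMod 2) : Prop :=
  ∀ τ : ZMod (2 ^ n - 1), τ ≠ 0 →
    Nat.card {i : ZMod (2 ^ n - 1) // s i ≠ s (i + τ)} = 2 ^ (n - 1)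

/-- `n` is admissible: some sequence has P-2 and P-4 and has neither P-3 nor P-5. -/
def Adm (n : ℕ) : Prop :=
  ∃ s : ZMod (2 ^ n - 1) → ZMod 2, RunProp n s ∧ MultProp n s ∧ ¬ SpanProp n s ∧ ¬ AutoProp n s

/-! Auxiliary notions over a finite field of characteristic 2. -/

/-- absolute trace -/
noncomputable abbrev tr {F : Type} [Field F] [Algebra (ZMod 2) F] (x : F) : ZMod 2 :=
  Algebra.trace (ZMod 2) F x

/-- number of nonzero `x` at which the values `g x, g (x a), …, g (x a ^ (L - 1))` all equal `c` -/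
noncomputable def NC {F : Type} [Field F] [Fintype F] (g : F → ZMod 2) (a : F) (c : ZMod 2)
    (L : ℕ) : ℕ := by
  classical exact (Finset.univ.filter fun x : F => x ≠ 0 ∧ ∀ j < L, g (x * a ^ j) = c).card

/-- number of runs of `c` of length `k` along the orbit of multiplication by `a` -/
noncomputable def RC {F : Type} [Field F] [Fintype F] (g : F → ZMod 2) (a : F) (c : ZMod 2)
    (k : ℕ) : ℕ := by
  classical exact (Finset.univ.filter fun x : F => x ≠ 0 ∧ g (x * a⁻¹) ≠ c ∧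
    (∀ j < k, g (x * a ^ j) = c) ∧ g (x * a ^ k) ≠ c).card

/-- the sign of an element of `ZMod 2` -/
def sg (z : ZMod 2) : ℤ := if z = 0 then 1 else -1

/-- the elements of the flipped set -/
def uu {F : Type} [Field F] (x d : F) (s : ℕ) (e : Bool) : F :=
  x ^ (2 ^ s) + if e then d ^ (2 ^ s) else 0

/-- the trace conditions on `y` -/
def cnd {F : Type} [Field F] [Algebra (ZMod 2) F] (κ : ℕ) (E : Finset F) (y : F) : Prop :=
  ∀ i < 2 * κ, ∀ c ∈ E, tr (c * (y ^ (2 * i) / y ^ (2 * κ - 1))) = 0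

section

open Polynomial

variable {F : Type} [Field F]

/-- the Laurent polynomial with odd exponents, evaluated -/
noncomputable def stf (D : ℕ) (γ : ℕ → F) (a : F) : F :=
  (∑ i ∈ Finset.range (D + 1), γ i * a ^ (2 * i)) / a ^ D

noncomputable def stG (D : ℕ) (γ : ℕ → F) : F[X] :=
  ∑ i ∈ Finset.range (D + 1), C (γ i) * X ^ (2 * i)

noncomputable def stFu (D h : ℕ) (γ : ℕ → F) : F[X] :=
  ∑ t ∈ Finset.range h, stG D γ ^ (2 ^ t) * X ^ (D * (2 ^ (h - 1) - 2 ^ t))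

noncomputable def stZ (n D h : ℕ) (γ : ℕ → F) (ε : F) : F[X] :=
  ∑ t ∈ Finset.Ico h n, stG D γ ^ (2 ^ t) * X ^ (D * (2 ^ (n - 1) - 2 ^ t)) +
    C ε * X ^ (D * 2 ^ (n - 1))

noncomputable def stT (D h J : ℕ) (γ : ℕ → F) (s : ℕ → F[X]) (ρ : ℕ) : F[X] :=
  ∑ j ∈ Finset.range J, ∑ i ∈ Finset.range (D * 2 ^ h + 1),
    if (j + i + 2 ^ (h - 1)) % 2 ^ h = ρ then
      C ((stFu D h γ).coeff i) * X ^ (2 ^ h * ((j + i + 2 ^ (h - 1)) / 2 ^ h)) * s j else 0

noncomputable def stR (n D h J : ℕ) (γ : ℕ → F) (ε : F) (s : ℕ → F[X]) : F[X] :=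
  ∑ j ∈ Finset.range J, X ^ (j * 2 ^ n) * s j * stZ n D h γ ε +
  X ^ (D * 2 ^ (n - 1) - (D + 1) * 2 ^ (h - 1)) *
    ∑ ρ ∈ Finset.range (2 ^ h), X ^ (2 ^ n * ρ) * stT D h J γ s ρ

end

end RunMult
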