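import Pool.Agent.Lib.MP_d16eef_co.ExDefs

namespace RunMult

open Finset

section

variable {R : Type} [CommRing R]

theorem testBit_lt (m i : ℕ) (h : m.testBit i = true) : i < m :=
  lt_of_lt_of_le Nat.lt_two_pow_self (Nat.ge_two_pow_of_testBit h)

theorem ev_eq_sum (a : R) (m L : ℕ) (h : m < 2 ^ L) :
    ev a m = ∑ i ∈ range L, if m.testBit i then a ^ i else 0 := by
  unfold ev
  have h1 : ∀ N, m ≤ N → (∑ i ∈ range m, if m.testBit i then a ^ i else 0) =
      ∑ i ∈ range N, if m.testBit i then a ^ i else 0 := by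
    intro N hN
    apply sum_subset (range_subset_range.mpr hN)
    intro i _ hi
    rw [if_neg]
    intro hb
    exact hi (mem_range.mpr (testBit_lt m i hb))
  have h2 : ∀ N, L ≤ N → (∑ i ∈ range L, if m.testBit i then a ^ i else 0) =
      ∑ i ∈ range N, if m.testBit i then a ^ i else 0 := by
    intro N hN
    apply sum_subset (range_subset_range.mpr hN)
    intro i _ hi
    rw [if_neg]
    intro hb
    have h3 : L ≤ i := by simpa using hi
    have h4 := Nat.ge_two_pow_of_testBit hb
    have h5 : 2 ^ L ≤ 2 ^ i := Nat.pow_le_pow_right (by norm_num) h3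
    omega
  rw [h1 (max m L) (le_max_left _ _), h2 (max m L) (le_max_right _ _)]

theorem ev_zero (a : R) : ev a 0 = 0 := by
  simp [ev]

theorem ev_one (a : R) : ev a 1 = 1 := by
  simp [ev]

theorem ev_two_pow (a : R) (i : ℕ) : ev a (2 ^ i) = a ^ i := by
  rw [ev_eq_sum a (2 ^ i) (i + 1) (Nat.pow_lt_pow_right (by norm_num) (Nat.lt_succ_self i)),
    sum_eq_single i]
  · simp
  · intro j _ hj
    rw [if_neg]
    simpa [Nat.testBit_two_pow] using Ne.symm hj
  · simp

theorem ev_two (a : R) : ev a 2 = a := by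
  simpa using ev_two_pow a 1

theorem ev_two_mul (a : R) (m : ℕ) : ev a (2 * m) = a * ev a m := by
  have hm : m < 2 ^ m := Nat.lt_two_pow_self
  rw [ev_eq_sum a m m hm, ev_eq_sum a (2 * m) (m + 1) (by rw [pow_succ]; omega),
    sum_range_succ', mul_sum]
  have h0 : (if (2 * m).testBit 0 = true then a ^ 0 else 0) = (0 : R) := by
    simp [Nat.testBit_zero]
  rw [h0, add_zero]
  refine sum_congr rfl fun i _ => ?_
  rw [Nat.testBit_add_one, Nat.mul_div_cancel_left _ (by norm_num)]
  split_ifs
  · ring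
  · simp

theorem ev_xor (h2 : (2 : R) = 0) (a : R) (m k : ℕ) : ev a (Nat.xor m k) = ev a m + ev a k := by
  have hm : m < 2 ^ (max m k) := lt_of_lt_of_le Nat.lt_two_pow_self
    (Nat.pow_le_pow_right (by norm_num) (le_max_left _ _))
  have hk : k < 2 ^ (max m k) := lt_of_lt_of_le Nat.lt_two_pow_self
    (Nat.pow_le_pow_right (by norm_num) (le_max_right _ _))
  have hx : Nat.xor m k < 2 ^ (max m k) := Nat.xor_lt_two_pow hm hk
  rw [ev_eq_sum a m _ hm, ev_eq_sum a k _ hk, ev_eq_sum a _ _ hx, ← sum_add_distrib]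
  refine sum_congr rfl fun i _ => ?_
  have : (Nat.xor m k).testBit i = Bool.xor (m.testBit i) (k.testBit i) := Nat.testBit_xor m k i
  rw [this]
  cases m.testBit i <;> cases k.testBit i <;> simp
  rw [← two_mul, h2, zero_mul]

/-- adding the bit `k` on top of the low bits -/
theorem ev_mod_succ (a : R) (m k : ℕ) :
    ev a (m % 2 ^ (k + 1)) = ev a (m % 2 ^ k) + if m.testBit k then a ^ k else 0 := by
  rw [ev_eq_sum a (m % 2 ^ k) k (Nat.mod_lt _ (by positivity)),
    ev_eq_sum a (m % 2 ^ (k + 1)) (k + 1) (Nat.mod_lt _ (by positivity)), sum_range_succ]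
  congr 1
  · refine sum_congr rfl fun i hi => ?_
    have hi' := mem_range.mp hi
    rw [Nat.testBit_mod_two_pow, Nat.testBit_mod_two_pow]
    simp [hi', Nat.lt_succ_of_lt hi']
  · rw [Nat.testBit_mod_two_pow]
    simp

end

end RunMult
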