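import Pool.Agent.Lib.MP_d16eef_co.EvA

namespace RunMult

open Finset

theorem testBit_top (n f : ℕ) (hf : f < 2 ^ (n + 1)) (hf2 : 2 ^ n ≤ f) : f.testBit n = true := by
  rw [Nat.testBit_eq_decide_div_mod_eq, decide_eq_true_eq]
  have : f / 2 ^ n = 1 := by
    apply Nat.div_eq_of_lt_le
    · simpa using hf2
    · rw [pow_succ] at hf
      linarith
  rw [this]

theorem mX_lt (n f m : ℕ) (hf : f < 2 ^ (n + 1)) (hf2 : 2 ^ n ≤ f) (hm : m < 2 ^ n) :
    mX (2 ^ n) f m < 2 ^ n := by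
  unfold mX
  split_ifs with h
  · have h2m : 2 * m < 2 ^ (n + 1) := by rw [pow_succ]; omega
    apply Nat.lt_pow_two_of_testBit
    intro i hi
    have hx : (Nat.xor (2 * m) f).testBit i = Bool.xor ((2 * m).testBit i) (f.testBit i) :=
      Nat.testBit_xor _ _ _
    rw [hx]
    rcases eq_or_lt_of_le hi with rfl | hlt
    · rw [testBit_top _ _ hf hf2, testBit_top _ _ h2m h]
      rfl
    · have h3 : 2 ^ (n + 1) ≤ 2 ^ i := Nat.pow_le_pow_right (by norm_num) hlt
      rw [Nat.testBit_lt_two_pow (lt_of_lt_of_le h2m h3),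
        Nat.testBit_lt_two_pow (lt_of_lt_of_le hf h3)]
      rfl
  · omega

theorem dX_lt (n f m : ℕ) (hf : f < 2 ^ (n + 1)) (hm : m < 2 ^ n) : dX f m < 2 ^ n := by
  unfold dX
  split_ifs
  · omega
  · have h1 : m < 2 ^ (n + 1) := by rw [pow_succ]; omega
    have h2 : Nat.xor m f < 2 ^ (n + 1) := Nat.xor_lt_two_pow h1 hf
    rw [pow_succ] at h2
    omega

theorem mMul_lt (n f b m k acc : ℕ) (hf : f < 2 ^ (n + 1)) (hf2 : 2 ^ n ≤ f) (hb : b < 2 ^ n)
    (hacc : acc < 2 ^ n) : mMul (2 ^ n) f b m k acc < 2 ^ n := by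
  induction k generalizing acc with
  | zero => exact hacc
  | succ k ih =>
    apply ih
    apply Nat.xor_lt_two_pow
    · exact mX_lt n f acc hf hf2 hacc
    · split_ifs
      · exact hb
      · positivity

theorem mSq_lt (n f m : ℕ) (hf : f < 2 ^ (n + 1)) (hf2 : 2 ^ n ≤ f) (hm : m < 2 ^ n) :
    mSq n (2 ^ n) f m < 2 ^ n := mMul_lt n f m m n 0 hf hf2 hm (by positivity)

theorem pw_lt (n f e k acc : ℕ) (hf : f < 2 ^ (n + 1)) (hf2 : 2 ^ n ≤ f) (hacc : acc < 2 ^ n) :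
    pw n (2 ^ n) f e k acc < 2 ^ n := by
  induction k generalizing acc with
  | zero => exact hacc
  | succ k ih =>
    apply ih
    split_ifs
    · exact mX_lt n f _ hf hf2 (mSq_lt n f acc hf hf2 hacc)
    · exact mSq_lt n f acc hf hf2 hacc

theorem sqIter_lt (n f k m : ℕ) (hf : f < 2 ^ (n + 1)) (hf2 : 2 ^ n ≤ f) (hm : m < 2 ^ n) :
    sqIter n (2 ^ n) f k m < 2 ^ n := by
  induction k generalizing m with
  | zero => exact hm
  | succ k ih => exact ih _ (mSq_lt n f m hf hf2 hm)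

theorem mXit_lt (n f k m : ℕ) (hf : f < 2 ^ (n + 1)) (hf2 : 2 ^ n ≤ f) (hm : m < 2 ^ n) :
    mXit (2 ^ n) f k m < 2 ^ n := by
  induction k generalizing m with
  | zero => exact hm
  | succ k ih => exact ih _ (mX_lt n f m hf hf2 hm)

theorem dXit_lt (n f k m : ℕ) (hf : f < 2 ^ (n + 1)) (hm : m < 2 ^ n) :
    dXit f k m < 2 ^ n := by
  induction k generalizing m with
  | zero => exact hm
  | succ k ih => exact ih _ (dX_lt n f m hf hm)

section

variable {R : Type} [CommRing R]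

theorem ev_mX (h2 : (2 : R) = 0) (a : R) (n f m : ℕ) (hf : ev a f = 0) :
    ev a (mX (2 ^ n) f m) = a * ev a m := by
  unfold mX
  split_ifs
  · rw [ev_xor h2, hf, add_zero, ev_two_mul]
  · rw [ev_two_mul]

theorem ev_dX (h2 : (2 : R) = 0) (a : R) (f m : ℕ) (hodd : f % 2 = 1) (hf : ev a f = 0) :
    a * ev a (dX f m) = ev a m := by
  unfold dX
  rw [← ev_two_mul]
  split_ifs with h
  · rw [Nat.mul_div_cancel' (Nat.dvd_of_mod_eq_zero h)]
  · have h3 : Nat.xor m f % 2 = 0 := by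
      have h4 : (Nat.xor m f).testBit 0 = Bool.xor (m.testBit 0) (f.testBit 0) :=
        Nat.testBit_xor _ _ _
      have h5 : m % 2 = 1 := by omega
      rw [Nat.testBit_zero, Nat.testBit_zero, Nat.testBit_zero, hodd, h5] at h4
      have h6 : ¬ (Nat.xor m f % 2 = 1) := by simpa using h4
      omega
    rw [Nat.mul_div_cancel' (Nat.dvd_of_mod_eq_zero h3), ev_xor h2, hf, add_zero]

theorem ev_mMul (h2 : (2 : R) = 0) (a : R) (n f b m k acc : ℕ) (hf : ev a f = 0) :
    ev a (mMul (2 ^ n) f b m k acc) = ev a acc * a ^ k + ev a b * ev a (m % 2 ^ k) := by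
  induction k generalizing acc with
  | zero =>
    rw [pow_zero, pow_zero, Nat.mod_one, ev_zero, mul_one, mul_zero, add_zero]
    rfl
  | succ k ih =>
    change ev a (mMul (2 ^ n) f b m k (Nat.xor (mX (2 ^ n) f acc)
      (if Nat.testBit m k then b else 0))) = _
    rw [ih, ev_xor h2, ev_mX h2 a n f acc hf, ev_mod_succ]
    split_ifs
    · ring
    · rw [ev_zero]
      ring

theorem ev_mSq (h2 : (2 : R) = 0) (a : R) (n f m : ℕ) (hf : ev a f = 0) (hm : m < 2 ^ n) :
    ev a (mSq n (2 ^ n) f m) = ev a m ^ 2 := by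
  unfold mSq
  rw [ev_mMul h2 a n f m m n 0 hf, ev_zero, Nat.mod_eq_of_lt hm]
  ring

theorem ev_pw (h2 : (2 : R) = 0) (a : R) (n f e k acc : ℕ) (hf : ev a f = 0)
    (hfl : f < 2 ^ (n + 1)) (hf2 : 2 ^ n ≤ f) (hacc : acc < 2 ^ n) :
    ev a (pw n (2 ^ n) f e k acc) = ev a acc ^ (2 ^ k) * a ^ (e % 2 ^ k) := by
  induction k generalizing acc with
  | zero =>
    rw [pow_zero, pow_one, Nat.mod_one, pow_zero, mul_one]
    rfl
  | succ k ih =>
    have hs := mSq_lt n f acc hfl hf2 hacc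
    have hp : pw n (2 ^ n) f e (k + 1) acc = pw n (2 ^ n) f e k
      (if Nat.testBit e k then mX (2 ^ n) f (mSq n (2 ^ n) f acc) else mSq n (2 ^ n) f acc) := rfl
    have he : e % 2 ^ (k + 1) = e % 2 ^ k + 2 ^ k * (e / 2 ^ k % 2) := Nat.mod_pow_succ
    rw [hp, he]
    have hb : e.testBit k = decide (e / 2 ^ k % 2 = 1) := Nat.testBit_eq_decide_div_mod_eq
    by_cases h : e / 2 ^ k % 2 = 1
    · rw [hb, decide_eq_true h, if_pos rfl, ih _ (mX_lt n f _ hfl hf2 hs), ev_mX h2 a n f _ hf,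
        ev_mSq h2 a n f acc hf hacc, h, mul_one]
      ring
    · have h0 : e / 2 ^ k % 2 = 0 := by omega
      rw [hb, decide_eq_false h, if_neg (by decide), ih _ hs, ev_mSq h2 a n f acc hf hacc, h0,
        mul_zero, add_zero, ← pow_mul, pow_succ 2 k, mul_comm 2 (2 ^ k)]

theorem ev_sqIter (h2 : (2 : R) = 0) (a : R) (n f k m : ℕ) (hf : ev a f = 0)
    (hfl : f < 2 ^ (n + 1)) (hf2 : 2 ^ n ≤ f) (hm : m < 2 ^ n) :
    ev a (sqIter n (2 ^ n) f k m) = ev a m ^ (2 ^ k) := by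
  induction k generalizing m with
  | zero => rw [pow_zero, pow_one]; rfl
  | succ k ih =>
    change ev a (sqIter n (2 ^ n) f k (mSq n (2 ^ n) f m)) = _
    rw [ih _ (mSq_lt n f m hfl hf2 hm), ev_mSq h2 a n f m hf hm, ← pow_mul, pow_succ 2 k,
      mul_comm 2 (2 ^ k)]

theorem ev_mXit (h2 : (2 : R) = 0) (a : R) (n f k m : ℕ) (hf : ev a f = 0) :
    ev a (mXit (2 ^ n) f k m) = a ^ k * ev a m := by
  induction k generalizing m with
  | zero => rw [pow_zero, one_mul]; rfl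
  | succ k ih =>
    change ev a (mXit (2 ^ n) f k (mX (2 ^ n) f m)) = _
    rw [ih, ev_mX h2 a n f m hf]
    ring

theorem ev_dXit (h2 : (2 : R) = 0) (a : R) (f k m : ℕ) (hodd : f % 2 = 1) (hf : ev a f = 0) :
    a ^ k * ev a (dXit f k m) = ev a m := by
  induction k generalizing m with
  | zero => rw [pow_zero, one_mul]; rfl
  | succ k ih =>
    change a ^ (k + 1) * ev a (dXit f k (dX f m)) = _
    rw [pow_succ', mul_assoc, ih, ev_dX h2 a f m hodd hf]

/-- the list of conjugates -/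
theorem mem_conjL (h2 : (2 : R) = 0) (a : R) (n f k m : ℕ) (hf : ev a f = 0)
    (hfl : f < 2 ^ (n + 1)) (hf2 : 2 ^ n ≤ f) (hm : m < 2 ^ n) :
    (conjL n (2 ^ n) f k m).length = k ∧
    ∀ s (hs : s < (conjL n (2 ^ n) f k m).length),
      (conjL n (2 ^ n) f k m)[s] < 2 ^ n ∧
        ev a (conjL n (2 ^ n) f k m)[s] = ev a m ^ (2 ^ s) := by
  induction k generalizing m with
  | zero =>
    refine ⟨rfl, ?_⟩
    intro s hs
    exact absurd hs (by simp [conjL])
  | succ k ih =>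
    obtain ⟨h3, h4⟩ := ih (mSq n (2 ^ n) f m) (mSq_lt n f m hfl hf2 hm)
    refine ⟨?_, ?_⟩
    · change (conjL n (2 ^ n) f k (mSq n (2 ^ n) f m)).length + 1 = _
      rw [h3]
    · intro s hs
      cases s with
      | zero =>
        refine ⟨hm, ?_⟩
        rw [pow_zero, pow_one]
        rfl
      | succ s =>
        have hs' : s < (conjL n (2 ^ n) f k (mSq n (2 ^ n) f m)).length := by
          have : (conjL n (2 ^ n) f (k + 1) m).length =
            (conjL n (2 ^ n) f k (mSq n (2 ^ n) f m)).length + 1 := rfl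
          omega
        obtain ⟨h5, h6⟩ := h4 s hs'
        refine ⟨h5, ?_⟩
        change ev a (conjL n (2 ^ n) f k (mSq n (2 ^ n) f m))[s] = _
        rw [h6, ev_mSq h2 a n f m hf hm, ← pow_mul, pow_succ 2 s, mul_comm 2 (2 ^ s)]

end

end RunMult
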