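import Pool.Agent.Lib.MP_d16eef_co.Core

/-! Kernel computable arithmetic in `F_2[X] / (f)` with bit masks, and the certificate check. -/

namespace RunMult

/-- the value at `a` of the polynomial with bit mask `m` -/
def ev {R : Type} [CommRing R] (a : R) (m : ℕ) : R :=
  ∑ i ∈ Finset.range m, if m.testBit i then a ^ i else 0

/-- multiplication by `X` modulo the polynomial of degree `n` with bit mask `f`; `P = 2 ^ n` -/
def mX (P f m : ℕ) : ℕ := if P ≤ 2 * m then Nat.xor (2 * m) f else 2 * m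

/-- division by `X` (the constant coefficient of `f` is `1`) -/
def dX (f m : ℕ) : ℕ := if m % 2 = 0 then m / 2 else Nat.xor m f / 2

/-- `acc * X ^ k + b * (the polynomial of the low k bits of m)` -/
def mMul (P f b m : ℕ) : ℕ → ℕ → ℕ
  | 0, acc => acc
  | k + 1, acc => mMul P f b m k (Nat.xor (mX P f acc) (if Nat.testBit m k then b else 0))

/-- squaring -/
def mSq (n P f m : ℕ) : ℕ := mMul P f m m n 0

/-- `acc ^ (2 ^ k) * X ^ (e % 2 ^ k)` -/
def pw (n P f e : ℕ) : ℕ → ℕ → ℕ
  | 0, acc => acc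
  | k + 1, acc => pw n P f e k (if Nat.testBit e k then mX P f (mSq n P f acc) else mSq n P f acc)

/-- `k`-fold squaring -/
def sqIter (n P f : ℕ) : ℕ → ℕ → ℕ
  | 0, m => m
  | k + 1, m => sqIter n P f k (mSq n P f m)

/-- the list `m, m ^ 2, m ^ 4, …` of length `k` -/
def conjL (n P f : ℕ) : ℕ → ℕ → List ℕ
  | 0, _ => []
  | k + 1, m => m :: conjL n P f k (mSq n P f m)

/-- `X ^ k * m` -/
def mXit (P f : ℕ) : ℕ → ℕ → ℕ
  | 0, m => m
  | k + 1, m => mXit P f k (mX P f m)

/-- `X ^ (-k) * m` -/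
def dXit (f : ℕ) : ℕ → ℕ → ℕ
  | 0, m => m
  | k + 1, m => dXit f k (dX f m)

/-- the parity of the number of positions in `T` at which `m` has the bit `1` -/
def lam (T : List ℕ) (m : ℕ) : Bool := T.foldl (fun b i => Bool.xor b (Nat.testBit m i)) false

/-- the polynomial is a divisor of `X ^ (2 ^ n) - X`, and `X ^ (N / q) - 1` is invertible for the
listed `q`, where `N = 2 ^ n - 1` -/
def check1 (n f : ℕ) (qs : List (ℕ × ℕ)) : Bool :=
  (sqIter n (2 ^ n) f n 2 == 2) &&
  qs.all fun q => (mMul (2 ^ n) f q.2 (Nat.xor (pw n (2 ^ n) f ((2 ^ n - 1) / q.1) n 1) 1) n 0 == 1)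
    && Nat.blt q.2 (2 ^ n)

/-- the functional `lam T` is invariant under Frobenius and takes the value `1` at `1`, and it
vanishes at `X ^ i` for `1 ≤ |i| ≤ K` -/
def check2 (n K f : ℕ) (T : List ℕ) : Bool :=
  T.all (fun i => Nat.blt i n) && T.Nodup && lam T 1 &&
  (List.range n).all (fun i => lam T (mXit (2 ^ n) f (2 * i) 1) == lam T (2 ^ i)) &&
  (List.range K).all (fun i => (!lam T (mXit (2 ^ n) f (i + 1) 1)) &&
    !lam T (dXit f (i + 1) 1))

/-- both values occur among the bits `1, …, K`, and among the bits `-1, …, -K`, at `y` -/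
def chkWin (n K f : ℕ) (T : List ℕ) (y : ℕ) : Bool :=
  (List.range K).any (fun i => lam T (mXit (2 ^ n) f (i + 1) y)) &&
  (List.range K).any (fun i => !lam T (mXit (2 ^ n) f (i + 1) y)) &&
  (List.range K).any (fun i => lam T (dXit f (i + 1) y)) &&
  (List.range K).any (fun i => !lam T (dXit f (i + 1) y))

/-- the elements `x ^ (2 ^ s)` and `x ^ (2 ^ s) + 1` -/
def UL (n f x : ℕ) : List ℕ :=
  conjL n (2 ^ n) f n x ++ (conjL n (2 ^ n) f n x).map (fun y => Nat.xor y 1)

/-- hash table of a list as a bit mask -/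
def htab (M : ℕ) (l : List ℕ) : ℕ := l.foldl (fun H u => H ||| (1 <<< (u % M))) 0

/-- the element is certainly not in the list with the hash table `H` -/
def hnot (M H v : ℕ) : Bool := !Nat.testBit H (v % M)

def check3 (n K f : ℕ) (T : List ℕ) (tau x eta M : ℕ) : Bool :=
  Nat.blt x (2 ^ n) && Nat.blt eta (2 ^ n) &&
  (conjL n (2 ^ n) f n x).all (fun y => chkWin n K f T y) &&
  lam T eta && (List.range (n - 1)).all (fun i => !lam T (mXit (2 ^ n) f (i + 1) eta)) &&
  (lam T (mXit (2 ^ n) f tau 1) != lam T (dXit f tau 1)) &&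
  decide (UL n f x).Nodup &&
  (fun H =>
    (UL n f x).all (fun u => (List.range (2 * K - 2)).all (fun i =>
      hnot M H (mXit (2 ^ n) f (i + 1) u))) &&
    (UL n f x).all (fun u => hnot M H (mXit (2 ^ n) f tau u)) &&
    (List.range (n - 1)).all (fun i => hnot M H (mXit (2 ^ n) f (i + 1) x)) &&
    (List.range n).all (fun i => hnot M H (mXit (2 ^ n) f i (Nat.xor x eta))))
  (htab M (UL n f x))

end RunMult
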