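import Pool.Agent.Lib.MP_d16eef_co.ExSound

/-! The certificate check with a general element `d` of trace 1 of a subfield. -/

namespace RunMult

open Finset

/-- the functional `lam T` is invariant under Frobenius and takes the value `1` at `d`,
`d ^ (2 ^ b) = d`, and `lam T` vanishes at `d ^ (2 ^ s) * X ^ i` for `s < b`, `1 ≤ |i| ≤ K` -/
def check2D (n K f : ℕ) (T : List ℕ) (b d : ℕ) : Bool :=
  T.all (fun i => Nat.blt i n) && lam T d && Nat.blt d (2 ^ n) && Nat.blt 0 b &&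
  (List.range n).all (fun i => lam T (mXit (2 ^ n) f (2 * i) 1) == lam T (2 ^ i)) &&
  (sqIter n (2 ^ n) f b d == d) &&
  (conjL n (2 ^ n) f b d).all fun y => (List.range K).all fun i =>
    (!lam T (mXit (2 ^ n) f (i + 1) y)) && !lam T (dXit f (i + 1) y)

/-- the elements `x ^ (2 ^ s)` and `x ^ (2 ^ s) + d ^ (2 ^ s)` -/
def ULD (n f x d : ℕ) : List ℕ :=
  conjL n (2 ^ n) f n x ++
    List.zipWith (fun y z => Nat.xor y z) (conjL n (2 ^ n) f n x) (conjL n (2 ^ n) f n d)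

def check3D (n K f : ℕ) (T : List ℕ) (tau d x eta M : ℕ) : Bool :=
  Nat.blt x (2 ^ n) && Nat.blt eta (2 ^ n) &&
  (conjL n (2 ^ n) f n x).all (fun y => chkWin n K f T y) &&
  lam T eta && (List.range (n - 1)).all (fun i => !lam T (mXit (2 ^ n) f (i + 1) eta)) &&
  (lam T (mXit (2 ^ n) f tau 1) != lam T (dXit f tau 1)) &&
  decide (ULD n f x d).Nodup &&
  (fun H =>
    (ULD n f x d).all (fun u => (List.range (2 * K - 2)).all (fun i =>
      hnot M H (mXit (2 ^ n) f (i + 1) u))) &&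
    (ULD n f x d).all (fun u => hnot M H (mXit (2 ^ n) f tau u)) &&
    (List.range (n - 1)).all (fun i => hnot M H (mXit (2 ^ n) f (i + 1) x)) &&
    (List.range n).all (fun i => hnot M H (mXit (2 ^ n) f i (Nat.xor x eta))))
  (htab M (ULD n f x d))

section

variable {F : Type} [Field F] [Fintype F] [DecidableEq F] [Algebra (ZMod 2) F]

theorem cfun_sq' (n f : ℕ) (T : List ℕ) (hn : 2 ≤ n) (hF : Fintype.card F = 2 ^ n) (a : F)
    (ha : orderOf a = 2 ^ n - 1) (hf : ev a f = 0) (hfl : f < 2 ^ (n + 1)) (hf2 : 2 ^ n ≤ f)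
    (hT : ∀ i ∈ T, i < n)
    (hfr : (List.range n).all (fun i => lam T (mXit (2 ^ n) f (2 * i) 1) == lam T (2 ^ i)) = true)
    (y : F) :
    cfun n hF a ha T (y ^ 2) = cfun n hF a ha T y := by
  have hch := charP_two F
  have h2F := two_eq_zero' F
  have hone : 1 < 2 ^ n := Nat.one_lt_two_pow (by omega)
  let ψ : F →+ ZMod 2 :=
    (cfun n hF a ha T).toAddMonoidHom.comp (frobenius F 2).toAddMonoidHom
  have hψ : ∀ y, ψ y = cfun n hF a ha T (y ^ 2) := fun y => rfl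
  have hL : ψ.toZModLinearMap 2 = cfun n hF a ha T := by
    apply (pbasis n hF a ha).ext
    intro i
    have h3 := (List.all_eq_true.mp hfr) (i : ℕ) (List.mem_range.mpr i.2)
    rw [beq_iff_eq] at h3
    change ψ (pbasis n hF a ha i) = _
    rw [hψ, pbasis_apply, ← pow_mul, mul_comm]
    have e1 : a ^ (2 * (i : ℕ)) = ev a (mXit (2 ^ n) f (2 * i) 1) := by
      rw [ev_mXit h2F a n f _ _ hf, ev_one, mul_one]
    rw [e1, cfun_ev n hF a ha T hT _ (mXit_lt n f _ _ hfl hf2 hone), h3, ← ev_two_pow,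
      cfun_ev n hF a ha T hT _ (Nat.pow_lt_pow_right (by norm_num) i.2)]
  rw [← hψ]
  exact congrArg (fun l : F →ₗ[ZMod 2] ZMod 2 => l y) hL

/-- the functional of the certificate is the trace -/
theorem tr_evD (n K f : ℕ) (T : List ℕ) (b d : ℕ) (hn : 2 ≤ n) (hF : Fintype.card F = 2 ^ n)
    (a : F) (ha : orderOf a = 2 ^ n - 1) (hf : ev a f = 0) (hfl : f < 2 ^ (n + 1))
    (hf2 : 2 ^ n ≤ f) (h2 : check2D n K f T b d = true) (m : ℕ) (hm : m < 2 ^ n) :
    tr (ev a m) = if lam T m then 1 else 0 := by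
  simp only [check2D, Bool.and_eq_true] at h2
  obtain ⟨⟨⟨⟨⟨⟨hT, hd1⟩, hd⟩, -⟩, hfr⟩, -⟩, -⟩ := h2
  replace hT : ∀ i ∈ T, i < n := by
    intro i hi
    have := (List.all_eq_true.mp hT) i hi
    simpa [Nat.blt_eq] using this
  replace hd : d < 2 ^ n := by simpa [Nat.blt_eq] using hd
  have hsq := cfun_sq' n f T hn hF a ha hf hfl hf2 hT hfr
  obtain ⟨b, hb⟩ := exists_tr (cfun n hF a ha T)
  have hb2 : b - b ^ 2 = 0 := by
    apply tr_nondeg
    intro z
    obtain ⟨y, rfl⟩ := sq_surj z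
    rw [sub_mul, tr_sub, ← mul_pow, tr_sq, ← hb, ← hb, hsq, sub_self]
  have hb01 : b * (1 - b) = 0 := by rw [← hb2]; ring
  have hL1 : cfun n hF a ha T (ev a d) = 1 := by
    rw [cfun_ev n hF a ha T hT d hd, if_pos hd1]
  rcases mul_eq_zero.mp hb01 with h0 | h0
  · rw [hb, h0, zero_mul, tr_zero] at hL1
    exact absurd hL1 zero_ne_one
  · have hb1 : b = 1 := (sub_eq_zero.mp h0).symm
    rw [← cfun_ev n hF a ha T hT m hm, hb, hb1, one_mul]

omit [Fintype F] [DecidableEq F] [Algebra (ZMod 2) F] in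
theorem pow2_period (d : F) (b s : ℕ) (h : d ^ (2 ^ b) = d) :
    d ^ (2 ^ s) = d ^ (2 ^ (s % b)) := by
  have h1 : ∀ k, d ^ (2 ^ (b * k)) = d := by
    intro k
    induction k with
    | zero => simp
    | succ k ih => rw [Nat.mul_succ, pow_add, pow_mul, ih, h]
  conv_lhs => rw [← Nat.div_add_mod s b, pow_add, pow_mul, h1]

/-- the vanishing traces -/
theorem tr_zero_rangeD (n K f : ℕ) (T : List ℕ) (b d : ℕ) (hn : 2 ≤ n)
    (hF : Fintype.card F = 2 ^ n) (a : F)
    (ha : orderOf a = 2 ^ n - 1) (hf : ev a f = 0) (hfl : f < 2 ^ (n + 1)) (hf2 : 2 ^ n ≤ f)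
    (hodd : f % 2 = 1) (h2 : check2D n K f T b d = true) (s : ℕ) (i : ℤ) (hi : i ≠ 0)
    (hiK : |i| ≤ K) :
    tr (ev a d ^ (2 ^ s) * a ^ i) = 0 := by
  have h2F := two_eq_zero' F
  have ha0 := (gen_ne_zero n hF a ha).2
  have htr := tr_evD n K f T b d hn hF a ha hf hfl hf2 h2
  simp only [check2D, Bool.and_eq_true] at h2
  obtain ⟨⟨⟨⟨⟨⟨-, -⟩, hd⟩, hb0⟩, -⟩, hper⟩, hall⟩ := h2
  replace hd : d < 2 ^ n := by simpa [Nat.blt_eq] using hd
  replace hb0 : 0 < b := by simpa [Nat.blt_eq] using hb0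
  rw [beq_iff_eq] at hper
  have hper' : ev a d ^ (2 ^ b) = ev a d := by
    rw [← ev_sqIter h2F a n f b d hf hfl hf2 hd, hper]
  rw [pow2_period _ b s hper']
  obtain ⟨hlen, hc⟩ := mem_conjL h2F a n f b d hf hfl hf2 hd
  have hsb : s % b < (conjL n (2 ^ n) f b d).length := by
    rw [hlen]; exact Nat.mod_lt _ hb0
  obtain ⟨h5, h6⟩ := hc (s % b) hsb
  have hK := (List.all_eq_true.mp hall) _ (List.getElem_mem hsb)
  rw [← h6]
  generalize (conjL n (2 ^ n) f b d)[s % b] = y at h5 hK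
  rcases lt_or_gt_of_ne hi with hneg | hpos
  · obtain ⟨k, rfl⟩ : ∃ k : ℕ, i = -((k + 1 : ℕ) : ℤ) := ⟨i.natAbs - 1, by omega⟩
    have hk : k < K := by
      rw [abs_neg, abs_of_nonneg (by positivity)] at hiK
      push_cast at hiK
      omega
    have h3 := (List.all_eq_true.mp hK) k (List.mem_range.mpr hk)
    simp only [Bool.and_eq_true, Bool.not_eq_true'] at h3
    have e1 : ev a y * a ^ (-((k + 1 : ℕ) : ℤ)) = ev a (dXit f (k + 1) y) := by
      have := ev_dXit h2F a f (k + 1) y hodd hf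
      rw [← this, zpow_neg, zpow_natCast]
      field_simp
    rw [e1, htr _ (dXit_lt n f _ _ hfl h5), h3.2]
    simp
  · obtain ⟨k, rfl⟩ : ∃ k : ℕ, i = ((k + 1 : ℕ) : ℤ) := ⟨i.natAbs - 1, by omega⟩
    have hk : k < K := by
      rw [abs_of_nonneg (by positivity)] at hiK
      push_cast at hiK
      omega
    have h3 := (List.all_eq_true.mp hK) k (List.mem_range.mpr hk)
    simp only [Bool.and_eq_true, Bool.not_eq_true'] at h3
    have e1 : ev a y * a ^ ((k + 1 : ℕ) : ℤ) = ev a (mXit (2 ^ n) f (k + 1) y) := by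
      rw [ev_mXit h2F a n f _ _ hf, zpow_natCast, mul_comm]
    rw [e1, htr _ (mXit_lt n f _ _ hfl hf2 h5), h3.1]
    simp

end

theorem ULD_get {F : Type} [Field F] (h2 : (2 : F) = 0) (n f x d : ℕ) (a : F) (hf : ev a f = 0)
    (hfl : f < 2 ^ (n + 1)) (hf2 : 2 ^ n ≤ f) (hx : x < 2 ^ n) (hd : d < 2 ^ n) (s : ℕ)
    (hs : s < n) (e : Bool) :
    ∃ u, (ULD n f x d)[if e then n + s else s]? = some u ∧ u < 2 ^ n ∧
      ev a u = uu (ev a x) (ev a d) s e := by
  obtain ⟨hlen, hc⟩ := mem_conjL h2 a n f n x hf hfl hf2 hx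
  have hs' : s < (conjL n (2 ^ n) f n x).length := by omega
  obtain ⟨h3, h4⟩ := hc s hs'
  obtain ⟨hlend, hcd⟩ := mem_conjL h2 a n f n d hf hfl hf2 hd
  have hsd : s < (conjL n (2 ^ n) f n d).length := by omega
  obtain ⟨h5, h6⟩ := hcd s hsd
  cases e with
  | false =>
    refine ⟨(conjL n (2 ^ n) f n x)[s], ?_, h3, ?_⟩
    · simp only [ULD, Bool.false_eq_true, if_false]
      rw [List.getElem?_append_left hs', List.getElem?_eq_getElem hs']
    · simp [uu, h4]
  | true =>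
    refine ⟨Nat.xor (conjL n (2 ^ n) f n x)[s] (conjL n (2 ^ n) f n d)[s], ?_, ?_, ?_⟩
    · simp only [ULD, if_true]
      rw [List.getElem?_append_right (by omega), hlen, Nat.add_sub_cancel_left,
        List.getElem?_zipWith, List.getElem?_eq_getElem hs', List.getElem?_eq_getElem hsd]
    · exact Nat.xor_lt_two_pow h3 h5
    · rw [ev_xor h2, h4, h6]
      simp [uu]

end RunMult
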