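import Pool.Agent.Lib.MP_d16eef_co.ExSplit

/-! A faster form of the primitivity check: squaring with a table. -/

namespace RunMult

/-- `mX` with kernel primitives -/
def mXf (P f m : ℕ) : ℕ :=
  cond (Nat.ble P (Nat.mul 2 m)) (Nat.xor (Nat.mul 2 m) f) (Nat.mul 2 m)

theorem mXf_eq (P f m : ℕ) : mXf P f m = mX P f m := by
  unfold mXf mX
  by_cases h : P ≤ 2 * m
  · have : Nat.ble P (Nat.mul 2 m) = true := Nat.ble_eq.mpr h
    rw [this, if_pos h]
    rfl
  · have : Nat.ble P (Nat.mul 2 m) = false := by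
      rw [Bool.eq_false_iff]
      exact fun hcon => h (Nat.ble_eq.mp hcon)
    rw [this, if_neg h]
    rfl

/-- the sum of the entries of the list at the bits of `m`, plus `acc` -/
def sqA (l : List ℕ) : ℕ → ℕ → ℕ :=
  List.rec (motive := fun _ => ℕ → ℕ → ℕ) (fun _ acc => acc)
    (fun s _ ih m acc => ih (Nat.div m 2) (cond (Nat.beq (Nat.mod m 2) 1) (Nat.xor acc s) acc)) l

theorem sqA_nil (m acc : ℕ) : sqA [] m acc = acc := rfl

theorem sqA_cons (s : ℕ) (l : List ℕ) (m acc : ℕ) :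
    sqA (s :: l) m acc = sqA l (m / 2) (if m % 2 = 1 then Nat.xor acc s else acc) := by
  have h : sqA (s :: l) m acc =
    sqA l (m / 2) (cond (Nat.beq (m % 2) 1) (Nat.xor acc s) acc) := rfl
  rw [h]
  congr 1
  by_cases h1 : m % 2 = 1
  · rw [h1]
    rfl
  · have h0 : m % 2 = 0 := by omega
    rw [h0]
    rfl

/-- the table of the even powers of `X` -/
def tabOK (P f : ℕ) (l : List ℕ) : ℕ → Bool :=
  List.rec (motive := fun _ => ℕ → Bool) (fun _ => true)
    (fun s _ ih u => cond (Nat.beq s u) (ih (mXf P f (mXf P f u))) false) l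

theorem tabOK_cons (P f s : ℕ) (l : List ℕ) (u : ℕ) (h : tabOK P f (s :: l) u = true) :
    s = u ∧ tabOK P f l (mX P f (mX P f u)) = true := by
  have h1 : tabOK P f (s :: l) u = cond (Nat.beq s u) (tabOK P f l (mXf P f (mXf P f u))) false :=
    rfl
  rw [h1] at h
  by_cases h2 : s = u
  · subst h2
    have : Nat.beq s s = true := Nat.beq_refl s
    rw [this, cond_true, mXf_eq, mXf_eq] at h
    exact ⟨rfl, h⟩
  · have : Nat.beq s u = false := by
      rw [Bool.eq_false_iff]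
      exact fun hcon => h2 (Nat.eq_of_beq_eq_true hcon)
    rw [this, cond_false] at h
    exact absurd h (by simp)

theorem ev_split_two {R : Type} [CommRing R] (h2 : (2 : R) = 0) (a : R) (m : ℕ) :
    ev a m = (if m % 2 = 1 then 1 else 0) + a * ev a (m / 2) := by
  have e := ev_two_mul a (m / 2)
  by_cases h : m % 2 = 1
  · have h1 : m = Nat.xor (2 * (m / 2)) 1 := by
      have h3 : Nat.xor (2 * (m / 2)) 1 = 2 * (m / 2) + 1 := by
        apply Nat.eq_of_testBit_eq
        intro i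
        have hx : (Nat.xor (2 * (m / 2)) 1).testBit i =
          Bool.xor ((2 * (m / 2)).testBit i) (Nat.testBit 1 i) := Nat.testBit_xor _ _ _
        rw [hx]
        cases i with
        | zero => simp [Nat.testBit_zero]
        | succ i =>
          rw [Nat.testBit_add_one, Nat.testBit_add_one, Nat.testBit_add_one]
          have e1 : (2 * (m / 2) + 1) / 2 = 2 * (m / 2) / 2 := by omega
          rw [e1]
          simp
      omega
    conv_lhs => rw [h1]
    rw [ev_xor h2, ev_one, if_pos h, e]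
    ring
  · rw [if_neg h, zero_add, ← e]
    congr 1
    omega

theorem ev_sqA {R : Type} [CommRing R] (h2 : (2 : R) = 0) (a : R) (n f : ℕ) (hf : ev a f = 0)
    (l : List ℕ) (u m acc : ℕ) (ht : tabOK (2 ^ n) f l u = true) (hm : m < 2 ^ l.length) :
    ev a (sqA l m acc) = ev a acc + ev a u * ev a m ^ 2 := by
  induction l generalizing u m acc with
  | nil =>
    have : m = 0 := by simpa using hm
    rw [this, sqA_nil, ev_zero]
    ring
  | cons s l ih =>
    obtain ⟨rfl, ht'⟩ := tabOK_cons _ _ _ _ _ ht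
    rw [sqA_cons, ih _ _ _ ht' (by rw [List.length_cons, pow_succ] at hm; omega),
      ev_mX h2 a n f _ hf, ev_mX h2 a n f _ hf, ev_split_two h2 a m]
    split_ifs with h
    · rw [ev_xor h2]
      linear_combination (-ev a s * a * ev a (m / 2)) * h2
    · ring

theorem sqA_lt (n f : ℕ) (hf : f < 2 ^ (n + 1)) (hf2 : 2 ^ n ≤ f) (l : List ℕ) (u m acc : ℕ)
    (ht : tabOK (2 ^ n) f l u = true) (hu : u < 2 ^ n) (hacc : acc < 2 ^ n) :
    sqA l m acc < 2 ^ n := by
  induction l generalizing u m acc with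
  | nil => exact hacc
  | cons s l ih =>
    obtain ⟨rfl, ht'⟩ := tabOK_cons _ _ _ _ _ ht
    rw [sqA_cons]
    apply ih _ _ _ ht' (mX_lt n f _ hf hf2 (mX_lt n f _ hf hf2 hu))
    split_ifs
    · exact Nat.xor_lt_two_pow hacc hu
    · exact hacc

/-- `k`-fold squaring with the table -/
def sqIterA (l : List ℕ) (k : ℕ) : ℕ → ℕ :=
  Nat.rec (motive := fun _ => ℕ → ℕ) (fun m => m) (fun _ ih m => ih (sqA l m 0)) k

/-- `acc ^ (2 ^ k) * X ^ (e % 2 ^ k)` with the table -/
def pwA (P f e : ℕ) (l : List ℕ) (k : ℕ) : ℕ → ℕ :=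
  Nat.rec (motive := fun _ => ℕ → ℕ) (fun acc => acc)
    (fun k ih acc => ih (cond (Nat.beq (Nat.land (Nat.shiftRight e k) 1) 1)
      (mXf P f (sqA l acc 0)) (sqA l acc 0))) k

theorem pwA_succ (P f e : ℕ) (l : List ℕ) (k acc : ℕ) :
    pwA P f e l (k + 1) acc =
      pwA P f e l k (if Nat.testBit e k then mX P f (sqA l acc 0) else sqA l acc 0) := by
  have h : pwA P f e l (k + 1) acc = pwA P f e l k
    (cond (Nat.beq (Nat.land (Nat.shiftRight e k) 1) 1) (mXf P f (sqA l acc 0))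
      (sqA l acc 0)) := rfl
  rw [h, mXf_eq]
  congr 1
  have h1 : Nat.land (Nat.shiftRight e k) 1 = (e >>> k) % 2 := Nat.and_one_is_mod _
  rw [h1]
  have h2 : e.testBit k = decide ((e >>> k) % 2 = 1) := by
    rw [Nat.testBit_eq_decide_div_mod_eq, Nat.shiftRight_eq_div_pow]
  rw [h2]
  by_cases h3 : (e >>> k) % 2 = 1
  · rw [h3]
    rfl
  · have h4 : (e >>> k) % 2 = 0 := by omega
    rw [h4]
    rfl

section

variable {R : Type} [CommRing R]

theorem ev_sqIterA (h2 : (2 : R) = 0) (a : R) (n f : ℕ) (hf : ev a f = 0)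
    (hfl : f < 2 ^ (n + 1)) (hf2 : 2 ^ n ≤ f) (hone : 1 < 2 ^ n) (l : List ℕ) (hl : l.length = n)
    (ht : tabOK (2 ^ n) f l 1 = true) (k m : ℕ) (hm : m < 2 ^ n) :
    ev a (sqIterA l k m) = ev a m ^ (2 ^ k) := by
  induction k generalizing m with
  | zero => rw [pow_zero, pow_one]; rfl
  | succ k ih =>
    change ev a (sqIterA l k (sqA l m 0)) = _
    rw [ih _ (sqA_lt n f hfl hf2 l 1 m 0 ht hone (by positivity)),
      ev_sqA h2 a n f hf l 1 m 0 ht (by rwa [hl]), ev_zero, ev_one, zero_add, one_mul, ← pow_mul,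
      pow_succ 2 k, mul_comm 2 (2 ^ k)]

theorem pwA_lt (n f e : ℕ) (hfl : f < 2 ^ (n + 1)) (hf2 : 2 ^ n ≤ f) (hone : 1 < 2 ^ n)
    (l : List ℕ) (ht : tabOK (2 ^ n) f l 1 = true) (k acc : ℕ) (hacc : acc < 2 ^ n) :
    pwA (2 ^ n) f e l k acc < 2 ^ n := by
  induction k generalizing acc with
  | zero => exact hacc
  | succ k ih =>
    rw [pwA_succ]
    apply ih
    have h3 := sqA_lt n f hfl hf2 l 1 acc 0 ht hone (by positivity)
    split_ifs
    · exact mX_lt n f _ hfl hf2 h3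
    · exact h3

theorem ev_pwA (h2 : (2 : R) = 0) (a : R) (n f e : ℕ) (hf : ev a f = 0)
    (hfl : f < 2 ^ (n + 1)) (hf2 : 2 ^ n ≤ f) (hone : 1 < 2 ^ n) (l : List ℕ) (hl : l.length = n)
    (ht : tabOK (2 ^ n) f l 1 = true) (k acc : ℕ) (hacc : acc < 2 ^ n) :
    ev a (pwA (2 ^ n) f e l k acc) = ev a acc ^ (2 ^ k) * a ^ (e % 2 ^ k) := by
  induction k generalizing acc with
  | zero =>
    rw [pow_zero, pow_one, Nat.mod_one, pow_zero, mul_one]
    rfl
  | succ k ih =>
    have hs := sqA_lt n f hfl hf2 l 1 acc 0 ht hone (by positivity)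
    have he : e % 2 ^ (k + 1) = e % 2 ^ k + 2 ^ k * (e / 2 ^ k % 2) := Nat.mod_pow_succ
    have hsq : ev a (sqA l acc 0) = ev a acc ^ 2 := by
      rw [ev_sqA h2 a n f hf l 1 acc 0 ht (by rwa [hl]), ev_zero, ev_one]
      ring
    rw [pwA_succ, he]
    have hb : e.testBit k = decide (e / 2 ^ k % 2 = 1) := Nat.testBit_eq_decide_div_mod_eq
    by_cases h : e / 2 ^ k % 2 = 1
    · rw [hb, decide_eq_true h, if_pos rfl, ih _ (mX_lt n f _ hfl hf2 hs), ev_mX h2 a n f _ hf,
        hsq, h, mul_one]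
      ring
    · have h0 : e / 2 ^ k % 2 = 0 := by omega
      rw [hb, decide_eq_false h, if_neg (by decide), ih _ hs, hsq, h0, mul_zero, add_zero,
        ← pow_mul, pow_succ 2 k, mul_comm 2 (2 ^ k)]

end

/-- the check at one prime divisor -/
def chkqA (n f q v : ℕ) (l : List ℕ) : Bool :=
  (mMul (2 ^ n) f v (Nat.xor (pwA (2 ^ n) f ((2 ^ n - 1) / q) l n 1) 1) n 0 == 1)
    && Nat.blt v (2 ^ n)

/-- the complete check of primitivity -/
structure Prim (n f : ℕ) (l : List ℕ) (qs : List (ℕ × ℕ)) : Prop where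
  len : l.length = n
  tab : tabOK (2 ^ n) f l 1 = true
  sq : sqIterA l n 2 = 2
  inv : ∀ q ∈ qs, chkqA n f q.1 q.2 l = true

open Polynomial in
theorem exists_genA (F : Type) [Field F] [Fintype F] [DecidableEq F] [Algebra (ZMod 2) F]
    (n f : ℕ) (hn : 2 ≤ n) (hF : Fintype.card F = 2 ^ n) (hfl : f < 2 ^ (n + 1))
    (hf2 : 2 ^ n ≤ f) (hodd : f % 2 = 1) (l : List ℕ) (qs : List (ℕ × ℕ))
    (hP : Prim n f l qs)
    (hqs : ∀ p : ℕ, p.Prime → p ∣ 2 ^ n - 1 → ∃ v, (p, v) ∈ qs) :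
    ∃ a : F, ev a f = 0 ∧ orderOf a = 2 ^ n - 1 := by
  have h2 := two_eq_zero_of_algebra F
  have hone : 1 < 2 ^ n := Nat.one_lt_two_pow (by omega)
  have h4 : 2 < 2 ^ n := by
    calc 2 < 2 ^ 2 := by norm_num
      _ ≤ 2 ^ n := Nat.pow_le_pow_right (by norm_num) hn
  have hdvd : maskPoly n f ∣ X ^ (2 ^ n) - X := by
    have h2' := two_eq_zero_of_algebra (AdjoinRoot (maskPoly n f))
    have hf : ev (AdjoinRoot.root (maskPoly n f)) f = 0 := by
      rw [← aeval_maskPoly n f hfl, AdjoinRoot.aeval_eq, AdjoinRoot.mk_self]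
    have h3 := ev_sqIterA h2' (AdjoinRoot.root (maskPoly n f)) n f hf hfl hf2 hone l hP.len
      hP.tab n 2 h4
    rw [hP.sq, ev_two] at h3
    rw [← AdjoinRoot.mk_eq_zero, map_sub, map_pow, AdjoinRoot.mk_X, ← h3, sub_self]
  obtain ⟨g, hg⟩ := hdvd
  -- a root
  obtain ⟨a, ha⟩ : ∃ a : F, ev a f = 0 := by
    by_contra hcon
    push Not at hcon
    have hq : (X ^ Fintype.card F - X : F[X]) =
        (maskPoly n f).map (algebraMap (ZMod 2) F) * g.map (algebraMap (ZMod 2) F) := by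
      rw [← Polynomial.map_mul, ← hg, hF]
      simp
    have hdeg := FiniteField.X_pow_card_sub_X_natDegree_eq F (Fintype.one_lt_card (α := F))
    have hne := FiniteField.X_pow_card_sub_X_ne_zero F (Fintype.one_lt_card (α := F))
    rw [hq] at hne hdeg
    have hm0 := left_ne_zero_of_mul hne
    have hg0 := right_ne_zero_of_mul hne
    rw [natDegree_mul hm0 hg0] at hdeg
    have hmd : n ≤ ((maskPoly n f).map (algebraMap (ZMod 2) F)).natDegree := by
      apply le_natDegree_of_ne_zero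
      rw [coeff_map, coeff_maskPoly n f hfl hf2, map_one]
      exact one_ne_zero
    apply hg0
    refine eq_zero_of_natDegree_lt_card_of_eval_eq_zero (ι := F)
      (g.map (algebraMap (ZMod 2) F)) (f := id) Function.injective_id (fun c => ?_) (by omega)
    have h3 : (X ^ Fintype.card F - X : F[X]).eval c = 0 := by
      simp [FiniteField.pow_card]
    rw [hq, eval_mul] at h3
    rcases mul_eq_zero.mp h3 with h4 | h4
    · exfalso
      apply hcon c
      rw [← aeval_maskPoly n f hfl, aeval_def, ← eval_map, h4]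
    · exact h4
  have ha0 : a ≠ 0 := by
    rintro rfl
    rw [ev_eq_sum _ f (n + 1) hfl, Finset.sum_eq_single 0] at ha
    · simp [Nat.testBit_zero, hodd] at ha
    · intro i _ hi
      rw [zero_pow hi, ite_self]
    · simp
  refine ⟨a, ha, orderOf_eq_of_pow_and_pow_div_prime (by omega) ?_ ?_⟩
  · rw [← hF]
    exact FiniteField.pow_card_sub_one_eq_one a ha0
  · intro p hp hpd hcon
    obtain ⟨v, hv⟩ := hqs p hp hpd
    have h3 := hP.inv _ hv
    simp only [chkqA, Bool.and_eq_true, beq_iff_eq] at h3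
    have hw : pwA (2 ^ n) f ((2 ^ n - 1) / p) l n 1 < 2 ^ n :=
      pwA_lt n f _ hfl hf2 hone l hP.tab n 1 hone
    have h4 := congrArg (ev a) h3.1
    rw [ev_mMul h2 a n f _ _ _ _ ha, Nat.mod_eq_of_lt, ev_one, ev_zero, zero_mul, zero_add,
      ev_xor h2, ev_one, ev_pwA h2 a n f _ ha hfl hf2 hone l hP.len hP.tab _ _ hone, ev_one,
      one_pow, one_mul, Nat.mod_eq_of_lt, hcon, one_add_one_eq_two, h2, mul_zero] at h4
    · exact zero_ne_one h4
    · exact lt_of_le_of_lt (Nat.div_le_self _ _) (by omega)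
    · exact Nat.xor_lt_two_pow hw hone

theorem adm_of_prim (n K f : ℕ) (T : List ℕ) (tau b d x eta M : ℕ) (l : List ℕ)
    (qs : List (ℕ × ℕ)) (hn : 3 ≤ n) (hK : 2 ≤ K) (hfl : f < 2 ^ (n + 1)) (hf2 : 2 ^ n ≤ f)
    (hodd : f % 2 = 1) (ht1 : 1 ≤ tau) (ht2 : tau < 2 ^ n - 1) (hP : Prim n f l qs)
    (hqs : ∀ p : ℕ, p.Prime → p ∣ 2 ^ n - 1 → ∃ v, (p, v) ∈ qs)
    (h2 : check2D n K f T b d = true) (h3 : check3D n K f T tau d x eta M = true) : Adm n := by
  classical
  let _ : Fintype (GaloisField 2 n) := Fintype.ofFinite _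
  have hF : Fintype.card (GaloisField 2 n) = 2 ^ n := by
    rw [← Nat.card_eq_fintype_card]
    exact GaloisField.card 2 n (by omega)
  exact adm_of_certD_field (F := GaloisField 2 n) n K f T tau b d x eta M hn hF hK hfl hf2 hodd
    ht1 ht2 (exists_genA _ n f (by omega) hF hfl hf2 hodd l qs hP hqs) h2 h3

end RunMult
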