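import Mathlib

/-! Primality certificates evaluated in the kernel. -/

namespace RunMult

/-- modular power: `acc ^ (2 ^ k) * a ^ (e % 2 ^ k)` modulo `m` -/
def pm (m a e : ℕ) : ℕ → ℕ → ℕ
  | 0, acc => acc
  | k + 1, acc => pm m a e k (if Nat.testBit e k then acc * acc % m * a % m else acc * acc % m)

theorem pm_cast (m a e k acc : ℕ) :
    ((pm m a e k acc : ℕ) : ZMod m) = (acc : ZMod m) ^ (2 ^ k) * (a : ZMod m) ^ (e % 2 ^ k) := by
  induction k generalizing acc with
  | zero =>
    rw [pow_zero, pow_one, Nat.mod_one, pow_zero, mul_one]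
    rfl
  | succ k ih =>
    have hp : pm m a e (k + 1) acc = pm m a e k
      (if Nat.testBit e k then acc * acc % m * a % m else acc * acc % m) := rfl
    have he : e % 2 ^ (k + 1) = e % 2 ^ k + 2 ^ k * (e / 2 ^ k % 2) := Nat.mod_pow_succ
    rw [hp, he, ih]
    have hb : e.testBit k = decide (e / 2 ^ k % 2 = 1) := Nat.testBit_eq_decide_div_mod_eq
    by_cases h : e / 2 ^ k % 2 = 1
    · rw [hb, decide_eq_true h, if_pos rfl, h, ZMod.natCast_mod, Nat.cast_mul, ZMod.natCast_mod]
      push_cast
      ring
    · have h0 : e / 2 ^ k % 2 = 0 := by omega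
      rw [hb, decide_eq_false h, if_neg (by decide), h0, ZMod.natCast_mod]
      push_cast
      ring

theorem prime_of_cert (p a L : ℕ) (qs : List ℕ) (hp : 1 < p) (hL : p < 2 ^ L)
    (hq : ∀ q ∈ qs, q.Prime) (hprod : qs.prod = p - 1)
    (h : (pm p a (p - 1) L 1 % p == 1 && qs.all fun q => pm p a ((p - 1) / q) L 1 % p != 1) = true) :
    p.Prime := by
  simp only [Bool.and_eq_true, beq_iff_eq] at h
  have hcast : ∀ e ≤ p - 1, ((pm p a e L 1 : ℕ) : ZMod p) = (a : ZMod p) ^ e := by
    intro e he
    rw [pm_cast, Nat.mod_eq_of_lt (by omega)]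
    simp
  refine lucas_primality p (a : ZMod p) ?_ ?_
  · rw [← hcast _ le_rfl, ← ZMod.natCast_mod, h.1, Nat.cast_one]
  · intro q hqp hqd hcon
    rw [← hprod] at hqd
    obtain ⟨r, hr, hqr⟩ := (Prime.dvd_prod_iff hqp.prime).mp hqd
    have : q = r := (Nat.prime_dvd_prime_iff_eq hqp (hq r hr)).mp hqr
    subst this
    have h3 := (List.all_eq_true.mp h.2) q hr
    rw [bne_iff_ne] at h3
    apply h3
    rw [← hcast _ (Nat.div_le_self _ _)] at hcon
    have h4 : ((pm p a ((p - 1) / q) L 1 : ℕ) : ZMod p) = ((1 : ℕ) : ZMod p) := by
      rw [hcon, Nat.cast_one]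
    rw [ZMod.natCast_eq_natCast_iff'] at h4
    rw [h4, Nat.mod_eq_of_lt hp]

/-- the prime divisors of a product of primes -/
theorem primes_of_prod (N : ℕ) (l : List ℕ) (hl : ∀ q ∈ l, q.Prime) (hN : N = l.prod) (p : ℕ)
    (hp : p.Prime) (hpN : p ∣ N) : p ∈ l := by
  rw [hN] at hpN
  obtain ⟨r, hr, hpr⟩ := (Prime.dvd_prod_iff hp.prime).mp hpN
  rwa [(Nat.prime_dvd_prime_iff_eq hp (hl r hr)).mp hpr]

theorem prime_100801 : Nat.Prime 100801 := by
  refine prime_of_cert 100801 11 17 [2, 2, 2, 2, 2, 2, 3, 3, 5, 5, 7] (by norm_num) (by norm_num) ?_ (by norm_num)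
    (by decide +kernel)
  intro q hq
  simp only [List.mem_cons, List.not_mem_nil, or_false] at hq
  rcases hq with rfl | rfl | rfl | rfl | rfl | rfl | rfl | rfl | rfl | rfl | rfl
  · norm_num
  · norm_num
  · norm_num
  · norm_num
  · norm_num
  · norm_num
  · norm_num
  · norm_num
  · norm_num
  · norm_num
  · norm_num

theorem prime_121369 : Nat.Prime 121369 := by
  refine prime_of_cert 121369 7 17 [2, 2, 2, 3, 13, 389] (by norm_num) (by norm_num) ?_ (by norm_num)
    (by decide +kernel)
  intro q hq
  simp only [List.mem_cons, List.not_mem_nil, or_false] at hq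
  rcases hq with rfl | rfl | rfl | rfl | rfl | rfl
  · norm_num
  · norm_num
  · norm_num
  · norm_num
  · norm_num
  · norm_num

theorem prime_122921 : Nat.Prime 122921 := by
  refine prime_of_cert 122921 3 17 [2, 2, 2, 5, 7, 439] (by norm_num) (by norm_num) ?_ (by norm_num)
    (by decide +kernel)
  intro q hq
  simp only [List.mem_cons, List.not_mem_nil, or_false] at hq
  rcases hq with rfl | rfl | rfl | rfl | rfl | rfl
  · norm_num
  · norm_num
  · norm_num
  · norm_num
  · norm_num
  · norm_num

theorem prime_131071 : Nat.Prime 131071 := by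
  refine prime_of_cert 131071 3 17 [2, 3, 5, 17, 257] (by norm_num) (by norm_num) ?_ (by norm_num)
    (by decide +kernel)
  intro q hq
  simp only [List.mem_cons, List.not_mem_nil, or_false] at hq
  rcases hq with rfl | rfl | rfl | rfl | rfl
  · norm_num
  · norm_num
  · norm_num
  · norm_num
  · norm_num

theorem prime_174763 : Nat.Prime 174763 := by
  refine prime_of_cert 174763 17 18 [2, 3, 3, 7, 19, 73] (by norm_num) (by norm_num) ?_ (by norm_num)
    (by decide +kernel)
  intro q hq
  simp only [List.mem_cons, List.not_mem_nil, or_false] at hq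
  rcases hq with rfl | rfl | rfl | rfl | rfl | rfl
  · norm_num
  · norm_num
  · norm_num
  · norm_num
  · norm_num
  · norm_num

theorem prime_178481 : Nat.Prime 178481 := by
  refine prime_of_cert 178481 3 18 [2, 2, 2, 2, 5, 23, 97] (by norm_num) (by norm_num) ?_ (by norm_num)
    (by decide +kernel)
  intro q hq
  simp only [List.mem_cons, List.not_mem_nil, or_false] at hq
  rcases hq with rfl | rfl | rfl | rfl | rfl | rfl | rfl
  · norm_num
  · norm_num
  · norm_num
  · norm_num
  · norm_num
  · norm_num
  · norm_num

theorem prime_179951 : Nat.Prime 179951 := by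
  refine prime_of_cert 179951 7 18 [2, 5, 5, 59, 61] (by norm_num) (by norm_num) ?_ (by norm_num)
    (by decide +kernel)
  intro q hq
  simp only [List.mem_cons, List.not_mem_nil, or_false] at hq
  rcases hq with rfl | rfl | rfl | rfl | rfl
  · norm_num
  · norm_num
  · norm_num
  · norm_num
  · norm_num

theorem prime_201961 : Nat.Prime 201961 := by
  refine prime_of_cert 201961 13 18 [2, 2, 2, 3, 3, 3, 5, 11, 17] (by norm_num) (by norm_num) ?_ (by norm_num)
    (by decide +kernel)
  intro q hq
  simp only [List.mem_cons, List.not_mem_nil, or_false] at hq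
  rcases hq with rfl | rfl | rfl | rfl | rfl | rfl | rfl | rfl | rfl
  · norm_num
  · norm_num
  · norm_num
  · norm_num
  · norm_num
  · norm_num
  · norm_num
  · norm_num
  · norm_num

theorem prime_228479 : Nat.Prime 228479 := by
  refine prime_of_cert 228479 11 18 [2, 71, 1609] (by norm_num) (by norm_num) ?_ (by norm_num)
    (by decide +kernel)
  intro q hq
  simp only [List.mem_cons, List.not_mem_nil, or_false] at hq
  rcases hq with rfl | rfl | rfl
  · norm_num
  · norm_num
  · norm_num

theorem prime_262657 : Nat.Prime 262657 := by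
  refine prime_of_cert 262657 5 19 [2, 2, 2, 2, 2, 2, 2, 2, 2, 3, 3, 3, 19] (by norm_num) (by norm_num) ?_ (by norm_num)
    (by decide +kernel)
  intro q hq
  simp only [List.mem_cons, List.not_mem_nil, or_false] at hq
  rcases hq with rfl | rfl | rfl | rfl | rfl | rfl | rfl | rfl | rfl | rfl | rfl | rfl | rfl
  · norm_num
  · norm_num
  · norm_num
  · norm_num
  · norm_num
  · norm_num
  · norm_num
  · norm_num
  · norm_num
  · norm_num
  · norm_num
  · norm_num
  · norm_num

theorem prime_524287 : Nat.Prime 524287 := by
  refine prime_of_cert 524287 3 19 [2, 3, 3, 3, 7, 19, 73] (by norm_num) (by norm_num) ?_ (by norm_num)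
    (by decide +kernel)
  intro q hq
  simp only [List.mem_cons, List.not_mem_nil, or_false] at hq
  rcases hq with rfl | rfl | rfl | rfl | rfl | rfl | rfl
  · norm_num
  · norm_num
  · norm_num
  · norm_num
  · norm_num
  · norm_num
  · norm_num

theorem prime_599479 : Nat.Prime 599479 := by
  refine prime_of_cert 599479 6 20 [2, 3, 11, 31, 293] (by norm_num) (by norm_num) ?_ (by norm_num)
    (by decide +kernel)
  intro q hq
  simp only [List.mem_cons, List.not_mem_nil, or_false] at hq
  rcases hq with rfl | rfl | rfl | rfl | rfl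
  · norm_num
  · norm_num
  · norm_num
  · norm_num
  · norm_num

theorem prime_649657 : Nat.Prime 649657 := by
  refine prime_of_cert 649657 5 20 [2, 2, 2, 3, 3, 7, 1289] (by norm_num) (by norm_num) ?_ (by norm_num)
    (by decide +kernel)
  intro q hq
  simp only [List.mem_cons, List.not_mem_nil, or_false] at hq
  rcases hq with rfl | rfl | rfl | rfl | rfl | rfl | rfl
  · norm_num
  · norm_num
  · norm_num
  · norm_num
  · norm_num
  · norm_num
  · norm_num

theorem prime_1212847 : Nat.Prime 1212847 := by
  refine prime_of_cert 1212847 5 21 [2, 3, 19, 10639] (by norm_num) (by norm_num) ?_ (by norm_num)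
    (by decide +kernel)
  intro q hq
  simp only [List.mem_cons, List.not_mem_nil, or_false] at hq
  rcases hq with rfl | rfl | rfl | rfl
  · norm_num
  · norm_num
  · norm_num
  · norm_num

theorem prime_2099863 : Nat.Prime 2099863 := by
  refine prime_of_cert 2099863 3 22 [2, 3, 3, 43, 2713] (by norm_num) (by norm_num) ?_ (by norm_num)
    (by decide +kernel)
  intro q hq
  simp only [List.mem_cons, List.not_mem_nil, or_false] at hq
  rcases hq with rfl | rfl | rfl | rfl | rfl
  · norm_num
  · norm_num
  · norm_num
  · norm_num
  · norm_num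

theorem prime_2298041 : Nat.Prime 2298041 := by
  refine prime_of_cert 2298041 13 22 [2, 2, 2, 5, 73, 787] (by norm_num) (by norm_num) ?_ (by norm_num)
    (by decide +kernel)
  intro q hq
  simp only [List.mem_cons, List.not_mem_nil, or_false] at hq
  rcases hq with rfl | rfl | rfl | rfl | rfl | rfl
  · norm_num
  · norm_num
  · norm_num
  · norm_num
  · norm_num
  · norm_num

theorem prime_2796203 : Nat.Prime 2796203 := by
  refine prime_of_cert 2796203 5 22 [2, 23, 89, 683] (by norm_num) (by norm_num) ?_ (by norm_num)
    (by decide +kernel)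
  intro q hq
  simp only [List.mem_cons, List.not_mem_nil, or_false] at hq
  rcases hq with rfl | rfl | rfl | rfl
  · norm_num
  · norm_num
  · norm_num
  · norm_num

theorem prime_3033169 : Nat.Prime 3033169 := by
  refine prime_of_cert 3033169 7 22 [2, 2, 2, 2, 3, 29, 2179] (by norm_num) (by norm_num) ?_ (by norm_num)
    (by decide +kernel)
  intro q hq
  simp only [List.mem_cons, List.not_mem_nil, or_false] at hq
  rcases hq with rfl | rfl | rfl | rfl | rfl | rfl | rfl
  · norm_num
  · norm_num
  · norm_num
  · norm_num
  · norm_num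
  · norm_num
  · norm_num

theorem prime_10567201 : Nat.Prime 10567201 := by
  refine prime_of_cert 10567201 11 24 [2, 2, 2, 2, 2, 3, 5, 5, 7, 17, 37] (by norm_num) (by norm_num) ?_ (by norm_num)
    (by decide +kernel)
  intro q hq
  simp only [List.mem_cons, List.not_mem_nil, or_false] at hq
  rcases hq with rfl | rfl | rfl | rfl | rfl | rfl | rfl | rfl | rfl | rfl | rfl
  · norm_num
  · norm_num
  · norm_num
  · norm_num
  · norm_num
  · norm_num
  · norm_num
  · norm_num
  · norm_num
  · norm_num
  · norm_num

theorem prime_13264529 : Nat.Prime 13264529 := by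
  refine prime_of_cert 13264529 3 24 [2, 2, 2, 2, 31, 47, 569] (by norm_num) (by norm_num) ?_ (by norm_num)
    (by decide +kernel)
  intro q hq
  simp only [List.mem_cons, List.not_mem_nil, or_false] at hq
  rcases hq with rfl | rfl | rfl | rfl | rfl | rfl | rfl
  · norm_num
  · norm_num
  · norm_num
  · norm_num
  · norm_num
  · norm_num
  · norm_num

theorem prime_18837001 : Nat.Prime 18837001 := by
  refine prime_of_cert 18837001 19 25 [2, 2, 2, 3, 3, 5, 5, 5, 7, 13, 23] (by norm_num) (by norm_num) ?_ (by norm_num)
    (by decide +kernel)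
  intro q hq
  simp only [List.mem_cons, List.not_mem_nil, or_false] at hq
  rcases hq with rfl | rfl | rfl | rfl | rfl | rfl | rfl | rfl | rfl | rfl | rfl
  · norm_num
  · norm_num
  · norm_num
  · norm_num
  · norm_num
  · norm_num
  · norm_num
  · norm_num
  · norm_num
  · norm_num
  · norm_num

theorem prime_20394401 : Nat.Prime 20394401 := by
  refine prime_of_cert 20394401 3 25 [2, 2, 2, 2, 2, 5, 5, 13, 37, 53] (by norm_num) (by norm_num) ?_ (by norm_num)
    (by decide +kernel)
  intro q hq
  simp only [List.mem_cons, List.not_mem_nil, or_false] at hq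
  rcases hq with rfl | rfl | rfl | rfl | rfl | rfl | rfl | rfl | rfl | rfl
  · norm_num
  · norm_num
  · norm_num
  · norm_num
  · norm_num
  · norm_num
  · norm_num
  · norm_num
  · norm_num
  · norm_num

theorem prime_22366891 : Nat.Prime 22366891 := by
  refine prime_of_cert 22366891 3 25 [2, 3, 3, 5, 7, 13, 2731] (by norm_num) (by norm_num) ?_ (by norm_num)
    (by decide +kernel)
  intro q hq
  simp only [List.mem_cons, List.not_mem_nil, or_false] at hq
  rcases hq with rfl | rfl | rfl | rfl | rfl | rfl | rfl
  · norm_num
  · norm_num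
  · norm_num
  · norm_num
  · norm_num
  · norm_num
  · norm_num

theorem prime_116131 : Nat.Prime 116131 := by
  refine prime_of_cert 116131 2 17 [2, 3, 5, 7, 7, 79] (by norm_num) (by norm_num) ?_ (by norm_num)
    (by decide +kernel)
  intro q hq
  simp only [List.mem_cons, List.not_mem_nil, or_false] at hq
  rcases hq with rfl | rfl | rfl | rfl | rfl | rfl
  · norm_num
  · norm_num
  · norm_num
  · norm_num
  · norm_num
  · norm_num

theorem prime_25781083 : Nat.Prime 25781083 := by
  refine prime_of_cert 25781083 5 25 [2, 3, 37, 116131] (by norm_num) (by norm_num) ?_ (by norm_num)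
    (by decide +kernel)
  intro q hq
  simp only [List.mem_cons, List.not_mem_nil, or_false] at hq
  rcases hq with rfl | rfl | rfl | rfl
  · norm_num
  · norm_num
  · norm_num
  · exact prime_116131

theorem prime_48544121 : Nat.Prime 48544121 := by
  refine prime_of_cert 48544121 3 26 [2, 2, 2, 5, 71, 17093] (by norm_num) (by norm_num) ?_ (by norm_num)
    (by decide +kernel)
  intro q hq
  simp only [List.mem_cons, List.not_mem_nil, or_false] at hq
  rcases hq with rfl | rfl | rfl | rfl | rfl | rfl
  · norm_num
  · norm_num
  · norm_num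
  · norm_num
  · norm_num
  · norm_num

theorem prime_48912491 : Nat.Prime 48912491 := by
  refine prime_of_cert 48912491 10 26 [2, 5, 11, 23, 19333] (by norm_num) (by norm_num) ?_ (by norm_num)
    (by decide +kernel)
  intro q hq
  simp only [List.mem_cons, List.not_mem_nil, or_false] at hq
  rcases hq with rfl | rfl | rfl | rfl | rfl
  · norm_num
  · norm_num
  · norm_num
  · norm_num
  · norm_num

theorem prime_175949 : Nat.Prime 175949 := by
  refine prime_of_cert 175949 2 18 [2, 2, 43987] (by norm_num) (by norm_num) ?_ (by norm_num)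
    (by decide +kernel)
  intro q hq
  simp only [List.mem_cons, List.not_mem_nil, or_false] at hq
  rcases hq with rfl | rfl | rfl
  · norm_num
  · norm_num
  · norm_num

theorem prime_160465489 : Nat.Prime 160465489 := by
  refine prime_of_cert 160465489 17 28 [2, 2, 2, 2, 3, 19, 175949] (by norm_num) (by norm_num) ?_ (by norm_num)
    (by decide +kernel)
  intro q hq
  simp only [List.mem_cons, List.not_mem_nil, or_false] at hq
  rcases hq with rfl | rfl | rfl | rfl | rfl | rfl | rfl
  · norm_num
  · norm_num
  · norm_num
  · norm_num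
  · norm_num
  · norm_num
  · exact prime_175949

theorem prime_164511353 : Nat.Prime 164511353 := by
  refine prime_of_cert 164511353 3 28 [2, 2, 2, 41, 59, 8501] (by norm_num) (by norm_num) ?_ (by norm_num)
    (by decide +kernel)
  intro q hq
  simp only [List.mem_cons, List.not_mem_nil, or_false] at hq
  rcases hq with rfl | rfl | rfl | rfl | rfl | rfl
  · norm_num
  · norm_num
  · norm_num
  · norm_num
  · norm_num
  · norm_num

theorem prime_193707721 : Nat.Prime 193707721 := by
  refine prime_of_cert 193707721 59 28 [2, 2, 2, 3, 3, 3, 5, 67, 2677] (by norm_num) (by norm_num) ?_ (by norm_num)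
    (by decide +kernel)
  intro q hq
  simp only [List.mem_cons, List.not_mem_nil, or_false] at hq
  rcases hq with rfl | rfl | rfl | rfl | rfl | rfl | rfl | rfl | rfl
  · norm_num
  · norm_num
  · norm_num
  · norm_num
  · norm_num
  · norm_num
  · norm_num
  · norm_num
  · norm_num

theorem prime_202029703 : Nat.Prime 202029703 := by
  refine prime_of_cert 202029703 3 28 [2, 3, 7, 79, 60889] (by norm_num) (by norm_num) ?_ (by norm_num)
    (by decide +kernel)
  intro q hq
  simp only [List.mem_cons, List.not_mem_nil, or_false] at hq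
  rcases hq with rfl | rfl | rfl | rfl | rfl
  · norm_num
  · norm_num
  · norm_num
  · norm_num
  · norm_num

theorem prime_212885833 : Nat.Prime 212885833 := by
  refine prime_of_cert 212885833 11 28 [2, 2, 2, 3, 17, 71, 7349] (by norm_num) (by norm_num) ?_ (by norm_num)
    (by decide +kernel)
  intro q hq
  simp only [List.mem_cons, List.not_mem_nil, or_false] at hq
  rcases hq with rfl | rfl | rfl | rfl | rfl | rfl | rfl
  · norm_num
  · norm_num
  · norm_num
  · norm_num
  · norm_num
  · norm_num
  · norm_num

theorem prime_616318177 : Nat.Prime 616318177 := by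
  refine prime_of_cert 616318177 5 30 [2, 2, 2, 2, 2, 3, 37, 167, 1039] (by norm_num) (by norm_num) ?_ (by norm_num)
    (by decide +kernel)
  intro q hq
  simp only [List.mem_cons, List.not_mem_nil, or_false] at hq
  rcases hq with rfl | rfl | rfl | rfl | rfl | rfl | rfl | rfl | rfl
  · norm_num
  · norm_num
  · norm_num
  · norm_num
  · norm_num
  · norm_num
  · norm_num
  · norm_num
  · norm_num

theorem prime_715827883 : Nat.Prime 715827883 := by
  refine prime_of_cert 715827883 5 30 [2, 3, 7, 11, 31, 151, 331] (by norm_num) (by norm_num) ?_ (by norm_num)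
    (by decide +kernel)
  intro q hq
  simp only [List.mem_cons, List.not_mem_nil, or_false] at hq
  rcases hq with rfl | rfl | rfl | rfl | rfl | rfl | rfl
  · norm_num
  · norm_num
  · norm_num
  · norm_num
  · norm_num
  · norm_num
  · norm_num

theorem prime_1824726041 : Nat.Prime 1824726041 := by
  refine prime_of_cert 1824726041 3 31 [2, 2, 2, 5, 37, 59, 20897] (by norm_num) (by norm_num) ?_ (by norm_num)
    (by decide +kernel)
  intro q hq
  simp only [List.mem_cons, List.not_mem_nil, or_false] at hq
  rcases hq with rfl | rfl | rfl | rfl | rfl | rfl | rfl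
  · norm_num
  · norm_num
  · norm_num
  · norm_num
  · norm_num
  · norm_num
  · norm_num

theorem prime_2147483647 : Nat.Prime 2147483647 := by
  refine prime_of_cert 2147483647 7 31 [2, 3, 3, 7, 11, 31, 151, 331] (by norm_num) (by norm_num) ?_ (by norm_num)
    (by decide +kernel)
  intro q hq
  simp only [List.mem_cons, List.not_mem_nil, or_false] at hq
  rcases hq with rfl | rfl | rfl | rfl | rfl | rfl | rfl | rfl
  · norm_num
  · norm_num
  · norm_num
  · norm_num
  · norm_num
  · norm_num
  · norm_num
  · norm_num

theorem prime_2991673 : Nat.Prime 2991673 := by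
  refine prime_of_cert 2991673 7 22 [2, 2, 2, 3, 3, 37, 1123] (by norm_num) (by norm_num) ?_ (by norm_num)
    (by decide +kernel)
  intro q hq
  simp only [List.mem_cons, List.not_mem_nil, or_false] at hq
  rcases hq with rfl | rfl | rfl | rfl | rfl | rfl | rfl
  · norm_num
  · norm_num
  · norm_num
  · norm_num
  · norm_num
  · norm_num
  · norm_num

theorem prime_8831418697 : Nat.Prime 8831418697 := by
  refine prime_of_cert 8831418697 15 34 [2, 2, 2, 3, 3, 41, 2991673] (by norm_num) (by norm_num) ?_ (by norm_num)
    (by decide +kernel)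
  intro q hq
  simp only [List.mem_cons, List.not_mem_nil, or_false] at hq
  rcases hq with rfl | rfl | rfl | rfl | rfl | rfl | rfl
  · norm_num
  · norm_num
  · norm_num
  · norm_num
  · norm_num
  · norm_num
  · exact prime_2991673

theorem prime_699053 : Nat.Prime 699053 := by
  refine prime_of_cert 699053 2 20 [2, 2, 174763] (by norm_num) (by norm_num) ?_ (by norm_num)
    (by decide +kernel)
  intro q hq
  simp only [List.mem_cons, List.not_mem_nil, or_false] at hq
  rcases hq with rfl | rfl | rfl
  · norm_num
  · norm_num
  · exact prime_174763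

theorem prime_77158673929 : Nat.Prime 77158673929 := by
  refine prime_of_cert 77158673929 11 37 [2, 2, 2, 3, 3, 3, 7, 73, 699053] (by norm_num) (by norm_num) ?_ (by norm_num)
    (by decide +kernel)
  intro q hq
  simp only [List.mem_cons, List.not_mem_nil, or_false] at hq
  rcases hq with rfl | rfl | rfl | rfl | rfl | rfl | rfl | rfl | rfl
  · norm_num
  · norm_num
  · norm_num
  · norm_num
  · norm_num
  · norm_num
  · norm_num
  · norm_num
  · exact prime_699053

theorem prime_165768537521 : Nat.Prime 165768537521 := by
  refine prime_of_cert 165768537521 3 38 [2, 2, 2, 2, 5, 47, 2887, 15271] (by norm_num) (by norm_num) ?_ (by norm_num)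
    (by decide +kernel)
  intro q hq
  simp only [List.mem_cons, List.not_mem_nil, or_false] at hq
  rcases hq with rfl | rfl | rfl | rfl | rfl | rfl | rfl | rfl
  · norm_num
  · norm_num
  · norm_num
  · norm_num
  · norm_num
  · norm_num
  · norm_num
  · norm_num

theorem prime_761838257287 : Nat.Prime 761838257287 := by
  refine prime_of_cert 761838257287 3 40 [2, 3, 3, 29, 67, 2551, 8539] (by norm_num) (by norm_num) ?_ (by norm_num)
    (by decide +kernel)
  intro q hq
  simp only [List.mem_cons, List.not_mem_nil, or_false] at hq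
  rcases hq with rfl | rfl | rfl | rfl | rfl | rfl | rfl
  · norm_num
  · norm_num
  · norm_num
  · norm_num
  · norm_num
  · norm_num
  · norm_num

theorem prime_8583937 : Nat.Prime 8583937 := by
  refine prime_of_cert 8583937 7 24 [2, 2, 2, 2, 2, 2, 2, 2, 3, 11177] (by norm_num) (by norm_num) ?_ (by norm_num)
    (by decide +kernel)
  intro q hq
  simp only [List.mem_cons, List.not_mem_nil, or_false] at hq
  rcases hq with rfl | rfl | rfl | rfl | rfl | rfl | rfl | rfl | rfl | rfl
  · norm_num
  · norm_num
  · norm_num
  · norm_num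
  · norm_num
  · norm_num
  · norm_num
  · norm_num
  · norm_num
  · norm_num

theorem prime_1113491139767 : Nat.Prime 1113491139767 := by
  refine prime_of_cert 1113491139767 5 41 [2, 79, 821, 8583937] (by norm_num) (by norm_num) ?_ (by norm_num)
    (by decide +kernel)
  intro q hq
  simp only [List.mem_cons, List.not_mem_nil, or_false] at hq
  rcases hq with rfl | rfl | rfl | rfl
  · norm_num
  · norm_num
  · norm_num
  · exact prime_8583937

theorem prime_2932031007403 : Nat.Prime 2932031007403 := by
  refine prime_of_cert 2932031007403 3 42 [2, 3, 7, 7, 43, 127, 337, 5419] (by norm_num) (by norm_num) ?_ (by norm_num)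
    (by decide +kernel)
  intro q hq
  simp only [List.mem_cons, List.not_mem_nil, or_false] at hq
  rcases hq with rfl | rfl | rfl | rfl | rfl | rfl | rfl | rfl
  · norm_num
  · norm_num
  · norm_num
  · norm_num
  · norm_num
  · norm_num
  · norm_num
  · norm_num

theorem prime_8060489 : Nat.Prime 8060489 := by
  refine prime_of_cert 8060489 3 23 [2, 2, 2, 23, 71, 617] (by norm_num) (by norm_num) ?_ (by norm_num)
    (by decide +kernel)
  intro q hq
  simp only [List.mem_cons, List.not_mem_nil, or_false] at hq
  rcases hq with rfl | rfl | rfl | rfl | rfl | rfl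
  · norm_num
  · norm_num
  · norm_num
  · norm_num
  · norm_num
  · norm_num

theorem prime_3203431780337 : Nat.Prime 3203431780337 := by
  refine prime_of_cert 3203431780337 3 42 [2, 2, 2, 2, 59, 421, 8060489] (by norm_num) (by norm_num) ?_ (by norm_num)
    (by decide +kernel)
  intro q hq
  simp only [List.mem_cons, List.not_mem_nil, or_false] at hq
  rcases hq with rfl | rfl | rfl | rfl | rfl | rfl | rfl
  · norm_num
  · norm_num
  · norm_num
  · norm_num
  · norm_num
  · norm_num
  · exact prime_8060489

theorem prime_4363953127297 : Nat.Prime 4363953127297 := by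
  refine prime_of_cert 4363953127297 5 42 [2, 2, 2, 2, 2, 2, 2, 3, 7, 7, 127, 337, 5419] (by norm_num) (by norm_num) ?_ (by norm_num)
    (by decide +kernel)
  intro q hq
  simp only [List.mem_cons, List.not_mem_nil, or_false] at hq
  rcases hq with rfl | rfl | rfl | rfl | rfl | rfl | rfl | rfl | rfl | rfl | rfl | rfl | rfl
  · norm_num
  · norm_num
  · norm_num
  · norm_num
  · norm_num
  · norm_num
  · norm_num
  · norm_num
  · norm_num
  · norm_num
  · norm_num
  · norm_num
  · norm_num

theorem prime_4432676798593 : Nat.Prime 4432676798593 := by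
  refine prime_of_cert 4432676798593 5 43 [2, 2, 2, 2, 2, 2, 2, 3, 3, 7, 7, 43, 337, 5419] (by norm_num) (by norm_num) ?_ (by norm_num)
    (by decide +kernel)
  intro q hq
  simp only [List.mem_cons, List.not_mem_nil, or_false] at hq
  rcases hq with rfl | rfl | rfl | rfl | rfl | rfl | rfl | rfl | rfl | rfl | rfl | rfl | rfl | rfl
  · norm_num
  · norm_num
  · norm_num
  · norm_num
  · norm_num
  · norm_num
  · norm_num
  · norm_num
  · norm_num
  · norm_num
  · norm_num
  · norm_num
  · norm_num
  · norm_num

theorem prime_105465631 : Nat.Prime 105465631 := by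
  refine prime_of_cert 105465631 3 27 [2, 3, 5, 263, 13367] (by norm_num) (by norm_num) ?_ (by norm_num)
    (by decide +kernel)
  intro q hq
  simp only [List.mem_cons, List.not_mem_nil, or_false] at hq
  rcases hq with rfl | rfl | rfl | rfl | rfl
  · norm_num
  · norm_num
  · norm_num
  · norm_num
  · norm_num

theorem prime_9361973132609 : Nat.Prime 9361973132609 := by
  refine prime_of_cert 9361973132609 3 44 [2, 2, 2, 2, 2, 2, 19, 73, 105465631] (by norm_num) (by norm_num) ?_ (by norm_num)
    (by decide +kernel)
  intro q hq
  simp only [List.mem_cons, List.not_mem_nil, or_false] at hq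
  rcases hq with rfl | rfl | rfl | rfl | rfl | rfl | rfl | rfl | rfl
  · norm_num
  · norm_num
  · norm_num
  · norm_num
  · norm_num
  · norm_num
  · norm_num
  · norm_num
  · exact prime_105465631

theorem prime_108943 : Nat.Prime 108943 := by
  refine prime_of_cert 108943 3 17 [2, 3, 67, 271] (by norm_num) (by norm_num) ?_ (by norm_num)
    (by decide +kernel)
  intro q hq
  simp only [List.mem_cons, List.not_mem_nil, or_false] at hq
  rcases hq with rfl | rfl | rfl | rfl
  · norm_num
  · norm_num
  · norm_num
  · norm_num

theorem prime_10052678938039 : Nat.Prime 10052678938039 := by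
  refine prime_of_cert 10052678938039 6 44 [2, 3, 11, 23, 89, 683, 108943] (by norm_num) (by norm_num) ?_ (by norm_num)
    (by decide +kernel)
  intro q hq
  simp only [List.mem_cons, List.not_mem_nil, or_false] at hq
  rcases hq with rfl | rfl | rfl | rfl | rfl | rfl | rfl
  · norm_num
  · norm_num
  · norm_num
  · norm_num
  · norm_num
  · norm_num
  · exact prime_108943

theorem prime_67254877 : Nat.Prime 67254877 := by
  refine prime_of_cert 67254877 2 27 [2, 2, 3, 3, 13, 131, 1097] (by norm_num) (by norm_num) ?_ (by norm_num)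
    (by decide +kernel)
  intro q hq
  simp only [List.mem_cons, List.not_mem_nil, or_false] at hq
  rcases hq with rfl | rfl | rfl | rfl | rfl | rfl | rfl
  · norm_num
  · norm_num
  · norm_num
  · norm_num
  · norm_num
  · norm_num
  · norm_num

theorem prime_28059810762433 : Nat.Prime 28059810762433 := by
  refine prime_of_cert 28059810762433 5 45 [2, 2, 2, 2, 2, 2, 3, 41, 53, 67254877] (by norm_num) (by norm_num) ?_ (by norm_num)
    (by decide +kernel)
  intro q hq
  simp only [List.mem_cons, List.not_mem_nil, or_false] at hq
  rcases hq with rfl | rfl | rfl | rfl | rfl | rfl | rfl | rfl | rfl | rfl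
  · norm_num
  · norm_num
  · norm_num
  · norm_num
  · norm_num
  · norm_num
  · norm_num
  · norm_num
  · norm_num
  · exact prime_67254877

theorem prime_8620289 : Nat.Prime 8620289 := by
  refine prime_of_cert 8620289 3 24 [2, 2, 2, 2, 2, 2, 2, 2, 151, 223] (by norm_num) (by norm_num) ?_ (by norm_num)
    (by decide +kernel)
  intro q hq
  simp only [List.mem_cons, List.not_mem_nil, or_false] at hq
  rcases hq with rfl | rfl | rfl | rfl | rfl | rfl | rfl | rfl | rfl | rfl
  · norm_num
  · norm_num
  · norm_num
  · norm_num
  · norm_num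
  · norm_num
  · norm_num
  · norm_num
  · norm_num
  · norm_num

theorem prime_2534364967 : Nat.Prime 2534364967 := by
  refine prime_of_cert 2534364967 3 32 [2, 3, 7, 7, 8620289] (by norm_num) (by norm_num) ?_ (by norm_num)
    (by decide +kernel)
  intro q hq
  simp only [List.mem_cons, List.not_mem_nil, or_false] at hq
  rcases hq with rfl | rfl | rfl | rfl | rfl
  · norm_num
  · norm_num
  · norm_num
  · norm_num
  · exact prime_8620289

theorem prime_145295143558111 : Nat.Prime 145295143558111 := by
  refine prime_of_cert 145295143558111 7 48 [2, 3, 3, 5, 7, 7, 13, 2534364967] (by norm_num) (by norm_num) ?_ (by norm_num)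
    (by decide +kernel)
  intro q hq
  simp only [List.mem_cons, List.not_mem_nil, or_false] at hq
  rcases hq with rfl | rfl | rfl | rfl | rfl | rfl | rfl | rfl
  · norm_num
  · norm_num
  · norm_num
  · norm_num
  · norm_num
  · norm_num
  · norm_num
  · exact prime_2534364967

theorem prime_1310329 : Nat.Prime 1310329 := by
  refine prime_of_cert 1310329 7 21 [2, 2, 2, 3, 3, 18199] (by norm_num) (by norm_num) ?_ (by norm_num)
    (by decide +kernel)
  intro q hq
  simp only [List.mem_cons, List.not_mem_nil, or_false] at hq
  rcases hq with rfl | rfl | rfl | rfl | rfl | rfl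
  · norm_num
  · norm_num
  · norm_num
  · norm_num
  · norm_num
  · norm_num

theorem prime_13528921548413 : Nat.Prime 13528921548413 := by
  refine prime_of_cert 13528921548413 2 44 [2, 2, 19, 73, 1861, 1310329] (by norm_num) (by norm_num) ?_ (by norm_num)
    (by decide +kernel)
  intro q hq
  simp only [List.mem_cons, List.not_mem_nil, or_false] at hq
  rcases hq with rfl | rfl | rfl | rfl | rfl | rfl
  · norm_num
  · norm_num
  · norm_num
  · norm_num
  · norm_num
  · exact prime_1310329

theorem prime_581283643249112959 : Nat.Prime 581283643249112959 := by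
  refine prime_of_cert 581283643249112959 6 60 [2, 3, 3, 7, 11, 31, 13528921548413] (by norm_num) (by norm_num) ?_ (by norm_num)
    (by decide +kernel)
  intro q hq
  simp only [List.mem_cons, List.not_mem_nil, or_false] at hq
  rcases hq with rfl | rfl | rfl | rfl | rfl | rfl | rfl
  · norm_num
  · norm_num
  · norm_num
  · norm_num
  · norm_num
  · norm_num
  · exact prime_13528921548413

theorem prime_768614336404564651 : Nat.Prime 768614336404564651 := by
  refine prime_of_cert 768614336404564651 3 60 [2, 3, 5, 5, 7, 11, 13, 31, 41, 61, 151, 331, 1321] (by norm_num) (by norm_num) ?_ (by norm_num)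
    (by decide +kernel)
  intro q hq
  simp only [List.mem_cons, List.not_mem_nil, or_false] at hq
  rcases hq with rfl | rfl | rfl | rfl | rfl | rfl | rfl | rfl | rfl | rfl | rfl | rfl | rfl
  · norm_num
  · norm_num
  · norm_num
  · norm_num
  · norm_num
  · norm_num
  · norm_num
  · norm_num
  · norm_num
  · norm_num
  · norm_num
  · norm_num
  · norm_num

theorem prime_2305843009213693951 : Nat.Prime 2305843009213693951 := by
  refine prime_of_cert 2305843009213693951 37 61 [2, 3, 3, 5, 5, 7, 11, 13, 31, 41, 61, 151, 331, 1321] (by norm_num) (by norm_num) ?_ (by norm_num)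
    (by decide +kernel)
  intro q hq
  simp only [List.mem_cons, List.not_mem_nil, or_false] at hq
  rcases hq with rfl | rfl | rfl | rfl | rfl | rfl | rfl | rfl | rfl | rfl | rfl | rfl | rfl | rfl
  · norm_num
  · norm_num
  · norm_num
  · norm_num
  · norm_num
  · norm_num
  · norm_num
  · norm_num
  · norm_num
  · norm_num
  · norm_num
  · norm_num
  · norm_num
  · norm_num

end RunMult
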