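import Pool.Agent.Lib.MP_d16eef_co.EvB

namespace RunMult

open Finset Polynomial

/-- the polynomial with the bit mask `f` -/
noncomputable def maskPoly (n f : ℕ) : (ZMod 2)[X] :=
  ∑ i ∈ range (n + 1), if f.testBit i then X ^ i else 0

theorem aeval_maskPoly {R : Type} [CommRing R] [Algebra (ZMod 2) R] (n f : ℕ)
    (hfl : f < 2 ^ (n + 1)) (a : R) : aeval a (maskPoly n f) = ev a f := by
  rw [ev_eq_sum a f (n + 1) hfl, maskPoly, map_sum]
  refine sum_congr rfl fun i _ => ?_
  split_ifs <;> simp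

theorem coeff_maskPoly (n f : ℕ) (hfl : f < 2 ^ (n + 1)) (hf2 : 2 ^ n ≤ f) :
    (maskPoly n f).coeff n = 1 := by
  have hb : f.testBit n = true := by
    rw [Nat.testBit_eq_decide_div_mod_eq, decide_eq_true_eq]
    have : f / 2 ^ n = 1 := by
      apply Nat.div_eq_of_lt_le
      · simpa using hf2
      · rw [pow_succ] at hfl
        linarith
    rw [this]
  rw [maskPoly, finsetSum_coeff, sum_eq_single n]
  · simp [hb]
  · intro i _ hi
    split_ifs
    · rw [coeff_X_pow, if_neg (Ne.symm hi)]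
    · simp
  · simp

theorem two_eq_zero_of_algebra (R : Type) [CommRing R] [Algebra (ZMod 2) R] : (2 : R) = 0 := by
  have h := map_ofNat (algebraMap (ZMod 2) R) 2
  rw [← h]
  have : (OfNat.ofNat 2 : ZMod 2) = 0 := rfl
  rw [this, map_zero]

theorem maskPoly_dvd (n f : ℕ) (hn : 2 ≤ n) (hfl : f < 2 ^ (n + 1)) (hf2 : 2 ^ n ≤ f)
    (h : sqIter n (2 ^ n) f n 2 = 2) : maskPoly n f ∣ X ^ (2 ^ n) - X := by
  have h2 := two_eq_zero_of_algebra (AdjoinRoot (maskPoly n f))
  have hf : ev (AdjoinRoot.root (maskPoly n f)) f = 0 := by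
    rw [← aeval_maskPoly n f hfl, AdjoinRoot.aeval_eq, AdjoinRoot.mk_self]
  have h4 : 2 < 2 ^ n := by
    calc 2 < 2 ^ 2 := by norm_num
      _ ≤ 2 ^ n := Nat.pow_le_pow_right (by norm_num) hn
  have h3 := ev_sqIter h2 (AdjoinRoot.root (maskPoly n f)) n f n 2 hf hfl hf2 h4
  rw [h, ev_two] at h3
  rw [← AdjoinRoot.mk_eq_zero, map_sub, map_pow, AdjoinRoot.mk_X, ← h3, sub_self]

theorem exists_gen (F : Type) [Field F] [Fintype F] [DecidableEq F] [Algebra (ZMod 2) F]
    (n f : ℕ) (hn : 2 ≤ n) (hF : Fintype.card F = 2 ^ n) (hfl : f < 2 ^ (n + 1))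
    (hf2 : 2 ^ n ≤ f) (hodd : f % 2 = 1) (qs : List (ℕ × ℕ)) (h1 : check1 n f qs = true)
    (hqs : ∀ p : ℕ, p.Prime → p ∣ 2 ^ n - 1 → ∃ v, (p, v) ∈ qs) :
    ∃ a : F, ev a f = 0 ∧ orderOf a = 2 ^ n - 1 := by
  have h2 := two_eq_zero_of_algebra F
  simp only [check1, Bool.and_eq_true, beq_iff_eq] at h1
  obtain ⟨hsq, hall⟩ := h1
  have hone : 1 < 2 ^ n := Nat.one_lt_two_pow (by omega)
  obtain ⟨g, hg⟩ := maskPoly_dvd n f hn hfl hf2 hsq
  -- a root
  obtain ⟨a, ha⟩ : ∃ a : F, ev a f = 0 := by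
    by_contra hcon
    push Not at hcon
    have hq : (X ^ Fintype.card F - X : F[X]) =
        (maskPoly n f).map (algebraMap (ZMod 2) F) * g.map (algebraMap (ZMod 2) F) := by
      rw [← Polynomial.map_mul, ← hg, hF]
      simp
    have hdeg := FiniteField.X_pow_card_sub_X_natDegree_eq F (Fintype.one_lt_card (α := F))
    have hne := FiniteField.X_pow_card_sub_X_ne_zero F (Fintype.one_lt_card (α := F))
    rw [hq] at hne hdeg
    have hm0 := left_ne_zero_of_mul hne
    have hg0 := right_ne_zero_of_mul hne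
    rw [natDegree_mul hm0 hg0] at hdeg
    have hmd : n ≤ ((maskPoly n f).map (algebraMap (ZMod 2) F)).natDegree := by
      apply le_natDegree_of_ne_zero
      rw [coeff_map, coeff_maskPoly n f hfl hf2, map_one]
      exact one_ne_zero
    apply hg0
    refine eq_zero_of_natDegree_lt_card_of_eval_eq_zero (ι := F)
      (g.map (algebraMap (ZMod 2) F)) (f := id) Function.injective_id (fun c => ?_) (by omega)
    have h3 : (X ^ Fintype.card F - X : F[X]).eval c = 0 := by
      simp [FiniteField.pow_card]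
    rw [hq, eval_mul] at h3
    rcases mul_eq_zero.mp h3 with h4 | h4
    · exfalso
      apply hcon c
      rw [← aeval_maskPoly n f hfl, aeval_def, ← eval_map, h4]
    · exact h4
  have ha0 : a ≠ 0 := by
    rintro rfl
    rw [ev_eq_sum _ f (n + 1) hfl, sum_eq_single 0] at ha
    · simp [Nat.testBit_zero, hodd] at ha
    · intro i _ hi
      rw [zero_pow hi, ite_self]
    · simp
  refine ⟨a, ha, orderOf_eq_of_pow_and_pow_div_prime (by omega) ?_ ?_⟩
  · rw [← hF]
    exact FiniteField.pow_card_sub_one_eq_one a ha0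
  · intro p hp hpd hcon
    obtain ⟨v, hv⟩ := hqs p hp hpd
    have h3 := (List.all_eq_true.mp hall) _ hv
    simp only [Bool.and_eq_true, beq_iff_eq] at h3
    have hw : pw n (2 ^ n) f ((2 ^ n - 1) / p) n 1 < 2 ^ n := pw_lt n f _ n 1 hfl hf2 hone
    have h4 := congrArg (ev a) h3.1
    rw [ev_mMul h2 a n f _ _ _ _ ha, Nat.mod_eq_of_lt, ev_one, ev_zero, zero_mul, zero_add,
      ev_xor h2, ev_one, ev_pw h2 a n f _ _ _ ha hfl hf2 hone, ev_one, one_pow, one_mul,
      Nat.mod_eq_of_lt, hcon, one_add_one_eq_two, h2, mul_zero] at h4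
    · exact zero_ne_one h4
    · exact lt_of_le_of_lt (Nat.div_le_self _ _) (by omega)
    · exact Nat.xor_lt_two_pow hw hone

end RunMult
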