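import Pool.Agent.Lib.MP_d16eef_co.EvB

set_option linter.unusedSectionVars false

namespace RunMult

open Finset

section

variable {F : Type} [Field F] [Fintype F] [DecidableEq F] [Algebra (ZMod 2) F]

/-- the basis of the first `n` powers -/
noncomputable def pbasis (n : ℕ) (hF : Fintype.card F = 2 ^ n) (a : F)
    (ha : orderOf a = 2 ^ n - 1) : Module.Basis (Fin n) (ZMod 2) F :=
  basisOfTopLeSpanOfCardEqFinrank (fun i : Fin n => a ^ (i : ℕ)) (by
    rw [← span_powers n hF a ha]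
    apply Submodule.span_mono
    rintro _ ⟨i, hi, rfl⟩
    exact ⟨⟨i, hi⟩, rfl⟩) (by rw [Fintype.card_fin, finrank_eq' n hF])

theorem pbasis_apply (n : ℕ) (hF : Fintype.card F = 2 ^ n) (a : F)
    (ha : orderOf a = 2 ^ n - 1) (i : Fin n) : pbasis n hF a ha i = a ^ (i : ℕ) := by
  simp [pbasis]

theorem coord_ev (n : ℕ) (hF : Fintype.card F = 2 ^ n) (a : F)
    (ha : orderOf a = 2 ^ n - 1) (m : ℕ) (hm : m < 2 ^ n) (i : Fin n) :
    (pbasis n hF a ha).coord i (ev a m) = if m.testBit i then 1 else 0 := by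
  have h1 : ev a m = ∑ j : Fin n, (if m.testBit j then (1 : ZMod 2) else 0) •
      pbasis n hF a ha j := by
    rw [ev_eq_sum a m n hm, ← Fin.sum_univ_eq_sum_range (fun i => if m.testBit i then a ^ i else 0)]
    refine sum_congr rfl fun j _ => ?_
    rw [pbasis_apply]
    split_ifs <;> simp
  rw [h1, map_sum, sum_eq_single i]
  · rw [map_smul, Module.Basis.coord_apply, Module.Basis.repr_self, Finsupp.single_eq_same,
      smul_eq_mul, mul_one]
  · intro j _ hj
    rw [map_smul, Module.Basis.coord_apply, Module.Basis.repr_self,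
      Finsupp.single_eq_of_ne (Ne.symm hj), smul_zero]
  · simp

theorem ev_inj (n : ℕ) (hF : Fintype.card F = 2 ^ n) (a : F) (ha : orderOf a = 2 ^ n - 1)
    (m k : ℕ) (hm : m < 2 ^ n) (hk : k < 2 ^ n) (h : ev a m = ev a k) : m = k := by
  apply Nat.eq_of_testBit_eq
  intro i
  rcases lt_or_ge i n with hi | hi
  · have h1 := coord_ev n hF a ha m hm ⟨i, hi⟩
    have h2 := coord_ev n hF a ha k hk ⟨i, hi⟩
    rw [h, h2] at h1
    revert h1
    simp only
    cases m.testBit i <;> cases k.testBit i <;> simp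
  · rw [Nat.testBit_lt_two_pow (lt_of_lt_of_le hm (Nat.pow_le_pow_right (by norm_num) hi)),
      Nat.testBit_lt_two_pow (lt_of_lt_of_le hk (Nat.pow_le_pow_right (by norm_num) hi))]

/-- the functional of the certificate -/
noncomputable def cfun (n : ℕ) (hF : Fintype.card F = 2 ^ n) (a : F)
    (ha : orderOf a = 2 ^ n - 1) (T : List ℕ) : F →ₗ[ZMod 2] ZMod 2 :=
  (T.map fun i => if h : i < n then (pbasis n hF a ha).coord ⟨i, h⟩ else 0).sum

theorem lam_eq_sum (T : List ℕ) (m : ℕ) :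
    (if lam T m then (1 : ZMod 2) else 0) =
      (T.map fun i => if m.testBit i then (1 : ZMod 2) else 0).sum := by
  have h : ∀ b : Bool, (if T.foldl (fun b i => Bool.xor b (Nat.testBit m i)) b then (1 : ZMod 2)
      else 0) = (if b then 1 else 0) +
      (T.map fun i => if m.testBit i then (1 : ZMod 2) else 0).sum := by
    induction T with
    | nil => intro b; simp
    | cons i T ih =>
      intro b
      rw [List.foldl_cons, ih, List.map_cons, List.sum_cons, ← add_assoc]
      congr 1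
      cases b <;> cases m.testBit i <;> decide
  refine (h false).trans ?_
  simp

theorem cfun_ev (n : ℕ) (hF : Fintype.card F = 2 ^ n) (a : F)
    (ha : orderOf a = 2 ^ n - 1) (T : List ℕ) (hT : ∀ i ∈ T, i < n) (m : ℕ) (hm : m < 2 ^ n) :
    cfun n hF a ha T (ev a m) = if lam T m then 1 else 0 := by
  rw [lam_eq_sum, cfun]
  induction T with
  | nil => simp
  | cons i T ih =>
    rw [List.map_cons, List.sum_cons, List.map_cons, List.sum_cons, LinearMap.add_apply,
      ih (fun j hj => hT j (List.mem_cons_of_mem _ hj))]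
    congr 1
    rw [dif_pos (hT i List.mem_cons_self)]
    exact coord_ev n hF a ha m hm ⟨i, _⟩

/-- every functional is given by the trace -/
theorem exists_tr (L : F →ₗ[ZMod 2] ZMod 2) : ∃ b : F, ∀ y, L y = tr (b * y) := by
  let φ : F →ₗ[ZMod 2] Module.Dual (ZMod 2) F := Algebra.traceForm (ZMod 2) F
  have hinj : Function.Injective φ := by
    rw [injective_iff_map_eq_zero]
    intro b hb
    apply tr_nondeg
    intro z
    have := congrArg (fun ψ : Module.Dual (ZMod 2) F => ψ z) hb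
    simpa [φ, Algebra.traceForm_apply] using this
  have hsurj : Function.Surjective φ :=
    (LinearMap.injective_iff_surjective_of_finrank_eq_finrank
      (Subspace.dual_finrank_eq (K := ZMod 2) (V := F)).symm).mp hinj
  obtain ⟨b, hb⟩ := hsurj L
  refine ⟨b, fun y => ?_⟩
  rw [← hb]
  rfl

theorem cfun_sq (n K f : ℕ) (T : List ℕ) (hn : 2 ≤ n) (hF : Fintype.card F = 2 ^ n) (a : F)
    (ha : orderOf a = 2 ^ n - 1) (hf : ev a f = 0) (hfl : f < 2 ^ (n + 1)) (hf2 : 2 ^ n ≤ f)
    (h2 : check2 n K f T = true) (y : F) :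
    cfun n hF a ha T (y ^ 2) = cfun n hF a ha T y := by
  have hch := charP_two F
  have h2F := two_eq_zero' F
  have hone : 1 < 2 ^ n := Nat.one_lt_two_pow (by omega)
  simp only [check2, Bool.and_eq_true] at h2
  obtain ⟨⟨⟨⟨hT, -⟩, -⟩, hfr⟩, -⟩ := h2
  replace hT : ∀ i ∈ T, i < n := by
    intro i hi
    have := (List.all_eq_true.mp hT) i hi
    simpa [Nat.blt_eq] using this
  let ψ : F →+ ZMod 2 :=
    (cfun n hF a ha T).toAddMonoidHom.comp (frobenius F 2).toAddMonoidHom
  have hψ : ∀ y, ψ y = cfun n hF a ha T (y ^ 2) := fun y => rfl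
  have hL : ψ.toZModLinearMap 2 = cfun n hF a ha T := by
    apply (pbasis n hF a ha).ext
    intro i
    have h3 := (List.all_eq_true.mp hfr) (i : ℕ) (List.mem_range.mpr i.2)
    rw [beq_iff_eq] at h3
    change ψ (pbasis n hF a ha i) = _
    rw [hψ, pbasis_apply, ← pow_mul, mul_comm]
    have e1 : a ^ (2 * (i : ℕ)) = ev a (mXit (2 ^ n) f (2 * i) 1) := by
      rw [ev_mXit h2F a n f _ _ hf, ev_one, mul_one]
    rw [e1, cfun_ev n hF a ha T hT _ (mXit_lt n f _ _ hfl hf2 hone), h3, ← ev_two_pow,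
      cfun_ev n hF a ha T hT _ (Nat.pow_lt_pow_right (by norm_num) i.2)]
  rw [← hψ]
  exact congrArg (fun l : F →ₗ[ZMod 2] ZMod 2 => l y) hL

theorem sq_surj (z : F) : ∃ y : F, y ^ 2 = z := by
  have hch := charP_two F
  have : Function.Surjective (frobenius F 2) := by
    apply Finite.surjective_of_injective
    exact frobenius_inj F 2
  exact this z

/-- the functional of the certificate is the trace -/
theorem tr_ev (n K f : ℕ) (T : List ℕ) (hn : 2 ≤ n) (hF : Fintype.card F = 2 ^ n) (a : F)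
    (ha : orderOf a = 2 ^ n - 1) (hf : ev a f = 0) (hfl : f < 2 ^ (n + 1)) (hf2 : 2 ^ n ≤ f)
    (h2 : check2 n K f T = true) (m : ℕ) (hm : m < 2 ^ n) :
    tr (ev a m) = if lam T m then 1 else 0 := by
  have hone : 1 < 2 ^ n := Nat.one_lt_two_pow (by omega)
  have hsq := cfun_sq n K f T hn hF a ha hf hfl hf2 h2
  simp only [check2, Bool.and_eq_true] at h2
  obtain ⟨⟨⟨⟨hT, -⟩, h1⟩, -⟩, -⟩ := h2
  replace hT : ∀ i ∈ T, i < n := by
    intro i hi
    have := (List.all_eq_true.mp hT) i hi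
    simpa [Nat.blt_eq] using this
  obtain ⟨b, hb⟩ := exists_tr (cfun n hF a ha T)
  have hb2 : b - b ^ 2 = 0 := by
    apply tr_nondeg
    intro z
    obtain ⟨y, rfl⟩ := sq_surj z
    rw [sub_mul, tr_sub, ← mul_pow, tr_sq, ← hb, ← hb, hsq, sub_self]
  have hb01 : b * (1 - b) = 0 := by rw [← hb2]; ring
  have hL1 : cfun n hF a ha T 1 = 1 := by
    rw [← ev_one a, cfun_ev n hF a ha T hT 1 hone, if_pos h1]
  rcases mul_eq_zero.mp hb01 with h0 | h0
  · rw [hb, h0, zero_mul, tr_zero] at hL1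
    exact absurd hL1 zero_ne_one
  · have hb1 : b = 1 := (sub_eq_zero.mp h0).symm
    rw [← cfun_ev n hF a ha T hT m hm, hb, hb1, one_mul]

/-- the vanishing traces -/
theorem tr_zero_range (n K f : ℕ) (T : List ℕ) (hn : 2 ≤ n) (hF : Fintype.card F = 2 ^ n) (a : F)
    (ha : orderOf a = 2 ^ n - 1) (hf : ev a f = 0) (hfl : f < 2 ^ (n + 1)) (hf2 : 2 ^ n ≤ f)
    (hodd : f % 2 = 1) (h2 : check2 n K f T = true) (i : ℤ) (hi : i ≠ 0) (hiK : |i| ≤ K) :
    tr (a ^ i) = 0 := by
  have h2F := two_eq_zero' F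
  have hone : 1 < 2 ^ n := Nat.one_lt_two_pow (by omega)
  have ha0 := (gen_ne_zero n hF a ha).2
  have htr := tr_ev n K f T hn hF a ha hf hfl hf2 h2
  simp only [check2, Bool.and_eq_true] at h2
  obtain ⟨-, hK⟩ := h2
  rcases lt_or_gt_of_ne hi with hneg | hpos
  · obtain ⟨k, rfl⟩ : ∃ k : ℕ, i = -((k + 1 : ℕ) : ℤ) := ⟨i.natAbs - 1, by omega⟩
    have hk : k < K := by
      rw [abs_neg, abs_of_nonneg (by positivity)] at hiK
      push_cast at hiK
      omega
    have h3 := (List.all_eq_true.mp hK) k (List.mem_range.mpr hk)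
    simp only [Bool.and_eq_true, Bool.not_eq_true'] at h3
    have e1 : a ^ (-((k + 1 : ℕ) : ℤ)) = ev a (dXit f (k + 1) 1) := by
      have := ev_dXit h2F a f (k + 1) 1 hodd hf
      rw [ev_one] at this
      rw [zpow_neg, zpow_natCast]
      exact (eq_inv_of_mul_eq_one_right this).symm
    rw [e1, htr _ (dXit_lt n f _ _ hfl hone), h3.2]
    simp
  · obtain ⟨k, rfl⟩ : ∃ k : ℕ, i = ((k + 1 : ℕ) : ℤ) := ⟨i.natAbs - 1, by omega⟩
    have hk : k < K := by
      rw [abs_of_nonneg (by positivity)] at hiK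
      push_cast at hiK
      omega
    have h3 := (List.all_eq_true.mp hK) k (List.mem_range.mpr hk)
    simp only [Bool.and_eq_true, Bool.not_eq_true'] at h3
    have e1 : a ^ ((k + 1 : ℕ) : ℤ) = ev a (mXit (2 ^ n) f (k + 1) 1) := by
      rw [ev_mXit h2F a n f _ _ hf, ev_one, mul_one, zpow_natCast]
    rw [e1, htr _ (mXit_lt n f _ _ hfl hf2 hone), h3.1]
    simp

end

end RunMult
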