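import Pool.Agent.Lib.MP_d16eef_co.ExRoot
import Pool.Agent.Lib.MP_d16eef_co.ExTrace

namespace RunMult

theorem htab_aux (M : ℕ) (l : List ℕ) (H i : ℕ) (h : H.testBit i = true) :
    (l.foldl (fun H u => H ||| (1 <<< (u % M))) H).testBit i = true := by
  induction l generalizing H with
  | nil => exact h
  | cons v l ih =>
    apply ih
    simp [Nat.testBit_or, h]

theorem htab_mem (M : ℕ) (l : List ℕ) (u : ℕ) (hu : u ∈ l) :
    (htab M l).testBit (u % M) = true := by
  unfold htab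
  generalize 0 = H
  induction l generalizing H with
  | nil => simp at hu
  | cons v l ih =>
    rcases List.mem_cons.mp hu with rfl | hu
    · simp only [List.foldl_cons]
      apply htab_aux
      simp [Nat.testBit_or, Nat.testBit_shiftLeft]
    · exact ih hu _

theorem hnot_not_mem (M : ℕ) (l : List ℕ) (u : ℕ) (h : hnot M (htab M l) u = true) : u ∉ l := by
  intro hu
  have := htab_mem M l u hu
  simp [hnot, this] at h

theorem UL_get {F : Type} [Field F] (h2 : (2 : F) = 0) (n f x : ℕ) (a : F) (hf : ev a f = 0)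
    (hfl : f < 2 ^ (n + 1)) (hf2 : 2 ^ n ≤ f) (hx : x < 2 ^ n) (hn : 1 ≤ n) (s : ℕ) (hs : s < n)
    (e : Bool) :
    ∃ u, (UL n f x)[if e then n + s else s]? = some u ∧ u < 2 ^ n ∧
      ev a u = uu (ev a x) 1 s e := by
  obtain ⟨hlen, hc⟩ := mem_conjL h2 a n f n x hf hfl hf2 hx
  have hs' : s < (conjL n (2 ^ n) f n x).length := by omega
  obtain ⟨h3, h4⟩ := hc s hs'
  cases e with
  | false =>
    refine ⟨(conjL n (2 ^ n) f n x)[s], ?_, h3, ?_⟩
    · simp only [UL, Bool.false_eq_true, if_false]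
      rw [List.getElem?_append_left hs', List.getElem?_eq_getElem hs']
    · simp [uu, h4]
  | true =>
    refine ⟨Nat.xor (conjL n (2 ^ n) f n x)[s] 1, ?_, ?_, ?_⟩
    · simp only [UL, if_true]
      rw [List.getElem?_append_right (by omega), hlen, Nat.add_sub_cancel_left,
        List.getElem?_map, List.getElem?_eq_getElem hs']
      rfl
    · exact Nat.xor_lt_two_pow h3 (Nat.one_lt_two_pow (by omega))
    · rw [ev_xor h2, h4, ev_one]
      simp [uu]

theorem adm_of_cert_field {F : Type} [Field F] [Fintype F] [DecidableEq F] [Algebra (ZMod 2) F]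
    (n K f : ℕ) (T : List ℕ) (tau x eta M : ℕ) (qs : List (ℕ × ℕ)) (hn : 3 ≤ n)
    (hF : Fintype.card F = 2 ^ n)
    (hK : 2 ≤ K) (hfl : f < 2 ^ (n + 1)) (hf2 : 2 ^ n ≤ f) (hodd : f % 2 = 1)
    (ht1 : 1 ≤ tau) (ht2 : tau < 2 ^ n - 1)
    (hqs : ∀ p : ℕ, p.Prime → p ∣ 2 ^ n - 1 → ∃ v, (p, v) ∈ qs)
    (h1 : check1 n f qs = true) (h2 : check2 n K f T = true)
    (h3 : check3 n K f T tau x eta M = true) : Adm n := by
  have h2F : (2 : F) = 0 := by
    have h := map_ofNat (algebraMap (ZMod 2) F) 2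
    rw [← h]
    have : (OfNat.ofNat 2 : ZMod 2) = 0 := rfl
    rw [this, map_zero]
  obtain ⟨a, hf, ha⟩ := exists_gen F n f (by omega) hF hfl hf2 hodd qs h1 hqs
  have ha0 : a ≠ 0 := by
    rintro rfl
    rw [orderOf_zero] at ha
    have : 1 < 2 ^ n := Nat.one_lt_two_pow (by omega)
    omega
  have hone : 1 < 2 ^ n := Nat.one_lt_two_pow (by omega)
  have htr : ∀ m < 2 ^ n, tr (ev a m) = if lam T m then 1 else 0 := fun m hm =>
    tr_ev n K f T (by omega) hF a ha hf hfl hf2 h2 m hm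
  have hMx : ∀ k m, m < 2 ^ n → mXit (2 ^ n) f k m < 2 ^ n := fun k m hm =>
    mXit_lt n f k m hfl hf2 hm
  have eMx : ∀ k m, ev a (mXit (2 ^ n) f k m) = a ^ k * ev a m := fun k m =>
    ev_mXit h2F a n f k m hf
  have hDx : ∀ k m, m < 2 ^ n → dXit f k m < 2 ^ n := fun k m hm => dXit_lt n f k m hfl hm
  have eDx : ∀ k m, ev a (dXit f k m) = (a ^ k)⁻¹ * ev a m := fun k m => by
    rw [eq_inv_mul_iff_mul_eq₀ (pow_ne_zero _ ha0)]
    exact ev_dXit h2F a f k m hodd hf
  simp only [check3, Bool.and_eq_true] at h3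
  obtain ⟨⟨⟨⟨⟨⟨⟨hx, heta⟩, hwin⟩, heta0⟩, heta1⟩, htau⟩, hnod⟩, ⟨⟨hiso, htau4⟩, hx1⟩, hp3⟩ := h3
  replace hx : x < 2 ^ n := by simpa [Nat.blt_eq] using hx
  replace heta : eta < 2 ^ n := by simpa [Nat.blt_eq] using heta
  have hUL := fun s hs e => UL_get h2F n f x a hf hfl hf2 hx (by omega) s hs e
  obtain ⟨hlen, hc⟩ := mem_conjL h2F a n f n x hf hfl hf2 hx
  have hwin' : ∀ s, s < n → ∃ y < 2 ^ n, ev a y = ev a x ^ (2 ^ s) ∧ chkWin n K f T y = true := by
    intro s hs
    have hs' : s < (conjL n (2 ^ n) f n x).length := by omega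
    exact ⟨_, (hc s hs').1, (hc s hs').2, (List.all_eq_true.mp hwin) _ (List.getElem_mem hs')⟩
  -- a translate of an element of the list
  have key : ∀ m v, v < 2 ^ n → hnot M (htab M (UL n f x)) v = true → ev a v = m →
      ∀ s < n, ∀ e, m ≠ uu (ev a x) 1 s e := by
    intro m v hv hnt hm s hs e he
    obtain ⟨u, hu1, hu2, hu3⟩ := hUL s hs e
    have : v = u := ev_inj n hF a ha v u hv hu2 (by rw [hm, he, hu3])
    subst this
    exact hnot_not_mem M _ _ hnt (List.mem_of_getElem? hu1)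
  refine adm_core2 n K tau hn hK hF a ha 1 (ev a x) (ev a eta) ?_ ?_ ?_ ?_ ?_ ?_ ?_ ?_ ?_ ht1 ht2
    ?_ ?_
  · -- trace of one
    have h := htr 1 hone
    rw [ev_one] at h
    rw [h]
    simp only [check2, Bool.and_eq_true] at h2
    rw [if_pos h2.1.1.2]
  · intro s i hi hiK
    rw [one_pow, one_mul]
    exact tr_zero_range n K f T (by omega) hF a ha hf hfl hf2 hodd h2 i hi hiK
  · -- right windows
    intro s hs c
    obtain ⟨y, hy, hye, hw⟩ := hwin' s hs
    simp only [chkWin, Bool.and_eq_true, List.any_eq_true, List.mem_range] at hw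
    obtain ⟨⟨⟨⟨i, hi, hi'⟩, ⟨j, hj, hj'⟩⟩, -⟩, -⟩ := hw
    have e1 : ∀ k : ℕ, tr (ev a x ^ (2 ^ s) * a ^ ((k + 1 : ℕ) : ℤ)) =
        if lam T (mXit (2 ^ n) f (k + 1) y) then 1 else 0 := by
      intro k
      rw [← htr _ (hMx _ _ hy), eMx, hye, zpow_natCast, mul_comm]
    by_cases hc0 : c = 0
    · refine ⟨((i + 1 : ℕ) : ℤ), by push_cast; omega, by push_cast; omega, ?_⟩
      rw [e1, if_pos hi', hc0]
      decide
    · refine ⟨((j + 1 : ℕ) : ℤ), by push_cast; omega, by push_cast; omega, ?_⟩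
      rw [e1, if_neg (by simpa using hj')]
      exact fun h => hc0 h.symm
  · -- left windows
    intro s hs c
    obtain ⟨y, hy, hye, hw⟩ := hwin' s hs
    simp only [chkWin, Bool.and_eq_true, List.any_eq_true, List.mem_range] at hw
    obtain ⟨⟨-, ⟨i, hi, hi'⟩⟩, ⟨j, hj, hj'⟩⟩ := hw
    have e1 : ∀ k : ℕ, tr (ev a x ^ (2 ^ s) * a ^ (-((k + 1 : ℕ) : ℤ))) =
        if lam T (dXit f (k + 1) y) then 1 else 0 := by
      intro k
      rw [← htr _ (hDx _ _ hy), eDx, hye, zpow_neg, zpow_natCast, mul_comm]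
    by_cases hc0 : c = 0
    · refine ⟨((i + 1 : ℕ) : ℤ), by push_cast; omega, by push_cast; omega, ?_⟩
      rw [e1, if_pos hi', hc0]
      decide
    · refine ⟨((j + 1 : ℕ) : ℤ), by push_cast; omega, by push_cast; omega, ?_⟩
      rw [e1, if_neg (by simpa using hj')]
      exact fun h => hc0 h.symm
  · -- distinctness
    intro s hs s' hs' e e' h
    obtain ⟨u, hu1, hu2, hu3⟩ := hUL s hs e
    obtain ⟨v, hv1, hv2, hv3⟩ := hUL s' hs' e'
    have huv : u = v := ev_inj n hF a ha u v hu2 hv2 (by rw [hu3, hv3, h])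
    subst huv
    have hnd : (UL n f x).Nodup := by simpa using hnod
    have hi1 : (if e = true then n + s else s) < (UL n f x).length := by
      by_contra hcon
      rw [List.getElem?_eq_none (by omega)] at hu1
      simp at hu1
    have := (List.getElem?_inj hi1 hnd).mp (hu1.trans hv1.symm)
    cases e <;> cases e' <;> simp at this ⊢ <;> omega
  · -- isolation
    have hpos : ∀ s < n, ∀ s' < n, ∀ e e' : Bool, ∀ k : ℕ, 1 ≤ k → k ≤ 2 * K - 2 →
        uu (ev a x) 1 s e * a ^ k ≠ uu (ev a x) 1 s' e' := by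
      intro s hs s' hs' e e' k hk1 hk2
      obtain ⟨u, hu1, hu2, hu3⟩ := hUL s hs e
      have h := (List.all_eq_true.mp ((List.all_eq_true.mp hiso) u (List.mem_of_getElem? hu1)))
        (k - 1) (List.mem_range.mpr (by omega))
      rw [Nat.sub_add_cancel hk1] at h
      exact key _ _ (hMx _ _ hu2) h (by rw [eMx, hu3, mul_comm]) s' hs' e'
    intro s hs s' hs' e e' j hj hjK h
    rcases lt_or_gt_of_ne hj with hneg | hps
    · obtain ⟨k, hk⟩ : ∃ k : ℕ, j = -(k : ℤ) := ⟨j.natAbs, by omega⟩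
      subst hk
      have hk1 : 1 ≤ k := by omega
      have hk2 : k ≤ 2 * K - 2 := by
        rw [abs_neg, abs_of_nonneg (by positivity)] at hjK
        exact_mod_cast hjK
      refine hpos s' hs' s hs e' e k hk1 hk2 ?_
      rw [← h, zpow_neg, zpow_natCast, mul_assoc, inv_mul_cancel₀ (pow_ne_zero _ ha0), mul_one]
    · obtain ⟨k, hk⟩ : ∃ k : ℕ, j = (k : ℤ) := ⟨j.natAbs, by omega⟩
      subst hk
      have hk1 : 1 ≤ k := by omega
      have hk2 : k ≤ 2 * K - 2 := by
        rw [abs_of_nonneg (by positivity)] at hjK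
        exact_mod_cast hjK
      refine hpos s hs s' hs' e e' k hk1 hk2 ?_
      rw [← zpow_natCast]
      exact h
  · -- eta
    intro l hl
    have h := htr _ (hMx l eta heta)
    rw [eMx, mul_comm] at h
    rw [h]
    rcases Nat.eq_zero_or_pos l with rfl | hl0
    · simp only [mXit, if_true, heta0]
    · have h4 := (List.all_eq_true.mp heta1) (l - 1) (List.mem_range.mpr (by omega))
      rw [Nat.sub_add_cancel hl0] at h4
      rw [if_neg (by simpa using h4), if_neg (by omega)]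
  · intro l hl1 hl2 s hs e
    have h4 := (List.all_eq_true.mp hx1) (l - 1) (List.mem_range.mpr (by omega))
    rw [Nat.sub_add_cancel hl1] at h4
    exact key _ _ (hMx _ _ hx) h4 (by rw [eMx, mul_comm]) s hs e
  · intro l hl s hs e
    have h4 := (List.all_eq_true.mp hp3) l (List.mem_range.mpr hl)
    refine key _ _ (hMx _ _ (Nat.xor_lt_two_pow hx heta)) h4 ?_ s hs e
    rw [eMx]
    have := ev_xor h2F a x eta
    change ev a (x ^^^ eta) = _ at this
    rw [this, mul_comm]
  · -- tau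
    have e1 : tr (a ^ tau) = if lam T (mXit (2 ^ n) f tau 1) then 1 else 0 := by
      rw [← htr _ (hMx _ _ hone), eMx, ev_one, mul_one]
    have e2 : tr (a ^ tau)⁻¹ = if lam T (dXit f tau 1) then 1 else 0 := by
      rw [← htr _ (hDx _ _ hone), eDx, ev_one, mul_one]
    rw [e1, e2]
    intro h
    rw [bne_iff_ne] at htau
    apply htau
    revert h
    cases lam T (mXit (2 ^ n) f tau 1) <;> cases lam T (dXit f tau 1) <;> simp
  · intro s hs s' hs' e e'
    obtain ⟨u, hu1, hu2, hu3⟩ := hUL s hs e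
    have h := (List.all_eq_true.mp htau4) u (List.mem_of_getElem? hu1)
    exact key _ _ (hMx _ _ hu2) h (by rw [eMx, hu3, mul_comm]) s' hs' e'

theorem adm_of_cert (n K f : ℕ) (T : List ℕ) (tau x eta M : ℕ) (qs : List (ℕ × ℕ)) (hn : 3 ≤ n)
    (hK : 2 ≤ K) (hfl : f < 2 ^ (n + 1)) (hf2 : 2 ^ n ≤ f) (hodd : f % 2 = 1)
    (ht1 : 1 ≤ tau) (ht2 : tau < 2 ^ n - 1)
    (hqs : ∀ p : ℕ, p.Prime → p ∣ 2 ^ n - 1 → ∃ v, (p, v) ∈ qs)
    (h1 : check1 n f qs = true) (h2 : check2 n K f T = true)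
    (h3 : check3 n K f T tau x eta M = true) : Adm n := by
  classical
  let _ : Fintype (GaloisField 2 n) := Fintype.ofFinite _
  have hF : Fintype.card (GaloisField 2 n) = 2 ^ n := by
    rw [← Nat.card_eq_fintype_card]
    exact GaloisField.card 2 n (by omega)
  exact adm_of_cert_field (F := GaloisField 2 n) n K f T tau x eta M qs hn hF hK hfl hf2 hodd ht1
    ht2 hqs h1 h2 h3

end RunMult
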