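import Pool.Agent.Lib.MP_d16eef_co.ExSoundD

/-! The certificate checks in small parts, in a form that is faster to evaluate. -/

namespace RunMult

/-- the check at one prime divisor -/
def chkq (n f q v : ℕ) : Bool :=
  (mMul (2 ^ n) f v (Nat.xor (pw n (2 ^ n) f ((2 ^ n - 1) / q) n 1) 1) n 0 == 1)
    && Nat.blt v (2 ^ n)

theorem check1_of (n f : ℕ) (qs : List (ℕ × ℕ)) (h0 : sqIter n (2 ^ n) f n 2 = 2)
    (h : ∀ q ∈ qs, chkq n f q.1 q.2 = true) : check1 n f qs = true := by
  simp only [check1, Bool.and_eq_true, beq_iff_eq, List.all_eq_true]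
  refine ⟨h0, fun q hq => ?_⟩
  have := h q hq
  simpa only [chkq, Bool.and_eq_true, beq_iff_eq] using this

/-- `p` at `m, X m, …, X ^ (k - 1) m` -/
def itAll (P f : ℕ) (p : ℕ → Bool) : ℕ → ℕ → Bool
  | 0, _ => true
  | k + 1, m => p m && itAll P f p k (mX P f m)

/-- `p` at one of `m, X m, …, X ^ (k - 1) m` -/
def itAny (P f : ℕ) (p : ℕ → Bool) : ℕ → ℕ → Bool
  | 0, _ => false
  | k + 1, m => p m || itAny P f p k (mX P f m)

/-- `p` at `m, X⁻¹ m, …, X ^ (-(k - 1)) m` -/
def itAllD (f : ℕ) (p : ℕ → Bool) : ℕ → ℕ → Bool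
  | 0, _ => true
  | k + 1, m => p m && itAllD f p k (dX f m)

def itAnyD (f : ℕ) (p : ℕ → Bool) : ℕ → ℕ → Bool
  | 0, _ => false
  | k + 1, m => p m || itAnyD f p k (dX f m)

theorem itAll_spec (P f : ℕ) (p : ℕ → Bool) (k m : ℕ) (h : itAll P f p k m = true) (i : ℕ)
    (hi : i < k) : p (mXit P f i m) = true := by
  induction k generalizing m i with
  | zero => omega
  | succ k ih =>
    simp only [itAll, Bool.and_eq_true] at h
    cases i with
    | zero => exact h.1
    | succ i => exact ih _ h.2 i (by omega)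

theorem itAllD_spec (f : ℕ) (p : ℕ → Bool) (k m : ℕ) (h : itAllD f p k m = true) (i : ℕ)
    (hi : i < k) : p (dXit f i m) = true := by
  induction k generalizing m i with
  | zero => omega
  | succ k ih =>
    simp only [itAllD, Bool.and_eq_true] at h
    cases i with
    | zero => exact h.1
    | succ i => exact ih _ h.2 i (by omega)

theorem itAny_spec (P f : ℕ) (p : ℕ → Bool) (k m : ℕ) (h : itAny P f p k m = true) :
    ∃ i < k, p (mXit P f i m) = true := by
  induction k generalizing m with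
  | zero => simp [itAny] at h
  | succ k ih =>
    simp only [itAny, Bool.or_eq_true] at h
    rcases h with h | h
    · exact ⟨0, by omega, h⟩
    · obtain ⟨i, hi, h⟩ := ih _ h
      exact ⟨i + 1, by omega, h⟩

theorem itAnyD_spec (f : ℕ) (p : ℕ → Bool) (k m : ℕ) (h : itAnyD f p k m = true) :
    ∃ i < k, p (dXit f i m) = true := by
  induction k generalizing m with
  | zero => simp [itAnyD] at h
  | succ k ih =>
    simp only [itAnyD, Bool.or_eq_true] at h
    rcases h with h | h
    · exact ⟨0, by omega, h⟩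
    · obtain ⟨i, hi, h⟩ := ih _ h
      exact ⟨i + 1, by omega, h⟩

/-- faster form of `chkWin` -/
def winF (P K f : ℕ) (T : List ℕ) (y : ℕ) : Bool :=
  itAny P f (fun v => lam T v) K (mX P f y) && itAny P f (fun v => !lam T v) K (mX P f y) &&
  itAnyD f (fun v => lam T v) K (dX f y) && itAnyD f (fun v => !lam T v) K (dX f y)

theorem winF_spec (n K f : ℕ) (T : List ℕ) (y : ℕ) (h : winF (2 ^ n) K f T y = true) :
    chkWin n K f T y = true := by
  simp only [winF, Bool.and_eq_true] at h
  simp only [chkWin, Bool.and_eq_true, List.any_eq_true, List.mem_range]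
  refine ⟨⟨⟨?_, ?_⟩, ?_⟩, ?_⟩
  · exact itAny_spec _ _ _ _ _ h.1.1.1
  · exact itAny_spec _ _ _ _ _ h.1.1.2
  · exact itAnyD_spec _ _ _ _ h.1.2
  · exact itAnyD_spec _ _ _ _ h.2

/-- the residues are distinct and not among the bits of `H` -/
def ndH (M : ℕ) : List ℕ → ℕ → Bool
  | [], _ => true
  | u :: l, H => !Nat.testBit H (u % M) && ndH M l (H ||| (1 <<< (u % M)))

theorem ndH_spec (M : ℕ) (l : List ℕ) (H : ℕ) (h : ndH M l H = true) :
    l.Nodup ∧ ∀ u ∈ l, Nat.testBit H (u % M) = false := by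
  induction l generalizing H with
  | nil => simp
  | cons u l ih =>
    simp only [ndH, Bool.and_eq_true, Bool.not_eq_true'] at h
    obtain ⟨h3, h4⟩ := ih _ h.2
    have h5 : ∀ v ∈ l, Nat.testBit H (v % M) = false ∧ ¬ (u % M = v % M) := by
      intro v hv
      have := h4 v hv
      rw [Nat.testBit_or, Nat.testBit_shiftLeft, Bool.or_eq_false_iff] at this
      refine ⟨this.1, fun hcon => ?_⟩
      rw [hcon] at this
      simp at this
    refine ⟨List.nodup_cons.mpr ⟨fun hu => (h5 u hu).2 rfl, h3⟩, ?_⟩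
    intro v hv
    rcases List.mem_cons.mp hv with rfl | hv
    · exact h.1
    · exact (h5 v hv).1

theorem range_all_succ (P f k m : ℕ) (p : ℕ → Bool) (h : itAll P f p k (mX P f m) = true) :
    ((List.range k).all fun i => p (mXit P f (i + 1) m)) = true := by
  rw [List.all_eq_true]
  intro i hi
  exact itAll_spec P f p k (mX P f m) h i (List.mem_range.mp hi)

theorem range_all (P f k m : ℕ) (p : ℕ → Bool) (h : itAll P f p k m = true) :
    ((List.range k).all fun i => p (mXit P f i m)) = true := by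
  rw [List.all_eq_true]
  intro i hi
  exact itAll_spec P f p k m h i (List.mem_range.mp hi)

theorem check3D_of (n K f : ℕ) (T : List ℕ) (tau d x eta M : ℕ) (C D L : List ℕ) (H : ℕ)
    (hC : conjL n (2 ^ n) f n x = C) (hD : conjL n (2 ^ n) f n d = D)
    (hL : C ++ List.zipWith (fun y z => Nat.xor y z) C D = L) (hH : htab M L = H)
    (h1 : (Nat.blt x (2 ^ n) && Nat.blt eta (2 ^ n) && lam T eta) = true)
    (h2 : C.all (fun y => winF (2 ^ n) K f T y) = true)
    (h3 : itAll (2 ^ n) f (fun v => !lam T v) (n - 1) (mX (2 ^ n) f eta) = true)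
    (h4 : (lam T (mXit (2 ^ n) f tau 1) != lam T (dXit f tau 1)) = true)
    (h5 : ndH M L 0 = true)
    (h6 : L.all (fun u => itAll (2 ^ n) f (fun v => hnot M H v) (2 * K - 2) (mX (2 ^ n) f u))
      = true)
    (h7 : L.all (fun u => hnot M H (mXit (2 ^ n) f tau u)) = true)
    (h8 : itAll (2 ^ n) f (fun v => hnot M H v) (n - 1) (mX (2 ^ n) f x) = true)
    (h9 : itAll (2 ^ n) f (fun v => hnot M H v) n (Nat.xor x eta) = true) :
    check3D n K f T tau d x eta M = true := by
  have hUL : ULD n f x d = L := by rw [ULD, hC, hD, hL]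
  simp only [Bool.and_eq_true] at h1
  simp only [check3D, Bool.and_eq_true, hUL, hC, hH]
  refine ⟨⟨⟨⟨⟨⟨⟨h1.1.1, h1.1.2⟩, ?_⟩, h1.2⟩, ?_⟩, h4⟩, ?_⟩, ⟨⟨?_, h7⟩, ?_⟩, ?_⟩
  · rw [List.all_eq_true]
    intro y hy
    exact winF_spec n K f T y ((List.all_eq_true.mp h2) y hy)
  · exact range_all_succ _ _ _ _ (fun v => !lam T v) h3
  · simpa using (ndH_spec M L 0 h5).1
  · rw [List.all_eq_true]
    intro u hu
    exact range_all_succ _ _ _ _ (fun v => hnot M H v) ((List.all_eq_true.mp h6) u hu)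
  · exact range_all_succ _ _ _ _ (fun v => hnot M H v) h8
  · exact range_all _ _ _ _ (fun v => hnot M H v) h9

/-- the trace functional is invariant under Frobenius -/
def frb (P f : ℕ) (T : List ℕ) : ℕ → ℕ → ℕ → Bool
  | 0, _, _ => true
  | k + 1, u, v => (lam T u == lam T v) && frb P f T k (mX P f (mX P f u)) (2 * v)

theorem frb_spec (P f : ℕ) (T : List ℕ) (k u v : ℕ) (h : frb P f T k u v = true) (i : ℕ)
    (hi : i < k) : (lam T (mXit P f (2 * i) u) == lam T (2 ^ i * v)) = true := by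
  induction k generalizing u v i with
  | zero => omega
  | succ k ih =>
    simp only [frb, Bool.and_eq_true] at h
    cases i with
    | zero => simpa [mXit] using h.1
    | succ i =>
      have h3 := ih _ _ h.2 i (by omega)
      have e1 : mXit P f (2 * (i + 1)) u = mXit P f (2 * i) (mX P f (mX P f u)) := rfl
      have e2 : 2 ^ (i + 1) * v = 2 ^ i * (2 * v) := by ring
      rw [e1, e2]
      exact h3

theorem check2D_of (n K f : ℕ) (T : List ℕ) (b d : ℕ) (D : List ℕ)
    (hD : conjL n (2 ^ n) f b d = D)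
    (h1 : (T.all (fun i => Nat.blt i n) && lam T d && Nat.blt d (2 ^ n) && Nat.blt 0 b) = true)
    (h2 : frb (2 ^ n) f T n 1 1 = true) (h3 : sqIter n (2 ^ n) f b d = d)
    (h4 : D.all (fun y => itAll (2 ^ n) f (fun v => !lam T v) K (mX (2 ^ n) f y) &&
      itAllD f (fun v => !lam T v) K (dX f y)) = true) :
    check2D n K f T b d = true := by
  simp only [Bool.and_eq_true] at h1
  simp only [check2D, Bool.and_eq_true, hD, beq_iff_eq]
  refine ⟨⟨⟨⟨⟨⟨h1.1.1.1, h1.1.1.2⟩, h1.1.2⟩, h1.2⟩, ?_⟩, h3⟩, ?_⟩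
  · rw [List.all_eq_true]
    intro i hi
    have := frb_spec _ _ _ _ _ _ h2 i (List.mem_range.mp hi)
    rwa [mul_one] at this
  · rw [List.all_eq_true] at h4 ⊢
    intro y hy
    have h5 := h4 y hy
    rw [Bool.and_eq_true] at h5
    rw [List.all_eq_true]
    intro i hi
    rw [Bool.and_eq_true]
    exact ⟨itAll_spec _ _ _ _ _ h5.1 i (List.mem_range.mp hi),
      itAllD_spec _ _ _ _ h5.2 i (List.mem_range.mp hi)⟩

end RunMult
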