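import Pool.Agent.Lib.MP_d16eef_co.IneqOdd

namespace RunMult

theorem IneqEven_small : ∀ n < 513, 130 ≤ n → n % 2 = 0 →
    ((n + 13) / 5 + 1) * (2 ^ (n / 5) * (2 ^ ((n + 13) / 5) * (37 * 2 ^ ((n + 1) / 2)))) <
      2 ^ n - 1 := by
  decide +kernel

theorem ineq_even (n κ w b m : ℕ) (hn : 130 ≤ n) (heven : Even n) (hbm : n = b * m)
    (hm : (32 * n) ^ 5 ≤ 2 ^ m) (hκ : 4 ^ κ < 32 * n)
    (hw : 100280245065 * 32 ^ w ≤ 32 ^ 10 * (2 ^ n - 1)) :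
    (w + 1) * (2 ^ (2 * κ * b) * (2 ^ w * ((6 * κ + 1) * 2 ^ ((n + 1) / 2)))) < 2 ^ n - 1 := by
  have hw' := IneqOdd_w n w hw
  have hwp : 2 ^ w ≤ 2 ^ ((n + 13) / 5) := Nat.pow_le_pow_right (by norm_num) hw'
  have h1 : 10 * κ ≤ m := by
    have : 2 ^ (10 * κ) ≤ 2 ^ m := by
      refine le_trans ?_ hm
      have e1 : 2 ^ (10 * κ) = (4 ^ κ) ^ 5 := by
        rw [show (4 : ℕ) = 2 ^ 2 by norm_num, ← pow_mul, ← pow_mul]; congr 1; ring
      rw [e1]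
      exact Nat.pow_le_pow_left hκ.le 5
    exact (Nat.pow_le_pow_iff_right (by norm_num)).1 this
  have h2 : 2 * κ * b ≤ n / 5 := by
    rw [Nat.le_div_iff_mul_le (by norm_num)]
    calc 2 * κ * b * 5 = 10 * κ * b := by ring
      _ ≤ m * b := Nat.mul_le_mul_right _ h1
      _ = n := by rw [hbm]; ring
  have h2' : 2 ^ (2 * κ * b) ≤ 2 ^ (n / 5) := Nat.pow_le_pow_right (by norm_num) h2
  by_cases hs : n < 513
  · have hκ6 := IneqOdd_kappa n κ (by omega) hκ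
    refine lt_of_le_of_lt ?_ (IneqEven_small n hs hn (Nat.even_iff.1 heven))
    gcongr
    omega
  · push Not at hs
    obtain ⟨k, hk⟩ : ∃ k, k = n / 32 := ⟨_, rfl⟩
    have hk16 : 16 ≤ k := by omega
    have hnk : n ≤ 2 ^ k := le_trans (by omega) (IneqOdd_k k hk16)
    have hκk : 2 * κ < k + 5 := by
      by_contra hlt
      push Not at hlt
      have h5 : 2 ^ (k + 5) ≤ 4 ^ κ := by
        rw [show (4 : ℕ) = 2 ^ 2 by norm_num, ← pow_mul]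
        exact Nat.pow_le_pow_right (by norm_num) hlt
      have h6 : 2 ^ (k + 5) = 32 * 2 ^ k := by rw [pow_add]; norm_num; ring
      omega
    have h7 : w + 1 ≤ 2 ^ k := le_trans (by omega) hnk
    have h8 : 6 * κ + 1 ≤ 2 ^ k := le_trans (by omega) hnk
    have h10 : (w + 1) * (2 ^ (2 * κ * b) * (2 ^ w * ((6 * κ + 1) * 2 ^ ((n + 1) / 2)))) ≤
        2 ^ k * (2 ^ (n / 5) * (2 ^ ((n + 13) / 5) * (2 ^ k * 2 ^ ((n + 1) / 2)))) := by
      gcongr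
    have h11 : 2 ^ k * (2 ^ (n / 5) * (2 ^ ((n + 13) / 5) * (2 ^ k * 2 ^ ((n + 1) / 2)))) =
        2 ^ (k + (n / 5 + ((n + 13) / 5 + (k + (n + 1) / 2)))) := by
      simp only [← pow_add]
    have h12 : 2 ^ (k + (n / 5 + ((n + 13) / 5 + (k + (n + 1) / 2)))) ≤ 2 ^ (n - 1) :=
      Nat.pow_le_pow_right (by norm_num) (by omega)
    have h13 : 2 ^ n = 2 * 2 ^ (n - 1) := by
      rw [← pow_succ']; congr 1; omega
    have h14 : 2 ^ 1 ≤ 2 ^ (n - 1) := Nat.pow_le_pow_right (by norm_num) (by omega)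
    omega

end RunMult
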