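import Mathlib

namespace RunMult

theorem IneqOdd_w (n w : ℕ) (hw : 100280245065 * 32 ^ w ≤ 32 ^ 10 * (2 ^ n - 1)) :
    w ≤ (n + 13) / 5 := by
  by_contra hlt
  push Not at hlt
  have h1 : n + 14 ≤ 5 * w := by omega
  have h2 : 2 ^ (n + 14) ≤ 32 ^ w := by
    rw [show (32 : ℕ) = 2 ^ 5 by norm_num, ← pow_mul]
    exact Nat.pow_le_pow_right (by norm_num) h1
  have h3 : 2 ^ (n + 14) = 16384 * 2 ^ n := by rw [pow_add]; norm_num; ring
  have h4 : 1 ≤ 2 ^ n := Nat.one_le_two_pow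
  have h5 : (32 : ℕ) ^ 10 = 1125899906842624 := by norm_num
  rw [h5] at hw
  rw [h3] at h2
  omega

theorem IneqOdd_kappa (n κ : ℕ) (hn : n ≤ 512) (hκ : 4 ^ κ < 32 * n) : κ ≤ 6 := by
  by_contra hlt
  push Not at hlt
  have : 4 ^ 7 ≤ 4 ^ κ := Nat.pow_le_pow_right (by norm_num) hlt
  norm_num at this
  omega

theorem IneqOdd_small : ∀ n < 513, 81 ≤ n → n % 2 = 1 →
    ((n + 13) / 5 + 1) * (32 * n * (2 ^ ((n + 13) / 5) * (37 * 2 ^ ((n + 1) / 2)))) <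
      2 ^ n - 1 := by
  decide +kernel

theorem IneqOdd_k (k : ℕ) (hk : 16 ≤ k) : 32 * (k + 1) ≤ 2 ^ k := by
  induction k, hk using Nat.le_induction with
  | base => norm_num
  | succ k hk ih => rw [pow_succ]; omega

theorem ineq_odd (n κ w : ℕ) (hn : 81 ≤ n) (hodd : Odd n) (hκ : 4 ^ κ < 32 * n)
    (hw : 100280245065 * 32 ^ w ≤ 32 ^ 10 * (2 ^ n - 1)) :
    (w + 1) * (2 ^ (2 * κ * 1) * (2 ^ w * ((6 * κ + 1) * 2 ^ ((n + 1) / 2)))) < 2 ^ n - 1 := by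
  have hw' := IneqOdd_w n w hw
  have h4 : 2 ^ (2 * κ * 1) = 4 ^ κ := by
    rw [mul_one, pow_mul]; norm_num
  have hwp : 2 ^ w ≤ 2 ^ ((n + 13) / 5) := Nat.pow_le_pow_right (by norm_num) hw'
  rw [h4]
  by_cases hs : n < 513
  · have hκ6 := IneqOdd_kappa n κ (by omega) hκ
    refine lt_of_le_of_lt ?_ (IneqOdd_small n hs hn (Nat.odd_iff.1 hodd))
    gcongr
    omega
  · push Not at hs
    obtain ⟨k, hk⟩ : ∃ k, k = n / 32 := ⟨_, rfl⟩
    have hk16 : 16 ≤ k := by omega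
    have hnk : n ≤ 2 ^ k := le_trans (by omega) (IneqOdd_k k hk16)
    have hκk : 2 * κ < k + 5 := by
      by_contra hlt
      push Not at hlt
      have h5 : 2 ^ (k + 5) ≤ 4 ^ κ := by
        rw [show (4 : ℕ) = 2 ^ 2 by norm_num, ← pow_mul]
        exact Nat.pow_le_pow_right (by norm_num) hlt
      have h6 : 2 ^ (k + 5) = 32 * 2 ^ k := by rw [pow_add]; norm_num; ring
      omega
    have h7 : w + 1 ≤ 2 ^ k := le_trans (by omega) hnk
    have h8 : 6 * κ + 1 ≤ 2 ^ k := le_trans (by omega) hnk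
    have h9 : 4 ^ κ ≤ 32 * 2 ^ k := by omega
    have h10 : (w + 1) * (4 ^ κ * (2 ^ w * ((6 * κ + 1) * 2 ^ ((n + 1) / 2)))) ≤
        2 ^ k * (32 * 2 ^ k * (2 ^ ((n + 13) / 5) * (2 ^ k * 2 ^ ((n + 1) / 2)))) := by
      gcongr
    have h11 : 2 ^ k * (32 * 2 ^ k * (2 ^ ((n + 13) / 5) * (2 ^ k * 2 ^ ((n + 1) / 2)))) =
        2 ^ (k + (5 + k + ((n + 13) / 5 + (k + (n + 1) / 2)))) := by
      rw [show (32 : ℕ) = 2 ^ 5 by norm_num]
      simp only [← pow_add]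
    have h12 : 2 ^ (k + (5 + k + ((n + 13) / 5 + (k + (n + 1) / 2)))) ≤ 2 ^ (n - 1) :=
      Nat.pow_le_pow_right (by norm_num) (by omega)
    have h13 : 2 ^ n = 2 * 2 ^ (n - 1) := by
      rw [← pow_succ']; congr 1; omega
    have h14 : 2 ^ 1 ≤ 2 ^ (n - 1) := Nat.pow_le_pow_right (by norm_num) (by omega)
    omega

end RunMult
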