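import Mathlib

namespace RunMult

open Finset

theorem Phi_prod (S : Finset ℕ) (hS : ∀ p ∈ S, 2 ≤ p) :
    ∏ p ∈ S, p ≤ (S.card + 1) * ∏ p ∈ S, (p - 1) := by
  induction S using Finset.induction_on_max with
  | empty => simp
  | insert M s hM ih =>
    have hnot : M ∉ s := fun h => lt_irrefl _ (hM M h)
    rw [Finset.prod_insert hnot, Finset.prod_insert hnot, Finset.card_insert_of_notMem hnot]
    have ih' := ih fun p hp => hS p (Finset.mem_insert_of_mem hp)
    have hM2 : 2 ≤ M := hS M (Finset.mem_insert_self _ _)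
    have hcard : s.card + 2 ≤ M := by
      have : s ⊆ Finset.Ico 2 M := by
        intro x hx
        rw [Finset.mem_Ico]
        exact ⟨hS x (Finset.mem_insert_of_mem hx), hM x hx⟩
      have := Finset.card_le_card this
      rw [Nat.card_Ico] at this
      omega
    obtain ⟨m, rfl⟩ : ∃ m, M = m + 1 := ⟨M - 1, by omega⟩
    have hm : m + 1 - 1 = m := by omega
    rw [hm]
    calc (m + 1) * ∏ p ∈ s, p ≤ (m + 1) * ((s.card + 1) * ∏ p ∈ s, (p - 1)) :=
          Nat.mul_le_mul_left _ ih'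
      _ = ((m + 1) * (s.card + 1)) * ∏ p ∈ s, (p - 1) := by ring
      _ ≤ ((s.card + 1 + 1) * m) * ∏ p ∈ s, (p - 1) := by
          apply Nat.mul_le_mul_right
          nlinarith
      _ = _ := by ring

theorem totient_lower (N : ℕ) (hN : 1 ≤ N) : N ≤ (N.primeFactors.card + 1) * N.totient := by
  have h1 := Nat.totient_mul_prod_primeFactors N
  have h2 := Phi_prod N.primeFactors fun p hp => (Nat.prime_of_mem_primeFactors hp).two_le
  have hpos : 0 < ∏ p ∈ N.primeFactors, (p - 1) := by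
    apply Finset.prod_pos
    intro p hp
    have := (Nat.prime_of_mem_primeFactors hp).two_le
    omega
  have h3 : N * ∏ p ∈ N.primeFactors, (p - 1) ≤
      ((N.primeFactors.card + 1) * N.totient) * ∏ p ∈ N.primeFactors, (p - 1) := by
    rw [← h1]
    calc N.totient * ∏ p ∈ N.primeFactors, p
        ≤ N.totient * ((N.primeFactors.card + 1) * ∏ p ∈ N.primeFactors, (p - 1)) :=
          Nat.mul_le_mul_left _ h2
      _ = _ := by ring
  exact le_of_mul_le_mul_right h3 hpos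

theorem omega_upper (N : ℕ) (hN : Odd N) :
    100280245065 * 32 ^ N.primeFactors.card ≤ 32 ^ 10 * N := by
  classical
  obtain ⟨S, hS⟩ : ∃ S, S = N.primeFactors := ⟨_, rfl⟩
  obtain ⟨T, hT⟩ : ∃ T : Finset ℕ, T = {3, 5, 7, 11, 13, 17, 19, 23, 29, 31} := ⟨_, rfl⟩
  have hTprod : ∏ p ∈ T, p = 100280245065 := by rw [hT]; decide
  have hTcard : T.card = 10 := by rw [hT]; decide
  have hTle : ∀ p ∈ T, p ≤ 32 := by rw [hT]; decide
  have hbig : ∀ p ∈ S \ T, 32 ≤ p := by
    intro p hp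
    rw [Finset.mem_sdiff, hS, hT] at hp
    obtain ⟨h1, h2⟩ := hp
    have hpp := Nat.prime_of_mem_primeFactors h1
    have hpd := Nat.dvd_of_mem_primeFactors h1
    by_contra hlt
    push Not at hlt
    have hodd : Odd p := hN.of_dvd_nat hpd
    have hdec : ∀ q < 32, Nat.Prime q → Odd q →
        q ∈ ({3, 5, 7, 11, 13, 17, 19, 23, 29, 31} : Finset ℕ) := by decide
    exact h2 (hdec p hlt hpp hodd)
  have hprodS : ∏ p ∈ S, p ≤ N := by
    rw [hS]
    exact Nat.le_of_dvd (hN.pos) (Nat.prod_primeFactors_dvd N)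
  have e1 : ∏ p ∈ T, p = (∏ p ∈ T \ S, p) * ∏ p ∈ T ∩ S, p := by
    rw [mul_comm, Finset.prod_inter_mul_prod_sdiff]
  have e2 : ∏ p ∈ S, p = (∏ p ∈ S \ T, p) * ∏ p ∈ T ∩ S, p := by
    rw [mul_comm, Finset.inter_comm, Finset.prod_inter_mul_prod_sdiff]
  have c1 : T.card = (T \ S).card + (T ∩ S).card := (Finset.card_sdiff_add_card_inter T S).symm
  have c2 : S.card = (S \ T).card + (T ∩ S).card := by
    rw [Finset.inter_comm]; exact (Finset.card_sdiff_add_card_inter S T).symm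
  have u1 : ∏ p ∈ T \ S, p ≤ 32 ^ (T \ S).card :=
    Finset.prod_le_pow_card _ _ _ fun p hp => hTle p (Finset.mem_sdiff.1 hp).1
  have u2 : 32 ^ (S \ T).card ≤ ∏ p ∈ S \ T, p := Finset.pow_card_le_prod _ _ _ hbig
  rw [← hS, ← hTprod, e1, c2, ← hTcard, c1]
  calc (∏ p ∈ T \ S, p) * (∏ p ∈ T ∩ S, p) * 32 ^ ((S \ T).card + (T ∩ S).card)
      = (∏ p ∈ T \ S, p) * 32 ^ (S \ T).card * ((∏ p ∈ T ∩ S, p) * 32 ^ (T ∩ S).card) := by
        rw [pow_add]; ring
    _ ≤ 32 ^ (T \ S).card * (∏ p ∈ S \ T, p) * ((∏ p ∈ T ∩ S, p) * 32 ^ (T ∩ S).card) :=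
        Nat.mul_le_mul_right _ (Nat.mul_le_mul u1 u2)
    _ = 32 ^ ((T \ S).card + (T ∩ S).card) * ((∏ p ∈ S \ T, p) * ∏ p ∈ T ∩ S, p) := by
        rw [pow_add]; ring
    _ ≤ 32 ^ ((T \ S).card + (T ∩ S).card) * N := by
        rw [← e2]; exact Nat.mul_le_mul_left _ hprodS

end RunMult
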