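import Pool.Agent.Lib.MP_d16eef_co.Assemble
import Pool.Agent.Lib.MP_d16eef_co.Phi
import Pool.Agent.Lib.MP_d16eef_co.IneqOdd
import Pool.Agent.Lib.MP_d16eef_co.IneqEven

/-! The two families. -/

namespace RunMult

theorem fin_kappa (n : ℕ) (hn : 1 ≤ n) : ∃ κ : ℕ, 8 * n ≤ 4 ^ κ ∧ 4 ^ κ < 32 * n := by
  have hex : ∃ κ : ℕ, 8 * n ≤ 4 ^ κ := by
    refine ⟨8 * n, (Nat.lt_pow_self (by norm_num : 1 < 4)).le⟩
  refine ⟨Nat.find hex, Nat.find_spec hex, ?_⟩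
  obtain ⟨k, hk⟩ : ∃ k, Nat.find hex = k := ⟨_, rfl⟩
  rcases Nat.eq_zero_or_pos k with h | h
  · rw [hk, h, pow_zero]; omega
  · have h1 := Nat.find_min hex (m := k - 1) (by omega)
    push Not at h1
    rw [hk, show k = (k - 1) + 1 by omega, pow_succ]
    omega

theorem fin_hineq (N X : ℕ) (hN : 1 ≤ N)
    (h : (N.primeFactors.card + 1) * X < N) : X < N.totient := by
  have h1 := totient_lower N hN
  exact lt_of_mul_lt_mul_left (lt_of_lt_of_le h h1) (Nat.zero_le _)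

theorem fin_omega (n : ℕ) (hn : 1 ≤ n) :
    100280245065 * 32 ^ (2 ^ n - 1).primeFactors.card ≤ 32 ^ 10 * (2 ^ n - 1) := by
  apply omega_upper
  rw [Nat.odd_iff]
  have h1 : 2 ^ n = 2 * 2 ^ (n - 1) := by
    rw [← pow_succ']; congr 1; omega
  have h2 : 1 ≤ 2 ^ (n - 1) := Nat.one_le_two_pow
  omega

theorem adm_odd (n : ℕ) (hn : 81 ≤ n) (hodd : Odd n) : Adm n := by
  obtain ⟨κ, h1, h2⟩ := fin_kappa n (by omega)
  refine adm_of_ineq n 1 n κ (by omega) le_rfl (by ring) hodd h1 h2 ?_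
  have hN : 1 ≤ 2 ^ n - 1 := by
    have : 2 ≤ 2 ^ n := by
      calc 2 = 2 ^ 1 := by norm_num
        _ ≤ 2 ^ n := Nat.pow_le_pow_right (by norm_num) (by omega)
    omega
  exact fin_hineq _ _ hN (ineq_odd n κ _ hn hodd h2 (fin_omega n (by omega)))

theorem adm_even (n b m : ℕ) (hn : 130 ≤ n) (heven : Even n) (hbm : n = b * m) (hm : Odd m)
    (h : (32 * n) ^ 5 ≤ 2 ^ m) : Adm n := by
  obtain ⟨κ, h1, h2⟩ := fin_kappa n (by omega)
  have hb : 1 ≤ b := by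
    rcases Nat.eq_zero_or_pos b with hb | hb
    · rw [hb, zero_mul] at hbm; omega
    · exact hb
  refine adm_of_ineq n b m κ (by omega) hb hbm hm h1 h2 ?_
  have hN : 1 ≤ 2 ^ n - 1 := by
    have : 2 ≤ 2 ^ n := by
      calc 2 = 2 ^ 1 := by norm_num
        _ ≤ 2 ^ n := Nat.pow_le_pow_right (by norm_num) (by omega)
    omega
  exact fin_hineq _ _ hN (ineq_even n κ _ b m hn heven hbm h h2 (fin_omega n (by omega)))

end RunMult
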