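import Pool.Agent.Lib.MP_d16eef_co.Basic

/-! Run counts of the m-sequence. -/

namespace RunMult

open Finset

variable {F : Type} [Field F] [Fintype F] [DecidableEq F] [Algebra (ZMod 2) F]

omit [DecidableEq F] in
theorem bits_unique (n : ℕ) (hF : Fintype.card F = 2 ^ n) (a : F) (ha : orderOf a = 2 ^ n - 1)
    (y : F) (hy : y ≠ 0) (x x' : F) (h : ∀ i < n, tr (x * (y * a ^ i)) = tr (x' * (y * a ^ i))) :
    x = x' := by
  classical
  have hc := card_window n hF a ha (range n) (fun i hi => mem_range.mp hi)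
    (fun i => tr (x * (y * a ^ i))) y hy
  rw [card_range, Nat.sub_self, pow_zero, card_eq_one] at hc
  obtain ⟨z, hz⟩ := hc
  have h0 : x ∈ ({z} : Finset F) := by
    rw [← hz]; simp
  have h1 : x' ∈ ({z} : Finset F) := by
    rw [← hz]
    simp only [mem_filter, mem_univ, true_and]
    intro i hi
    exact (h i (mem_range.mp hi)).symm
  rw [mem_singleton] at h0 h1
  rw [h0, h1]

omit [DecidableEq F] in
theorem bits_exists (n : ℕ) (hF : Fintype.card F = 2 ^ n) (a : F) (ha : orderOf a = 2 ^ n - 1)
    (y : F) (hy : y ≠ 0) (b : ℕ → ZMod 2) : ∃ x : F, ∀ i < n, tr (x * (y * a ^ i)) = b i := by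
  classical
  have hc := card_window n hF a ha (range n) (fun i hi => mem_range.mp hi) b y hy
  rw [card_range, Nat.sub_self, pow_zero, card_eq_one] at hc
  obtain ⟨z, hz⟩ := hc
  have h0 : z ∈ (univ.filter fun x : F => ∀ i ∈ range n, tr (x * (y * a ^ i)) = b i) := by
    rw [hz]; simp
  simp only [mem_filter, mem_univ, true_and] at h0
  exact ⟨z, fun i hi => h0 i (mem_range.mpr hi)⟩

theorem ne_iff_add_one (p c : ZMod 2) : p ≠ c ↔ p = c + 1 := by
  revert p c; decide

theorem RC_tr (n : ℕ) (hn : 2 ≤ n) (hF : Fintype.card F = 2 ^ n) (a : F)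
    (ha : orderOf a = 2 ^ n - 1) :
    (∀ k c, 1 ≤ k → k ≤ n - 2 → RC (fun x : F => tr x) a c k = 2 ^ (n - 2 - k)) ∧
    RC (fun x : F => tr x) a 0 (n - 1) = 1 ∧ RC (fun x : F => tr x) a 1 n = 1 ∧
    (∀ k, n ≤ k → RC (fun x : F => tr x) a 0 k = 0) ∧
    RC (fun x : F => tr x) a 1 (n - 1) = 0 ∧
    (∀ k, n < k → RC (fun x : F => tr x) a 1 k = 0) := by
  classical
  obtain ⟨-, ha0⟩ := gen_ne_zero n hF a ha
  have hainv : a⁻¹ ≠ 0 := inv_ne_zero ha0
  have hpow2 : 2 < 2 ^ n := by
    have : 2 ^ 2 ≤ 2 ^ n := Nat.pow_le_pow_right (by norm_num) hn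
    omega
  have ha1 : a ≠ 1 := by
    rintro rfl
    rw [orderOf_one] at ha
    omega
  have hs : ∀ j : ℕ, a⁻¹ * a ^ (j + 1) = a ^ j := by
    intro j
    rw [pow_succ', ← mul_assoc, inv_mul_cancel₀ ha0, one_mul]
  -- the element with all bits `1`
  obtain ⟨x1, hx1⟩ := bits_exists n hF a ha 1 one_ne_zero (fun _ => 1)
  simp only [one_mul] at hx1
  have hx1u : ∀ x : F, (∀ i < n, tr (x * a ^ i) = 1) → x = x1 := by
    intro x hx
    refine bits_unique n hF a ha 1 one_ne_zero x x1 fun i hi => ?_
    rw [one_mul, hx i hi, hx1 i hi]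
  have hx10 : x1 ≠ 0 := by
    rintro rfl
    have := hx1 0 (by omega)
    rw [zero_mul, tr_zero] at this
    revert this; decide
  have h01 : ∀ p : ZMod 2, p ≠ 0 ↔ p = 1 := by decide
  have h10 : ∀ p : ZMod 2, p ≠ 1 ↔ p = 0 := by decide
  -- bit `n` of `x1`
  have hx1n : tr (x1 * a ^ n) = 0 := by
    rw [← h10]
    intro h
    have h2 : x1 * a = x1 := by
      refine hx1u _ fun i hi => ?_
      rw [mul_assoc, ← pow_succ']
      rcases Nat.lt_or_ge (i + 1) n with h3 | h3
      · exact hx1 _ h3
      · rw [show i + 1 = n by omega]; exact h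
    exact ha1 (mul_left_cancel₀ hx10 (by rw [h2, mul_one]))
  have hx1m : tr (x1 * a⁻¹) = 0 := by
    rw [← h10]
    intro h
    have h2 : x1 * a⁻¹ = x1 := by
      refine hx1u _ fun i hi => ?_
      rw [mul_assoc]
      rcases Nat.eq_zero_or_pos i with h3 | h3
      · rw [h3, pow_zero, mul_one]; exact h
      · obtain ⟨j, rfl⟩ : ∃ j, i = j + 1 := ⟨i - 1, by omega⟩
        rw [hs]
        exact hx1 j (by omega)
    have h3 : a⁻¹ = 1 := mul_left_cancel₀ hx10 (by rw [h2, mul_one])
    exact ha1 (inv_eq_one.mp h3)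
  have hz : ∀ x : F, (∀ i < n, tr (x * a ^ i) = 0) → x = 0 := by
    intro x hx
    refine bits_unique n hF a ha 1 one_ne_zero x 0 fun i hi => ?_
    rw [one_mul, hx i hi, zero_mul, tr_zero]
  refine ⟨?_, ?_, ?_, ?_, ?_, ?_⟩
  · -- short runs
    intro k c hk1 hk2
    have hc := card_window n hF a ha (range (k + 2)) (fun i hi => by
      have := mem_range.mp hi; omega) (fun i => if i = 0 ∨ i = k + 1 then c + 1 else c) a⁻¹ hainv
    rw [card_range] at hc
    rw [show n - 2 - k = n - (k + 2) by omega, ← hc]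
    unfold RC
    congr 1
    ext x
    simp only [mem_filter, mem_univ, true_and, mem_range]
    constructor
    · rintro ⟨h0, h1, h2, h3⟩ i hi
      rcases Nat.eq_zero_or_pos i with h | h
      · subst h
        rw [pow_zero, mul_one, if_pos (Or.inl rfl)]
        exact (ne_iff_add_one _ _).mp h1
      · obtain ⟨j, rfl⟩ : ∃ j, i = j + 1 := ⟨i - 1, by omega⟩
        rw [hs]
        rcases Nat.lt_or_ge j k with h4 | h4
        · rw [if_neg (by omega)]
          exact h2 j h4
        · have : j = k := by omega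
          subst this
          rw [if_pos (Or.inr rfl)]
          exact (ne_iff_add_one _ _).mp h3
    · intro h
      have h0 := h 0 (by omega)
      rw [pow_zero, mul_one, if_pos (Or.inl rfl)] at h0
      have h2 : ∀ j < k, tr (x * a ^ j) = c := by
        intro j hj
        have := h (j + 1) (by omega)
        rwa [hs, if_neg (by omega)] at this
      have h3 := h (k + 1) (by omega)
      rw [hs, if_pos (Or.inr rfl)] at h3
      refine ⟨?_, (ne_iff_add_one _ _).mpr h0, h2, (ne_iff_add_one _ _).mpr h3⟩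
      rintro rfl
      have h4 := h2 0 (by omega)
      rw [zero_mul, tr_zero] at h0 h4
      rw [← h4] at h0
      revert h0; decide
  · -- `c = 0`, `k = n - 1`
    obtain ⟨x0, hx0⟩ := bits_exists n hF a ha a⁻¹ hainv (fun i => if i = 0 then 1 else 0)
    have hx0m : tr (x0 * a⁻¹) = 1 := by
      have := hx0 0 (by omega)
      simpa using this
    have hx0j : ∀ j < n - 1, tr (x0 * a ^ j) = 0 := by
      intro j hj
      have := hx0 (j + 1) (by omega)
      rwa [hs, if_neg (by omega)] at this
    have hx0n : tr (x0 * a ^ (n - 1)) ≠ 0 := by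
      intro h
      have : x0 = 0 := by
        refine hz x0 fun i hi => ?_
        rcases Nat.lt_or_ge i (n - 1) with h3 | h3
        · exact hx0j i h3
        · rw [show i = n - 1 by omega]; exact h
      rw [this, zero_mul, tr_zero] at hx0m
      revert hx0m; decide
    unfold RC
    rw [card_eq_one]
    refine ⟨x0, ?_⟩
    ext x
    simp only [mem_filter, mem_univ, true_and, mem_singleton]
    constructor
    · rintro ⟨h0, h1, h2, h3⟩
      refine bits_unique n hF a ha a⁻¹ hainv x x0 fun i hi => ?_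
      rcases Nat.eq_zero_or_pos i with h | h
      · subst h
        rw [pow_zero, mul_one, hx0m]
        exact (h01 _).mp h1
      · obtain ⟨j, rfl⟩ : ∃ j, i = j + 1 := ⟨i - 1, by omega⟩
        rw [hs, hx0j j (by omega), h2 j (by omega)]
    · rintro rfl
      refine ⟨?_, ?_, hx0j, hx0n⟩
      · rintro rfl
        rw [zero_mul, tr_zero] at hx0m
        revert hx0m; decide
      · rw [hx0m]; decide
  · -- `c = 1`, `k = n`
    unfold RC
    rw [card_eq_one]
    refine ⟨x1, ?_⟩
    ext x
    simp only [mem_filter, mem_univ, true_and, mem_singleton]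
    constructor
    · rintro ⟨h0, h1, h2, h3⟩
      exact hx1u x h2
    · rintro rfl
      refine ⟨hx10, ?_, hx1, ?_⟩
      · rw [hx1m]; decide
      · rw [hx1n]; decide
  · -- `c = 0`, `k ≥ n`
    intro k hk
    unfold RC
    rw [card_eq_zero]
    apply eq_empty_of_forall_notMem
    intro x hx
    simp only [mem_filter, mem_univ, true_and] at hx
    obtain ⟨h0, h1, h2, h3⟩ := hx
    exact h0 (hz x fun i hi => h2 i (by omega))
  · -- `c = 1`, `k = n - 1`
    unfold RC
    rw [card_eq_zero]
    apply eq_empty_of_forall_notMem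
    intro x hx
    simp only [mem_filter, mem_univ, true_and] at hx
    obtain ⟨h0, h1, h2, h3⟩ := hx
    have : x = x1 := by
      refine bits_unique n hF a ha a⁻¹ hainv x x1 fun i hi => ?_
      rcases Nat.eq_zero_or_pos i with h | h
      · subst h
        rw [pow_zero, mul_one, hx1m]
        exact (h10 _).mp h1
      · obtain ⟨j, rfl⟩ : ∃ j, i = j + 1 := ⟨i - 1, by omega⟩
        rw [hs, hx1 j (by omega), h2 j (by omega)]
    rw [this] at h3
    exact h3 (hx1 (n - 1) (by omega))
  · -- `c = 1`, `k > n`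
    intro k hk
    unfold RC
    rw [card_eq_zero]
    apply eq_empty_of_forall_notMem
    intro x hx
    simp only [mem_filter, mem_univ, true_and] at hx
    obtain ⟨h0, h1, h2, h3⟩ := hx
    have h4 : x = x1 := hx1u x fun i hi => h2 i (by omega)
    have h5 := h2 n hk
    rw [h4, hx1n] at h5
    revert h5; decide

end RunMult
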