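import Pool.Agent.Lib.MP_d16eef_co.Basic

/-! Root counting for `x ^ (2 ^ s) + A x ^ (2 ^ s') = C`. -/

namespace RunMult

open Finset Polynomial

variable {F : Type} [Field F] [Fintype F] [DecidableEq F] [Algebra (ZMod 2) F]

omit [DecidableEq F] [Algebra (ZMod 2) F] in
theorem roots_pow_card (n : ℕ) (hF : Fintype.card F = 2 ^ n) (y : F) : y ^ (2 ^ n) = y := by
  rw [← hF]; exact FiniteField.pow_card y

/-- roots of `P x + A x = C` with `P = x ^ (2 ^ e)` or reversed -/
theorem roots_aux (e : ℕ) (he : 1 ≤ e) (A B C : F) (hAB : A ≠ 0) :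
    (univ.filter fun x : F => A * x ^ (2 ^ e) + B * x = C).card ≤ 2 ^ e := by
  classical
  set P : F[X] := Polynomial.C A * X ^ (2 ^ e) + (Polynomial.C B * X - Polynomial.C C) with hP
  have h2e : 1 < 2 ^ e := Nat.one_lt_two_pow (by omega)
  have hd1 : (Polynomial.C B * X - Polynomial.C C : F[X]).natDegree ≤ 1 := by
    refine (natDegree_sub_le _ _).trans ?_
    rw [natDegree_C, max_le_iff]
    exact ⟨(natDegree_C_mul_le _ _).trans natDegree_X_le, by omega⟩
  have hd2 : (Polynomial.C A * X ^ (2 ^ e) : F[X]).natDegree = 2 ^ e :=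
    natDegree_C_mul_X_pow _ _ hAB
  have hdP : P.natDegree = 2 ^ e := by
    rw [hP, natDegree_add_eq_left_of_natDegree_lt (by rw [hd2]; omega), hd2]
  have hP0 : P ≠ 0 := by
    intro h
    rw [h, natDegree_zero] at hdP
    omega
  calc (univ.filter fun x : F => A * x ^ (2 ^ e) + B * x = C).card
      ≤ P.roots.toFinset.card := by
        apply card_le_card
        intro x hx
        simp only [mem_filter, mem_univ, true_and] at hx
        rw [Multiset.mem_toFinset, mem_roots hP0, IsRoot.def, hP]
        simp only [eval_add, eval_mul, eval_C, eval_pow, eval_X, eval_sub]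
        rw [← hx]; ring
    _ ≤ Multiset.card P.roots := Multiset.toFinset_card_le _
    _ ≤ P.natDegree := card_roots' _
    _ = 2 ^ e := hdP

/-- the case `s' ≤ s` -/
theorem roots_le (n : ℕ) (hn : 1 ≤ n) (hF : Fintype.card F = 2 ^ n) (s s' : ℕ) (hs : s < n)
    (hss : s' < s) (A B C : F) (hA : A ≠ 0) (hB : B ≠ 0) :
    (univ.filter fun x : F => A * x ^ (2 ^ s) + B * x ^ (2 ^ s') = C).card ≤ 2 ^ (n / 2) := by
  classical
  rcases Nat.lt_or_ge (n / 2) (s - s') with h | h
  · -- apply the power `2 ^ (n - s)`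
    have h1 : 1 ≤ n - (s - s') := by omega
    refine (card_le_card ?_).trans
      ((roots_aux (n - (s - s')) h1 (B ^ (2 ^ (n - s))) (A ^ (2 ^ (n - s))) (C ^ (2 ^ (n - s)))
        (pow_ne_zero _ hB)).trans (Nat.pow_le_pow_right (by norm_num) (by omega)))
    intro x hx
    simp only [mem_filter, mem_univ, true_and] at hx ⊢
    rw [← hx, add_pow2, mul_pow, mul_pow, ← pow_mul, ← pow_mul, ← pow_add, ← pow_add,
      show s + (n - s) = n by omega, show s' + (n - s) = n - (s - s') by omega,
      roots_pow_card n hF, add_comm]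
  · -- apply the power `2 ^ (n - s')`
    refine (card_le_card ?_).trans
      ((roots_aux (s - s') (by omega) (A ^ (2 ^ (n - s'))) (B ^ (2 ^ (n - s')))
        (C ^ (2 ^ (n - s'))) (pow_ne_zero _ hA)).trans (Nat.pow_le_pow_right (by norm_num) h))
    intro x hx
    simp only [mem_filter, mem_univ, true_and] at hx ⊢
    rw [← hx, add_pow2, mul_pow, mul_pow, ← pow_mul, ← pow_mul, ← pow_add, ← pow_add,
      show s' + (n - s') = n by omega, roots_pow_card n hF]
    congr 2
    have h3 : x ^ (2 ^ (s + (n - s'))) = (x ^ (2 ^ n)) ^ (2 ^ (s - s')) := by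
      rw [← pow_mul, ← pow_add]
      congr 2
      omega
    rw [h3, roots_pow_card n hF]

theorem card_roots_le (n : ℕ) (hn : 1 ≤ n) (hF : Fintype.card F = 2 ^ n) (s s' : ℕ) (hs : s < n)
    (hs' : s' < n) (A C : F) (hA : A ≠ 0) (h : s ≠ s' ∨ A ≠ 1) :
    (univ.filter fun x : F => x ^ (2 ^ s) + A * x ^ (2 ^ s') = C).card ≤ 2 ^ (n / 2) := by
  classical
  rcases lt_trichotomy s s' with h1 | h1 | h1
  · refine le_trans (le_of_eq ?_) (roots_le n hn hF s' s hs' h1 A 1 C hA one_ne_zero)
    congr 1
    ext x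
    simp [add_comm]
  · subst h1
    have hA1 : A ≠ 1 := by
      rcases h with h | h
      · exact absurd rfl h
      · exact h
    have h1A : 1 + A ≠ 0 := by
      intro h0
      apply hA1
      have h11 : (1 : F) + 1 = 0 := by
        have := two_eq_zero' F
        rw [← one_add_one_eq_two] at this; exact this
      have : A + 1 = 1 + 1 := by rw [h11, add_comm]; exact h0
      exact add_right_cancel this
    refine le_trans (card_le_one.mpr ?_) Nat.one_le_two_pow
    intro x hx y hy
    simp only [mem_filter, mem_univ, true_and] at hx hy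
    have h2 : (1 + A) * x ^ (2 ^ s) = (1 + A) * y ^ (2 ^ s) := by
      rw [add_mul, one_mul, add_mul, one_mul, hx, hy]
    have h3 := mul_left_cancel₀ h1A h2
    have h4 : x ^ (2 ^ n) = y ^ (2 ^ n) := by
      rw [show n = s + (n - s) by omega, pow_add, pow_mul, pow_mul, h3]
    rwa [roots_pow_card n hF, roots_pow_card n hF] at h4
  · refine le_trans (le_of_eq ?_) (roots_le n hn hF s s' hs h1 1 A C one_ne_zero hA)
    congr 1
    ext x
    simp

end RunMult
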