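import Pool.Agent.Lib.MP_d16eef_co.CharCount

/-! SIV: the Moebius sieve over the divisors of `2 ^ n - 1`. -/

namespace RunMult

open Finset

theorem siv_mobius (m : ℕ) :
    ∑ d ∈ m.divisors, ArithmeticFunction.moebius d = if m = 1 then 1 else 0 := by
  have h := congrArg (fun f : ArithmeticFunction ℤ => f m)
    ArithmeticFunction.moebius_mul_coe_zeta
  simp only [ArithmeticFunction.coe_mul_zeta_apply, ArithmeticFunction.one_apply] at h
  exact h

theorem siv_star (N : ℕ) (hN : 0 < N) (c : ℕ → ℤ) :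
    ∑ t ∈ (range N).filter (fun t => N.Coprime t), c t =
      ∑ d ∈ N.divisors, ArithmeticFunction.moebius d * ∑ t ∈ (range N).filter (d ∣ ·), c t := by
  have e1 : ∀ d ∈ N.divisors, ArithmeticFunction.moebius d * ∑ t ∈ (range N).filter (d ∣ ·), c t
      = ∑ t ∈ range N, if d ∣ t then ArithmeticFunction.moebius d * c t else 0 := by
    intro d _
    rw [Finset.mul_sum, Finset.sum_filter]
  rw [Finset.sum_congr rfl e1, Finset.sum_comm, Finset.sum_filter]
  refine Finset.sum_congr rfl fun t _ => ?_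
  rw [← Finset.sum_filter, ← Finset.sum_mul]
  have e2 : N.divisors.filter (· ∣ t) = (N.gcd t).divisors := by
    ext d
    simp only [Finset.mem_filter, Nat.mem_divisors, Nat.dvd_gcd_iff]
    constructor
    · rintro ⟨⟨h1, _⟩, h3⟩
      exact ⟨⟨h1, h3⟩, (Nat.gcd_pos_of_pos_left t hN).ne'⟩
    · rintro ⟨⟨h1, h3⟩, _⟩
      exact ⟨⟨h1, hN.ne'⟩, h3⟩
  rw [e2, siv_mobius]
  unfold Nat.Coprime
  split_ifs <;> simp

theorem siv_abs (N : ℕ) (hN : 0 < N) :
    ∑ d ∈ N.divisors, |ArithmeticFunction.moebius d| = 2 ^ N.primeFactors.card := by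
  have e1 : ∀ d ∈ N.divisors, |ArithmeticFunction.moebius d| = if Squarefree d then 1 else 0 :=
    fun d _ => ArithmeticFunction.abs_moebius
  rw [Finset.sum_congr rfl e1, ← Finset.sum_filter, Nat.sum_divisors_filter_squarefree hN.ne']
  rw [Finset.sum_const, Finset.card_powerset, Nat.factors_eq]
  have : (Multiset.toFinset (N.primeFactorsList : Multiset ℕ)) = N.primeFactors := rfl
  rw [this, nsmul_eq_mul, mul_one]
  push_cast
  rfl

theorem siv_periodic (f : ℕ → ℤ) (M : ℕ) (hf : ∀ t, f (M + t) = f t) (d : ℕ) :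
    ∑ t ∈ range (d * M), f t = d * ∑ t ∈ range M, f t := by
  have hf' : ∀ k t, f (k * M + t) = f t := by
    intro k
    induction k with
    | zero => intro t; simp
    | succ k ih =>
      intro t
      have : (k + 1) * M + t = M + (k * M + t) := by ring
      rw [this, hf, ih]
  induction d with
  | zero => simp
  | succ d ih =>
    have : (d + 1) * M = d * M + M := by ring
    rw [this, Finset.sum_range_add, ih]
    simp only [hf']
    push_cast
    ring

theorem siv_mult (N d M : ℕ) (hNd : N = d * M) (hd : 0 < d) (c : ℕ → ℤ) :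
    ∑ t ∈ (range N).filter (d ∣ ·), c t = ∑ u ∈ range M, c (d * u) := by
  have e : (range N).filter (d ∣ ·) = (range M).image (d * ·) := by
    ext t
    simp only [Finset.mem_filter, Finset.mem_range, Finset.mem_image]
    constructor
    · rintro ⟨h1, u, rfl⟩
      refine ⟨u, ?_, rfl⟩
      rw [hNd] at h1
      exact lt_of_mul_lt_mul_left h1 (Nat.zero_le d)
    · rintro ⟨u, hu, rfl⟩
      refine ⟨?_, dvd_mul_right _ _⟩
      rw [hNd]
      exact mul_lt_mul_of_pos_left hu hd
  rw [e, Finset.sum_image]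
  intro x _ y _ hxy
  exact Nat.eq_of_mul_eq_mul_left hd hxy

section

variable {F : Type} [Field F] [Fintype F] [DecidableEq F] [Algebra (ZMod 2) F]

theorem siv_gen (n : ℕ) (hF : Fintype.card F = 2 ^ n) :
    ∃ g : F, g ≠ 0 ∧ orderOf g = 2 ^ n - 1 := by
  obtain ⟨u, hu⟩ := IsCyclic.exists_ofOrder_eq_natCard (α := Fˣ)
  refine ⟨(u : F), u.ne_zero, ?_⟩
  rw [orderOf_units, hu, Nat.card_eq_fintype_card, Fintype.card_units, hF]

theorem siv_image (n : ℕ) (hF : Fintype.card F = 2 ^ n) (g : F) (hg : g ≠ 0)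
    (ho : orderOf g = 2 ^ n - 1) :
    (range (2 ^ n - 1)).image (fun t => g ^ t) = univ.filter fun y : F => y ≠ 0 := by
  apply Finset.eq_of_subset_of_card_le
  · intro y hy
    rw [Finset.mem_image] at hy
    obtain ⟨t, _, rfl⟩ := hy
    simp [hg]
  · rw [Finset.card_image_of_injOn]
    · rw [Finset.card_range, Finset.filter_ne', Finset.card_erase_of_mem (mem_univ _),
        Finset.card_univ, hF]
    · intro x hx y hy hxy
      rw [Finset.coe_range, ← ho] at hx hy
      exact pow_injOn_Iio_orderOf hx hy hxy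

theorem siv_count (n : ℕ) (hF : Fintype.card F = 2 ^ n) (g : F) (hg : g ≠ 0)
    (ho : orderOf g = 2 ^ n - 1) (p : F → Prop) [DecidablePred p] :
    (Nat.card {y : F // y ≠ 0 ∧ p y} : ℤ) = ∑ t ∈ range (2 ^ n - 1), if p (g ^ t) then 1 else 0 := by
  have e1 : Nat.card {y : F // y ≠ 0 ∧ p y} = (univ.filter fun y : F => y ≠ 0 ∧ p y).card := by
    rw [Nat.card_eq_fintype_card, Fintype.card_subtype]
  rw [e1, ← Finset.filter_filter, ← siv_image n hF g hg ho, Finset.card_filter,
    Finset.sum_image]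
  · push_cast
    rfl
  · intro x hx y hy hxy
    rw [Finset.coe_range, ← ho] at hx hy
    exact pow_injOn_Iio_orderOf hx hy hxy

/-- SIV -/
theorem exists_prim (n κ b : ℕ) (hn : 2 ≤ n) (hκ : 1 ≤ κ) (hF : Fintype.card F = 2 ^ n)
    (E : Finset F) (hE0 : (0 : F) ∈ E) (hEadd : ∀ x ∈ E, ∀ y ∈ E, x + y ∈ E)
    (hEc : E.card = 2 ^ b)
    (hineq : 2 ^ (2 * κ * b) * (2 ^ (2 ^ n - 1).primeFactors.card *
      ((6 * κ + 1) * 2 ^ ((n + 1) / 2))) < (2 ^ n - 1).totient) :
    ∃ a : F, orderOf a = 2 ^ n - 1 ∧ cnd κ E a := by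
  classical
  obtain ⟨g, hg, ho⟩ := siv_gen n hF
  obtain ⟨N, hNdef⟩ : ∃ N, N = 2 ^ n - 1 := ⟨_, rfl⟩
  have h4 : 4 ≤ 2 ^ n := by
    calc 4 = 2 ^ 2 := by norm_num
      _ ≤ 2 ^ n := Nat.pow_le_pow_right (by norm_num) hn
  have hN : 0 < N := by omega
  have hNodd : Odd N := by
    obtain ⟨m, hm⟩ : ∃ m, 2 ^ n = 2 * m := ⟨2 ^ (n - 1), by rw [← pow_succ']; congr 1; omega⟩
    exact ⟨m - 1, by omega⟩
  rw [← hNdef] at ho hineq ⊢
  set c : ℕ → ℤ := fun t => if cnd κ E (g ^ t) then 1 else 0 with hc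
  set X : ℤ := 2 ^ (2 * κ * b) with hX
  set Q : ℤ := 2 ^ ((n + 1) / 2) with hQ
  have hX0 : 0 < X := by positivity
  have hQ0 : 0 < Q := by positivity
  -- the estimate for one divisor
  have hdiv : ∀ d ∈ N.divisors, |X * (∑ t ∈ (range N).filter (d ∣ ·), c t) -
      (∑ t ∈ (range N).filter (d ∣ ·), (1 : ℤ))| ≤ X * ((6 * κ + 1) * Q) := by
    intro d hd
    obtain ⟨⟨M, hM⟩, _⟩ := Nat.mem_divisors.mp hd
    have hd0 : 0 < d := Nat.pos_of_mem_divisors hd
    have hdodd : Odd d := hNodd.of_dvd_nat ⟨M, hM⟩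
    have hcard := card_cnd n κ b d hn hκ hF E hE0 hEadd hEc hdodd _ rfl
    rw [siv_count n hF g hg (by rw [ho, hNdef]) (fun y => cnd κ E (y ^ d)), ← hNdef] at hcard
    have e1 : ∑ t ∈ range N, (if cnd κ E ((g ^ t) ^ d) then (1 : ℤ) else 0)
        = d * ∑ u ∈ range M, c (d * u) := by
      rw [hM]
      have := siv_periodic (fun t => if cnd κ E ((g ^ t) ^ d) then (1 : ℤ) else 0) M (by
        intro t
        have : (g ^ (M + t)) ^ d = (g ^ t) ^ d := by
          rw [← pow_mul, ← pow_mul, add_mul, pow_add]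
          have e : g ^ (M * d) = 1 := by
            rw [mul_comm, ← hM, ← ho]
            exact pow_orderOf_eq_one g
          rw [e, one_mul]
        simp only [this]) d
      rw [this]
      congr 1
      refine Finset.sum_congr rfl fun u _ => ?_
      simp only [hc]
      rw [← pow_mul, mul_comm u d]
    rw [e1] at hcard
    rw [siv_mult N d M hM hd0 c, siv_mult N d M hM hd0 (fun _ => 1)]
    have e2 : ((2 : ℤ) ^ n - 1) = d * M := by
      have : (N : ℤ) = d * M := by rw [hM]; push_cast; rfl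
      rw [← this, hNdef]
      push_cast [Nat.one_le_two_pow]
      rfl
    rw [e2] at hcard
    have hd0' : (0 : ℤ) < d := by exact_mod_cast hd0
    have hd1' : (1 : ℤ) ≤ d := by exact_mod_cast hd0
    have e3 : X * (d * ∑ u ∈ range M, c (d * u)) - d * M
        = d * (X * (∑ u ∈ range M, c (d * u)) - ∑ _u ∈ range M, (1 : ℤ)) := by
      simp
      ring
    rw [e3, abs_mul, abs_of_pos hd0'] at hcard
    have e4 : X * ((3 * (d * (2 * κ - 1)) + 4) * Q) ≤ d * (X * ((6 * κ + 1) * Q)) := by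
      have : (3 * ((d : ℤ) * (2 * κ - 1)) + 4) ≤ d * (6 * κ + 1) := by nlinarith
      calc X * ((3 * (d * (2 * κ - 1)) + 4) * Q) ≤ X * ((d * (6 * κ + 1)) * Q) := by
            apply mul_le_mul_of_nonneg_left _ hX0.le
            exact mul_le_mul_of_nonneg_right this hQ0.le
        _ = d * (X * ((6 * κ + 1) * Q)) := by ring
    exact le_of_mul_le_mul_left (hcard.trans e4) hd0'
  -- sum up
  have hS := siv_star N hN c
  have hphi := siv_star N hN (fun _ => 1)
  have hphi' : ∑ t ∈ (range N).filter (fun t => N.Coprime t), (1 : ℤ) = N.totient := by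
    rw [Nat.totient_eq_card_coprime]
    simp
  have hmain : X * (∑ t ∈ (range N).filter (fun t => N.Coprime t), c t) - N.totient
      = ∑ d ∈ N.divisors, ArithmeticFunction.moebius d *
        (X * (∑ t ∈ (range N).filter (d ∣ ·), c t) - (∑ t ∈ (range N).filter (d ∣ ·), (1 : ℤ))) := by
    rw [← hphi', hS, hphi, Finset.mul_sum, ← Finset.sum_sub_distrib]
    refine Finset.sum_congr rfl fun d _ => ?_
    ring
  have hbound : |X * (∑ t ∈ (range N).filter (fun t => N.Coprime t), c t) - N.totient|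
      ≤ 2 ^ N.primeFactors.card * (X * ((6 * κ + 1) * Q)) := by
    rw [hmain, ← siv_abs N hN, Finset.sum_mul]
    refine (Finset.abs_sum_le_sum_abs _ _).trans (Finset.sum_le_sum fun d hd => ?_)
    rw [abs_mul]
    exact mul_le_mul_of_nonneg_left (hdiv d hd) (abs_nonneg _)
  have hineq' : 2 ^ N.primeFactors.card * (X * ((6 * κ + 1) * Q)) < (N.totient : ℤ) := by
    have : (2 ^ (2 * κ * b) * (2 ^ N.primeFactors.card *
      ((6 * κ + 1) * 2 ^ ((n + 1) / 2))) : ℤ) < (N.totient : ℤ) := by exact_mod_cast hineq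
    calc 2 ^ N.primeFactors.card * (X * ((6 * κ + 1) * Q))
        = 2 ^ (2 * κ * b) * (2 ^ N.primeFactors.card * ((6 * κ + 1) * 2 ^ ((n + 1) / 2))) := by
          rw [hX, hQ]; ring
      _ < _ := this
  have hpos : ∑ t ∈ (range N).filter (fun t => N.Coprime t), c t ≠ 0 := by
    intro h0
    rw [h0, mul_zero, zero_sub, abs_neg, Nat.abs_cast] at hbound
    exact absurd hbound (not_le.mpr hineq')
  obtain ⟨t, ht, hct⟩ := Finset.exists_ne_zero_of_sum_ne_zero hpos
  rw [Finset.mem_filter, Finset.mem_range] at ht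
  have hcnd : cnd κ E (g ^ t) := by
    by_contra hcon
    apply hct
    simp [hc, hcon]
  refine ⟨g ^ t, ?_, hcnd⟩
  rcases Nat.eq_zero_or_pos t with h0 | h0
  · -- then `N = 1`, impossible
    subst h0
    have := ht.2
    rw [Nat.coprime_zero_right] at this
    omega
  · rw [orderOf_pow' g (by omega), ho]
    have : N.gcd t = 1 := ht.2
    rw [this, Nat.div_one]

end

end RunMult
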