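import Pool.Agent.Lib.MP_d16eef_co.Defs

/-! A Boolean check for explicit sequences given by a bit mask. -/

namespace RunMult

open Finset

/-- number of `i < k` with `f i = true` -/
def cnt (f : ℕ → Bool) : ℕ → ℕ → ℕ
  | 0, acc => acc
  | k + 1, acc => cnt f k (acc + if f k then 1 else 0)

/-- the periodic bit -/
def rb (S p i : ℕ) : Bool := Nat.testBit S (i % p)

/-- a run of `c` of length `k` starts at `i` -/
def runB (S p : ℕ) (c : Bool) (k i : ℕ) : Bool :=
  (rb S p (i + (p - 1)) != c) && (rb S p (i + k) != c) &&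
    (List.range k).all fun j => rb S p (i + j) == c

/-- the check for the four properties -/
def chkSeq (n p S i0 j0 tau : ℕ) : Bool :=
  (p == 2 ^ n - 1) &&
  ((List.range (n - 2)).all fun k =>
    (cnt (runB S p false (k + 1)) p 0 == 2 ^ (n - 3 - k)) &&
    (cnt (runB S p true (k + 1)) p 0 == 2 ^ (n - 3 - k))) &&
  (cnt (runB S p false (n - 1)) p 0 == 1) && (cnt (runB S p true n) p 0 == 1) &&
  (cnt (fun i => (List.range n).all fun j => rb S p (i + j) == false) p 0 == 0) &&
  (cnt (runB S p true (n - 1)) p 0 == 0) &&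
  (cnt (fun i => (List.range (n + 1)).all fun j => rb S p (i + j) == true) p 0 == 0) &&
  (cnt (fun i => rb S p (2 * i) != rb S p i) p 0 == 0) &&
  Nat.blt i0 p && Nat.blt j0 p && (i0 != j0) &&
  ((List.range n).all fun j => rb S p (i0 + j) == rb S p (j0 + j)) &&
  Nat.blt tau p && (tau != 0) &&
  (cnt (fun i => rb S p i != rb S p (i + tau)) p 0 != 2 ^ (n - 1))

theorem cnt_eq (f : ℕ → Bool) (k acc : ℕ) :
    cnt f k acc = acc + ((range k).filter fun i => f i = true).card := by
  induction k generalizing acc with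
  | zero => simp [cnt]
  | succ k ih =>
    have : cnt f (k + 1) acc = cnt f k (acc + if f k then 1 else 0) := rfl
    rw [this, ih, range_add_one, filter_insert]
    split_ifs
    · rw [card_insert_of_notMem (by simp)]
      ring
    · ring

theorem card_eq_cnt (p : ℕ) [NeZero p] (f : ℕ → Bool) (P : ZMod p → Prop)
    (hP : ∀ i, P i ↔ f i.val = true) : Nat.card {i : ZMod p // P i} = cnt f p 0 := by
  classical
  rw [cnt_eq, zero_add, Nat.subtype_card (univ.filter P) (by simp)]
  refine card_bij (fun i _ => i.val) ?_ ?_ ?_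
  · intro i hi
    rw [mem_filter] at hi
    rw [mem_filter, mem_range]
    exact ⟨ZMod.val_lt i, (hP i).mp hi.2⟩
  · intro i _ j _ h
    exact ZMod.val_injective p h
  · intro k hk
    rw [mem_filter, mem_range] at hk
    refine ⟨(k : ZMod p), ?_, ZMod.val_cast_of_lt hk.1⟩
    rw [mem_filter]
    refine ⟨mem_univ _, (hP _).mpr ?_⟩
    rw [ZMod.val_cast_of_lt hk.1]
    exact hk.2

/-- the sequence of a bit mask -/
def seqS (S p : ℕ) : ZMod p → ZMod 2 := fun i => if S.testBit i.val then 1 else 0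

/-- the symbol of a Boolean -/
def bz (b : Bool) : ZMod 2 := if b then 1 else 0

theorem bz_inj (a b : Bool) : bz a = bz b ↔ a = b := by
  cases a <;> cases b <;> decide

theorem seqS_add (S p : ℕ) [NeZero p] (i : ZMod p) (j : ℕ) :
    seqS S p (i + (j : ZMod p)) = bz (rb S p (i.val + j)) := by
  unfold seqS bz rb
  rw [ZMod.val_add, ZMod.val_natCast, Nat.add_mod_mod]

theorem seqS_self (S p : ℕ) [NeZero p] (i : ZMod p) : seqS S p i = bz (rb S p i.val) := by
  have := seqS_add S p i 0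
  simpa using this

theorem seqS_pred (S p : ℕ) [NeZero p] (i : ZMod p) :
    seqS S p (i - 1) = bz (rb S p (i.val + (p - 1))) := by
  rw [← seqS_add]
  congr 1
  have h1 : 1 ≤ p := NeZero.one_le
  push_cast [h1]
  simp [sub_eq_add_neg]

theorem runCount_eq (S p : ℕ) [NeZero p] (c : Bool) (k : ℕ) :
    runCount (seqS S p) (bz c) k = cnt (runB S p c k) p 0 := by
  unfold runCount
  apply card_eq_cnt
  intro i
  simp only [runB, Bool.and_eq_true, bne_iff_ne, List.all_eq_true, List.mem_range, beq_iff_eq]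
  rw [seqS_pred, seqS_add, Ne, Ne, bz_inj, bz_inj]
  constructor
  · rintro ⟨h1, h2, h3⟩
    refine ⟨⟨h1, h3⟩, fun j hj => ?_⟩
    have := h2 j hj
    rwa [seqS_add, bz_inj] at this
  · rintro ⟨⟨h1, h3⟩, h2⟩
    refine ⟨h1, fun j hj => ?_, h3⟩
    rw [seqS_add, bz_inj]
    exact h2 j hj

theorem cnt_zero (p : ℕ) (f : ℕ → Bool) (h : cnt f p 0 = 0) (i : ℕ) (hi : i < p) :
    f i = false := by
  rw [cnt_eq, zero_add, card_eq_zero, filter_eq_empty_iff] at h
  simpa using h (mem_range.mpr hi)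

/-- soundness of the check -/
theorem adm_of_seq (n p S i0 j0 tau : ℕ) (hn : 3 ≤ n)
    (h : chkSeq n p S i0 j0 tau = true) : Adm n := by
  simp only [chkSeq, Bool.and_eq_true, beq_iff_eq, bne_iff_ne, List.all_eq_true, List.mem_range,
    Nat.blt_eq] at h
  obtain ⟨⟨⟨⟨⟨⟨⟨⟨⟨⟨⟨⟨⟨⟨hp, hrun⟩, h0⟩, h1⟩, hz⟩, h1'⟩, ho⟩, hm⟩, hi0⟩, hj0⟩, hij⟩, hw⟩, ht⟩,
    ht0⟩, hau⟩ := h
  have hone : 2 < 2 ^ n := by
    calc 2 < 2 ^ 3 := by norm_num
      _ ≤ 2 ^ n := Nat.pow_le_pow_right (by norm_num) hn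
  subst hp
  have hne : NeZero (2 ^ n - 1) := ⟨by omega⟩
  have bz0 : (0 : ZMod 2) = bz false := rfl
  have bz1 : (1 : ZMod 2) = bz true := rfl
  have hrc : ∀ (c : Bool) (k L : ℕ), L ≤ k → (∀ i < 2 ^ n - 1,
      ((List.range L).all fun j => rb S (2 ^ n - 1) (i + j) == c) = false) →
      runCount (seqS S (2 ^ n - 1)) (bz c) k = 0 := by
    intro c k L hLk hL
    rw [runCount_eq, cnt_eq, zero_add, card_eq_zero, filter_eq_empty_iff]
    intro i hi hcon
    simp only [runB, Bool.and_eq_true, List.all_eq_true, List.mem_range] at hcon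
    have h3 := hL i (mem_range.mp hi)
    rw [List.all_eq_false] at h3
    obtain ⟨j, hj, hj'⟩ := h3
    exact hj' (hcon.2 j (lt_of_lt_of_le (List.mem_range.mp hj) hLk))
  refine ⟨seqS S (2 ^ n - 1), ⟨?_, ?_, ?_, ?_, ?_, ?_⟩, ⟨0, ?_⟩, ?_, ?_⟩
  · intro k c hk1 hk2
    obtain ⟨b, rfl⟩ : ∃ b, c = bz b := by
      have : ∀ c : ZMod 2, ∃ b, c = bz b := by decide
      exact this c
    rw [runCount_eq]
    have h3 := hrun (k - 1) (by omega)
    rw [Nat.sub_add_cancel hk1] at h3
    have e : n - 3 - (k - 1) = n - 2 - k := by omega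
    rw [e] at h3
    cases b
    · exact h3.1
    · exact h3.2
  · rw [bz0, runCount_eq]
    exact h0
  · rw [bz1, runCount_eq]
    exact h1
  · intro k hk
    rw [bz0]
    exact hrc false k n hk (fun i hi => cnt_zero _ _ hz i hi)
  · rw [bz1, runCount_eq]
    exact h1'
  · intro k hk
    rw [bz1]
    exact hrc true k (n + 1) hk (fun i hi => cnt_zero _ _ ho i hi)
  · intro i
    rw [add_zero]
    have h3 := cnt_zero _ _ hm i.val (ZMod.val_lt i)
    have h4 : rb S (2 ^ n - 1) (2 * i.val) = rb S (2 ^ n - 1) i.val := by simpa using h3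
    have h5 : 2 * i = i + (i.val : ZMod (2 ^ n - 1)) := by
      rw [ZMod.natCast_val, ZMod.cast_id]
      ring
    rw [h5, seqS_add, seqS_self, ← two_mul, h4]
  · rintro ⟨hs1, hs2⟩
    have hwin : (fun j : Fin n => seqS S (2 ^ n - 1) ((i0 : ZMod (2 ^ n - 1)) +
        (j.val : ZMod (2 ^ n - 1)))) = fun j : Fin n => seqS S (2 ^ n - 1)
        ((j0 : ZMod (2 ^ n - 1)) + (j.val : ZMod (2 ^ n - 1))) := by
      funext j
      rw [seqS_add, seqS_add, ZMod.val_cast_of_lt hi0, ZMod.val_cast_of_lt hj0, hw j.val j.2]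
    have := (hs2 _ (hs1 (i0 : ZMod (2 ^ n - 1)))).unique rfl hwin.symm
    have h3 := congrArg ZMod.val this
    rw [ZMod.val_cast_of_lt hi0, ZMod.val_cast_of_lt hj0] at h3
    exact hij h3
  · intro hA
    have h3 := hA (tau : ZMod (2 ^ n - 1)) (by
      intro hcon
      have := congrArg ZMod.val hcon
      rw [ZMod.val_cast_of_lt ht, ZMod.val_zero] at this
      exact ht0 this)
    apply hau
    rw [← h3]
    symm
    apply card_eq_cnt
    intro i
    rw [bne_iff_ne, seqS_self, seqS_add, Ne, bz_inj]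

end RunMult
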