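import Pool.Agent.Lib.MP_d16eef_co.Basic

namespace RunMult

open Finset Polynomial

section

variable {F : Type} [Field F] [Fintype F] [DecidableEq F] [Algebra (ZMod 2) F]

omit [Fintype F] [DecidableEq F] [Algebra (ZMod 2) F] in
theorem StepA_natDegree_stG_le (D : ℕ) (γ : ℕ → F) : (stG D γ).natDegree ≤ 2 * D := by
  unfold stG
  refine natDegree_sum_le_of_forall_le _ _ fun i hi => ?_
  rw [Finset.mem_range] at hi
  refine (natDegree_C_mul_X_pow_le _ _).trans (by omega)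

/-- ST1 : degrees of `stG`, `stFu` -/
theorem natDegree_stFu_le (D h : ℕ) (hh : 1 ≤ h) (γ : ℕ → F) :
    (stFu D h γ).natDegree ≤ D * 2 ^ h := by
  unfold stFu
  refine natDegree_sum_le_of_forall_le _ _ fun t ht => ?_
  rw [Finset.mem_range] at ht
  refine natDegree_mul_le.trans ?_
  rw [natDegree_X_pow]
  have h1 : (stG D γ ^ 2 ^ t).natDegree ≤ 2 ^ t * (2 * D) :=
    natDegree_pow_le.trans (Nat.mul_le_mul_left _ (StepA_natDegree_stG_le D γ))
  have h2 : 2 ^ t ≤ 2 ^ (h - 1) := Nat.pow_le_pow_right (by norm_num) (by omega)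
  have h3 : 2 ^ h = 2 * 2 ^ (h - 1) := by
    rw [← pow_succ']; congr 1; omega
  have h4 : D * (2 ^ (h - 1) - 2 ^ t) + D * 2 ^ t = D * 2 ^ (h - 1) := by
    rw [← Nat.mul_add]; congr 1; omega
  have h5 : D * 2 ^ t ≤ D * 2 ^ (h - 1) := Nat.mul_le_mul_left _ h2
  have h6 : D * 2 ^ h = 2 * (D * 2 ^ (h - 1)) := by rw [h3]; ring
  have h7 : 2 ^ t * (2 * D) = 2 * (D * 2 ^ t) := by ring
  omega

omit [Fintype F] [DecidableEq F] [Algebra (ZMod 2) F] in
theorem StepA_eval_stG (D : ℕ) (γ : ℕ → F) (a : F) (ha : a ≠ 0) :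
    (stG D γ).eval a = stf D γ a * a ^ D := by
  unfold stG stf
  rw [div_mul_cancel₀ _ (pow_ne_zero _ ha), eval_finsetSum]
  simp

/-- ST2 : the value of `stZ` at a point of trace `ε` -/
theorem stZ_eval (n D h : ℕ) (hn : 2 ≤ n) (hh : h = n / 2) (hF : Fintype.card F = 2 ^ n)
    (γ : ℕ → F) (ε : ZMod 2) (a : F) (ha : a ≠ 0) (htr : tr (stf D γ a) = ε) :
    (stZ n D h γ (algebraMap (ZMod 2) F ε)).eval a =
      a ^ (D * (2 ^ (n - 1) - 2 ^ (h - 1))) * (stFu D h γ).eval a := by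
  have hterm : ∀ m t, t ≤ m → (stf D γ a * a ^ D) ^ 2 ^ t * a ^ (D * (2 ^ m - 2 ^ t)) =
      stf D γ a ^ 2 ^ t * a ^ (D * 2 ^ m) := by
    intro m t htm
    have h2 : 2 ^ t ≤ 2 ^ m := Nat.pow_le_pow_right (by norm_num) htm
    rw [mul_pow, ← pow_mul, mul_assoc, ← pow_add, ← Nat.mul_add]
    congr 3
    omega
  have hleft : (stZ n D h γ (algebraMap (ZMod 2) F ε)).eval a =
      (∑ t ∈ Finset.range h, stf D γ a ^ 2 ^ t) * a ^ (D * 2 ^ (n - 1)) := by
    unfold stZ
    rw [eval_add, eval_finsetSum]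
    simp only [eval_mul, eval_pow, eval_X, eval_C, StepA_eval_stG D γ a ha]
    rw [Finset.sum_congr rfl (g := fun t => stf D γ a ^ 2 ^ t * a ^ (D * 2 ^ (n - 1)))]
    · rw [← Finset.sum_mul, ← add_mul, ← htr, tr_eq_sum n hF,
        ← Finset.sum_range_add_sum_Ico _ (show h ≤ n by omega)]
      have : (2 : F) = 0 := two_eq_zero' F
      linear_combination (∑ t ∈ Finset.Ico h n, stf D γ a ^ 2 ^ t) * a ^ (D * 2 ^ (n - 1)) * this
    · intro t ht
      rw [Finset.mem_Ico] at ht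
      exact hterm _ _ (by omega)
  have hright : (stFu D h γ).eval a =
      (∑ t ∈ Finset.range h, stf D γ a ^ 2 ^ t) * a ^ (D * 2 ^ (h - 1)) := by
    unfold stFu
    rw [eval_finsetSum]
    simp only [eval_mul, eval_pow, eval_X, StepA_eval_stG D γ a ha]
    rw [Finset.sum_congr rfl (g := fun t => stf D γ a ^ 2 ^ t * a ^ (D * 2 ^ (h - 1)))]
    · rw [← Finset.sum_mul]
    · intro t ht
      rw [Finset.mem_range] at ht
      exact hterm _ _ (by omega)
  rw [hleft, hright, mul_comm (a ^ _), mul_assoc, ← pow_add, ← Nat.mul_add]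
  have h2 : 2 ^ (h - 1) ≤ 2 ^ (n - 1) := Nat.pow_le_pow_right (by norm_num) (by omega)
  congr 3
  omega

/-- ST3 : `stZ` is congruent to its value modulo `(X - a) ^ (2 ^ h)` -/
theorem stZ_mod (n D h : ℕ) (hn : 2 ≤ n) (hh : h = n / 2) (γ : ℕ → F) (ε a : F) :
    (X - C a) ^ (2 ^ h) ∣ stZ n D h γ ε - C ((stZ n D h γ ε).eval a) := by
  have : CharP F 2 := charP_two F
  have : Fact (Nat.Prime 2) := ⟨Nat.prime_two⟩
  have key : ∀ (c : F) (V : F[X]), (X - C a) ^ (2 ^ h) ∣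
      C c * V ^ 2 ^ h - C ((C c * V ^ 2 ^ h).eval a) := by
    intro c V
    rw [eval_mul, eval_C, eval_pow, C_mul, C_pow, ← mul_sub]
    refine Dvd.dvd.mul_left ?_ _
    rw [← sub_pow_char_pow]
    exact pow_dvd_pow_of_dvd (X_sub_C_dvd_sub_C_eval) _
  have hadd : ∀ f g : F[X], (X - C a) ^ (2 ^ h) ∣ f - C (f.eval a) →
      (X - C a) ^ (2 ^ h) ∣ g - C (g.eval a) →
      (X - C a) ^ (2 ^ h) ∣ (f + g) - C ((f + g).eval a) := by
    intro f g hf hg
    rw [eval_add, C_add]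
    have := dvd_add hf hg
    convert this using 1
    ring
  unfold stZ
  apply hadd
  · have hsum : ∀ T : Finset ℕ, (∀ t ∈ T, h ≤ t ∧ t < n) → (X - C a) ^ (2 ^ h) ∣
        (∑ t ∈ T, stG D γ ^ 2 ^ t * X ^ (D * (2 ^ (n - 1) - 2 ^ t))) -
          C ((∑ t ∈ T, stG D γ ^ 2 ^ t * X ^ (D * (2 ^ (n - 1) - 2 ^ t))).eval a) := by
      intro T
      induction T using Finset.induction_on with
      | empty => intro _; simp
      | insert t T htT ih =>
        intro hT
        rw [Finset.sum_insert htT]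
        apply hadd
        · obtain ⟨h1, h2⟩ := hT t (Finset.mem_insert_self _ _)
          have e1 : stG D γ ^ 2 ^ t * X ^ (D * (2 ^ (n - 1) - 2 ^ t)) =
              C 1 * (stG D γ ^ 2 ^ (t - h) *
                X ^ (D * (2 ^ (n - 1 - h) - 2 ^ (t - h)))) ^ 2 ^ h := by
            have e2 : 2 ^ t = 2 ^ (t - h) * 2 ^ h := by
              rw [← pow_add]; congr 1; omega
            have e3 : 2 ^ (n - 1) = 2 ^ (n - 1 - h) * 2 ^ h := by
              rw [← pow_add]; congr 1; omega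
            rw [C_1, one_mul, mul_pow, ← pow_mul, ← pow_mul, mul_assoc D,
              Nat.sub_mul, ← e2, ← e3]
          rw [e1]
          exact key _ _
        · exact ih fun t ht => hT t (Finset.mem_insert_of_mem ht)
    exact hsum _ fun t ht => by rw [Finset.mem_Ico] at ht; exact ht
  · have e1 : (X : F[X]) ^ (D * 2 ^ (n - 1)) = (X ^ (D * 2 ^ (n - 1 - h))) ^ 2 ^ h := by
      rw [← pow_mul, mul_assoc, ← pow_add]
      congr 3
      omega
    rw [e1]
    exact key _ _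

end

end RunMult
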