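import Pool.Agent.Lib.MP_d16eef_co.Defs

/-! ST5: the linear system of Stepanov's method has a nonzero solution. -/

namespace RunMult

open Finset Polynomial

section

variable {F : Type} [Field F] [Fintype F] [DecidableEq F] [Algebra (ZMod 2) F]

private noncomputable def st5S {J A : ℕ} (v : Fin J → Polynomial.degreeLT F A) (j : ℕ) : F[X] :=
  if h : j < J then ((v ⟨j, h⟩ : Polynomial.degreeLT F A) : F[X]) else 0

private lemma st5S_add {J A : ℕ} (v w : Fin J → Polynomial.degreeLT F A) (j : ℕ) :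
    st5S (v + w) j = st5S v j + st5S w j := by
  unfold st5S
  by_cases h : j < J
  · simp [h]
  · simp [h]

private lemma st5S_smul {J A : ℕ} (c : F) (v : Fin J → Polynomial.degreeLT F A) (j : ℕ) :
    st5S (c • v) j = c • st5S v j := by
  unfold st5S
  by_cases h : j < J
  · simp [h]
  · simp [h]

private lemma st5S_degree {J A : ℕ} (v : Fin J → Polynomial.degreeLT F A) (j : ℕ) :
    (st5S v j).degree < A := by
  unfold st5S
  by_cases h : j < J
  · simp only [h, dite_true]
    exact Polynomial.mem_degreeLT.1 (v ⟨j, h⟩).2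
  · simp only [h, dite_false, degree_zero]
    exact WithBot.bot_lt_coe A

private lemma st5_degree_T (D h J A : ℕ) (hh : 1 ≤ h) (hDh : D + 3 ≤ 2 ^ h) (hJ : J = 2 ^ (h - 1) + (D + 3) / 2) (γ : ℕ → F)
    (s : ℕ → F[X]) (hs : ∀ j, (s j).degree < A) (ρ : ℕ) :
    (stT D h J γ s ρ).degree < ((A + (D + 1) * 2 ^ h : ℕ) : WithBot ℕ) := by
  have hmem : stT D h J γ s ρ ∈ Polynomial.degreeLT F (A + (D + 1) * 2 ^ h) := by
    unfold stT
    refine Submodule.sum_mem _ (fun j hj => Submodule.sum_mem _ (fun i hi => ?_))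
    rw [Finset.mem_range] at hj hi
    split_ifs with hc
    · rw [Polynomial.mem_degreeLT]
      by_cases hs0 : s j = 0
      · rw [hs0, mul_zero, degree_zero]
        exact WithBot.bot_lt_coe _
      have hA : (s j).natDegree < A := (Polynomial.natDegree_lt_iff_degree_lt hs0).2 (hs j)
      have hfl : (j + i + 2 ^ (h - 1)) / 2 ^ h ≤ D + 1 := by
        have hlt : j + i + 2 ^ (h - 1) < (D + 2) * 2 ^ h := by
          have h2 : 2 ^ h = 2 ^ (h - 1) + 2 ^ (h - 1) := by
            obtain ⟨k, rfl⟩ : ∃ k, h = k + 1 := ⟨h - 1, by omega⟩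
            simp [pow_succ]; ring
          have h3 : (D + 2) * 2 ^ h = D * 2 ^ h + 2 ^ h + 2 ^ h := by ring
          rw [h3]
          generalize D * 2 ^ h = P at *
          generalize 2 ^ (h - 1) = H at *
          generalize 2 ^ h = Q at *
          omega
        have := Nat.div_lt_of_lt_mul (m := j + i + 2 ^ (h - 1)) (n := 2 ^ h) (k := D + 2)
          (by rw [mul_comm]; exact hlt)
        omega
      have hexp : 2 ^ h * ((j + i + 2 ^ (h - 1)) / 2 ^ h) ≤ (D + 1) * 2 ^ h := by
        rw [mul_comm (D + 1)]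
        exact Nat.mul_le_mul_left _ hfl
      refine lt_of_le_of_lt Polynomial.degree_le_natDegree ?_
      rw [Nat.cast_lt]
      have h1 : (C ((stFu D h γ).coeff i) * X ^ (2 ^ h * ((j + i + 2 ^ (h - 1)) / 2 ^ h)) *
          s j).natDegree ≤ 2 ^ h * ((j + i + 2 ^ (h - 1)) / 2 ^ h) + (s j).natDegree := by
        refine le_trans Polynomial.natDegree_mul_le ?_
        exact Nat.add_le_add_right (Polynomial.natDegree_C_mul_X_pow_le _ _) _
      omega
    · exact Submodule.zero_mem _
  exact Polynomial.mem_degreeLT.1 hmem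

private lemma st5_T_add (D h J : ℕ) {A : ℕ} (γ : ℕ → F) (v w : Fin J → Polynomial.degreeLT F A)
    (ρ : ℕ) : stT D h J γ (st5S (v + w)) ρ =
      stT D h J γ (st5S v) ρ + stT D h J γ (st5S w) ρ := by
  unfold stT
  rw [← Finset.sum_add_distrib]
  refine Finset.sum_congr rfl (fun j _ => ?_)
  rw [← Finset.sum_add_distrib]
  refine Finset.sum_congr rfl (fun i _ => ?_)
  rw [st5S_add]
  split_ifs
  · ring
  · simp

private lemma st5_T_smul (D h J : ℕ) {A : ℕ} (γ : ℕ → F) (c : F)
    (v : Fin J → Polynomial.degreeLT F A) (ρ : ℕ) :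
    stT D h J γ (st5S (c • v)) ρ = c • stT D h J γ (st5S v) ρ := by
  unfold stT
  rw [Finset.smul_sum]
  refine Finset.sum_congr rfl (fun j _ => ?_)
  rw [Finset.smul_sum]
  refine Finset.sum_congr rfl (fun i _ => ?_)
  rw [st5S_smul]
  split_ifs
  · rw [mul_smul_comm]
  · simp

private lemma st5_arith (H N e : ℕ) (heH : e + 2 ≤ H) (hN : 2 * (H * H) ≤ N) :
    (2 * H - (H + (e + 2))) * (N - 2 * (e + 1) * H + 2 * (e + 1) * (2 * H)) <
      (H + (e + 2)) * (N - 2 * (e + 1) * H) := by
  obtain ⟨x, hx⟩ : ∃ x, H = e + 2 + x := ⟨H - (e + 2), by omega⟩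
  obtain ⟨y, hy⟩ : ∃ y, N = 2 * (H * H) + y := ⟨N - 2 * (H * H), by omega⟩
  have hA' : N - 2 * (e + 1) * H = 2 * H * (x + 1) + y := by
    have : N = (2 * H * (x + 1) + y) + 2 * (e + 1) * H := by
      rw [hy, hx]; ring
    omega
  rw [hA']
  have hx' : 2 * H - (H + (e + 2)) = x := by omega
  rw [hx', hx]
  nlinarith [Nat.zero_le x, Nat.zero_le e, Nat.zero_le y, Nat.zero_le (e * x),
    Nat.zero_le (e * y), Nat.zero_le (x * y), Nat.zero_le (e * e), Nat.zero_le (x * x),
    Nat.zero_le (e * e * e), Nat.zero_le (e * e * x), Nat.zero_le (e * x * x),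
    Nat.zero_le (x * x * x)]

/-- ST5 : the linear system has a nonzero solution -/
theorem st_kernel (n D h J A : ℕ) (hn : 2 ≤ n) (hh : h = n / 2) (hD : Odd D)
    (hDh : D + 3 ≤ 2 ^ h) (hJ : J = 2 ^ (h - 1) + (D + 3) / 2)
    (hA : A = 2 ^ (n - 1) - (D + 1) * 2 ^ (h - 1)) (γ : ℕ → F) :
    ∃ s : ℕ → F[X], (∃ j < J, s j ≠ 0) ∧ (∀ j < J, (s j).degree < A) ∧
      ∀ ρ, J ≤ ρ → ρ < 2 ^ h → stT D h J γ s ρ = 0 := by
  have hh1 : 1 ≤ h := by omega
  set M := A + (D + 1) * 2 ^ h with hM
  let T : (Fin J → Polynomial.degreeLT F A) →ₗ[F] (Fin (2 ^ h - J) → Polynomial.degreeLT F M) :=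
    { toFun := fun v r => ⟨stT D h J γ (st5S v) (J + r.val), Polynomial.mem_degreeLT.2
        (st5_degree_T D h J A hh1 hDh hJ γ (st5S v) (st5S_degree v) _)⟩
      map_add' := by
        intro v w
        funext r
        apply Subtype.ext
        exact st5_T_add D h J γ v w _
      map_smul' := by
        intro c v
        funext r
        apply Subtype.ext
        exact st5_T_smul D h J γ c v _ }
  have hfin : ∀ m : ℕ, Module.finrank F (Polynomial.degreeLT F m) = m := by
    intro m
    rw [LinearEquiv.finrank_eq (Polynomial.degreeLTEquiv F m), Module.finrank_fin_fun]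
  have : ∀ m : ℕ, Module.Finite F (Polynomial.degreeLT F m) := fun m =>
    Module.Finite.equiv (Polynomial.degreeLTEquiv F m).symm
  have hcount : (2 ^ h - J) * M < J * A := by
    obtain ⟨e, he⟩ := hD
    have h2 : 2 ^ h = 2 * 2 ^ (h - 1) := by
      obtain ⟨k, rfl⟩ : ∃ k, h = k + 1 := ⟨h - 1, by omega⟩
      simp [pow_succ]; ring
    have hN : 2 * (2 ^ (h - 1) * 2 ^ (h - 1)) ≤ 2 ^ (n - 1) := by
      rw [← pow_add, ← pow_succ']
      exact Nat.pow_le_pow_right (by norm_num) (by omega)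
    have hJe : J = 2 ^ (h - 1) + (e + 2) := by
      rw [hJ]; omega
    have hDe : D + 1 = 2 * (e + 1) := by omega
    have heH : e + 2 ≤ 2 ^ (h - 1) := by omega
    rw [hM, hA, hDe, hJe, h2]
    exact st5_arith _ _ e heH hN
  have hlt : Module.finrank F (Fin (2 ^ h - J) → Polynomial.degreeLT F M) <
      Module.finrank F (Fin J → Polynomial.degreeLT F A) := by
    rw [Module.finrank_pi_fintype, Module.finrank_pi_fintype]
    simp only [hfin, Finset.sum_const, Finset.card_univ, Fintype.card_fin, smul_eq_mul]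
    exact hcount
  have hker := LinearMap.ker_ne_bot_of_finrank_lt (f := T) hlt
  obtain ⟨v, hv, hv0⟩ := (Submodule.ne_bot_iff _).1 hker
  rw [LinearMap.mem_ker] at hv
  refine ⟨st5S v, ?_, fun j _ => st5S_degree v j, ?_⟩
  · by_contra hcon
    push Not at hcon
    apply hv0
    funext r
    apply Subtype.ext
    have := hcon r.val r.isLt
    unfold st5S at this
    simpa [r.isLt] using this
  · intro ρ h1 h2
    have := congrFun hv ⟨ρ - J, by omega⟩
    have h3 := congrArg Subtype.val this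
    have h4 : stT D h J γ (st5S v) (J + (ρ - J)) = 0 := h3
    rwa [Nat.add_sub_cancel' h1] at h4

end

end RunMult
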