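import Pool.Agent.Lib.MP_d16eef_co.StepDeg

namespace RunMult

open Finset Polynomial

section

variable {F : Type} [Field F] [Fintype F] [DecidableEq F] [Algebra (ZMod 2) F]

omit [Fintype F] [DecidableEq F] [Algebra (ZMod 2) F] in
theorem StepNe_stT_mem (D h J A : ℕ) (γ : ℕ → F) (s : ℕ → F[X]) (ρ : ℕ)
    (hsA : ∀ j < J, (s j).degree < A)
    (hbd : ∀ j < J, ∀ i ≤ D * 2 ^ h, (j + i + 2 ^ (h - 1)) / 2 ^ h ≤ D + 1) :
    stT D h J γ s ρ ∈ degreeLT F (A + (D + 1) * 2 ^ h) := by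
  unfold stT
  refine Submodule.sum_mem _ fun j hj => Submodule.sum_mem _ fun i hi => ?_
  rw [Finset.mem_range] at hj hi
  split_ifs with hc
  · rw [mem_degreeLT]
    have h1 := hsA j hj
    have h2 := hbd j hj i (by omega)
    rw [mul_assoc]
    refine lt_of_le_of_lt (degree_mul_le _ _) ?_
    refine lt_of_le_of_lt (add_le_add_left degree_C_le _) ?_
    rw [zero_add, mul_comm, degree_mul, degree_X_pow]
    have h3 : 2 ^ h * ((j + i + 2 ^ (h - 1)) / 2 ^ h) ≤ (D + 1) * 2 ^ h := by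
      rw [mul_comm]; exact Nat.mul_le_mul_right _ h2
    rcases eq_or_ne (s j) 0 with h0 | h0
    · rw [h0, degree_zero, WithBot.bot_add]
      exact WithBot.bot_lt_coe (A + (D + 1) * 2 ^ h)
    · rw [degree_eq_natDegree h0] at h1 ⊢
      have h1' : (s j).natDegree < A := by exact_mod_cast h1
      have : (s j).natDegree + 2 ^ h * ((j + i + 2 ^ (h - 1)) / 2 ^ h) < A + (D + 1) * 2 ^ h := by
        omega
      exact_mod_cast this
  · exact Submodule.zero_mem _

/-- ST7 : degree bounds of the two parts, and `stR ≠ 0` -/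
theorem stR_ne_zero (n D h J A : ℕ) (hn : 2 ≤ n) (hh : h = n / 2) (hD : Odd D)
    (hDh : D + 3 ≤ 2 ^ h) (hJ : J = 2 ^ (h - 1) + (D + 3) / 2)
    (hA : A = 2 ^ (n - 1) - (D + 1) * 2 ^ (h - 1)) (γ : ℕ → F) (ε : F)
    (i₀ : ℕ) (hi₀ : i₀ ≤ D) (hi₁ : D < 2 * i₀) (hγ : γ i₀ ≠ 0) (hmax : ∀ i ≤ D, i₀ < i → γ i = 0)
    (s : ℕ → F[X]) (hs0 : ∃ j < J, s j ≠ 0) (hsA : ∀ j < J, (s j).degree < A)
    (hsT : ∀ ρ, J ≤ ρ → ρ < 2 ^ h → stT D h J γ s ρ = 0) :
    stR n D h J γ ε s ≠ 0 ∧
    (stR n D h J γ ε s).natDegree < (J + D - 1) * 2 ^ n + 2 ^ (n - 1) := by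
  obtain ⟨hZ, hZc⟩ := stZ_degree n D h hn hh hD γ ε i₀ hi₀ hi₁ hγ hmax
  obtain ⟨e, he⟩ := hD
  -- numerical facts
  have hh1 : 1 ≤ h := by omega
  obtain ⟨H, hH⟩ : ∃ H, H = 2 ^ (h - 1) := ⟨_, rfl⟩
  have h2H : 2 ^ h = 2 * H := by
    rw [hH, ← pow_succ']; congr 1; omega
  obtain ⟨Q, hQ⟩ : ∃ Q, Q = 2 ^ (n - 1) := ⟨_, rfl⟩
  have h2Q : 2 ^ n = 2 * Q := by
    rw [hQ, ← pow_succ']; congr 1; omega
  have hQH : 2 * H * H ≤ Q := by
    rw [hQ, hH, ← pow_succ', ← pow_add]
    exact Nat.pow_le_pow_right (by norm_num) (by omega)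
  have hHpos : 0 < H := by rw [hH]; positivity
  rw [← hH] at hJ hA
  rw [← hQ] at hA
  have hDH : (D + 1) * H + 2 * H ≤ Q := by
    have : D + 3 ≤ 2 * H := by rw [← h2H]; exact hDh
    calc (D + 1) * H + 2 * H = (D + 3) * H := by ring
      _ ≤ 2 * H * H := Nat.mul_le_mul_right _ this
      _ ≤ Q := hQH
  have hA2 : A + (D + 1) * H = Q := by omega
  have hJ1 : J = H + e + 2 := by omega
  have heH : e + 2 ≤ H := by omega
  have hB : D * Q - (D + 1) * H = e * (2 * Q) + A := by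
    have : D * Q = e * (2 * Q) + Q := by rw [he]; ring
    omega
  have hbd : ∀ j < J, ∀ i ≤ D * 2 ^ h, (j + i + 2 ^ (h - 1)) / 2 ^ h ≤ D + 1 := by
    intro j hj i hi
    rw [← hH, h2H] at *
    apply Nat.le_of_lt_succ
    rw [Nat.div_lt_iff_lt_mul (by omega)]
    have : (D + 1).succ * (2 * H) = D * (2 * H) + 4 * H := by
      simp only [Nat.succ_eq_add_one]; ring
    omega
  have hT : ∀ ρ k, A + (D + 1) * (2 * H) ≤ k → (stT D h J γ s ρ).coeff k = 0 := by
    intro ρ k hk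
    have h1 := StepNe_stT_mem D h J A γ s ρ hsA hbd
    rw [mem_degreeLT, h2H] at h1
    exact coeff_eq_zero_of_degree_lt (lt_of_lt_of_le h1 (by exact_mod_cast hk))
  have hqq : A + (D + 1) * (2 * H) + A = 2 * Q := by
    have : (D + 1) * (2 * H) = 2 * ((D + 1) * H) := by ring
    omega
  -- second part : coefficients
  obtain ⟨P2, hP2⟩ : ∃ P2 : F[X], P2 = X ^ (D * 2 ^ (n - 1) - (D + 1) * 2 ^ (h - 1)) *
    ∑ ρ ∈ Finset.range (2 ^ h), X ^ (2 ^ n * ρ) * stT D h J γ s ρ := ⟨_, rfl⟩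
  have hP2c : ∀ k, (∀ ρ < J, ∀ r, r < A + (D + 1) * (2 * H) →
      k ≠ (e * (2 * Q) + A) + 2 * Q * ρ + r) → P2.coeff k = 0 := by
    intro k hk
    rw [hP2, ← hH, ← hQ, hB, h2H, h2Q, Finset.mul_sum, finsetSum_coeff]
    refine Finset.sum_eq_zero fun ρ hρ => ?_
    rw [Finset.mem_range] at hρ
    by_cases hρJ : ρ < J
    · rw [← mul_assoc, ← pow_add, coeff_X_pow_mul']
      split_ifs with hle
      · by_contra hne
        refine hk ρ hρJ (k - ((e * (2 * Q) + A) + 2 * Q * ρ)) ?_ (by omega)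
        by_contra hlt
        exact hne (hT ρ _ (by omega))
      · rfl
    · rw [hsT ρ (by omega) (by rw [h2H]; exact hρ)]
      simp
  have hRdef : stR n D h J γ ε s =
      ∑ j ∈ Finset.range J, X ^ (j * 2 ^ n) * s j * stZ n D h γ ε + P2 := by
    rw [hP2]; rfl
  have hterm : ∀ j < J, (X ^ (j * 2 ^ n) * s j * stZ n D h γ ε).natDegree ≤
      j * (2 * Q) + (s j).natDegree + i₀ * (2 * Q) := by
    intro j hj
    refine natDegree_mul_le.trans ?_
    rw [hZ, h2Q]
    have := natDegree_mul_le (p := X ^ (j * (2 * Q))) (q := s j)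
    rw [natDegree_X_pow] at this
    omega
  have hApos : 0 < A := by omega
  have hsA' : ∀ j < J, (s j).natDegree < A := by
    intro j hj
    rcases eq_or_ne (s j) 0 with h0 | h0
    · simpa [h0] using hApos
    · exact (natDegree_lt_iff_degree_lt h0).2 (hsA j hj)
  have hAQ : A < Q := by
    have : 0 < (D + 1) * H := by positivity
    omega
  constructor
  · -- nonzero
    classical
    obtain ⟨j₁, hj₁, hs₁⟩ := hs0
    have hne : ((Finset.range J).filter fun j => s j ≠ 0).Nonempty :=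
      ⟨j₁, by simp [hj₁, hs₁]⟩
    obtain ⟨j₀, hj₀, hj₀m⟩ := Finset.exists_max_image _ id hne
    rw [Finset.mem_filter, Finset.mem_range] at hj₀
    obtain ⟨hj₀J, hsj₀⟩ := hj₀
    have hlast : ∀ j < J, j₀ < j → s j = 0 := by
      intro j hj hlt
      by_contra h0
      have := hj₀m j (by simp [hj, h0])
      simp only [id] at this
      omega
    intro h0
    have hd0 := hsA' j₀ hj₀J
    have hcoef : (stR n D h J γ ε s).coeff (j₀ * (2 * Q) + (s j₀).natDegree + i₀ * (2 * Q)) ≠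
        0 := by
      rw [hRdef, coeff_add, finsetSum_coeff, hP2c, add_zero, Finset.sum_eq_single_of_mem j₀
        (Finset.mem_range.2 hj₀J)]
      · have e1 : (X ^ (j₀ * 2 ^ n) * s j₀ * stZ n D h γ ε).coeff
            (j₀ * (2 * Q) + (s j₀).natDegree + i₀ * (2 * Q)) =
            (s j₀).leadingCoeff * (stZ n D h γ ε).coeff (i₀ * 2 ^ n) := by
          rw [mul_assoc, h2Q, add_assoc, coeff_X_pow_mul', if_pos (by omega)]
          rw [show j₀ * (2 * Q) + ((s j₀).natDegree + i₀ * (2 * Q)) - j₀ * (2 * Q) =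
            (s j₀).natDegree + (stZ n D h γ ε).natDegree by rw [hZ, h2Q]; omega]
          rw [coeff_mul_degree_add_degree]
          rw [leadingCoeff, leadingCoeff, hZ, h2Q]
        rw [e1]
        exact mul_ne_zero (leadingCoeff_ne_zero.2 hsj₀) hZc
      · intro j hj hne
        rw [Finset.mem_range] at hj
        rcases lt_or_gt_of_ne hne with hlt | hgt
        · refine coeff_eq_zero_of_natDegree_lt (lt_of_le_of_lt (hterm j hj) ?_)
          have h1 := hsA' j hj
          have h2 : j * (2 * Q) + 2 * Q ≤ j₀ * (2 * Q) := by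
            have : (j + 1) * (2 * Q) ≤ j₀ * (2 * Q) := Nat.mul_le_mul_right _ hlt
            linarith
          omega
        · rw [hlast j hj hgt]; simp
      · intro ρ hρ r hr heq
        have h1 : (j₀ + i₀) * (2 * Q) + (s j₀).natDegree = (e + ρ) * (2 * Q) + (A + r) := by
          have e1 : (j₀ + i₀) * (2 * Q) = j₀ * (2 * Q) + i₀ * (2 * Q) := by ring
          have e2 : (e + ρ) * (2 * Q) = e * (2 * Q) + 2 * Q * ρ := by ring
          omega
        have h2 : A + r < 2 * Q := by omega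
        have h3 : (s j₀).natDegree < 2 * Q := by omega
        have h4 : ((j₀ + i₀) * (2 * Q) + (s j₀).natDegree) % (2 * Q) =
          ((e + ρ) * (2 * Q) + (A + r)) % (2 * Q) := by rw [h1]
        rw [Nat.mul_comm, Nat.mul_add_mod, Nat.mod_eq_of_lt h3, Nat.mul_comm, Nat.mul_add_mod,
          Nat.mod_eq_of_lt h2] at h4
        omega
    rw [h0] at hcoef
    simp at hcoef
  · -- degree
    rw [hRdef, ← hQ, h2Q]
    have hJpos : 0 < J := by omega
    have key : (J + D - 1) * (2 * Q) = (J - 1) * (2 * Q) + D * (2 * Q) := by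
      rw [← Nat.add_mul]; congr 1; omega
    rw [key]
    have hmem : (∑ j ∈ Finset.range J, X ^ (j * (2 * Q)) * s j * stZ n D h γ ε + P2) ∈
        degreeLT F ((J - 1) * (2 * Q) + D * (2 * Q) + Q) := by
      refine Submodule.add_mem _ (Submodule.sum_mem _ fun j hj => ?_) ?_
      · rw [Finset.mem_range] at hj
        rw [mem_degreeLT]
        refine lt_of_le_of_lt degree_le_natDegree ?_
        have h1 := hterm j hj
        rw [h2Q] at h1
        have h2 := hsA' j hj
        have h3 : j * (2 * Q) ≤ (J - 1) * (2 * Q) := Nat.mul_le_mul_right _ (by omega)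
        have h4 : i₀ * (2 * Q) ≤ D * (2 * Q) := Nat.mul_le_mul_right _ hi₀
        have h5 : (X ^ (j * (2 * Q)) * s j * stZ n D h γ ε).natDegree <
          (J - 1) * (2 * Q) + D * (2 * Q) + Q := by omega
        exact_mod_cast h5
      · rw [mem_degreeLT, degree_lt_iff_coeff_zero]
        intro k hk
        apply hP2c
        intro ρ hρ r hr heq
        have h3 : 2 * Q * ρ ≤ (J - 1) * (2 * Q) := by
          rw [mul_comm]; exact Nat.mul_le_mul_right _ (by omega)
        have h4 : (e + 1) * (2 * Q) ≤ D * (2 * Q) := Nat.mul_le_mul_right _ (by omega)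
        have h5 : (e + 1) * (2 * Q) = e * (2 * Q) + 2 * Q := by ring
        omega
    rw [mem_degreeLT] at hmem
    rcases eq_or_ne (∑ j ∈ Finset.range J, X ^ (j * (2 * Q)) * s j * stZ n D h γ ε + P2) 0 with
      h0 | h0
    · rw [h0, natDegree_zero]; omega
    · exact (natDegree_lt_iff_degree_lt h0).2 hmem

end

end RunMult
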