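import Pool.Agent.Lib.MP_d16eef_co.StepDvd
import Pool.Agent.Lib.MP_d16eef_co.StepKer
import Pool.Agent.Lib.MP_d16eef_co.StepNe

namespace RunMult

open Finset Polynomial

section

variable {F : Type} [Field F] [Fintype F] [DecidableEq F] [Algebra (ZMod 2) F]

/-- ST8 : the one-sided count -/
theorem st_count (n D h : ℕ) (hn : 2 ≤ n) (hh : h = n / 2) (hD : Odd D) (hDh : D + 3 ≤ 2 ^ h)
    (hF : Fintype.card F = 2 ^ n) (γ : ℕ → F) (hγ : ∃ i, i ≤ D ∧ D < 2 * i ∧ γ i ≠ 0)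
    (ε : ZMod 2) :
    2 * (univ.filter fun a : F => a ≠ 0 ∧ tr (stf D γ a) = ε).card <
      2 ^ n + (3 * D + 2) * 2 ^ ((n + 1) / 2) := by
  obtain ⟨i, hi, hi2, hγi⟩ := hγ
  have hne : ((Finset.range (D + 1)).filter fun j => γ j ≠ 0).Nonempty :=
    ⟨i, by simp only [Finset.mem_filter, Finset.mem_range]; exact ⟨by omega, hγi⟩⟩
  obtain ⟨i₀, hi₀, hmax⟩ := Finset.exists_max_image _ id hne
  simp only [Finset.mem_filter, Finset.mem_range, id, and_imp] at hi₀ hmax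
  obtain ⟨hi₀D, hγ₀⟩ := hi₀
  have hii₀ := hmax i (by omega) hγi
  obtain ⟨J, hJ⟩ : ∃ J, J = 2 ^ (h - 1) + (D + 3) / 2 := ⟨_, rfl⟩
  obtain ⟨A, hA⟩ : ∃ A, A = 2 ^ (n - 1) - (D + 1) * 2 ^ (h - 1) := ⟨_, rfl⟩
  obtain ⟨s, hs0, hsA, hsT⟩ := st_kernel n D h J A hn hh hD hDh hJ hA γ
  obtain ⟨hR0, hRd⟩ := stR_ne_zero n D h J A hn hh hD hDh hJ hA γ (algebraMap (ZMod 2) F ε) i₀
    (by omega) (by omega) hγ₀ (fun j hj hlt => by
      by_contra h0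
      have := hmax j (by omega) h0
      omega) s hs0 hsA hsT
  have hdvd : (∏ a ∈ univ.filter (fun a : F => a ≠ 0 ∧ tr (stf D γ a) = ε),
      (X - C a) ^ (2 ^ h)) ∣ stR n D h J γ (algebraMap (ZMod 2) F ε) s := by
    apply Finset.prod_dvd_of_coprime
    · intro a _ b _ hab
      exact IsCoprime.pow (isCoprime_X_sub_C_of_isUnit_sub (isUnit_iff_ne_zero.2
        (sub_ne_zero.2 hab)))
    · intro a ha
      simp only [Finset.mem_filter, Finset.mem_univ, true_and] at ha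
      exact stR_dvd n D h J hn hh hD hF γ ε s a ha.1 ha.2
  have hle := natDegree_le_of_dvd hdvd hR0
  rw [natDegree_prod _ _ (fun a _ => pow_ne_zero _ (X_sub_C_ne_zero a))] at hle
  simp only [natDegree_pow, natDegree_X_sub_C, mul_one, Finset.sum_const, smul_eq_mul] at hle
  obtain ⟨N, hN⟩ : ∃ N, N = (univ.filter fun a : F => a ≠ 0 ∧ tr (stf D γ a) = ε).card := ⟨_, rfl⟩
  rw [← hN] at hle ⊢
  obtain ⟨e, he⟩ := hD
  have hh1 : 1 ≤ h := by omega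
  have h2h : 2 ^ h = 2 * 2 ^ (h - 1) := by
    rw [← pow_succ']; congr 1; omega
  have h2n : 2 ^ n = 2 * 2 ^ (n - 1) := by
    rw [← pow_succ']; congr 1; omega
  have h2J : 2 * (J + D - 1) + 1 = 2 ^ h + 3 * D + 2 := by omega
  have h3 : 2 * N * 2 ^ h < (2 ^ h + 3 * D + 2) * 2 ^ n := by
    rw [← h2J]
    calc 2 * N * 2 ^ h = 2 * (N * 2 ^ h) := by ring
      _ < 2 * ((J + D - 1) * 2 ^ n + 2 ^ (n - 1)) := by omega
      _ = (2 * (J + D - 1) + 1) * 2 ^ n := by rw [h2n]; ring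
  have h4 : 2 ^ n = 2 ^ ((n + 1) / 2) * 2 ^ h := by
    rw [← pow_add]; congr 1; omega
  have h5 : (2 ^ h + 3 * D + 2) * 2 ^ n =
      (2 ^ n + (3 * D + 2) * 2 ^ ((n + 1) / 2)) * 2 ^ h := by
    calc (2 ^ h + 3 * D + 2) * 2 ^ n = 2 ^ h * 2 ^ n + (3 * D + 2) * 2 ^ n := by ring
      _ = 2 ^ h * 2 ^ n + (3 * D + 2) * (2 ^ ((n + 1) / 2) * 2 ^ h) := by rw [← h4]
      _ = _ := by ring
  rw [h5] at h3
  exact lt_of_mul_lt_mul_right h3 (Nat.zero_le _)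

end

end RunMult
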