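import Pool.Agent.Lib.MP_d16eef_co.Defs

namespace RunMult

open Finset Polynomial

section

variable {F : Type} [Field F] [Fintype F] [DecidableEq F] [Algebra (ZMod 2) F]

/-- ST6 : degree of `stZ` -/
theorem stZ_degree (n D h : ℕ) (hn : 2 ≤ n) (hh : h = n / 2) (hD : Odd D) (γ : ℕ → F) (ε : F)
    (i₀ : ℕ) (hi₀ : i₀ ≤ D) (hi₁ : D < 2 * i₀) (hγ : γ i₀ ≠ 0) (hmax : ∀ i ≤ D, i₀ < i → γ i = 0) :
    (stZ n D h γ ε).natDegree = i₀ * 2 ^ n ∧ (stZ n D h γ ε).coeff (i₀ * 2 ^ n) ≠ 0 := by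
  -- degree and leading coefficient of `stG`
  have hG1 : (stG D γ).natDegree ≤ 2 * i₀ := by
    unfold stG
    refine natDegree_sum_le_of_forall_le _ _ fun i hi => ?_
    rw [Finset.mem_range] at hi
    rcases le_or_gt i i₀ with h1 | h1
    · exact (natDegree_C_mul_X_pow_le _ _).trans (by omega)
    · rw [hmax i (by omega) h1]; simp
  have hG2 : (stG D γ).coeff (2 * i₀) = γ i₀ := by
    unfold stG
    rw [finsetSum_coeff, Finset.sum_eq_single_of_mem i₀ (Finset.mem_range.2 (by omega))]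
    · rw [coeff_C_mul_X_pow, if_pos rfl]
    · intro i _ hne
      rw [coeff_C_mul_X_pow, if_neg (by omega)]
  obtain ⟨Q, hQ⟩ : ∃ Q, Q = 2 ^ (n - 1) := ⟨_, rfl⟩
  have h2Q : 2 ^ n = 2 * Q := by
    rw [hQ, ← pow_succ']; congr 1; omega
  have hQpos : 0 < Q := by rw [hQ]; positivity
  have hpow : ∀ t, (stG D γ ^ 2 ^ t).natDegree ≤ 2 ^ t * (2 * i₀) := fun t =>
    natDegree_pow_le.trans (Nat.mul_le_mul_left _ hG1)
  -- the other terms have smaller degree
  have hother : ∀ t, t < n - 1 →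
      (stG D γ ^ 2 ^ t * X ^ (D * (2 ^ (n - 1) - 2 ^ t))).natDegree < i₀ * (2 * Q) := by
    intro t ht
    refine lt_of_le_of_lt natDegree_mul_le ?_
    rw [natDegree_X_pow, ← hQ]
    have h2 : 2 ^ t < Q := by rw [hQ]; exact Nat.pow_lt_pow_right (by norm_num) ht
    obtain ⟨k, hk⟩ : ∃ k, 2 * i₀ = D + k := ⟨2 * i₀ - D, by omega⟩
    have hk0 : 0 < k := by omega
    have h3 : D * (Q - 2 ^ t) + D * 2 ^ t = D * Q := by
      rw [← Nat.mul_add]; congr 1; omega
    have h4 : 2 ^ t * (2 * i₀) = D * 2 ^ t + k * 2 ^ t := by rw [hk]; ring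
    have h5 : i₀ * (2 * Q) = D * Q + k * Q := by
      rw [← Nat.add_mul, ← hk]; ring
    have h6 : k * 2 ^ t < k * Q := Nat.mul_lt_mul_of_pos_left h2 hk0
    have h7 := hpow t
    omega
  have hconst : (C ε * X ^ (D * 2 ^ (n - 1)) : F[X]).natDegree < i₀ * (2 * Q) := by
    refine lt_of_le_of_lt (natDegree_C_mul_X_pow_le _ _) ?_
    rw [← hQ]
    have : i₀ * (2 * Q) = 2 * i₀ * Q := by ring
    rw [this]
    exact Nat.mul_lt_mul_of_pos_right hi₁ hQpos
  have htop : (stG D γ ^ 2 ^ (n - 1) * X ^ (D * (2 ^ (n - 1) - 2 ^ (n - 1)))) =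
      stG D γ ^ 2 ^ (n - 1) := by simp
  have hmem : n - 1 ∈ Finset.Ico h n := by rw [Finset.mem_Ico]; omega
  have hcoef : (stZ n D h γ ε).coeff (i₀ * 2 ^ n) = γ i₀ ^ Q := by
    unfold stZ
    rw [h2Q, coeff_add, coeff_eq_zero_of_natDegree_lt hconst, add_zero, finsetSum_coeff,
      Finset.sum_eq_single_of_mem _ hmem]
    · rw [htop, ← hQ, show i₀ * (2 * Q) = Q * (2 * i₀) by ring, coeff_pow_of_natDegree_le hG1,
        hG2]
    · intro t ht hne
      rw [Finset.mem_Ico] at ht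
      exact coeff_eq_zero_of_natDegree_lt (hother t (by omega))
  have hdeg : (stZ n D h γ ε).natDegree ≤ i₀ * 2 ^ n := by
    unfold stZ
    rw [h2Q]
    refine natDegree_add_le_of_degree_le ?_ hconst.le
    refine natDegree_sum_le_of_forall_le _ _ fun t ht => ?_
    rw [Finset.mem_Ico] at ht
    rcases eq_or_ne t (n - 1) with h1 | h1
    · rw [h1, htop]
      refine (hpow _).trans (le_of_eq ?_)
      rw [← hQ]; ring
    · exact (hother t (by omega)).le
  have hne : (stZ n D h γ ε).coeff (i₀ * 2 ^ n) ≠ 0 := by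
    rw [hcoef]; exact pow_ne_zero _ hγ
  exact ⟨le_antisymm hdeg (le_natDegree_of_ne_zero hne), hne⟩

end

end RunMult
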