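import Pool.Agent.Lib.MP_d16eef_co.Basic
import Pool.Agent.Lib.MP_d16eef_co.StepA

/-! ST4: divisibility of `stR` by `(X - a) ^ (2 ^ h)`. -/

namespace RunMult

open Finset Polynomial

section

variable {F : Type} [Field F] [Fintype F] [DecidableEq F] [Algebra (ZMod 2) F]

/-- ST4 : divisibility -/
theorem stR_dvd (n D h J : ℕ) (hn : 2 ≤ n) (hh : h = n / 2) (hD : Odd D)
    (hF : Fintype.card F = 2 ^ n) (γ : ℕ → F) (ε : ZMod 2) (s : ℕ → F[X]) (a : F) (ha : a ≠ 0)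
    (htr : tr (stf D γ a) = ε) :
    (X - C a) ^ (2 ^ h) ∣ stR n D h J γ (algebraMap (ZMod 2) F ε) s := by
  classical
  have hh1 : 1 ≤ h := by omega
  have hhn : h + 1 ≤ n := by omega
  have h2F : (2 : F) = 0 := two_eq_zero' F
  -- work in the quotient
  set P : F[X] := (X - C a) ^ (2 ^ h) with hP
  rw [← Ideal.mem_span_singleton, ← Ideal.Quotient.eq_zero_iff_mem]
  set π : F[X] →+* F[X] ⧸ Ideal.span {P} := Ideal.Quotient.mk (Ideal.span {P}) with hπ
  set κ : F →+* F[X] ⧸ Ideal.span {P} := π.comp C with hκ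
  have κC : ∀ c, π (C c) = κ c := fun c => rfl
  have hPeq : P = X ^ (2 ^ h) - C (a ^ (2 ^ h)) := by
    have hchar : CharP F 2 := by
      exact charP_of_injective_algebraMap (algebraMap (ZMod 2) F).injective 2
    rw [hP, map_pow]
    exact sub_pow_char_pow X (C a) h
  have hxh : π X ^ (2 ^ h) = κ (a ^ (2 ^ h)) := by
    have h0 : π P = 0 := Ideal.Quotient.eq_zero_iff_mem.mpr (Ideal.mem_span_singleton_self P)
    have h1 : π (X ^ (2 ^ h) - C (a ^ (2 ^ h))) = 0 := (congrArg π hPeq).symm.trans h0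
    rw [map_sub, sub_eq_zero, map_pow, κC] at h1
    exact h1
  have hxm : ∀ k : ℕ, π X ^ (2 ^ h * k) = κ (a ^ (2 ^ h * k)) := by
    intro k
    rw [pow_mul, hxh, ← map_pow, ← pow_mul]
  have han : a ^ (2 ^ n) = a := by
    rw [← hF]; exact FiniteField.pow_card a
  have h2n : 2 ^ n = 2 ^ h * 2 ^ (n - h) := by
    rw [← pow_add]; congr 1; omega
  have hxn : ∀ k : ℕ, π X ^ (2 ^ n * k) = κ (a ^ k) := by
    intro k
    rw [h2n, mul_assoc, hxm, ← mul_assoc, ← h2n, pow_mul, han]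
  have hxn' : ∀ k : ℕ, π X ^ (k * 2 ^ n) = κ (a ^ k) := by
    intro k
    rw [mul_comm, hxn]
  -- the value of `stZ`
  have hZ : π (stZ n D h γ (algebraMap (ZMod 2) F ε)) =
      κ (a ^ (D * (2 ^ (n - 1) - 2 ^ (h - 1))) * (stFu D h γ).eval a) := by
    have h1 := stZ_mod n D h hn hh γ (algebraMap (ZMod 2) F ε) a
    have h2 : π (stZ n D h γ (algebraMap (ZMod 2) F ε) -
        C ((stZ n D h γ (algebraMap (ZMod 2) F ε)).eval a)) = 0 :=
      Ideal.Quotient.eq_zero_iff_mem.mpr (Ideal.mem_span_singleton.mpr h1)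
    rw [map_sub, sub_eq_zero, κC, stZ_eval n D h hn hh hF γ ε a ha htr] at h2
    exact h2
  -- exponents
  obtain ⟨D', hD'⟩ := hD
  have hpow1 : 2 ^ h = 2 * 2 ^ (h - 1) := by
    rw [← pow_succ']; congr 1; omega
  have hpow2 : 2 ^ (n - 1) = 2 ^ h * 2 ^ (n - 1 - h) := by
    rw [← pow_add]; congr 1; omega
  have hp1 : 1 ≤ 2 ^ (n - 1 - h) := Nat.one_le_two_pow
  have hp2 : 1 ≤ 2 ^ (h - 1) := Nat.one_le_two_pow
  have hBdiv : D * 2 ^ (n - 1) - (D + 1) * 2 ^ (h - 1)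
      = 2 ^ h * (D * 2 ^ (n - 1 - h) - (D' + 1)) := by
    rw [Nat.mul_sub]
    have e1 : D * 2 ^ (n - 1) = 2 ^ h * (D * 2 ^ (n - 1 - h)) := by rw [hpow2]; ring
    have e2 : (D + 1) * 2 ^ (h - 1) = 2 ^ h * (D' + 1) := by rw [hpow1, hD']; ring
    rw [e1, e2]
  have hBle : (D + 1) * 2 ^ (h - 1) ≤ D * 2 ^ (n - 1) := by
    have e1 : D * 2 ^ (n - 1) = (2 * D * 2 ^ (n - 1 - h)) * 2 ^ (h - 1) := by
      rw [hpow2, hpow1]; ring
    rw [e1]
    apply Nat.mul_le_mul_right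
    calc D + 1 ≤ 2 * D * 1 := by omega
      _ ≤ 2 * D * 2 ^ (n - 1 - h) := Nat.mul_le_mul_left _ hp1
  have hBE : D * 2 ^ (n - 1) - (D + 1) * 2 ^ (h - 1) + 2 ^ (h - 1)
      = D * (2 ^ (n - 1) - 2 ^ (h - 1)) := by
    rw [Nat.mul_sub]
    have e3 : (D + 1) * 2 ^ (h - 1) = D * 2 ^ (h - 1) + 2 ^ (h - 1) := by ring
    omega
  have hxB : π X ^ (D * 2 ^ (n - 1) - (D + 1) * 2 ^ (h - 1))
      = κ (a ^ (D * 2 ^ (n - 1) - (D + 1) * 2 ^ (h - 1))) := by
    rw [hBdiv]; exact hxm _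
  -- the value of `stFu`
  have hFu : (stFu D h γ).eval a = ∑ i ∈ range (D * 2 ^ h + 1), (stFu D h γ).coeff i * a ^ i :=
    Polynomial.eval_eq_sum_range' (Nat.lt_succ_of_le (natDegree_stFu_le D h hh1 γ)) a
  -- `π T_ρ`
  have hT : ∀ ρ, π (stT D h J γ s ρ) = ∑ j ∈ range J, ∑ i ∈ range (D * 2 ^ h + 1),
      if (j + i + 2 ^ (h - 1)) % 2 ^ h = ρ then
        κ ((stFu D h γ).coeff i) * κ (a ^ (2 ^ h * ((j + i + 2 ^ (h - 1)) / 2 ^ h))) * π (s j)
        else 0 := by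
    intro ρ
    unfold stT
    rw [map_sum]
    refine Finset.sum_congr rfl fun j _ => ?_
    rw [map_sum]
    refine Finset.sum_congr rfl fun i _ => ?_
    split_ifs
    · rw [map_mul, map_mul, map_pow, κC, hxm]
    · rw [map_zero]
  have hsum : ∑ ρ ∈ range (2 ^ h), π X ^ (2 ^ n * ρ) * π (stT D h J γ s ρ)
      = ∑ j ∈ range J, κ (a ^ (j + 2 ^ (h - 1)) * (stFu D h γ).eval a) * π (s j) := by
    have e1 : ∀ ρ ∈ range (2 ^ h), π X ^ (2 ^ n * ρ) * π (stT D h J γ s ρ)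
        = ∑ j ∈ range J, ∑ i ∈ range (D * 2 ^ h + 1),
          if (j + i + 2 ^ (h - 1)) % 2 ^ h = ρ then
            κ ((stFu D h γ).coeff i * a ^ (j + i + 2 ^ (h - 1))) * π (s j) else 0 := by
      intro ρ _
      rw [hT, hxn, Finset.mul_sum]
      refine Finset.sum_congr rfl fun j _ => ?_
      rw [Finset.mul_sum]
      refine Finset.sum_congr rfl fun i _ => ?_
      split_ifs with hc
      · rw [map_mul]
        have e2 : a ^ (j + i + 2 ^ (h - 1)) = a ^ ρ *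
            a ^ (2 ^ h * ((j + i + 2 ^ (h - 1)) / 2 ^ h)) := by
          rw [← pow_add]
          congr 1
          rw [← hc]
          exact (Nat.mod_add_div _ _).symm
        rw [e2, map_mul]
        ring
      · rw [mul_zero]
    rw [Finset.sum_congr rfl e1, Finset.sum_comm]
    refine Finset.sum_congr rfl fun j _ => ?_
    rw [Finset.sum_comm]
    have e3 : ∀ i ∈ range (D * 2 ^ h + 1), (∑ ρ ∈ range (2 ^ h),
        if (j + i + 2 ^ (h - 1)) % 2 ^ h = ρ then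
            κ ((stFu D h γ).coeff i * a ^ (j + i + 2 ^ (h - 1))) * π (s j) else 0)
        = κ ((stFu D h γ).coeff i * a ^ (j + i + 2 ^ (h - 1))) * π (s j) := by
      intro i _
      rw [Finset.sum_ite_eq, if_pos]
      rw [mem_range]
      exact Nat.mod_lt _ (by positivity)
    rw [Finset.sum_congr rfl e3, ← Finset.sum_mul, ← map_sum, hFu, Finset.mul_sum]
    congr 2
    refine Finset.sum_congr rfl fun i _ => ?_
    rw [pow_add, pow_add, pow_add]
    ring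
  -- assemble
  unfold stR
  rw [map_add, map_sum, map_mul, map_pow, map_sum, hxB]
  have e4 : ∑ ρ ∈ range (2 ^ h), π (X ^ (2 ^ n * ρ) * stT D h J γ s ρ)
      = ∑ ρ ∈ range (2 ^ h), π X ^ (2 ^ n * ρ) * π (stT D h J γ s ρ) := by
    refine Finset.sum_congr rfl fun ρ _ => ?_
    rw [map_mul, map_pow]
  rw [e4, hsum]
  have e5 : ∑ j ∈ range J, π (X ^ (j * 2 ^ n) * s j * stZ n D h γ (algebraMap (ZMod 2) F ε))
      = ∑ j ∈ range J, κ (a ^ (D * 2 ^ (n - 1) - (D + 1) * 2 ^ (h - 1))) *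
        (κ (a ^ (j + 2 ^ (h - 1)) * (stFu D h γ).eval a) * π (s j)) := by
    refine Finset.sum_congr rfl fun j _ => ?_
    rw [map_mul, map_mul, map_pow, hxn', hZ, ← hBE, pow_add, pow_add]
    simp only [map_mul]
    ring
  rw [e5, Finset.mul_sum, ← two_mul]
  have : (2 : F[X] ⧸ Ideal.span {P}) = 0 := by
    have := congrArg κ h2F
    rw [map_zero, map_ofNat] at this
    exact this
  rw [this, zero_mul]

end

end RunMult
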