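import Pool.Agent.Lib.MP_d16eef_co.Mseq

/-! From functions on the field to periodic sequences. -/

namespace RunMult

open Finset

variable {F : Type} [Field F] [Fintype F] [DecidableEq F] [Algebra (ZMod 2) F]

theorem adm_of_field (n : ℕ) (hn : 2 ≤ n) (hF : Fintype.card F = 2 ^ n) (a : F)
    (ha : orderOf a = 2 ^ n - 1) (g : F → ZMod 2) (hg : ∀ x, g (x ^ 2) = g x)
    (h2 : ∀ c k, 1 ≤ k → RC g a c k = RC (fun x : F => tr x) a c k)
    (h3 : ∃ x, x ≠ 0 ∧ ((∀ l < n, g (x * a ^ l) = 0) ∨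
      ∃ y, y ≠ 0 ∧ y ≠ x ∧ ∀ l < n, g (x * a ^ l) = g (y * a ^ l)))
    (h5 : ∃ t : ℕ, 0 < t ∧ t < 2 ^ n - 1 ∧
      (univ.filter fun x : F => x ≠ 0 ∧ g x ≠ g (x * a ^ t)).card ≠ 2 ^ (n - 1)) :
    Adm n := by
  classical
  obtain ⟨-, ha0⟩ := gen_ne_zero n hF a ha
  have hpow2 : 2 < 2 ^ n := by
    have : 2 ^ 2 ≤ 2 ^ n := Nat.pow_le_pow_right (by norm_num) hn
    omega
  have : NeZero (2 ^ n - 1) := ⟨by omega⟩
  have : Fact (1 < 2 ^ n - 1) := ⟨by omega⟩
  set s : ZMod (2 ^ n - 1) → ZMod 2 := fun i => g (a ^ i.val) with hs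
  have hmod : ∀ m : ℕ, a ^ (m % (2 ^ n - 1)) = a ^ m := by
    intro m
    rw [← ha]; exact pow_mod_orderOf a m
  have hadd : ∀ i j : ZMod (2 ^ n - 1), a ^ (i + j).val = a ^ i.val * a ^ j.val := by
    intro i j
    rw [ZMod.val_add, hmod, pow_add]
  have hcast : ∀ j : ℕ, a ^ ((j : ZMod (2 ^ n - 1))).val = a ^ j := by
    intro j
    rw [ZMod.val_natCast, hmod]
  have haddc : ∀ (i : ZMod (2 ^ n - 1)) (j : ℕ), s (i + (j : ZMod (2 ^ n - 1))) =
      g (a ^ i.val * a ^ j) := by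
    intro i j
    simp only [hs]
    rw [hadd, hcast]
  have hsub : ∀ i : ZMod (2 ^ n - 1), s (i - 1) = g (a ^ i.val * a⁻¹) := by
    intro i
    simp only [hs]
    congr 1
    have h1 : a ^ i.val = a ^ (i - 1).val * a := by
      have h2 := hadd (i - 1) ((1 : ℕ) : ZMod (2 ^ n - 1))
      rw [hcast, pow_one, Nat.cast_one, sub_add_cancel] at h2
      exact h2
    rw [h1, mul_assoc, mul_inv_cancel₀ ha0, mul_one]
  have hne : ∀ i : ZMod (2 ^ n - 1), a ^ i.val ≠ 0 := fun i => pow_ne_zero _ ha0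
  have hinj : ∀ i j : ZMod (2 ^ n - 1), a ^ i.val = a ^ j.val → i = j := by
    intro i j hij
    apply ZMod.val_injective
    have hi : i.val ∈ Set.Iio (orderOf a) := by
      rw [ha]; exact ZMod.val_lt i
    have hj : j.val ∈ Set.Iio (orderOf a) := by
      rw [ha]; exact ZMod.val_lt j
    exact pow_injOn_Iio_orderOf hi hj hij
  have hsurj : ∀ x : F, x ≠ 0 → ∃ i : ZMod (2 ^ n - 1), a ^ i.val = x := by
    intro x hx
    obtain ⟨k, hk, h⟩ := exists_pow_eq n hF a ha x hx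
    exact ⟨(k : ZMod (2 ^ n - 1)), by rw [hcast, h]⟩
  -- counting transfer
  have hcount : ∀ (P : ZMod (2 ^ n - 1) → Prop) (Q : F → Prop),
      (∀ i, P i ↔ Q (a ^ i.val)) → Nat.card {i // P i} =
        (univ.filter fun x : F => x ≠ 0 ∧ Q x).card := by
    intro P Q hPQ
    rw [Nat.card_eq_fintype_card, Fintype.card_subtype]
    refine card_bij (fun i _ => a ^ i.val) ?_ ?_ ?_
    · intro i hi
      simp only [mem_filter, mem_univ, true_and] at hi ⊢
      exact ⟨hne i, (hPQ i).mp hi⟩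
    · intro i _ j _ h
      exact hinj i j h
    · intro x hx
      simp only [mem_filter, mem_univ, true_and] at hx
      obtain ⟨i, hi⟩ := hsurj x hx.1
      refine ⟨i, ?_, hi⟩
      simp only [mem_filter, mem_univ, true_and]
      rw [hPQ, hi]
      exact hx.2
  have hrun : ∀ c k, runCount s c k = RC g a c k := by
    intro c k
    unfold runCount
    rw [hcount _ (fun x => g (x * a⁻¹) ≠ c ∧ (∀ j < k, g (x * a ^ j) = c) ∧ g (x * a ^ k) ≠ c)]
    · unfold RC
      congr 1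
      ext x
      simp
    · intro i
      rw [hsub, haddc]
      refine and_congr Iff.rfl (and_congr ?_ Iff.rfl)
      refine forall_congr' fun j => forall_congr' fun _ => ?_
      rw [haddc]
  obtain ⟨r1, r2, r3, r4, r5, r6⟩ := RC_tr n hn hF a ha
  refine ⟨s, ⟨?_, ?_, ?_, ?_, ?_, ?_⟩, ⟨0, ?_⟩, ?_, ?_⟩
  · intro k c hk1 hk2
    rw [hrun, h2 c k hk1, r1 k c hk1 hk2]
  · rw [hrun, h2 0 (n - 1) (by omega), r2]
  · rw [hrun, h2 1 n (by omega), r3]
  · intro k hk
    rw [hrun, h2 0 k (by omega), r4 k hk]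
  · rw [hrun, h2 1 (n - 1) (by omega), r5]
  · intro k hk
    rw [hrun, h2 1 k (by omega), r6 k hk]
  · intro i
    simp only [hs]
    rw [two_mul, hadd, ← pow_two, hg, add_zero]
  · -- span
    rintro ⟨hs1, hs2⟩
    obtain ⟨x, hx0, hx⟩ := h3
    obtain ⟨i, hi⟩ := hsurj x hx0
    rcases hx with hx | ⟨y, hy0, hyx, hxy⟩
    · apply hs1 i
      funext j
      rw [haddc, hi]
      exact hx j.val j.isLt
    · obtain ⟨i', hi'⟩ := hsurj y hy0
      have hne' : i ≠ i' := by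
        rintro rfl
        exact hyx (hi'.symm.trans hi)
      obtain ⟨w, hw1, hw2⟩ := hs2 _ (hs1 i)
      have e1 := hw2 i rfl
      have e2 := hw2 i' (by
        funext j
        rw [haddc, haddc, hi, hi']
        exact (hxy j.val j.isLt).symm)
      exact hne' (e1.trans e2.symm)
  · -- autocorrelation
    intro hA
    obtain ⟨t, ht1, ht2, ht3⟩ := h5
    apply ht3
    have htz : (t : ZMod (2 ^ n - 1)) ≠ 0 := by
      intro h
      rw [ZMod.natCast_eq_zero_iff] at h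
      exact absurd (Nat.le_of_dvd ht1 h) (by omega)
    rw [← hA (t : ZMod (2 ^ n - 1)) htz]
    symm
    have h6 := hcount (fun i => s i ≠ s (i + (t : ZMod (2 ^ n - 1))))
      (fun x => g x ≠ g (x * a ^ t)) (fun i => by rw [haddc])
    rw [h6]
    congr 1
    ext x
    simp

end RunMult
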